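import Mathlib
import Pool.Agent.Lib.MP_9177b7_ag.CM.Defs

/-!
Twisted Heegner divisors on `X₀(17)`: definitions.
-/

set_option autoImplicit false

open UpperHalfPlane
open scoped MatrixGroups

noncomputable section

namespace Pool.Agent.Lib.MP_d6ddbd_nt.K

/-- `e(z) = exp (2 π i z)`. -/
def ee (z : ℂ) : ℂ := Complex.exp (2 * Real.pi * Complex.I * z)

/-- Holomorphic on the upper half plane. -/
def Hol (f : ℍ → ℂ) : Prop := DifferentiableOn ℂ (f ∘ ofComplex) {z : ℂ | 0 < z.im}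

/-- At most exponential growth at `i∞`. -/
def Gro (f : ℍ → ℂ) : Prop :=
  ∃ C K : ℝ, ∀ τ : ℍ, 1 ≤ τ.im → ‖f τ‖ ≤ C * Real.exp (K * τ.im)

/-- Order of vanishing at a point. -/
def ord (f : ℍ → ℂ) (z : ℍ) : ℕ := analyticOrderNatAt (f ∘ ofComplex) (z : ℂ)

/-- Modular functions for `Γ` that are holomorphic on the upper half plane. -/
structure MF (Γ : Subgroup SL(2, ℤ)) (f : ℍ → ℂ) : Prop where
  hol : Hol f
  inv : ∀ γ ∈ Γ, ∀ τ : ℍ, f (γ • τ) = f τ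
  gro : ∀ g : SL(2, ℤ), Gro fun τ => f (g • τ)

/-- `c` is the expansion of `f` in powers of `e(τ / n)`. -/
def QE (n : ℕ) (f : ℍ → ℂ) (c : LaurentSeries ℂ) : Prop :=
  ∀ τ : ℍ, HasSum (fun N : ℤ => c.coeff N * ee (N * (τ : ℂ) / n)) (f τ)

/-- All coefficients are rational. -/
def RatS (c : LaurentSeries ℂ) : Prop := ∀ N : ℤ, ∃ r : ℚ, c.coeff N = r

/-! ### Theta functions -/

/-- The odd Jacobi theta function. -/
def th (τ z : ℂ) : ℂ := ee (τ / 8 + z / 2) * jacobiTheta₂ (z + τ / 2 + 1 / 2) τ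

/-- Vectors for the dual Weil representation of index `M` and weight `κ`. -/
structure UV (M : ℕ) (κ : ℂ) (f : ℤ → ℍ → ℂ) : Prop where
  per : ∀ r : ℤ, f (r + 2 * M) = f r
  hol : ∀ r : ℤ, Hol (f r)
  lawT : ∀ (r : ℤ) (τ : ℍ), f r (ModularGroup.T • τ) = ee (-(r : ℂ) ^ 2 / (4 * M)) * f r τ
  lawS : ∃ l : ℂ, l ≠ 0 ∧ ∀ (r : ℤ) (τ : ℍ), f r (ModularGroup.S • τ) =
    l * (τ : ℂ) ^ κ * ∑ s ∈ Finset.range (2 * M), ee (r * s / (2 * M)) * f s τ

/-! ### The lattice of two by two matrices -/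

abbrev Mat (R : Type) := Matrix (Fin 2) (Fin 2) R

/-- The polar form of the determinant. -/
def pol {R : Type} [CommRing R] (α β : Mat R) : R :=
  α 0 0 * β 1 1 + α 1 1 * β 0 0 - α 0 1 * β 1 0 - α 1 0 * β 0 1

/-- Reduction of an integer matrix. -/
def red (n : ℕ) (α : Mat ℤ) : Mat (ZMod n) := α.map fun x => (x : ZMod n)

/-- Weight zero vectors for the Weil representation of `- det / n`. -/
structure WL (n : ℕ) [NeZero n] (F : Mat (ZMod n) → ℍ → ℂ) : Prop where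
  hol : ∀ α, Hol (F α)
  lawT : ∀ α (τ : ℍ), F α (ModularGroup.T • τ) = ZMod.stdAddChar (-α.det) * F α τ
  lawS : ∃ l : ℂ, l ≠ 0 ∧ ∀ α (τ : ℍ), F α (ModularGroup.S • τ) =
    l * ∑ β, ZMod.stdAddChar (pol α β) * F β τ

/-- The partial Fourier transform. -/
def pf {n : ℕ} [NeZero n] (F : Mat (ZMod n) → ℍ → ℂ) (B : Mat (ZMod n)) (τ : ℍ) : ℂ :=
  ∑ y : ZMod n, ∑ u : ZMod n,
    ZMod.stdAddChar (B 0 0 * y + B 0 1 * u) * F !![B 1 1, y; -B 1 0, u] τ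

/-- The input of the product: a Weil vector with expansion `C`, poles of order at most `L / n`
and integral polar coefficients `I`. -/
structure Inp (n : ℕ) [NeZero n] (F : Mat (ZMod n) → ℍ → ℂ) (C : Mat (ZMod n) → LaurentSeries ℂ)
    (L : ℕ) (I : Mat (ZMod n) → ℤ → ℤ) : Prop where
  wl : WL n F
  qe : ∀ α, QE n (F α) (C α)
  low : ∀ α (N : ℤ), N < -(L : ℤ) → (C α).coeff N = 0
  int : ∀ α (N : ℤ), N < 0 → (C α).coeff N = I α N

/-- Integer matrices of determinant in `[1, L]` that send `z` to `w`. -/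
def MM (L : ℕ) (z w : ℍ) : Set (Mat ℤ) :=
  {α | 1 ≤ α.det ∧ α.det ≤ L ∧
    (α 0 0 : ℂ) * z + α 0 1 = (w : ℂ) * ((α 1 0 : ℂ) * z + α 1 1)}

abbrev G0 : Subgroup SL(2, ℤ) := CongruenceSubgroup.Gamma0 17

abbrev Orb := MulAction.orbitRel.Quotient G0 ℍ

/-- The degree of an invariant divisor. -/
def hdeg (D : ℍ → ℤ) : ℤ := ∑ᶠ c : Orb, D c.out

/-- Finitely many orbits in the support. -/
def Fin0 (D : ℍ → ℤ) : Prop := {c : Orb | D c.out ≠ 0}.Finite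

/-! ### Heegner divisors -/

/-- The local genus character of the form `[A, B, C]`. -/
def chip (p : ℕ) (A B C : ℤ) : ℤ :=
  if (p : ℤ) ∣ B ^ 2 - 4 * A * C then
    (if (p : ℤ) ∣ A then jacobiSym C p else jacobiSym A p) else 0

/-- The genus character. -/
def chi (m : ℕ) (A B C : ℤ) : ℤ := ∏ p ∈ m.primeFactors, chip p A B C

/-- Forms `[17 a, b, c]` of discriminant `Δ` with `b ≡ β` modulo `34` and root `z`. -/
def Hg (Δ β : ℤ) (z : ℍ) : Set (ℤ × ℤ × ℤ) :=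
  {Q | 0 < Q.1 ∧ Q.2.1 ^ 2 - 68 * Q.1 * Q.2.2 = Δ ∧ (34 : ℤ) ∣ Q.2.1 - β ∧
    17 * (Q.1 : ℂ) * (z : ℂ) ^ 2 + Q.2.1 * (z : ℂ) + Q.2.2 = 0}

/-- The Heegner divisor of discriminant `Δ` twisted by the genus character of `m`. -/
def Dv (m : ℕ) (Δ β : ℤ) (z : ℍ) : ℤ := ∑ᶠ Q ∈ Hg Δ β z, chi m (17 * Q.1) Q.2.1 Q.2.2

end Pool.Agent.Lib.MP_d6ddbd_nt.K
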