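import Mathlib
import Pool.Agent.Lib.MP_d6ddbd_nt.K.Defs
import Pool.Agent.Lib.MP_d6ddbd_nt.X.Defs

set_option autoImplicit false

open UpperHalfPlane
open scoped MatrixGroups
open Pool.Agent.Lib.MP_d6ddbd_nt.X (xf tf)

noncomputable section

namespace Pool.Agent.Lib.MP_d6ddbd_nt.K

def XX (τ : ℍ) : ℂ := 4 * xf τ - 11

def YY (τ : ℍ) : ℂ := (XX τ ^ 2 + 94 * XX τ + 289 - 16 * tf τ) / 16

/-- The curve `Y ^ 2 = X (X ^ 2 + 30 X + 289)`. -/
def EE : WeierstrassCurve.Affine ℂ := ⟨0, 30, 0, 289, 0⟩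

open Classical in
/-- The point with the given coordinates, when they lie on the curve. -/
def pt (x y : ℂ) : EE.Point := if h : EE.Nonsingular x y then .some x y h else 0

/-- The modular parametrisation. -/
def phi (τ : ℍ) : EE.Point := pt (XX τ) (YY τ)

/-- The image of the cusp `0`. -/
def TT : EE.Point := pt 17 136

open Classical in
/-- The sum on the curve of an invariant divisor. -/
def hsum (D : ℍ → ℤ) : EE.Point := ∑ᶠ c : Orb, D c.out • phi c.out

/-- The twisted Heegner point. -/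
def PP (m : ℕ) (Δ β : ℤ) : EE.Point := hsum (Dv m Δ β)

end Pool.Agent.Lib.MP_d6ddbd_nt.K
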