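import Mathlib
import Pool.Agent.Lib.MP_d6ddbd_nt.K.Defs
import Pool.Agent.Lib.MP_9177b7_ag.CM.Eis

set_option autoImplicit false

open UpperHalfPlane
open scoped MatrixGroups Manifold
open Pool.Agent.Lib.MP_9177b7_ag.CM (jH up dn)

noncomputable section

namespace Pool.Agent.Lib.MP_d6ddbd_nt.K

variable {f g : ℍ → ℂ} {c d : LaurentSeries ℂ} {n : ℕ}

theorem ee_add (a b : ℂ) : ee (a + b) = ee a * ee b := by
  rw [ee, ee, ee, mul_add, Complex.exp_add]

theorem ee_zero : ee 0 = 1 := by simp [ee]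

theorem ee_ne (a : ℂ) : ee a ≠ 0 := Complex.exp_ne_zero _

theorem ee_int (k : ℤ) : ee k = 1 := by
  rw [ee, mul_comm]
  exact Complex.exp_int_mul_two_pi_mul_I k

theorem ee_neg (a : ℂ) : ee (-a) = (ee a)⁻¹ := by
  rw [ee, ee, mul_neg, Complex.exp_neg]

theorem ee_zmul (k : ℤ) (a : ℂ) : ee (k * a) = ee a ^ k := by
  rw [ee, ee, ← Complex.exp_int_mul]
  congr 1
  ring

theorem ee_nmul (k : ℕ) (a : ℂ) : ee (k * a) = ee a ^ k := by
  rw [ee, ee, ← Complex.exp_nat_mul]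
  congr 1
  ring

theorem norm_ee (a : ℂ) : ‖ee a‖ = Real.exp (-(2 * Real.pi * a.im)) := by
  rw [ee, Complex.norm_exp]
  congr 1
  simp

theorem std_int [NeZero n] (k : ℤ) : ZMod.stdAddChar (k : ZMod n) = ee (k / n) := by
  rw [ZMod.stdAddChar_coe, ee, mul_div_assoc]

theorem coe_T (τ : ℍ) : ((ModularGroup.T • τ : ℍ) : ℂ) = τ + 1 := by
  rw [modular_T_smul, coe_vadd, add_comm]
  simp

theorem coe_S (τ : ℍ) : ((ModularGroup.S • τ : ℍ) : ℂ) = -1 / τ := by
  rw [modular_S_smul]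
  show (-(τ : ℂ))⁻¹ = _
  rw [inv_neg, neg_div, one_div]

/-- Induction over the generators. -/
theorem sl_ind {P : SL(2, ℤ) → Prop} (hS : P ModularGroup.S) (hT : P ModularGroup.T)
    (hmul : ∀ a b, P a → P b → P (a * b)) (hinv : ∀ a, P a → P a⁻¹) (γ : SL(2, ℤ)) : P γ := by
  have h : γ ∈ Subgroup.closure {ModularGroup.S, ModularGroup.T} := by
    rw [SpecialLinearGroup.SL2Z_generators]
    trivial
  induction h using Subgroup.closure_induction with
  | mem x hx =>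
    rcases hx with rfl | rfl
    exacts [hS, hT]
  | one => simpa using hmul _ _ hS (hinv _ hS)
  | mul x y _ _ hx hy => exact hmul _ _ hx hy
  | inv x _ hx => exact hinv _ hx


theorem hol_iff : Hol f ↔ MDifferentiable 𝓘(ℂ) 𝓘(ℂ) f := mdifferentiable_iff.symm

theorem hol_of {F : ℂ → ℂ} (h : DifferentiableOn ℂ F {z : ℂ | 0 < z.im}) :
    Hol fun τ => F τ :=   h.congr fun z hz => by
    simp only [Function.comp_apply, ofComplex_apply_of_im_pos hz]

theorem Hol.analyticAt (h : Hol f) (z : ℍ) : AnalyticAt ℂ (f ∘ ofComplex) (z : ℂ) :=   DifferentiableOn.analyticAt h (isOpen_upperHalfPlaneSet.mem_nhds z.im_pos)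

theorem Hol.continuous (h : Hol f) : Continuous f := (hol_iff.1 h).continuous

theorem hol_const (a : ℂ) : Hol fun _ => a := differentiableOn_const a

theorem hol_coe : Hol fun τ => (τ : ℂ) := hol_of (F := fun z => z) differentiableOn_id

theorem Hol.add (h : Hol f) (h' : Hol g) : Hol fun τ => f τ + g τ :=   DifferentiableOn.add h h'

theorem Hol.sub (h : Hol f) (h' : Hol g) : Hol fun τ => f τ - g τ :=   DifferentiableOn.sub h h'

theorem Hol.mul (h : Hol f) (h' : Hol g) : Hol fun τ => f τ * g τ :=   DifferentiableOn.mul h h'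

theorem Hol.pow (h : Hol f) (k : ℕ) : Hol fun τ => f τ ^ k := DifferentiableOn.pow h k

theorem Hol.inv (h : Hol f) (h0 : ∀ τ, f τ ≠ 0) : Hol fun τ => (f τ)⁻¹ :=   DifferentiableOn.inv h fun _ _ => h0 _

theorem Hol.zpow (h : Hol f) (h0 : ∀ τ, f τ ≠ 0) (k : ℤ) : Hol fun τ => f τ ^ k :=   DifferentiableOn.zpow h (Or.inl fun _ _ => h0 _)

theorem Hol.ee (h : Hol f) : Hol fun τ => ee (f τ) :=   DifferentiableOn.cexp (DifferentiableOn.const_mul h _)

theorem hol_sum {ι : Type} (s : Finset ι) {F : ι → ℍ → ℂ} (h : ∀ i ∈ s, Hol (F i)) :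
    Hol fun τ => ∑ i ∈ s, F i τ := by
  classical
  induction s using Finset.induction_on with
  | empty => simpa using hol_const 0
  | insert a s ha ih =>
    simp only [Finset.sum_insert ha]
    exact (h a (Finset.mem_insert_self _ _)).add
      (ih fun i hi => h i (Finset.mem_insert_of_mem hi))

theorem hol_prod {ι : Type} (s : Finset ι) {F : ι → ℍ → ℂ} (h : ∀ i ∈ s, Hol (F i)) :
    Hol fun τ => ∏ i ∈ s, F i τ := by
  classical
  induction s using Finset.induction_on with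
  | empty => simpa using hol_const 1
  | insert a s ha ih =>
    simp only [Finset.prod_insert ha]
    exact (h a (Finset.mem_insert_self _ _)).mul
      (ih fun i hi => h i (Finset.mem_insert_of_mem hi))

theorem Hol.smul (h : Hol f) (γ : SL(2, ℤ)) : Hol fun τ => f (γ • τ) :=   hol_iff.2 ((hol_iff.1 h).comp (mdifferentiable_smul (g := (γ : GL (Fin 2) ℝ)) (by simp)))

/-- Composition with a holomorphic self map of the half plane. -/
theorem Hol.comp (h : Hol f) {u : ℍ → ℂ} (hu : Hol u) (hp : ∀ τ, 0 < (u τ).im) :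
    Hol fun τ => f (ofComplex (u τ)) := by
  have h1 : DifferentiableOn ℂ ((f ∘ ofComplex) ∘ (u ∘ ofComplex)) {z : ℂ | 0 < z.im} :=
    DifferentiableOn.comp h hu fun z _ => hp _
  exact h1

theorem Hol.iteratedDeriv (h : Hol f) (k : ℕ) :
    Hol fun τ => iteratedDeriv k (f ∘ ofComplex) τ := by
  refine hol_of (F := _root_.iteratedDeriv k (f ∘ ofComplex)) ?_
  have h1 : AnalyticOnNhd ℂ (f ∘ ofComplex) {z : ℂ | 0 < z.im} :=
    DifferentiableOn.analyticOnNhd h isOpen_upperHalfPlaneSet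
  rw [iteratedDeriv_eq_iterate]
  exact (h1.iterated_deriv k).differentiableOn

/-- The identity theorem. -/
theorem Hol.eq_of_im (h : Hol f) (h' : Hol g) (Y : ℝ) (e : ∀ τ : ℍ, Y < τ.im → f τ = g τ) :
    f = g := by
  let z : ℍ := ⟨((|Y| + 1 : ℝ) : ℂ) * Complex.I, by simp; positivity⟩
  have hz : Y < z.im := by
    have : z.im = |Y| + 1 := by
      show (((|Y| + 1 : ℝ) : ℂ) * Complex.I).im = _
      simp
    rw [this]
    linarith [le_abs_self Y]
  have h1 : ∀ᶠ τ in nhds z, Y < τ.im := (isOpen_lt continuous_const continuous_im).mem_nhds hz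
  have h2 : (fun τ => f τ - g τ) = 0 := by
    refine eq_zero_of_frequently (hol_iff.1 (h.sub h')) (τ := z) ?_
    refine Filter.Eventually.frequently ?_
    filter_upwards [nhdsWithin_le_nhds h1] with τ hτ
    rw [e τ hτ, sub_self]
  funext τ
  exact sub_eq_zero.1 (congrFun h2 τ)

theorem Hol.mul_ne_zero (h : Hol f) (h' : Hol g) (h0 : f ≠ 0) (h0' : g ≠ 0) :
    (fun τ => f τ * g τ) ≠ 0 := fun e =>
  ((UpperHalfPlane.mul_eq_zero_iff (hol_iff.1 h) (hol_iff.1 h')).1 e).elim h0 h0'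

theorem Hol.order_ne_top (h : Hol f) (h0 : f ≠ 0) (z : ℍ) :
    analyticOrderAt (f ∘ ofComplex) (z : ℂ) ≠ ⊤ := by
  intro e
  rw [analyticOrderAt_eq_top] at e
  refine h0 (eq_zero_of_frequently (hol_iff.1 h) (τ := z) (Filter.Eventually.frequently ?_))
  have h1 := (continuous_coe.tendsto z).eventually e
  filter_upwards [nhdsWithin_le_nhds h1] with τ hτ
  simpa using hτ

theorem ord_mul (h : Hol f) (h' : Hol g) (h0 : f ≠ 0) (h0' : g ≠ 0) (z : ℍ) :
    ord (fun τ => f τ * g τ) z = ord f z + ord g z :=   analyticOrderNatAt_mul (h.analyticAt z) (h'.analyticAt z) (h.order_ne_top h0 z)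
    (h'.order_ne_top h0' z)

theorem ord_prod {ι : Type} (s : Finset ι) {F : ι → ℍ → ℂ} (h : ∀ i ∈ s, Hol (F i))
    (h0 : ∀ i ∈ s, F i ≠ 0) (z : ℍ) :
    (fun τ => ∏ i ∈ s, F i τ) ≠ 0 ∧ ord (fun τ => ∏ i ∈ s, F i τ) z = ∑ i ∈ s, ord (F i) z := by
  classical
  induction s using Finset.induction_on with
  | empty =>
    refine ⟨fun e => by simpa using congrFun e I, ?_⟩
    simp only [Finset.prod_empty, Finset.sum_empty]
    have : analyticOrderAt ((fun _ : ℍ => (1 : ℂ)) ∘ ofComplex) (z : ℂ) = 0 :=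
      analyticOrderAt_eq_zero.2 (Or.inr one_ne_zero)
    rw [ord, analyticOrderNatAt, this]
    rfl
  | insert a s ha ih =>
    have hs : ∀ i ∈ s, Hol (F i) := fun i hi => h i (Finset.mem_insert_of_mem hi)
    obtain ⟨i1, i2⟩ := ih hs fun i hi => h0 i (Finset.mem_insert_of_mem hi)
    have ha1 := h a (Finset.mem_insert_self _ _)
    have ha2 := h0 a (Finset.mem_insert_self _ _)
    simp only [Finset.prod_insert ha, Finset.sum_insert ha]
    exact ⟨ha1.mul_ne_zero (hol_prod s hs) ha2 i1, by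
      rw [ord_mul ha1 (hol_prod s hs) ha2 i1, i2]⟩

theorem ord_pow (h : Hol f) (h0 : f ≠ 0) (k : ℕ) (z : ℍ) :
    ord (fun τ => f τ ^ k) z = k * ord f z := by
  have _ := h0
  exact analyticOrderNatAt_pow (h.analyticAt z) k

theorem ord_smul (h : Hol f) (γ : SL(2, ℤ)) (z : ℍ) :
    ord (fun τ => f (γ • τ)) z = ord f (γ • z) := by
  have _ := h
  have hg : 0 < ((γ : GL (Fin 2) ℝ)).val.det :=
    show 0 < ((γ : GL (Fin 2) ℝ)).det.val by simp
  have e : (fun τ => f (γ • τ)) ∘ ofComplex =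
      (f ∘ ofComplex) ∘ fun w => (((γ : GL (Fin 2) ℝ) • ofComplex w : ℍ) : ℂ) := by
    funext w
    simp only [Function.comp_apply, ofComplex_apply]
    rfl
  rw [ord, ord, analyticOrderNatAt, analyticOrderNatAt, e,
    analyticOrderAt_comp_of_deriv_ne_zero (analyticAt_smul hg z) (deriv_smul_ne_zero hg z),
    ofComplex_apply]
  rfl

theorem ord_eq_zero (h : Hol f) (h0 : f ≠ 0) (z : ℍ) : ord f z = 0 ↔ f z ≠ 0 := by
  have h1 := (h.analyticAt z).analyticOrderAt_eq_zero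
  rw [Function.comp_apply, ofComplex_apply] at h1
  rw [← h1, ord, ← Nat.cast_analyticOrderNatAt (h.order_ne_top h0 z)]
  exact Nat.cast_eq_zero.symm

theorem hol_jH : Hol jH :=   hol_iff.2 ((ModularForm.E₄.holo'.pow 3).div CuspForm.discriminant.holo'
    ModularForm.discriminant_ne_zero)


theorem gro_const (a : ℂ) : Gro fun _ => a := ⟨‖a‖, 0, fun _ _ => by simp⟩

theorem gro_coe_bdd {u : ℍ → ℂ} {C : ℝ} (h : ∀ τ : ℍ, 1 ≤ τ.im → ‖u τ‖ ≤ C) : Gro u :=   ⟨C, 0, fun τ hτ => by simpa using h τ hτ⟩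

theorem Gro.add (h : Gro f) (h' : Gro g) : Gro fun τ => f τ + g τ := by
  obtain ⟨C, K, h⟩ := h
  obtain ⟨C', K', h'⟩ := h'
  refine ⟨|C| + |C'|, max K K', fun τ hτ => ?_⟩
  have h1 : C * Real.exp (K * τ.im) ≤ |C| * Real.exp (max K K' * τ.im) :=
    mul_le_mul (le_abs_self C) (Real.exp_le_exp.2
      (mul_le_mul_of_nonneg_right (le_max_left _ _) τ.im_pos.le)) (Real.exp_pos _).le (abs_nonneg C)
  have h2 : C' * Real.exp (K' * τ.im) ≤ |C'| * Real.exp (max K K' * τ.im) :=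
    mul_le_mul (le_abs_self C') (Real.exp_le_exp.2
      (mul_le_mul_of_nonneg_right (le_max_right _ _) τ.im_pos.le)) (Real.exp_pos _).le
      (abs_nonneg C')
  have h3 := norm_add_le (f τ) (g τ)
  linarith [h τ hτ, h' τ hτ]

theorem Gro.sub (h : Gro f) (h' : Gro g) : Gro fun τ => f τ - g τ := by
  have h1 : Gro fun τ => -g τ := by
    obtain ⟨C, K, h'⟩ := h'
    exact ⟨C, K, fun τ hτ => by simpa using h' τ hτ⟩
  simpa only [sub_eq_add_neg] using h.add h1

theorem Gro.mul (h : Gro f) (h' : Gro g) : Gro fun τ => f τ * g τ := by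
  obtain ⟨C, K, h⟩ := h
  obtain ⟨C', K', h'⟩ := h'
  refine ⟨C * C', K + K', fun τ hτ => ?_⟩
  rw [norm_mul, add_mul, Real.exp_add, mul_mul_mul_comm]
  exact mul_le_mul (h τ hτ) (h' τ hτ) (norm_nonneg _) ((norm_nonneg _).trans (h τ hτ))

theorem Gro.pow (h : Gro f) (k : ℕ) : Gro fun τ => f τ ^ k := by
  induction k with
  | zero => simpa using gro_const 1
  | succ k ih => simpa only [pow_succ] using ih.mul h

theorem gro_sum {ι : Type} (s : Finset ι) {F : ι → ℍ → ℂ} (h : ∀ i ∈ s, Gro (F i)) :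
    Gro fun τ => ∑ i ∈ s, F i τ := by
  classical
  induction s using Finset.induction_on with
  | empty => simpa using gro_const 0
  | insert a s ha ih =>
    simp only [Finset.sum_insert ha]
    exact (h a (Finset.mem_insert_self _ _)).add
      (ih fun i hi => h i (Finset.mem_insert_of_mem hi))

theorem gro_prod {ι : Type} (s : Finset ι) {F : ι → ℍ → ℂ} (h : ∀ i ∈ s, Gro (F i)) :
    Gro fun τ => ∏ i ∈ s, F i τ := by
  classical
  induction s using Finset.induction_on with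
  | empty => simpa using gro_const 1
  | insert a s ha ih =>
    simp only [Finset.prod_insert ha]
    exact (h a (Finset.mem_insert_self _ _)).mul
      (ih fun i hi => h i (Finset.mem_insert_of_mem hi))

/-- For a periodic holomorphic function a bound high up is enough. -/
theorem bound_of_high (hn : 0 < n) (h : Hol f) (hp : ∀ τ : ℍ, f ((n : ℝ) +ᵥ τ) = f τ)
    {C K Y : ℝ} (hb : ∀ τ : ℍ, Y < τ.im → ‖f τ‖ ≤ C * Real.exp (K * τ.im)) {y : ℝ} (hy : 0 < y) :
    ∃ C' : ℝ, ∀ τ : ℍ, y ≤ τ.im → ‖f τ‖ ≤ C' * Real.exp (K * τ.im) := by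
  have hK : IsCompact (Set.Icc (0 : ℝ) n ×ℂ Set.Icc y Y) := isCompact_Icc.reProdIm isCompact_Icc
  have hc : ContinuousOn (fun z : ℂ => ‖(f ∘ ofComplex) z‖ * Real.exp (-(K * z.im)))
      (Set.Icc (0 : ℝ) n ×ℂ Set.Icc y Y) := by
    refine ContinuousOn.mul (ContinuousOn.norm ?_) (by fun_prop)
    exact (DifferentiableOn.continuousOn h).mono fun z hz => hy.trans_le hz.2.1
  obtain ⟨B, hB⟩ := hK.exists_bound_of_continuousOn hc
  refine ⟨max C B, fun τ hτ => ?_⟩
  rcases lt_or_ge Y τ.im with h1 | h1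
  · exact (hb τ h1).trans (mul_le_mul_of_nonneg_right (le_max_left _ _) (Real.exp_pos _).le)
  have hper : Function.Periodic (fun x : ℝ => f (x +ᵥ τ)) n := fun x => by
    simp only
    rw [add_comm, add_vadd, hp]
  obtain ⟨x, hx, e⟩ := hper.exists_mem_Ico (by exact_mod_cast hn) 0 (-τ.re)
  simp only [zero_vadd] at e
  have h2 := hB ((x +ᵥ τ : ℍ) : ℂ) ⟨by
    simp only [Set.mem_preimage, coe_re, vadd_re, Set.mem_Icc]
    constructor <;> linarith [hx.1, hx.2], by
    simp only [Set.mem_preimage, coe_im, vadd_im, Set.mem_Icc]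
    exact ⟨hτ, h1⟩⟩
  rw [Function.comp_apply, ofComplex_apply, ← e, coe_im, vadd_im, Real.exp_neg] at h2
  have h3 := (le_abs_self _).trans h2
  rw [mul_inv_le_iff₀ (Real.exp_pos _)] at h3
  exact h3.trans (mul_le_mul_of_nonneg_right (le_max_right _ _) (Real.exp_pos _).le)

theorem MF.const (Γ : Subgroup SL(2, ℤ)) (a : ℂ) : MF Γ fun _ => a :=   ⟨hol_const a, fun _ _ _ => rfl, fun _ => gro_const a⟩

theorem MF.add {Γ : Subgroup SL(2, ℤ)} (h : MF Γ f) (h' : MF Γ g) : MF Γ fun τ => f τ + g τ :=   ⟨h.hol.add h'.hol, fun γ hγ τ => by rw [h.inv γ hγ, h'.inv γ hγ],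
    fun γ => (h.gro γ).add (h'.gro γ)⟩

theorem MF.mul {Γ : Subgroup SL(2, ℤ)} (h : MF Γ f) (h' : MF Γ g) : MF Γ fun τ => f τ * g τ :=   ⟨h.hol.mul h'.hol, fun γ hγ τ => by rw [h.inv γ hγ, h'.inv γ hγ],
    fun γ => (h.gro γ).mul (h'.gro γ)⟩

theorem MF.pow {Γ : Subgroup SL(2, ℤ)} (h : MF Γ f) (k : ℕ) : MF Γ fun τ => f τ ^ k :=   ⟨h.hol.pow k, fun γ hγ τ => by rw [h.inv γ hγ], fun γ => (h.gro γ).pow k⟩

theorem MF.mono {Γ Γ' : Subgroup SL(2, ℤ)} (h : MF Γ f) (hle : Γ' ≤ Γ) : MF Γ' f :=   ⟨h.hol, fun γ hγ => h.inv γ (hle hγ), h.gro⟩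

theorem mf_jH : MF ⊤ jH := by
  have hs := Pool.Agent.Lib.MP_9177b7_ag.CM.Eis.jH_smul
  refine ⟨hol_jH, fun γ _ τ => hs γ τ, fun γ => ?_⟩
  simp only [hs]
  obtain ⟨A, hA⟩ := ModularForm.exp_isBigO_discriminant.bound
  have h4 : ∀ᶠ τ in atImInfty, ‖ModularForm.E₄ τ‖ < 2 :=
    (Pool.Agent.Lib.MP_9177b7_ag.CM.Eis.tendsto_E₄.norm).eventually
      (gt_mem_nhds (by norm_num))
  obtain ⟨Y, hY⟩ := (atImInfty_mem _).1 (hA.and h4)
  obtain ⟨C', hC⟩ := bound_of_high (n := 1) (f := jH) one_pos hol_jH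
    (fun τ => by rw [Nat.cast_one, ← modular_T_smul, hs]) (C := 8 * A) (K := 2 * Real.pi) (Y := Y)
    (fun τ hτ => by
      obtain ⟨h1, h2⟩ := hY τ hτ.le
      have hd := norm_pos_iff.2 (ModularForm.discriminant_ne_zero τ)
      rw [Real.norm_of_nonneg (Real.exp_pos _).le, neg_mul, neg_mul, Real.exp_neg,
        inv_le_iff_one_le_mul₀ (Real.exp_pos _)] at h1
      rw [jH, norm_div, norm_pow, div_le_iff₀ hd]
      have h3 : ‖ModularForm.E₄ τ‖ ^ 3 ≤ 2 ^ 3 := pow_le_pow_left₀ (norm_nonneg _) h2.le 3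
      linarith) one_pos
  exact ⟨C', _, hC⟩



end Pool.Agent.Lib.MP_d6ddbd_nt.K
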