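import Mathlib
import Pool.Agent.Lib.MP_d6ddbd_nt.K.QE1

/-!
Expansions in powers of `e(τ / n)`: the ring operations.
-/

set_option autoImplicit false

open UpperHalfPlane
open scoped MatrixGroups

noncomputable section

namespace Pool.Agent.Lib.MP_d6ddbd_nt.K

namespace QEa

lemma ee_eq_one_iff (z : ℂ) : ee z = 1 ↔ ∃ N : ℤ, z = N := by
  rw [ee, Complex.exp_eq_one_iff]
  refine exists_congr fun N => ?_
  rw [mul_comm (N : ℂ)]
  exact mul_right_inj' Complex.two_pi_I_ne_zero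

lemma differentiable_ee : Differentiable ℂ ee := by
  unfold ee; fun_prop

lemma hasDerivAt_ee (z : ℂ) : HasDerivAt ee (2 * Real.pi * Complex.I * ee z) z := by
  have h := ((hasDerivAt_id z).const_mul (2 * Real.pi * Complex.I)).cexp
  rw [mul_one, mul_comm (Complex.exp _)] at h
  exact h

/-- The local parameter `e(τ / n)`. -/
def qq (n : ℕ) (τ : ℍ) : ℂ := ee ((τ : ℂ) / n)

lemma qq_ne_zero (n : ℕ) (τ : ℍ) : qq n τ ≠ 0 := ee_ne _

lemma ee_mul_div (n : ℕ) (N : ℤ) (τ : ℍ) : ee (N * (τ : ℂ) / n) = qq n τ ^ N := by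
  rw [qq, ← ee_zmul, mul_div_assoc]

lemma qq_eq (n : ℕ) (τ : ℍ) : qq n τ = Function.Periodic.qParam n τ := by
  rw [qq, ee, Function.Periodic.qParam, mul_div_assoc]; simp

lemma norm_ee_div (n : ℕ) (N : ℤ) (w : ℂ) :
    ‖ee (N * w / n)‖ = Real.exp (-(2 * Real.pi * N * w.im / n)) := by
  rw [norm_ee]; congr 1
  have : ((N : ℂ) * w / n).im = N * w.im / n := by
    rw [show (n : ℂ) = ((n : ℝ) : ℂ) by simp, Complex.div_ofReal_im]; simp
  rw [this]; ring

lemma norm_qq (n : ℕ) (τ : ℍ) : ‖qq n τ‖ = Real.exp (-(2 * Real.pi * τ.im / n)) := by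
  have := norm_ee_div n 1 τ
  simpa [qq] using this

lemma norm_qq_lt {n : ℕ} (hn : 0 < n) (τ : ℍ) : ‖qq n τ‖ < 1 := by
  rw [qq_eq]
  exact Function.Periodic.norm_qParam_lt_one (by exact_mod_cast hn) τ.im_pos

lemma exists_qq {n : ℕ} (hn : 0 < n) {q : ℂ} (h1 : ‖q‖ < 1) (h0 : q ≠ 0) :
    ∃ τ : ℍ, qq n τ = q := by
  have hn' : (0 : ℝ) < n := by exact_mod_cast hn
  refine ⟨⟨Function.Periodic.invQParam n q,
    Function.Periodic.im_invQParam_pos_of_norm_lt_one hn' h1 h0⟩, ?_⟩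
  rw [qq_eq]
  exact Function.Periodic.qParam_right_inv hn'.ne' h0

lemma qe_iff {n : ℕ} {f : ℍ → ℂ} {c : LaurentSeries ℂ} :
    QE n f c ↔ ∀ τ : ℍ, HasSum (fun N : ℤ => c.coeff N * qq n τ ^ N) (f τ) := by
  simp only [QE, ee_mul_div]

/-- Passage to a series indexed by the natural numbers. -/
lemma qe_iff_nat {n : ℕ} {f : ℍ → ℂ} {c : LaurentSeries ℂ} (k : ℤ)
    (hk : ∀ N : ℤ, N < k → c.coeff N = 0) :
    QE n f c ↔ ∀ τ : ℍ, HasSum (fun m : ℕ => c.coeff (k + m) * qq n τ ^ m)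
      (qq n τ ^ (-k) * f τ) := by
  rw [qe_iff]
  refine forall_congr' fun τ => ?_
  have hq := qq_ne_zero n τ
  have hinj : Function.Injective fun m : ℕ => k + (m : ℤ) := fun a b h => by simpa using h
  rw [← hinj.hasSum_iff (f := fun N : ℤ => c.coeff N * qq n τ ^ N) (by
    intro N hN
    have : N < k := by
      by_contra h
      exact hN ⟨(N - k).toNat, by simp only; omega⟩
    simp [hk N this])]
  rw [← hasSum_mul_left_iff (zpow_ne_zero (-k) hq)]
  refine iff_of_eq (congrArg (fun u => HasSum u _) (funext fun m => ?_))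
  simp only [Function.comp_apply]
  rw [zpow_add₀ hq, zpow_natCast, zpow_neg]
  field_simp

lemma coeff_lt_order (c : LaurentSeries ℂ) (N : ℤ) (h : N < c.order) : c.coeff N = 0 :=
  HahnSeries.coeff_eq_zero_of_lt_order h

lemma coeff_ps_neg (p : PowerSeries ℂ) (N : ℤ) (h : N < 0) :
    (HahnSeries.ofPowerSeries ℤ ℂ p).coeff N = 0 := by
  rw [PowerSeries.coeff_coe, if_pos h]

lemma coeff_ps (p : PowerSeries ℂ) (m : ℕ) :
    (HahnSeries.ofPowerSeries ℤ ℂ p).coeff m = PowerSeries.coeff m p :=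
  HahnSeries.ofPowerSeries_apply_coeff p m

lemma qe_ps {n : ℕ} {f : ℍ → ℂ} {p : PowerSeries ℂ} :
    QE n f (HahnSeries.ofPowerSeries ℤ ℂ p) ↔
      ∀ τ : ℍ, HasSum (fun m : ℕ => PowerSeries.coeff m p * qq n τ ^ m) (f τ) := by
  rw [qe_iff_nat 0 (coeff_ps_neg p)]
  simp only [zero_add, coeff_ps, neg_zero, zpow_zero, one_mul]

lemma qe_congr {n : ℕ} {f g : ℍ → ℂ} {c d : LaurentSeries ℂ} (h : QE n f c)
    (h1 : ∀ τ, f τ = g τ) (h2 : c = d) : QE n g d := by
  intro τ; rw [← h1, ← h2]; exact h τ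

lemma qe_zero (n : ℕ) : QE n (fun _ => 0) 0 := fun τ => by simp [hasSum_zero]

lemma qe_shift {n : ℕ} {f : ℍ → ℂ} {c : LaurentSeries ℂ} (h : QE n f c) (k : ℤ) :
    QE n (fun τ => qq n τ ^ k * f τ) (HahnSeries.single k 1 * c) := by
  rw [qe_iff] at h ⊢
  intro τ
  rw [← (Equiv.addRight k).hasSum_iff]
  have := (h τ).mul_left (qq n τ ^ k)
  refine (iff_of_eq (congrArg (fun u => HasSum u _) (funext fun N => ?_))).mp this
  simp only [Function.comp_apply, Equiv.coe_addRight, HahnSeries.coeff_single_mul_add, one_mul]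
  rw [zpow_add₀ (qq_ne_zero n τ)]; ring

lemma qe_ps_mul {n : ℕ} {f g : ℍ → ℂ} {p r : PowerSeries ℂ}
    (h : QE n f (HahnSeries.ofPowerSeries ℤ ℂ p)) (h' : QE n g (HahnSeries.ofPowerSeries ℤ ℂ r)) :
    QE n (fun τ => f τ * g τ) (HahnSeries.ofPowerSeries ℤ ℂ (p * r)) := by
  rw [qe_ps] at h h' ⊢
  intro τ
  have s1 := (h τ).summable.norm
  have s2 := (h' τ).summable.norm
  have e := tsum_mul_tsum_eq_tsum_sum_antidiagonal_of_summable_norm s1 s2
  have s3 := (summable_norm_sum_mul_antidiagonal_of_summable_norm s1 s2).of_norm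
  rw [(h τ).tsum_eq, (h' τ).tsum_eq] at e
  rw [e]
  refine (iff_of_eq (congrArg (fun u => HasSum u _) (funext fun m => ?_))).mp s3.hasSum
  rw [PowerSeries.coeff_mul, Finset.sum_mul]
  refine Finset.sum_congr rfl fun x hx => ?_
  rw [← Finset.HasAntidiagonal.mem_antidiagonal.mp hx, pow_add]; ring

lemma single_neg_mul (c : LaurentSeries ℂ) : HahnSeries.single (-c.order) 1 * c =
    HahnSeries.ofPowerSeries ℤ ℂ c.powerSeriesPart :=
  (LaurentSeries.ofPowerSeries_powerSeriesPart c).symm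

end QEa

open QEa

variable {f g : ℍ → ℂ} {c d : LaurentSeries ℂ} {n : ℕ}

theorem qe_mono (a : ℂ) (N : ℤ) :
    QE n (fun τ => a * ee (N * (τ : ℂ) / n)) (HahnSeries.single N a) := by
  intro τ
  have := hasSum_single (f := fun M : ℤ => (HahnSeries.single N a : LaurentSeries ℂ).coeff M *
    ee (M * (τ : ℂ) / n)) N (fun M hM => by simp [HahnSeries.coeff_single_of_ne hM])
  simpa using this

theorem qe_const (a : ℂ) : QE n (fun _ => a) (HahnSeries.single 0 a) := by
  simpa [ee_zero] using qe_mono (n := n) a 0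

theorem qe_one : QE n (fun _ => 1) 1 := qe_const 1

theorem QE.add (h : QE n f c) (h' : QE n g d) : QE n (fun τ => f τ + g τ) (c + d) := fun τ => by
  simpa [add_mul] using (h τ).add (h' τ)

theorem QE.sub (h : QE n f c) (h' : QE n g d) : QE n (fun τ => f τ - g τ) (c - d) := fun τ => by
  simpa [sub_mul] using (h τ).sub (h' τ)

theorem QE.smul (h : QE n f c) (a : ℂ) : QE n (fun τ => a * f τ) (a • c) := fun τ => by
  simpa [mul_assoc] using (h τ).mul_left a

theorem QE.mul (h : QE n f c) (h' : QE n g d) : QE n (fun τ => f τ * g τ) (c * d) := by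
  have h1 := qe_shift h (-c.order)
  have h2 := qe_shift h' (-d.order)
  rw [single_neg_mul] at h1 h2
  refine qe_congr (qe_shift (qe_ps_mul h1 h2) (c.order + d.order)) (fun τ => ?_) ?_
  · have hq := qq_ne_zero n τ
    rw [zpow_add₀ hq, zpow_neg, zpow_neg]
    field_simp
  · rw [map_mul, ← one_mul (1 : ℂ), ← HahnSeries.single_mul_single, mul_mul_mul_comm,
      LaurentSeries.single_order_mul_powerSeriesPart,
      LaurentSeries.single_order_mul_powerSeriesPart]

theorem QE.pow (h : QE n f c) (k : ℕ) : QE n (fun τ => f τ ^ k) (c ^ k) := by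
  induction k with
  | zero => simpa using qe_one
  | succ k ih => simpa only [pow_succ] using ih.mul h

theorem qe_sum {ι : Type} (s : Finset ι) {F : ι → ℍ → ℂ} {C : ι → LaurentSeries ℂ}
    (h : ∀ i ∈ s, QE n (F i) (C i)) : QE n (fun τ => ∑ i ∈ s, F i τ) (∑ i ∈ s, C i) := by
  classical
  induction s using Finset.induction_on with
  | empty => simpa using qe_zero n
  | insert a s ha ih =>
    simp only [Finset.sum_insert ha]
    exact (h a (Finset.mem_insert_self _ _)).add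
      (ih fun i hi => h i (Finset.mem_insert_of_mem hi))

theorem qe_prod {ι : Type} (s : Finset ι) {F : ι → ℍ → ℂ} {C : ι → LaurentSeries ℂ}
    (h : ∀ i ∈ s, QE n (F i) (C i)) : QE n (fun τ => ∏ i ∈ s, F i τ) (∏ i ∈ s, C i) := by
  classical
  induction s using Finset.induction_on with
  | empty => simpa using qe_one
  | insert a s ha ih =>
    simp only [Finset.prod_insert ha]
    exact (h a (Finset.mem_insert_self _ _)).mul
      (ih fun i hi => h i (Finset.mem_insert_of_mem hi))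

theorem QE.per (hn : 0 < n) (h : QE n f c) (τ : ℍ) : f ((n : ℝ) +ᵥ τ) = f τ := by
  refine (h _).unique ((iff_of_eq (congrArg (fun u => HasSum u _) (funext fun N => ?_))).mp (h τ))
  have hn' : (n : ℂ) ≠ 0 := by exact_mod_cast hn.ne'
  have e : (N : ℂ) * (((n : ℝ) +ᵥ τ : ℍ) : ℂ) / n = N + N * (τ : ℂ) / n := by
    rw [coe_vadd]
    push_cast
    field_simp
  rw [e, ee_add, ee_int, one_mul]

/-- The substitution `X ↦ X ^ k`, a ring homomorphism. -/
def dil (k : ℕ) (hk : 0 < k) : LaurentSeries ℂ →+* LaurentSeries ℂ :=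
  HahnSeries.embDomainRingHom (AddMonoidHom.mulLeft (k : ℤ))
    (fun _ _ e => mul_left_cancel₀ (by exact_mod_cast hk.ne' : (k : ℤ) ≠ 0) e)
    (fun _ _ => mul_le_mul_iff_right₀ (by exact_mod_cast hk : (0 : ℤ) < k))

theorem QEa.dil_mul (k : ℕ) (hk : 0 < k) (c : LaurentSeries ℂ) (N : ℤ) :
    (dil k hk c).coeff (k * N) = c.coeff N :=
  HahnSeries.embDomain_mk_coeff (f := fun N : ℤ => (k : ℤ) * N) _ _

theorem QEa.dil_not (k : ℕ) (hk : 0 < k) (c : LaurentSeries ℂ) {N : ℤ} (h : ¬ (k : ℤ) ∣ N) :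
    (dil k hk c).coeff N = 0 :=
  HahnSeries.embDomain_of_notMem_range fun ⟨M, hM⟩ => h ⟨M, hM.symm⟩

theorem dil_coeff (k : ℕ) (hk : 0 < k) (c : LaurentSeries ℂ) (N : ℤ) :
    (dil k hk c).coeff N = if (k : ℤ) ∣ N then c.coeff (N / k) else 0 := by
  split_ifs with h
  · obtain ⟨M, rfl⟩ := h
    rw [dil_mul, Int.mul_ediv_cancel_left _ (by exact_mod_cast hk.ne')]
  · exact dil_not k hk c h

theorem QEa.dil_sum (k : ℕ) (hk : 0 < k) (c : LaurentSeries ℂ) {u : ℤ → ℂ} {s : ℂ}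
    (h : HasSum (fun N : ℤ => c.coeff N * u (k * N)) s) :
    HasSum (fun N : ℤ => (dil k hk c).coeff N * u N) s := by
  have hinj : Function.Injective fun N : ℤ => (k : ℤ) * N :=
    fun _ _ e => mul_left_cancel₀ (by exact_mod_cast hk.ne' : (k : ℤ) ≠ 0) e
  rw [← hinj.hasSum_iff (f := fun N : ℤ => (dil k hk c).coeff N * u N) (by
    intro N hN
    rw [dil_not k hk c fun ⟨M, hM⟩ => hN ⟨M, hM.symm⟩, zero_mul])]
  refine (iff_of_eq (congrArg (fun u => HasSum u _) (funext fun N => ?_))).mp h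
  simp only [Function.comp_apply, dil_mul]

theorem QE.level (h : QE n f c) (k : ℕ) (hk : 0 < k) : QE (k * n) f (dil k hk c) := by
  intro τ
  refine dil_sum k hk c (u := fun N => ee (N * (τ : ℂ) / (k * n : ℕ))) ?_
  refine (iff_of_eq (congrArg (fun u => HasSum u _) (funext fun N => ?_))).mp (h τ)
  have hk' : (k : ℂ) ≠ 0 := by exact_mod_cast hk.ne'
  push_cast
  rw [mul_assoc (k : ℂ), mul_div_mul_left _ _ hk']

theorem QE.up (h : QE n f c) (k : ℕ) (hk : 0 < k) :
    QE n (fun τ => f (Pool.Agent.Lib.MP_9177b7_ag.CM.up k τ)) (dil k hk c) := by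
  intro τ
  refine dil_sum k hk c (u := fun N => ee (N * (τ : ℂ) / n)) ?_
  refine (iff_of_eq (congrArg (fun u => HasSum u _) (funext fun N => ?_))).mp (h _)
  have hp : 0 < ((k : ℂ) * τ).im := by
    have : (0 : ℝ) < k := by exact_mod_cast hk
    simpa using mul_pos this τ.im_pos
  rw [Pool.Agent.Lib.MP_9177b7_ag.CM.up, ofComplex_apply_of_im_pos hp]
  push_cast
  congr 3
  ring

theorem QE.dn (h : QE n f c) (k : ℕ) (hk : 0 < k) :
    QE (k * n) (fun τ => f (Pool.Agent.Lib.MP_9177b7_ag.CM.dn k 0 τ)) c := by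
  intro τ
  refine (iff_of_eq (congrArg (fun u => HasSum u _) (funext fun N => ?_))).mp (h _)
  have hp : 0 < (((τ : ℂ) + (0 : ℕ)) / k).im := by
    have : (0 : ℝ) < k := by exact_mod_cast hk
    rw [show (k : ℂ) = ((k : ℝ) : ℂ) by simp, Complex.div_ofReal_im]
    simpa using div_pos τ.im_pos this
  rw [Pool.Agent.Lib.MP_9177b7_ag.CM.dn, ofComplex_apply_of_im_pos hp]
  push_cast
  congr 2
  rw [add_zero, ← mul_div_assoc, div_div]

end Pool.Agent.Lib.MP_d6ddbd_nt.K
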