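import Mathlib
import Pool.Agent.Lib.MP_d6ddbd_nt.K.QE1
import Pool.Agent.Lib.MP_d6ddbd_nt.K.QE2a

/-!
Expansions in powers of `e(τ / n)`: existence, uniqueness and bounds.
-/

set_option autoImplicit false

open UpperHalfPlane
open scoped MatrixGroups Manifold
open Pool.Agent.Lib.MP_9177b7_ag.CM (jH up dn)

noncomputable section

namespace Pool.Agent.Lib.MP_d6ddbd_nt.K

variable {f g : ℍ → ℂ} {c d : LaurentSeries ℂ} {n : ℕ}

namespace QEa

open MeasureTheory

/-- The point `x + i y`. -/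
def pt {y : ℝ} (hy : 0 < y) (x : ℝ) : ℍ := ⟨x + y * Complex.I, by simpa using hy⟩

lemma pt_coe {y : ℝ} (hy : 0 < y) (x : ℝ) : (pt hy x : ℂ) = x + y * Complex.I := rfl

lemma pt_im {y : ℝ} (hy : 0 < y) (x : ℝ) : (pt hy x).im = y := by
  show ((x : ℂ) + y * Complex.I).im = y
  simp

lemma int_ee (hn : 0 < n) (k : ℤ) (y : ℝ) :
    ∫ x in (0 : ℝ)..n, ee (k * ((x : ℂ) + y * Complex.I) / n) = if k = 0 then (n : ℂ) else 0 := by
  have hn' : (n : ℂ) ≠ 0 := by exact_mod_cast hn.ne'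
  split_ifs with hk
  · simp [hk, ee_zero]
  · have hk' : (k : ℂ) ≠ 0 := by exact_mod_cast hk
    have hc : 2 * Real.pi * Complex.I * k / n ≠ 0 :=
      div_ne_zero (mul_ne_zero Complex.two_pi_I_ne_zero hk') hn'
    have e : ∀ x : ℝ, ee (k * ((x : ℂ) + y * Complex.I) / n) =
        ee (k * (y * Complex.I) / n) * Complex.exp (2 * Real.pi * Complex.I * k / n * x) := by
      intro x
      rw [ee, ee, ← Complex.exp_add]
      congr 1
      ring
    simp only [e]
    rw [intervalIntegral.integral_const_mul, integral_exp_mul_complex hc]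
    have e2 : 2 * Real.pi * Complex.I * k / n * ((n : ℝ) : ℂ) = k * (2 * Real.pi * Complex.I) := by
      push_cast
      field_simp
    rw [e2, Complex.exp_int_mul_two_pi_mul_I]
    simp

lemma coeff_int (hn : 0 < n) {a : ℤ → ℂ} {s : ℍ → ℂ} {y : ℝ} (hy : 0 < y)
    (ha : ∀ τ : ℍ, τ.im = y → HasSum (fun N : ℤ => a N * ee (N * (τ : ℂ) / n)) (s τ)) (N : ℤ) :
    ∫ x in (0 : ℝ)..n, s (pt hy x) * ee (-(N * (pt hy x : ℂ) / n)) = n * a N := by
  have hn0 : (0 : ℝ) ≤ n := Nat.cast_nonneg n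
  let F : ℤ → ℝ → ℂ := fun M x => a M * ee ((M - N : ℤ) * ((x : ℂ) + y * Complex.I) / n)
  have hF : ∀ x, HasSum (fun M => F M x) (s (pt hy x) * ee (-(N * (pt hy x : ℂ) / n))) := by
    intro x
    refine (iff_of_eq (congrArg (fun u => HasSum u _) (funext fun M => ?_))).mp
      ((ha _ (pt_im hy x)).mul_right _)
    simp only [F]
    rw [mul_assoc, ← ee_add, pt_coe]
    congr 2
    push_cast
    ring
  have hN : ∀ M x, ‖F M x‖ = ‖F M 0‖ := fun M x => by
    simp only [F, norm_mul, norm_ee_div]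
    simp
  have hc : ∀ M, Continuous (F M) := fun M => by
    have := differentiable_ee.continuous
    simp only [F]
    fun_prop
  have h1 := hasSum_integral_of_summable_integral_norm (μ := volume.restrict (Set.Ioc (0 : ℝ) n))
    (F := F) (fun M => (hc M).integrableOn_Ioc) (by
      have : ∀ M, ∫ x in Set.Ioc (0 : ℝ) n, ‖F M x‖ = n * ‖F M 0‖ := fun M => by
        rw [show (fun x => ‖F M x‖) = fun _ => ‖F M 0‖ from funext (hN M)]
        simp
      simp only [this]
      exact (hF 0).summable.norm.mul_left _)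
  simp only [(hF _).tsum_eq, ← intervalIntegral.integral_of_le hn0] at h1
  refine h1.unique ?_
  have h2 : ∀ M, ∫ x in (0 : ℝ)..n, F M x = if M = N then n * a N else 0 := fun M => by
    simp only [F]
    rw [intervalIntegral.integral_const_mul, int_ee hn]
    by_cases h : M = N
    · rw [if_pos (sub_eq_zero.2 h), if_pos h, h, mul_comm]
    · rw [if_neg (sub_ne_zero.2 h), if_neg h, mul_zero]
  simp only [h2]
  exact hasSum_ite_eq N _

lemma exists_P (hn : 0 < n) (h : QE n f c) {k : ℤ} (hk : ∀ N < k, c.coeff N = 0) :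
    ∃ P : ℂ → ℂ, ContinuousOn P (Metric.ball 0 1) ∧ P 0 = c.coeff k ∧
      ∀ τ, P (qq n τ) = qq n τ ^ (-k) * f τ := by
  rw [qe_iff_nat k hk] at h
  refine ⟨fun q => ∑' m : ℕ, c.coeff (k + m) * q ^ m, fun q hq => ?_, ?_, fun τ => (h τ).tsum_eq⟩
  · rw [mem_ball_zero_iff] at hq
    obtain ⟨r, hr1, hr2⟩ := exists_between hq
    have hr0 : 0 < r := (norm_nonneg _).trans_lt hr1
    obtain ⟨τ, hτ⟩ := exists_qq hn (q := r) (by rwa [Complex.norm_real, Real.norm_of_nonneg hr0.le])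
      (by exact_mod_cast hr0.ne')
    have h1 := (h τ).summable.norm
    rw [hτ] at h1
    have h2 : ContinuousOn (fun q : ℂ => ∑' m : ℕ, c.coeff (k + m) * q ^ m) (Metric.ball 0 r) := by
      refine continuousOn_tsum (fun m => by fun_prop) h1 fun m z hz => ?_
      rw [mem_ball_zero_iff] at hz
      rw [norm_mul, norm_mul, norm_pow, norm_pow, Complex.norm_real, Real.norm_of_nonneg hr0.le]
      exact mul_le_mul_of_nonneg_left (pow_le_pow_left₀ (norm_nonneg _) hz.le m) (norm_nonneg _)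
    exact (h2.continuousAt (Metric.isOpen_ball.mem_nhds
      (mem_ball_zero_iff.2 hr1))).continuousWithinAt
  · simp only
    rw [tsum_eq_single 0 fun m hm => by rw [zero_pow hm, mul_zero]]
    simp

lemma strip (hn : 0 < n) (h : QE n f c) (τ : ℍ) : ∃ (U : Set ℂ) (u : ℤ → ℝ), IsOpen U ∧
    (τ : ℂ) ∈ U ∧ Summable u ∧ (∀ N w, w ∈ U → ‖c.coeff N * ee (N * w / n)‖ ≤ u N) ∧
    ∀ w ∈ U, (f ∘ ofComplex) w = ∑' N : ℤ, c.coeff N * ee (N * w / n) := by
  have hy := τ.im_pos
  have hn' : (0 : ℝ) < n := by exact_mod_cast hn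
  refine ⟨{w | τ.im / 2 < w.im ∧ w.im < 2 * τ.im}, _,
    (isOpen_lt continuous_const Complex.continuous_im).inter
      (isOpen_lt Complex.continuous_im continuous_const),
    ⟨by rw [coe_im]; linarith, by rw [coe_im]; linarith⟩,
    (h (pt (half_pos hy) 0)).summable.norm.add
      (h (pt (mul_pos two_pos hy) 0)).summable.norm, fun N w hw => ?_, fun w hw => ?_⟩
  · simp only [norm_mul, norm_ee_div, coe_im, pt_im]
    rw [← mul_add]
    refine mul_le_mul_of_nonneg_left ?_ (norm_nonneg _)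
    have hp := Real.pi_pos
    rcases le_total 0 (N : ℝ) with hN | hN
    · refine le_add_of_le_of_nonneg (Real.exp_le_exp.2 (neg_le_neg ?_)) (Real.exp_pos _).le
      exact div_le_div_of_nonneg_right
        (mul_le_mul_of_nonneg_left hw.1.le (by positivity)) hn'.le
    · refine le_add_of_nonneg_of_le (Real.exp_pos _).le (Real.exp_le_exp.2 (neg_le_neg ?_))
      exact div_le_div_of_nonneg_right
        (mul_le_mul_of_nonpos_left hw.2.le (by nlinarith)) hn'.le
  · have hw0 : 0 < w.im := by linarith [hw.1]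
    rw [Function.comp_apply, ofComplex_apply_of_im_pos hw0]
    exact (h ⟨w, hw0⟩).tsum_eq.symm

lemma diff_term (a : ℂ) (N : ℤ) : Differentiable ℂ fun w : ℂ => a * ee (N * w / n) := by
  have := differentiable_ee
  fun_prop

end QEa

open QEa

theorem exists_qe (hn : 0 < n) (h : Hol f) (hp : ∀ τ : ℍ, f ((n : ℝ) +ᵥ τ) = f τ) (hg : Gro f) :
    ∃ c, QE n f c := by
  have hn' : (0 : ℝ) < n := by exact_mod_cast hn
  have hnc : (n : ℂ) ≠ 0 := by exact_mod_cast hn.ne'
  obtain ⟨C, K, hg⟩ := hg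
  obtain ⟨k, hk⟩ := exists_nat_ge (K * n / (2 * Real.pi))
  have hpi := Real.pi_pos
  rw [div_le_iff₀ (by positivity)] at hk
  let F : ℍ → ℂ := fun τ => f τ * ee ((k : ℤ) * (τ : ℂ) / n)
  have hF : Hol F := h.mul (hol_of (F := fun w => ee ((k : ℤ) * w / n)) (by
    simpa using (diff_term (n := n) 1 k).differentiableOn))
  have hFp : ∀ τ : ℍ, F ((n : ℝ) +ᵥ τ) = F τ := fun τ => by
    have := (qe_mono (n := n) 1 k).per hn τ
    simp only [one_mul] at this
    simp only [F, hp, this]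
  have hper : Function.Periodic (F ∘ ofComplex) (n : ℝ) := fun w => by
    by_cases hw : 0 < w.im
    · have hw' : 0 < (w + (n : ℝ)).im := by simpa using hw
      rw [Function.comp_apply, Function.comp_apply, ofComplex_apply_of_im_pos hw,
        ofComplex_apply_of_im_pos hw', ← hFp ⟨w, hw⟩]
      congr 1
      ext
      rw [coe_vadd]
      exact add_comm _ _
    · have hw' : ¬ 0 < (w + (n : ℝ)).im := by simpa using hw
      rw [Function.comp_apply, Function.comp_apply,
        ofComplex_apply_eq_of_im_nonpos (not_lt.1 hw') (not_lt.1 hw)]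
  have hb : IsBoundedAtImInfty F := by
    rw [isBoundedAtImInfty_iff]
    refine ⟨|C|, 1, fun τ hτ => ?_⟩
    simp only [F]
    rw [norm_mul, norm_ee_div, coe_im]
    refine (mul_le_mul_of_nonneg_right ((hg τ hτ).trans (mul_le_mul_of_nonneg_right
      (le_abs_self C) (Real.exp_pos _).le)) (Real.exp_pos _).le).trans ?_
    rw [mul_assoc, ← Real.exp_add]
    refine mul_le_of_le_one_right (abs_nonneg _) (Real.exp_le_one_iff.2 ?_)
    rw [← sub_eq_add_neg, sub_nonpos, le_div_iff₀ hn']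
    push_cast
    nlinarith [τ.im_pos]
  have h1 : QE n F (HahnSeries.ofPowerSeries ℤ ℂ (qExpansion n F)) := qe_ps.2 fun τ => by
    rw [qq_eq]
    exact hasSum_qExpansion hn' hper (hol_iff.1 hF) hb τ
  refine ⟨_, qe_congr (qe_shift h1 (-k)) (fun τ => ?_) rfl⟩
  simp only [F]
  rw [ee_mul_div, zpow_neg, mul_comm (f τ), inv_mul_cancel_left₀ (zpow_ne_zero _ (qq_ne_zero n τ))]

/-- Uniqueness of coefficients, from any half plane. -/
theorem coeff_unique (hn : 0 < n) {a b : ℤ → ℂ} {s : ℍ → ℂ} (Y : ℝ)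
    (ha : ∀ τ : ℍ, Y < τ.im → HasSum (fun N : ℤ => a N * ee (N * (τ : ℂ) / n)) (s τ))
    (hb : ∀ τ : ℍ, Y < τ.im → HasSum (fun N : ℤ => b N * ee (N * (τ : ℂ) / n)) (s τ)) :
    a = b := by
  have hy : 0 < |Y| + 1 := by positivity
  have hY : ∀ τ : ℍ, τ.im = |Y| + 1 → Y < τ.im := fun τ e => by
    rw [e]; linarith [le_abs_self Y]
  funext N
  exact mul_left_cancel₀ (by exact_mod_cast hn.ne' : (n : ℂ) ≠ 0)
    ((coeff_int hn hy (fun τ e => ha τ (hY τ e)) N).symm.trans
      (coeff_int hn hy (fun τ e => hb τ (hY τ e)) N))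

theorem QE.unique (hn : 0 < n) (h : QE n f c) (h' : QE n f d) : c = d :=
  HahnSeries.ext (coeff_unique hn 0 (fun τ _ => h τ) fun τ _ => h' τ)

theorem QE.hol (hn : 0 < n) (h : QE n f c) : Hol f := by
  intro z hz
  obtain ⟨U, u, hU, hz', hu, hb, he⟩ := strip hn h ⟨z, hz⟩
  have h1 := Complex.differentiableOn_tsum_of_summable_norm hu
    (fun N => (diff_term (c.coeff N) N).differentiableOn) hU hb
  exact ((h1.congr he).differentiableAt (hU.mem_nhds hz')).differentiableWithinAt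

theorem QE.eq_zero_iff (hn : 0 < n) (h : QE n f c) : c = 0 ↔ f = 0 := by
  constructor
  · rintro rfl
    exact funext fun τ => (h τ).unique (qe_zero n τ)
  · rintro rfl
    exact h.unique hn (qe_zero n)

theorem QE.coeff_bound (hn : 0 < n) (h : QE n f c) {s M : ℝ} (hs : 0 < s)
    (hM : ∀ τ : ℍ, τ.im = s → ‖f τ‖ ≤ M) (N : ℤ) :
    ‖c.coeff N‖ ≤ M * Real.exp (2 * Real.pi * N * s / n) := by
  have hn' : (0 : ℝ) < n := by exact_mod_cast hn
  have h1 := intervalIntegral.norm_integral_le_of_norm_le_const (a := 0) (b := n)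
    (C := M * Real.exp (2 * Real.pi * N * s / n))
    (f := fun x => f (pt hs x) * ee (-(N * (pt hs x : ℂ) / n))) fun x _ => by
      rw [norm_mul, ee_neg, norm_inv, norm_ee_div, coe_im, pt_im, ← Real.exp_neg, neg_neg]
      exact mul_le_mul_of_nonneg_right (hM _ (pt_im hs x)) (Real.exp_pos _).le
  rw [coeff_int hn hs (fun τ _ => h τ), norm_mul, Complex.norm_natCast, sub_zero,
    abs_of_pos hn', mul_comm _ (n : ℝ)] at h1
  exact le_of_mul_le_mul_left h1 hn'

theorem QE.supp (hn : 0 < n) (h : QE n f c) {s : ℤ}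
    (hT : ∀ τ : ℍ, f (ModularGroup.T • τ) = ee (s / n) * f τ) {N : ℤ} (hN : c.coeff N ≠ 0) :
    (n : ℤ) ∣ N - s := by
  have hnc : (n : ℂ) ≠ 0 := by exact_mod_cast hn.ne'
  have h1 := coeff_unique hn (a := fun M => c.coeff M * ee (M / n))
    (b := fun M => c.coeff M * ee (s / n)) (s := fun τ => f (ModularGroup.T • τ)) 0
    (fun τ _ => by
      refine (iff_of_eq (congrArg (fun u => HasSum u _) (funext fun M => ?_))).mp (h _)
      rw [coe_T, mul_assoc, ← ee_add]
      congr 2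
      ring)
    (fun τ _ => by
      rw [hT]
      refine (iff_of_eq (congrArg (fun u => HasSum u _) (funext fun M => ?_))).mp
        ((h τ).mul_left _)
      ring)
  have h2 := mul_left_cancel₀ hN (congrFun h1 N)
  have h3 : ee (N / n + -(s / n)) = 1 := by rw [ee_add, ee_neg, h2, mul_inv_cancel₀ (ee_ne _)]
  obtain ⟨m, hm⟩ := (ee_eq_one_iff _).1 h3
  refine ⟨m, ?_⟩
  have h4 : (N : ℂ) - s = n * m := by rw [← hm]; field_simp; ring
  exact_mod_cast h4

theorem QE.bound (hn : 0 < n) (h : QE n f c) {N₀ : ℤ} (hl : ∀ N < N₀, c.coeff N = 0) {y : ℝ}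
    (hy : 0 < y) :
    ∃ C : ℝ, ∀ τ : ℍ, y ≤ τ.im → ‖f τ‖ ≤ C * Real.exp (-(2 * Real.pi * N₀ * τ.im / n)) := by
  obtain ⟨P, hP, -, he⟩ := exists_P hn h hl
  have hn' : (0 : ℝ) < n := by exact_mod_cast hn
  obtain ⟨C, hC⟩ := (isCompact_closedBall (0 : ℂ) ‖qq n (pt hy 0)‖).exists_bound_of_continuousOn
    (hP.mono (Metric.closedBall_subset_ball (norm_qq_lt hn _)))
  refine ⟨C, fun τ hτ => ?_⟩
  have h1 := hC (qq n τ) (by
    rw [mem_closedBall_zero_iff, norm_qq, norm_qq, pt_im, Real.exp_le_exp]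
    have := Real.pi_pos
    exact neg_le_neg (div_le_div_of_nonneg_right
      (mul_le_mul_of_nonneg_left hτ (by positivity)) hn'.le))
  rw [he, zpow_neg, ← ee_mul_div, norm_mul, norm_inv, norm_ee_div, coe_im,
    inv_mul_le_iff₀ (Real.exp_pos _), mul_comm] at h1
  exact h1

theorem QE.gro (hn : 0 < n) (h : QE n f c) : Gro f := by
  obtain ⟨C, hC⟩ := h.bound hn (coeff_lt_order c) one_pos
  refine ⟨C, -(2 * Real.pi * c.order / n), fun τ hτ => (hC τ hτ).trans_eq ?_⟩
  congr 2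
  ring

theorem QE.low (hn : 0 < n) (h : QE n f c) {C K Y : ℝ}
    (hb : ∀ τ : ℍ, Y < τ.im → ‖f τ‖ ≤ C * Real.exp (-(2 * Real.pi * K * τ.im / n)))
    {N : ℤ} (hN : (N : ℝ) < K) : c.coeff N = 0 := by
  have hn' : (0 : ℝ) < n := by exact_mod_cast hn
  have hδ : 0 < 2 * Real.pi * (K - N) / n := by
    have := Real.pi_pos
    have := sub_pos.2 hN
    positivity
  have h1 : Filter.Tendsto (fun s : ℝ => C * Real.exp (-(2 * Real.pi * (K - N) / n * s)))
      Filter.atTop (nhds (C * 0)) :=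
    (Real.tendsto_exp_neg_atTop_nhds_zero.comp
      (Filter.tendsto_id.const_mul_atTop hδ)).const_mul C
  rw [mul_zero] at h1
  refine norm_le_zero_iff.1 (ge_of_tendsto h1 ?_)
  filter_upwards [Filter.eventually_gt_atTop Y, Filter.eventually_gt_atTop 0] with s hs hs0
  refine (h.coeff_bound hn hs0 (M := C * Real.exp (-(2 * Real.pi * K * s / n)))
    (fun τ e => by rw [← e] at hs ⊢; exact hb τ hs) N).trans_eq ?_
  rw [mul_assoc, ← Real.exp_add]
  congr 2
  ring

theorem QE.tendsto (hn : 0 < n) (h : QE n f c) {N₀ : ℤ} (hl : ∀ N < N₀, c.coeff N = 0) :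
    Filter.Tendsto (fun τ : ℍ => f τ * ee (-(N₀ * (τ : ℂ) / n))) atImInfty
      (nhds (c.coeff N₀)) := by
  obtain ⟨P, hP, h0, he⟩ := exists_P hn h hl
  have hn' : (0 : ℝ) < n := by exact_mod_cast hn
  have h1 : Filter.Tendsto (qq n) atImInfty (nhds 0) := by
    rw [show qq n = fun τ : ℍ => Function.Periodic.qParam n τ from funext (qq_eq n)]
    exact qParam_tendsto_atImInfty hn'
  have h2 := (hP.continuousAt (Metric.ball_mem_nhds 0 one_pos)).tendsto.comp h1
  rw [h0] at h2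
  refine h2.congr fun τ => ?_
  rw [Function.comp_apply, he, ee_neg, ee_mul_div, zpow_neg, mul_comm]

theorem QE.inv (hn : 0 < n) (h : QE n f c) (h0 : ∀ τ, f τ ≠ 0) :
    QE n (fun τ => (f τ)⁻¹) c⁻¹ := by
  have hc : c ≠ 0 := fun e => h0 I (congrFun ((h.eq_zero_iff hn).1 e) I)
  have hc0 : c.coeff c.order ≠ 0 := HahnSeries.coeff_order_eq_zero.not.2 hc
  have h1 := ((h.tendsto hn (coeff_lt_order c)).inv₀ hc0).norm.eventually
    (gt_mem_nhds (lt_add_one _))
  obtain ⟨Y, hY⟩ := (atImInfty_mem _).1 h1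
  have hh := (h.hol hn).inv h0
  have hp : ∀ τ : ℍ, (f ((n : ℝ) +ᵥ τ))⁻¹ = (f τ)⁻¹ := fun τ => by rw [h.per hn]
  obtain ⟨C, hC⟩ := bound_of_high hn hh hp (C := ‖(c.coeff c.order)⁻¹‖ + 1)
    (K := 2 * Real.pi * c.order / n) (Y := Y) (fun τ hτ => by
      have h2 : ‖(f τ * ee (-(c.order * (τ : ℂ) / n)))⁻¹‖ < _ := hY τ hτ.le
      rw [mul_inv, ee_neg, inv_inv, norm_mul, norm_ee_div, coe_im, Real.exp_neg,
        mul_inv_lt_iff₀ (Real.exp_pos _)] at h2
      refine h2.le.trans_eq ?_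
      congr 2
      ring) one_pos
  obtain ⟨d, hd⟩ := exists_qe hn hh hp ⟨C, _, hC⟩
  have h3 : c * d = 1 := (h.mul hd).unique hn
    (qe_congr qe_one (fun τ => (mul_inv_cancel₀ (h0 τ)).symm) rfl)
  rwa [← eq_inv_of_mul_eq_one_right h3]

theorem QE.deriv (hn : 0 < n) (h : QE n f c) : ∃ d, QE n (Derivative.normalizedDerivOfComplex f) d ∧
    ∀ N, d.coeff N = N / n * c.coeff N := by
  refine ⟨⟨fun N => N / n * c.coeff N, c.isPWO_support.mono fun N hN e => hN ?_⟩, fun τ => ?_,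
    fun _ => rfl⟩
  · simp only [e, mul_zero]
  obtain ⟨U, u, hU, hz, hu, hb, he⟩ := strip hn h τ
  have h1 := Complex.hasSum_deriv_of_summable_norm hu
    (fun N => (diff_term (c.coeff N) N).differentiableOn) hU hb hz
  rw [← (Filter.eventuallyEq_of_mem (hU.mem_nhds hz) he).deriv_eq] at h1
  refine (iff_of_eq (congrArg (fun u => HasSum u _) (funext fun N => ?_))).mp
    (h1.mul_left (2 * Real.pi * Complex.I)⁻¹)
  have h2 : HasDerivAt (fun w : ℂ => c.coeff N * ee (N * w / n))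
      (c.coeff N * (2 * Real.pi * Complex.I * ee (N * (τ : ℂ) / n) * (N * 1 / n))) τ :=
    ((hasDerivAt_ee _).comp (τ : ℂ)
      (((hasDerivAt_id (τ : ℂ)).const_mul (N : ℂ)).div_const (n : ℂ))).const_mul _
  rw [h2.deriv]
  have := Complex.two_pi_I_ne_zero
  simp only
  generalize 2 * (Real.pi : ℂ) * Complex.I = w at this
  field_simp

end Pool.Agent.Lib.MP_d6ddbd_nt.K
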