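import Mathlib
import Pool.Agent.Lib.MP_d6ddbd_nt.K.QE2

set_option autoImplicit false

open UpperHalfPlane
open scoped MatrixGroups Manifold
open Pool.Agent.Lib.MP_9177b7_ag.CM (jH up dn)

noncomputable section

namespace Pool.Agent.Lib.MP_d6ddbd_nt.K

variable {f g : ℍ → ℂ} {c d : LaurentSeries ℂ} {n : ℕ}

/-- Extension of coefficients from the rationals. -/
def QE3Aux.ext : LaurentSeries ℚ →+* LaurentSeries ℂ where
  toFun x := x.map (Rat.castHom ℂ)
  map_one' := HahnSeries.map_one (Rat.castHom ℂ).toMonoidWithZeroHom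
  map_mul' _ _ := HahnSeries.map_mul (Rat.castHom ℂ).toNonUnitalRingHom
  map_zero' := by ext; simp
  map_add' _ _ := by ext; simp

theorem QE3Aux.iff : RatS c ↔ c ∈ QE3Aux.ext.fieldRange := by
  refine ⟨fun h => ?_, ?_⟩
  · choose r hr using h
    refine ⟨⟨r, c.isPWO_support.mono fun N hN => ?_⟩, HahnSeries.ext (funext fun N => (hr N).symm)⟩
    rw [HahnSeries.mem_support, hr]
    exact Rat.cast_ne_zero.2 hN
  · rintro ⟨x, rfl⟩ N
    exact ⟨x.coeff N, rfl⟩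

theorem RatS.add (h : RatS c) (h' : RatS d) : RatS (c + d) :=
  QE3Aux.iff.2 (add_mem (QE3Aux.iff.1 h) (QE3Aux.iff.1 h'))
theorem RatS.sub (h : RatS c) (h' : RatS d) : RatS (c - d) :=
  QE3Aux.iff.2 (sub_mem (QE3Aux.iff.1 h) (QE3Aux.iff.1 h'))
theorem RatS.mul (h : RatS c) (h' : RatS d) : RatS (c * d) :=
  QE3Aux.iff.2 (mul_mem (QE3Aux.iff.1 h) (QE3Aux.iff.1 h'))
theorem RatS.smul (h : RatS c) (r : ℚ) : RatS ((r : ℂ) • c) := fun N => by
  obtain ⟨s, hs⟩ := h N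
  exact ⟨r * s, by rw [HahnSeries.coeff_smul, hs, smul_eq_mul, Rat.cast_mul]⟩
theorem RatS.pow (h : RatS c) (k : ℕ) : RatS (c ^ k) :=
  QE3Aux.iff.2 (pow_mem (QE3Aux.iff.1 h) k)
theorem RatS.inv (h : RatS c) : RatS c⁻¹ := QE3Aux.iff.2 (inv_mem (QE3Aux.iff.1 h))
theorem RatS.dil (h : RatS c) (k : ℕ) (hk : 0 < k) : RatS (dil k hk c) := fun N => by
  rw [dil_coeff]
  split_ifs
  exacts [h _, ⟨0, Rat.cast_zero.symm⟩]
theorem rat_single (N : ℤ) (r : ℚ) : RatS (HahnSeries.single N (r : ℂ)) := fun M => by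
  by_cases e : M = N
  · exact ⟨r, by rw [e, HahnSeries.coeff_single_same]⟩
  · exact ⟨0, by rw [HahnSeries.coeff_single_of_ne e, Rat.cast_zero]⟩
theorem rat_sum {ι : Type} (s : Finset ι) {C : ι → LaurentSeries ℂ} (h : ∀ i ∈ s, RatS (C i)) :
    RatS (∑ i ∈ s, C i) := QE3Aux.iff.2 (sum_mem fun i hi => QE3Aux.iff.1 (h i hi))
theorem rat_prod {ι : Type} (s : Finset ι) {C : ι → LaurentSeries ℂ} (h : ∀ i ∈ s, RatS (C i)) :
    RatS (∏ i ∈ s, C i) := QE3Aux.iff.2 (prod_mem fun i hi => QE3Aux.iff.1 (h i hi))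

/-- `c = a X ^ N + higher terms`. -/
def Lead (c : LaurentSeries ℂ) (N : ℤ) (a : ℂ) : Prop :=
  (∀ M < N, c.coeff M = 0) ∧ c.coeff N = a
theorem Lead.mul {N M : ℤ} {a b : ℂ} (h : Lead c N a) (h' : Lead d M b) :
    Lead (c * d) (N + M) (a * b) := by
  have key : ∀ K, ∀ p ∈ Finset.antidiagonal c.isPWO_support d.isPWO_support K,
      N ≤ p.1 ∧ M ≤ p.2 ∧ p.1 + p.2 = K := fun K p hp => by
    rw [Finset.mem_antidiagonal] at hp
    exact ⟨not_lt.1 fun e => hp.1 (h.1 _ e), not_lt.1 fun e => hp.2.1 (h'.1 _ e), hp.2.2⟩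
  refine ⟨fun K hK => ?_, ?_⟩
  · rw [HahnSeries.coeff_mul]
    exact Finset.sum_eq_zero fun p hp => by have := key K p hp; omega
  · rw [HahnSeries.coeff_mul, Finset.sum_eq_single (N, M), h.2, h'.2]
    · intro p hp e
      have := key _ p hp
      exact absurd (Prod.ext (by omega) (by omega)) e
    · intro e
      by_contra e'
      exact e (Finset.mem_antidiagonal.2 ⟨left_ne_zero_of_mul e', right_ne_zero_of_mul e', rfl⟩)
theorem QE3Aux.lead_single (N : ℤ) (a : ℂ) : Lead (HahnSeries.single N a) N a :=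
  ⟨fun _ h => HahnSeries.coeff_single_of_ne h.ne, HahnSeries.coeff_single_same _ _⟩
theorem Lead.pow {N : ℤ} {a : ℂ} (h : Lead c N a) (k : ℕ) : Lead (c ^ k) (k * N) (a ^ k) := by
  induction k with
  | zero => simpa using QE3Aux.lead_single 0 1
  | succ k ih =>
    rw [pow_succ, pow_succ, Nat.cast_succ, add_one_mul]
    exact ih.mul h
theorem Lead.inv {N : ℤ} {a : ℂ} (h : Lead c N a) (ha : a ≠ 0) : Lead c⁻¹ (-N) a⁻¹ := by
  have h0 : c ≠ 0 := fun e => ha (by rw [← h.2, e]; rfl)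
  have h1 : Lead c⁻¹ c⁻¹.order (c⁻¹.coeff c⁻¹.order) :=
    ⟨fun _ => HahnSeries.coeff_eq_zero_of_lt_order, rfl⟩
  have h2 := h.mul h1
  have h3 := mul_ne_zero ha (HahnSeries.coeff_order_eq_zero.not.2 (inv_ne_zero h0))
  rw [mul_inv_cancel₀ h0] at h2
  have h4 : N + c⁻¹.order = 0 := by
    by_contra e
    exact h3 (by rw [← h2.2, HahnSeries.coeff_one, if_neg e])
  have h5 := h2.2
  rw [h4, HahnSeries.coeff_one, if_pos rfl] at h5
  rwa [eq_inv_of_mul_eq_one_right h5.symm, eq_neg_of_add_eq_zero_right h4] at h1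
theorem Lead.dil {N : ℤ} {a : ℂ} (h : Lead c N a) (k : ℕ) (hk : 0 < k) :
    Lead (dil k hk c) (k * N) a := by
  have hk' : (0 : ℤ) < k := by exact_mod_cast hk
  refine ⟨fun M hM => ?_, ?_⟩
  · rw [dil_coeff]
    split_ifs
    exacts [h.1 _ (Int.ediv_lt_of_lt_mul hk' (by rwa [mul_comm])), rfl]
  · rw [dil_coeff, if_pos (dvd_mul_right _ _), Int.mul_ediv_cancel_left _ hk'.ne', h.2]

namespace QE3Aux

theorem q_pow (τ : ℍ) (m : ℕ) :
    Function.Periodic.qParam 1 τ ^ m = ee (((m : ℤ) : ℂ) * τ / (1 : ℕ)) := by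
  rw [Function.Periodic.qParam, ee, ← Complex.exp_nat_mul]
  congr 1
  push_cast
  ring

theorem of_nat {a : ℕ → ℂ}
    (h : ∀ τ : ℍ, HasSum (fun m => a m • Function.Periodic.qParam 1 τ ^ m) (f τ)) :
    ∃ c, QE 1 f c ∧ (∀ N < 0, c.coeff N = 0) ∧ ∀ m : ℕ, c.coeff m = a m := by
  have h1 : ∀ N < 0, (HahnSeries.ofPowerSeries ℤ ℂ (PowerSeries.mk a)).coeff N = 0 := fun N hN => by
    rw [PowerSeries.coeff_coe, if_pos hN]
  have h2 : ∀ m : ℕ, (HahnSeries.ofPowerSeries ℤ ℂ (PowerSeries.mk a)).coeff (m : ℤ) = a m :=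
    fun m => by rw [HahnSeries.ofPowerSeries_apply_coeff, PowerSeries.coeff_mk]
  refine ⟨_, fun τ => ?_, h1, h2⟩
  refine ((Nat.cast_injective (R := ℤ)).hasSum_iff fun N hN => ?_).1 ?_
  · rw [h1 N (not_le.1 fun e => hN ⟨N.toNat, Int.toNat_of_nonneg e⟩), zero_mul]
  · simpa only [Function.comp_def, h2, q_pow, smul_eq_mul] using h τ

theorem of_rat {a : ℕ → ℂ}
    (h : ∀ τ : ℍ, HasSum (fun m => a m • Function.Periodic.qParam 1 τ ^ m) (f τ))
    (hr : ∀ m, ∃ r : ℚ, a m = r) (h0 : a 0 = 1) : ∃ c, QE 1 f c ∧ RatS c ∧ Lead c 0 1 := by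
  obtain ⟨c, h1, h2, h3⟩ := of_nat h
  refine ⟨c, h1, fun N => ?_, h2, (h3 0).trans h0⟩
  rcases lt_or_ge N 0 with e | e
  · exact ⟨0, by rw [h2 N e, Rat.cast_zero]⟩
  · rw [← Int.toNat_of_nonneg e, h3]
    exact hr _

theorem eis {k : ℕ} (hk : 3 ≤ k) (he : Even k) :
    ∃ c, QE 1 (ModularForm.E hk) c ∧ RatS c ∧ Lead c 0 1 := by
  refine of_rat (hasSum_qExpansion one_pos
    (SlashInvariantFormClass.periodic_comp_ofComplex _ one_mem_strictPeriods_SL)
    (ModularFormClass.holo _) (ModularFormClass.bdd_at_infty _)) (fun m => ?_)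
    (EisensteinSeries.E_qExpansion_coeff_zero hk he)
  rw [EisensteinSeries.E_qExpansion_coeff hk he]
  split_ifs
  · exact ⟨1, Rat.cast_one.symm⟩
  · exact ⟨-(2 * k / bernoulli k) * ArithmeticFunction.sigma (k - 1) m, by push_cast; rfl⟩

theorem tail {q : ℂ} (hq : ‖q‖ ≤ 1 / 2) (K : ℕ) :
    ‖∏' m, (1 - q ^ (m + 1)) - ∏ m ∈ Finset.range K, (1 - q ^ (m + 1))‖ ≤
      2 ^ K * 4 * ‖q‖ ^ (K + 1) := by
  have h0 := norm_nonneg q
  have h1 := (ModularForm.multipliable_one_sub_pow (q := q) (by linarith)).hasProd.tendsto_prod_nat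
  refine le_of_tendsto' ((((Filter.tendsto_add_atTop_iff_nat K).2 h1).sub_const _).norm) fun M => ?_
  rw [add_comm M, Finset.prod_range_add, ← mul_sub_one, norm_mul, mul_assoc]
  have h2 : ‖q‖ ^ (K + 1) ≤ 1 / 2 := by
    rw [pow_succ]
    nlinarith [pow_le_one₀ (n := K) h0 (by linarith : ‖q‖ ≤ 1), pow_nonneg h0 K]
  refine mul_le_mul ?_ ?_ (norm_nonneg _) (by positivity)
  · rw [norm_prod]
    refine (Finset.prod_le_prod (fun _ _ => norm_nonneg _) fun m _ => ?_).trans_eq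
      (by rw [Finset.prod_const, Finset.card_range])
    refine (norm_sub_le _ _).trans ?_
    rw [norm_one, norm_pow]
    linarith [pow_le_one₀ (n := m + 1) h0 (by linarith : ‖q‖ ≤ 1)]
  · have h3 : ∑ m ∈ Finset.range M, ‖-q ^ (K + m + 1)‖ ≤ 2 * ‖q‖ ^ (K + 1) := by
      refine le_trans (Finset.sum_le_sum (g := fun m => (1 / 2 : ℝ) ^ m * ‖q‖ ^ (K + 1))
        fun m _ => ?_) ?_
      · rw [norm_neg, norm_pow, add_right_comm, pow_add, mul_comm]
        gcongr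
      · rw [← Finset.sum_mul]
        exact mul_le_mul_of_nonneg_right (sum_geometric_two_le M) (by positivity)
    simp only [sub_eq_add_neg (1 : ℂ)]
    refine (Finset.norm_prod_one_add_sub_one_le _ _).trans ?_
    have h4 := Real.abs_exp_sub_one_le (x := 2 * ‖q‖ ^ (K + 1))
      (by rw [abs_of_nonneg (by positivity)]; linarith)
    rw [abs_of_nonneg (a := 2 * _) (by positivity)] at h4
    linarith [Real.exp_le_exp.2 h3, le_abs_self (Real.exp (2 * ‖q‖ ^ (K + 1)) - 1)]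

theorem eta_eq (τ : ℍ) : ModularForm.eta τ * ee (-(τ : ℂ) / 24) =
    ∏' m, (1 - Function.Periodic.qParam 1 τ ^ (m + 1)) := by
  rw [ModularForm.eta, mul_right_comm, Function.Periodic.qParam, ee, ← Complex.exp_add]
  rw [show 2 * (Real.pi : ℂ) * Complex.I * τ / (24 : ℝ) +
    2 * Real.pi * Complex.I * (-(τ : ℂ) / 24) = 0 by push_cast; ring, Complex.exp_zero, one_mul]

end QE3Aux

theorem qe_E2 : ∃ c, QE 1 EisensteinSeries.E2 c ∧ RatS c ∧ Lead c 0 1 := by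
  refine QE3Aux.of_rat (a := fun m => if m = 0 then 1 else -24 * ArithmeticFunction.sigma 1 m)
    (fun τ => ?_) (fun m => ?_) (if_pos rfl)
  · simpa only [Function.Periodic.qParam, Complex.ofReal_one, div_one] using
      EisensteinSeries.hasSum_qExpansion_E2 (z := τ)
  · split_ifs
    · exact ⟨1, Rat.cast_one.symm⟩
    · exact ⟨-24 * ArithmeticFunction.sigma 1 m, by push_cast; rfl⟩
theorem qe_E4 : ∃ c, QE 1 ModularForm.E₄ c ∧ RatS c ∧ Lead c 0 1 := QE3Aux.eis _ (by decide)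
theorem qe_E6 : ∃ c, QE 1 ModularForm.E₆ c ∧ RatS c ∧ Lead c 0 1 := QE3Aux.eis _ (by decide)
/-- `η = q ^ (1 / 24) ∏ (1 - q ^ k)`; the product is known modulo any power of `q`. -/
theorem qe_eta : ∃ c, QE 1 (fun τ => ModularForm.eta τ * ee (-(τ : ℂ) / 24)) c ∧ RatS c ∧
    Lead c 0 1 ∧ ∀ K : ℕ, ∀ N : ℤ, N ≤ K → c.coeff N =
      (∏ k ∈ Finset.range K, (1 - HahnSeries.single ((k : ℤ) + 1) (1 : ℂ)) :
        LaurentSeries ℂ).coeff N := by
  obtain ⟨c, h1, -⟩ := QE3Aux.of_nat (f := fun τ => ModularForm.eta τ * ee (-(τ : ℂ) / 24))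
    (a := fun m => (m.factorial : ℂ)⁻¹ * iteratedDeriv m (fun q : ℂ => ∏' m, (1 - q ^ (m + 1))) 0)
    fun τ => by
      have := Complex.hasSum_taylorSeries_on_ball ModularForm.differentiableOn_tprod_one_sub_pow
        (mem_ball_zero_iff.2 (Function.Periodic.norm_qParam_lt_one one_pos τ.im_pos))
      rw [QE3Aux.eta_eq]
      simpa only [sub_zero, smul_eq_mul, mul_assoc, mul_comm (iteratedDeriv _ _ _)] using this
  have key : ∀ K : ℕ, ∀ N : ℤ, N ≤ K → c.coeff N =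
      (∏ k ∈ Finset.range K, (1 - HahnSeries.single ((k : ℤ) + 1) (1 : ℂ)) :
        LaurentSeries ℂ).coeff N := fun K N hN => by
    have h2 := h1.sub (qe_prod (Finset.range K) fun k _ =>
      (qe_one (n := 1)).sub (qe_mono 1 ((k : ℤ) + 1)))
    have h3 := h2.low one_pos (C := 2 ^ K * 4) (K := K + 1) (Y := 1) (fun τ hτ => by
      have e : ‖Function.Periodic.qParam 1 τ‖ = Real.exp (-(2 * Real.pi * τ.im)) := by
        rw [Function.Periodic.norm_qParam]
        congr 1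
        simp
      have h4 := QE3Aux.tail (q := Function.Periodic.qParam 1 τ) (by
        rw [e, Real.exp_neg, one_div]
        refine inv_anti₀ two_pos ?_
        nlinarith [Real.add_one_le_exp (2 * Real.pi * τ.im), Real.pi_gt_three]) K
      rw [e, ← Real.exp_nat_mul] at h4
      simp only [QE3Aux.eta_eq, one_mul]
      refine le_of_eq_of_le ?_ (h4.trans_eq ?_)
      · simp only [QE3Aux.q_pow, Nat.cast_succ]
      · congr 2
        push_cast
        ring) (N := N) (by exact_mod_cast Int.lt_add_one_of_le hN)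
    rwa [HahnSeries.coeff_sub, sub_eq_zero] at h3
  refine ⟨c, h1, fun N => ?_, ⟨fun M hM => ?_, ?_⟩, key⟩
  · rw [key N.toNat N (Int.self_le_toNat N)]
    refine rat_prod _ (fun k _ => RatS.sub ?_ ?_) N
    · simpa using rat_single 0 1
    · simpa using rat_single ((k : ℤ) + 1) 1
  · simp [key 0 M hM.le, hM.ne]
  · simp [key 0 0 le_rfl]
theorem qe_Delta : ∃ c, QE 1 ModularForm.discriminant c ∧ RatS c ∧ Lead c 1 1 := by
  obtain ⟨c, h1, h2, h3, -⟩ := qe_eta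
  refine ⟨HahnSeries.single 1 1 * c ^ 24, ?_, RatS.mul (by simpa using rat_single 1 1) (h2.pow _),
    by simpa using (QE3Aux.lead_single 1 1).mul (h3.pow 24)⟩
  have := (qe_mono 1 1).mul (h1.pow 24)
  refine (funext fun τ => ?_ : _ = ModularForm.discriminant) ▸ this
  rw [mul_pow, mul_left_comm, one_mul, ee, ee, ← Complex.exp_nat_mul, ← Complex.exp_add]
  rw [show 2 * (Real.pi : ℂ) * Complex.I * (((1 : ℤ) : ℂ) * τ / (1 : ℕ)) + (24 : ℕ) *
    (2 * Real.pi * Complex.I * (-(τ : ℂ) / 24)) = 0 by push_cast; ring, Complex.exp_zero, mul_one]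
  rfl
theorem qe_j : ∃ c, QE 1 jH c ∧ RatS c ∧ Lead c (-1) 1 := by
  obtain ⟨c, h1, h2, h3⟩ := qe_E4
  obtain ⟨d, k1, k2, k3⟩ := qe_Delta
  exact ⟨c ^ 3 * d⁻¹, (h1.pow 3).mul (k1.inv one_pos ModularForm.discriminant_ne_zero),
    (h2.pow 3).mul k2.inv, by simpa using (h3.pow 3).mul (k3.inv one_ne_zero)⟩

end Pool.Agent.Lib.MP_d6ddbd_nt.K
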