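import Mathlib
import Pool.Agent.Lib.MP_d6ddbd_nt.K.DefsX
import Pool.Agent.Lib.MP_d6ddbd_nt.GF.Val

/-! Heegner divisors: invariance and finiteness. -/

set_option autoImplicit false

open UpperHalfPlane
open scoped MatrixGroups
open Pool.Agent.Lib.MP_9177b7_ag.CM (jH up dn)

noncomputable section

namespace Pool.Agent.Lib.MP_d6ddbd_nt.K

namespace HeegAux

theorem fin_smul {D : ℍ → ℤ} (h : Fin0 D) (P : Orb → EE.Point) :
    Function.HasFiniteSupport fun c : Orb => D c.out • P c :=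
  h.subset fun c hc e => hc (by
    change D c.out • P c = 0
    rw [e]
    exact zero_zsmul _)

end HeegAux

open HeegAux

theorem hsum_add {D D' : ℍ → ℤ} (h : Fin0 D) (h' : Fin0 D') :
    Fin0 (fun z => D z + D' z) ∧ hsum (fun z => D z + D' z) = hsum D + hsum D' := by
  refine ⟨(h.union h').subset fun c hc => ?_, ?_⟩
  · by_contra e
    simp only [Set.mem_union, Set.mem_ofPred_eq, not_or, not_not] at e
    exact hc (by simp only [e.1, e.2, add_zero])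
  · simp only [hsum, add_zsmul]
    exact finsum_add_distrib (fin_smul h _) (fin_smul h' _)

theorem hsum_mul {D : ℍ → ℤ} (h : Fin0 D) (k : ℤ) :
    Fin0 (fun z => k * D z) ∧ hsum (fun z => k * D z) = k • hsum D := by
  refine ⟨h.subset fun c hc => right_ne_zero_of_mul hc, ?_⟩
  simp only [hsum, mul_zsmul]
  exact (smul_finsum' k (fin_smul h _)).symm

namespace HeegAux

/-- `z` is the root of the positive form `[A, B, C]`. -/
def Rt (A B C : ℤ) (z : ℍ) : Prop := 0 < A ∧ (A : ℂ) * (z : ℂ) ^ 2 + B * z + C = 0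

theorem Rt.real {A B C : ℤ} {z : ℍ} (h : Rt A B C z) :
    (B : ℝ) = -2 * A * z.re ∧ (C : ℝ) = A * (z.re ^ 2 + z.im ^ 2) ∧
      ((B ^ 2 - 4 * A * C : ℤ) : ℝ) = -(2 * A * z.im) ^ 2 := by
  have h1 := congrArg Complex.re h.2
  have h2 := congrArg Complex.im h.2
  simp [pow_two] at h1 h2
  have h3 : (B : ℝ) = -2 * A * z.re :=
    mul_right_cancel₀ z.im_pos.ne' (by linear_combination h2)
  have h4 : (C : ℝ) = A * (z.re ^ 2 + z.im ^ 2) := by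
    rw [h3] at h1
    linear_combination h1
  refine ⟨h3, h4, ?_⟩
  push_cast
  rw [h3, h4]
  ring

theorem Rt.pos {A B C : ℤ} {z : ℍ} (h : Rt A B C z) {p r : ℤ} (h0 : p ≠ 0 ∨ r ≠ 0) :
    0 < A * p ^ 2 + B * p * r + C * r ^ 2 := by
  obtain ⟨h1, h2, -⟩ := h.real
  have hA : (0 : ℝ) < A := by exact_mod_cast h.1
  have : (0 : ℝ) < A * ((p - r * z.re) ^ 2 + (r * z.im) ^ 2) := by
    refine mul_pos hA ?_
    by_cases hr : r = 0
    · have : (p : ℝ) ≠ 0 := by exact_mod_cast h0.resolve_right (not_not.2 hr)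
      simp only [hr, Int.cast_zero, zero_mul, sub_zero]
      positivity
    · have : (r : ℝ) ≠ 0 := by exact_mod_cast hr
      have := z.im_pos.ne'
      positivity
  have e : ((A * p ^ 2 + B * p * r + C * r ^ 2 : ℤ) : ℝ) =
      A * ((p - r * z.re) ^ 2 + (r * z.im) ^ 2) := by
    push_cast
    rw [h1, h2]
    ring
  exact_mod_cast e ▸ this

theorem det_eq (γ : SL(2, ℤ)) : γ 0 0 * γ 1 1 - γ 0 1 * γ 1 0 = 1 := by
  rw [← Matrix.det_fin_two]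
  exact γ.det_coe

theorem den (γ : SL(2, ℤ)) (z : ℍ) : (γ 1 0 : ℂ) * z + γ 1 1 ≠ 0 := by
  simpa [denom] using denom_ne_zero (γ : GL (Fin 2) ℝ) z

theorem coe_sl (γ : SL(2, ℤ)) (z : ℍ) :
    ((γ • z : ℍ) : ℂ) = ((γ 0 0 : ℂ) * z + γ 0 1) / ((γ 1 0 : ℂ) * z + γ 1 1) := by
  rw [coe_specialLinearGroup_apply]
  simp

theorem Rt.sl {A B C : ℤ} {z : ℍ} {γ : SL(2, ℤ)} (h : Rt A B C (γ • z)) :
    Rt (A * γ 0 0 ^ 2 + B * γ 0 0 * γ 1 0 + C * γ 1 0 ^ 2)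
      (2 * A * γ 0 0 * γ 0 1 + B * (γ 0 0 * γ 1 1 + γ 0 1 * γ 1 0) + 2 * C * γ 1 0 * γ 1 1)
      (A * γ 0 1 ^ 2 + B * γ 0 1 * γ 1 1 + C * γ 1 1 ^ 2) z := by
  refine ⟨h.pos ?_, ?_⟩
  · by_contra e
    rw [not_or, not_not, not_not] at e
    have := det_eq γ
    rw [e.1, e.2] at this
    simp at this
  · have h1 := h.2
    have h2 := div_mul_cancel₀ ((γ 0 0 : ℂ) * z + γ 0 1) (den γ z)
    rw [← coe_sl] at h2
    push_cast
    linear_combination ((γ 1 0 : ℂ) * z + γ 1 1) ^ 2 * h1 - (A * (((γ • z : ℍ) : ℂ) *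
      ((γ 1 0 : ℂ) * z + γ 1 1) + ((γ 0 0 : ℂ) * z + γ 0 1)) + B * ((γ 1 0 : ℂ) * z + γ 1 1)) * h2

theorem disc (A B C : ℤ) {p q r s : ℤ} (h : p * s - q * r = 1) :
    (2 * A * p * q + B * (p * s + q * r) + 2 * C * r * s) ^ 2 -
      4 * (A * p ^ 2 + B * p * r + C * r ^ 2) * (A * q ^ 2 + B * q * s + C * s ^ 2) =
      B ^ 2 - 4 * A * C := by
  linear_combination (B ^ 2 - 4 * A * C) * (p * s - q * r + 1) * h

theorem mem_hg {Δ β : ℤ} {z : ℍ} {Q : ℤ × ℤ × ℤ} : Q ∈ Hg Δ β z ↔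
    Rt (17 * Q.1) Q.2.1 Q.2.2 z ∧ Q.2.1 ^ 2 - 4 * (17 * Q.1) * Q.2.2 = Δ ∧
      (34 : ℤ) ∣ Q.2.1 - β := by
  simp only [Hg, Rt, Set.mem_ofPred_eq]
  push_cast
  constructor
  · rintro ⟨h1, h2, h3, h4⟩
    exact ⟨⟨by omega, h4⟩, by linear_combination h2, h3⟩
  · rintro ⟨⟨h1, h4⟩, h2, h3⟩
    exact ⟨by omega, by linear_combination h2, h3, h4⟩

end HeegAux

theorem hg_sub {Δ : ℤ} (hΔ : Δ < 0) (β : ℤ) (z : ℍ) : (Hg Δ β z).Subsingleton := by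
  rintro ⟨a, b, c⟩ h ⟨a', b', c'⟩ h'
  obtain ⟨h1, h2, -⟩ := mem_hg.1 h
  obtain ⟨h3, h4, -⟩ := mem_hg.1 h'
  obtain ⟨e1, e2, e3⟩ := h1.real
  obtain ⟨e4, e5, e6⟩ := h3.real
  rw [h2] at e3
  rw [h4, e3, neg_inj] at e6
  have p1 : (0 : ℝ) < ((17 * a : ℤ) : ℝ) := by exact_mod_cast h1.1
  have p2 : (0 : ℝ) < ((17 * a' : ℤ) : ℝ) := by exact_mod_cast h3.1
  have := z.im_pos
  have e7 := mul_right_cancel₀ this.ne' ((sq_eq_sq₀ (by positivity) (by positivity)).1 e6)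
  have e8 : ((17 * a : ℤ) : ℝ) = ((17 * a' : ℤ) : ℝ) := by linarith
  dsimp only at *
  rw [← e8, ← e1] at e4
  rw [← e8, ← e2] at e5
  have e9 : 17 * a = 17 * a' := by exact_mod_cast e8
  rw [show a = a' by omega, Int.cast_injective e4, Int.cast_injective e5]

theorem chi_sl (m : ℕ) (hm : Odd m) (A B C p q r s : ℤ) (h : p * s - q * r = 1) :
    chi m (A * p ^ 2 + B * p * r + C * r ^ 2) (2 * A * p * q + B * (p * s + q * r) + 2 * C * r * s)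
      (A * q ^ 2 + B * q * s + C * s ^ 2) = chi m A B C := by
  refine Finset.prod_congr rfl fun l hl => ?_
  have := Fact.mk (Nat.prime_of_mem_primeFactors hl)
  have l2 : l ≠ 2 := by
    rintro rfl
    exact (Nat.not_even_iff_odd.2 hm) (even_iff_two_dvd.2 (Nat.dvd_of_mem_primeFactors hl))
  rw [chip, chip, disc A B C h]
  by_cases hD : (l : ℤ) ∣ B ^ 2 - 4 * A * C
  swap
  · rw [if_neg hD, if_neg hD]
  rw [if_pos hD, if_pos hD]
  simp only [← jacobiSym.legendreSym.to_jacobiSym]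
  change GF.chi l _ _ = GF.chi l A C
  have z0 : ∀ x : ℤ, legendreSym l x = 0 ↔ (l : ℤ) ∣ x := fun x =>
    (legendreSym.eq_zero_iff l x).trans (ZMod.intCast_zmod_eq_zero_iff_dvd x l)
  have v1 := GF.chi_val l2 hD p r
  have v2 := GF.chi_val l2 hD q s
  rw [GF.chi]
  split_ifs with h1
  · rcases v2 with h2 | h2
    · have h3 := (z0 _).1 h2
      rw [← disc A B C h] at hD
      have h4 := Int.Prime.dvd_pow' (Fact.out : l.Prime)
        ((dvd_sub_left (Dvd.dvd.mul_left h3 _)).1 hD)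
      have hA : (l : ℤ) ∣ A := by
        have := dvd_add (dvd_sub (h1.mul_right (s ^ 2)) (h4.mul_right (r * s)))
          (h3.mul_right (r ^ 2))
        exact this.trans (dvd_of_eq (by linear_combination A * (p * s - q * r + 1) * h))
      have hC : (l : ℤ) ∣ C := by
        have := dvd_add (dvd_sub (h1.mul_right (q ^ 2)) (h4.mul_right (p * q)))
          (h3.mul_right (p ^ 2))
        exact this.trans (dvd_of_eq (by linear_combination C * (p * s - q * r + 1) * h))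
      rw [h2, GF.chi, if_pos hA, (z0 _).2 hC]
    · exact h2
  · exact v1.resolve_left fun e => h1 ((z0 _).1 e)

namespace HeegAux

theorem dv_eq (m : ℕ) {Δ : ℤ} (hΔ : Δ < 0) {β : ℤ} {z : ℍ} {Q : ℤ × ℤ × ℤ} (h : Q ∈ Hg Δ β z) :
    Dv m Δ β z = chi m (17 * Q.1) Q.2.1 Q.2.2 := by
  rw [Dv, (hg_sub hΔ β z).eq_singleton_of_mem h, finsum_mem_singleton]

theorem ne_of_dv {m : ℕ} {Δ β : ℤ} {z : ℍ} (h : Dv m Δ β z ≠ 0) : (Hg Δ β z).Nonempty := by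
  by_contra e
  rw [Dv, Set.not_nonempty_iff_eq_empty.1 e, finsum_mem_empty] at h
  exact h rfl

theorem dv_congr (m : ℕ) {Δ : ℤ} (hΔ : Δ < 0) {β β' : ℤ} {z z' : ℍ}
    (h : ∀ Q ∈ Hg Δ β z, ∃ Q' ∈ Hg Δ β' z',
      chi m (17 * Q'.1) Q'.2.1 Q'.2.2 = chi m (17 * Q.1) Q.2.1 Q.2.2)
    (h' : (Hg Δ β' z').Nonempty → (Hg Δ β z).Nonempty) : Dv m Δ β z = Dv m Δ β' z' := by
  by_cases e : (Hg Δ β z).Nonempty
  · obtain ⟨Q, hQ⟩ := e
    obtain ⟨Q', h1, h2⟩ := h Q hQ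
    rw [dv_eq m hΔ hQ, dv_eq m hΔ h1, h2]
  · rw [not_not.1 fun e' => e (ne_of_dv e'), not_not.1 fun e' => e (h' (ne_of_dv e'))]

theorem hg_sl {Δ β : ℤ} {γ : SL(2, ℤ)} (h : γ ∈ G0) {z : ℍ} {Q : ℤ × ℤ × ℤ}
    (hQ : Q ∈ Hg Δ β (γ • z)) : ∃ Q' ∈ Hg Δ β z, ∀ m : ℕ, Odd m →
      chi m (17 * Q'.1) Q'.2.1 Q'.2.2 = chi m (17 * Q.1) Q.2.1 Q.2.2 := by
  obtain ⟨a, b, c⟩ := Q
  obtain ⟨h1, h2, h3⟩ := mem_hg.1 hQ
  obtain ⟨k, hk⟩ := (ZMod.intCast_zmod_eq_zero_iff_dvd _ 17).1 (CongruenceSubgroup.Gamma0_mem.1 h)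
  have h4 := h1.sl
  have hd := det_eq γ
  dsimp only at h2 h3 h4
  have e : 17 * (a * γ 0 0 ^ 2 + b * γ 0 0 * k + 17 * c * k ^ 2) =
      17 * a * γ 0 0 ^ 2 + b * γ 0 0 * γ 1 0 + c * γ 1 0 ^ 2 := by
    rw [hk]
    push_cast
    ring
  refine ⟨(a * γ 0 0 ^ 2 + b * γ 0 0 * k + 17 * c * k ^ 2, _, _), mem_hg.2 ⟨e ▸ h4, ?_, ?_⟩,
    fun m hm => ?_⟩
  · dsimp only
    rw [e, disc _ _ _ hd, h2]
  · dsimp only
    have := dvd_add h3 (Dvd.intro (a * γ 0 0 * γ 0 1 + b * γ 0 1 * k + c * k * γ 1 1) rfl)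
    refine this.trans (dvd_of_eq ?_)
    rw [hk] at hd ⊢
    push_cast at hd ⊢
    linear_combination (-b) * hd
  · dsimp only
    rw [e, chi_sl m hm _ _ _ _ _ _ _ hd]

end HeegAux

theorem dv_inv (m : ℕ) (hm : Odd m) {Δ : ℤ} (hΔ : Δ < 0) (β : ℤ) {γ : SL(2, ℤ)} (h : γ ∈ G0)
    (z : ℍ) : Dv m Δ β (γ • z) = Dv m Δ β z := by
  refine dv_congr m hΔ (fun Q hQ => ?_) fun ⟨Q, hQ⟩ => ?_
  · obtain ⟨Q', h1, h2⟩ := hg_sl h hQ
    exact ⟨Q', h1, h2 m hm⟩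
  · rw [← inv_smul_smul γ z] at hQ
    obtain ⟨Q', h1, -⟩ := hg_sl (inv_mem h) hQ
    exact ⟨Q', h1⟩

namespace HeegAux

theorem fin_fd (Δ : ℤ) :
    {τ : ℍ | τ ∈ ModularGroup.fd ∧ ∃ A B C : ℤ, Rt A B C τ ∧ B ^ 2 - 4 * A * C = Δ}.Finite := by
  refine (((Set.finite_Icc 1 |Δ|).prod (Set.finite_Icc (-|Δ|) |Δ|)).image fun x : ℤ × ℤ =>
    ofComplex ⟨-x.2 / (2 * x.1), √(-Δ) / (2 * x.1)⟩).subset ?_
  rintro τ ⟨h1, A, B, C, h2, h3⟩
  obtain ⟨e1, -, e3⟩ := h2.real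
  rw [h3] at e3
  have hA : (1 : ℝ) ≤ A := by exact_mod_cast h2.1
  have h4 := ModularGroup.three_le_four_mul_im_sq_of_mem_fd h1
  have h5 := abs_le.1 h1.2
  have h6 : (A : ℝ) ≤ -Δ := by
    nlinarith [mul_le_mul_of_nonneg_left h4 (sq_nonneg (A : ℝ)), mul_le_mul_of_nonneg_left hA
      (zero_le_one.trans hA)]
  have h7 : A ≤ |Δ| := le_trans (by exact_mod_cast h6) (neg_le_abs Δ)
  have h8 : -A ≤ B := by
    have : -(A : ℝ) ≤ B := by nlinarith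
    exact_mod_cast this
  have h9 : B ≤ A := by
    have : (B : ℝ) ≤ A := by nlinarith
    exact_mod_cast this
  refine ⟨(A, B), ⟨⟨h2.1, h7⟩, by omega, by omega⟩, ?_⟩
  have := τ.im_pos
  refine Eq.trans (congrArg ofComplex (Complex.ext ?_ ?_)) (ofComplex_apply τ)
  · simp only [coe_re, e1]
    field_simp
  · simp only [coe_im, e3, neg_neg]
    rw [Real.sqrt_sq (by positivity)]
    field_simp

theorem mk_smul {γ : SL(2, ℤ)} (h : γ ∈ G0) (z : ℍ) :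
    (Quotient.mk _ (γ • z) : Orb) = Quotient.mk _ z :=
  Quotient.sound ⟨⟨γ, h⟩, rfl⟩

theorem out_mk (z : ℍ) : ∃ γ ∈ G0, (Quotient.mk _ z : Orb).out = γ • z := by
  obtain ⟨γ, h⟩ := Quotient.exact (Quotient.out_eq (Quotient.mk _ z : Orb))
  exact ⟨γ.1, γ.2, h.symm⟩

end HeegAux

theorem dv_fin (m : ℕ) {Δ : ℤ} (hΔ : Δ < 0) (β : ℤ) : Fin0 (Dv m Δ β) := by
  refine (((Set.finite_univ (α := SL(2, ℤ) ⧸ G0)).prod (fin_fd Δ)).image
    fun x => (Quotient.mk _ (x.1.out⁻¹ • x.2) : Orb)).subset fun c hc => ?_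
  obtain ⟨Q, hQ⟩ := ne_of_dv hc
  obtain ⟨h1, h2, -⟩ := mem_hg.1 hQ
  obtain ⟨g, hg⟩ := ModularGroup.exists_smul_mem_fd c.out
  rw [← inv_smul_smul g c.out] at h1
  obtain ⟨k, hk⟩ := QuotientGroup.mk_out_eq_mul G0 g
  refine ⟨(g, g • c.out), ⟨trivial, hg, _, _, _, h1.sl, (disc _ _ _ (det_eq _)).trans h2⟩, ?_⟩
  dsimp only
  rw [hk, mul_inv_rev, mul_smul, inv_smul_smul, mk_smul (inv_mem k.2), Quotient.out_eq]

namespace HeegAux

theorem j_I : jH I = 1728 := by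
  have hγ : (ModularGroup.S : GL (Fin 2) ℝ) ∈ 𝒮ℒ := ⟨ModularGroup.S, rfl⟩
  have h1 : ModularForm.E₆ (ModularGroup.S • I) = _ :=
    SlashInvariantForm.slash_action_eqn'' ModularForm.E₆ hγ I
  rw [ModularGroup.stabilizer_I.2 (by simp), ModularGroup.denom_S, coe_I, zpow_ofNat,
    show Complex.I ^ 6 = -1 by rw [show 6 = 2 * 3 from rfl, pow_mul, Complex.I_sq]; norm_num] at h1
  have h2 : ModularForm.E₆ I = 0 := by linear_combination h1 / 2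
  have h3 := ModularForm.discriminant_eq_E₄_cube_sub_E₆_sq I
  rw [jH, div_eq_iff (ModularForm.discriminant_ne_zero I), h3, h2]
  ring

theorem j_rho : jH ρ = 0 := by
  have hγ : ((ModularGroup.S * ModularGroup.T : SL(2, ℤ)) : GL (Fin 2) ℝ) ∈ 𝒮ℒ := ⟨_, rfl⟩
  have h1 : ModularForm.E₄ ((ModularGroup.S * ModularGroup.T) • ρ) = _ :=
    SlashInvariantForm.slash_action_eqn'' ModularForm.E₄ hγ ρ
  have e0 := ρ_sq
  have e1 : (ρ : ℂ) + 1 ≠ 0 := fun e => ρ.im_pos.ne' (by simpa using congrArg Complex.im e)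
  have e2 : (ModularGroup.S * ModularGroup.T) • ρ = ρ := by
    ext1
    rw [coe_sl]
    simp [ModularGroup.S, ModularGroup.T, Matrix.mul_apply, Fin.sum_univ_two]
    field_simp
    linear_combination -e0
  have e3 : denom ((ModularGroup.S * ModularGroup.T : SL(2, ℤ)) : GL (Fin 2) ℝ) ρ = ρ + 1 := by
    simp [denom, ModularGroup.S, ModularGroup.T, Matrix.mul_apply, Fin.sum_univ_two]
  rw [e2, e3, zpow_ofNat] at h1
  have e4 : (ρ : ℂ) + 2 ≠ 0 := fun e => ρ.im_pos.ne' (by simpa using congrArg Complex.im e)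
  have h2 : ModularForm.E₄ ρ = 0 := by
    refine (mul_eq_zero.1 ?_).resolve_left e4
    linear_combination h1 + ((ρ : ℂ) ^ 2 + 3 * ρ + 2) * ModularForm.E₄ ρ * e0
  rw [jH, h2]
  simp

end HeegAux

theorem dv_j (m : ℕ) {Δ : ℤ} (hΔ : Δ < 0) (β : ℤ) (h1 : ¬ IsSquare (-Δ)) (h3 : ¬ IsSquare (-3 * Δ))
    {z : ℍ} (h : (Hg Δ β z).Nonempty) : jH z ≠ 0 ∧ jH z ≠ 1728 := by
  obtain ⟨Q, hQ⟩ := h
  obtain ⟨h4, h5, -⟩ := mem_hg.1 hQ
  have key : ∀ w : ℍ, jH w = jH z → ∃ A : ℤ, (Δ : ℝ) = -(2 * A * w.im) ^ 2 := fun w hw => by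
    obtain ⟨γ, rfl⟩ := MP_9177b7_ag.CM.hyp.jH_eq_iff.1 hw
    have h6 := h4.sl.real.2.2
    rw [disc _ _ _ (det_eq γ), h5] at h6
    exact ⟨_, h6⟩
  refine ⟨fun e => h3 ?_, fun e => h1 ?_⟩
  · obtain ⟨A, hA⟩ := key ρ (j_rho.trans e.symm)
    refine ⟨3 * A, ?_⟩
    have e1 : ρ.im = √3 / 2 := rfl
    have e2 : √3 ^ 2 = 3 := Real.sq_sqrt (by norm_num)
    have : ((-3 * Δ : ℤ) : ℝ) = ((3 * A * (3 * A) : ℤ) : ℝ) := by
      push_cast
      rw [hA, e1]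
      linear_combination 3 * (A : ℝ) ^ 2 * e2
    exact_mod_cast this
  · obtain ⟨A, hA⟩ := key I (j_I.trans e.symm)
    refine ⟨2 * A, ?_⟩
    have : ((-Δ : ℤ) : ℝ) = ((2 * A * (2 * A) : ℤ) : ℝ) := by
      push_cast
      rw [hA, I_im]
      ring
    exact_mod_cast this

end Pool.Agent.Lib.MP_d6ddbd_nt.K
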