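import Mathlib
import Pool.Agent.Lib.MP_d6ddbd_nt.K.QE1
import Pool.Agent.Lib.MP_d6ddbd_nt.K.Heeg1

/-! The norm to level `17` and the Fricke involution on Heegner divisors. -/

set_option autoImplicit false

open UpperHalfPlane
open scoped MatrixGroups
open Pool.Agent.Lib.MP_9177b7_ag.CM (jH up dn)

noncomputable section

namespace Pool.Agent.Lib.MP_d6ddbd_nt.K.HeegAux

theorem exists_norm {n : ℕ} (hn : 0 < n) : ∃ (ι : Type) (s : Finset ι) (g : ι → SL(2, ℤ)),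
    s.Nonempty ∧ (∀ i, g i ∈ G0) ∧
      ∀ f, MF (CongruenceSubgroup.Gamma n) f → MF G0 fun τ => ∏ i ∈ s, f (g i • τ) := by
  have : NeZero n := ⟨hn.ne'⟩
  have := Fintype.ofFinite (G0 ⧸ (CongruenceSubgroup.Gamma n).subgroupOf G0)
  refine ⟨G0 ⧸ (CongruenceSubgroup.Gamma n).subgroupOf G0, Finset.univ, fun q => (q.out⁻¹ : G0),
    Finset.univ_nonempty, fun q => Subtype.property _, fun f h => ⟨?_, fun γ hγ τ => ?_, ?_⟩⟩
  · exact hol_prod _ fun q _ => h.hol.smul _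
  · rw [← Equiv.prod_comp (MulAction.toPerm (⟨γ, hγ⟩ : G0))]
    refine Finset.prod_congr rfl fun q _ => ?_
    obtain ⟨k, hk⟩ := QuotientGroup.mk_out_eq_mul
      ((CongruenceSubgroup.Gamma n).subgroupOf G0) ((⟨γ, hγ⟩ : G0) • q.out)
    rw [MulAction.Quotient.coe_smul_out] at hk
    beta_reduce
    rw [MulAction.toPerm_apply, hk, smul_eq_mul, mul_inv_rev, mul_inv_rev, Subgroup.coe_mul,
      Subgroup.coe_mul, mul_smul, mul_smul, Subgroup.coe_inv (x := ⟨γ, hγ⟩), inv_smul_smul]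
    exact h.inv _ (inv_mem k.2) _
  · exact fun g => gro_prod _ fun q _ => by simpa only [mul_smul] using h.gro (_ * g)

theorem abel_of
    (abel : ∀ {f₁ f₂ : ℍ → ℂ}, MF G0 f₁ → MF G0 f₂ → f₁ ≠ 0 → f₂ ≠ 0 → ∀ D : ℍ → ℤ,
      (∀ z, D z = (ord f₁ z : ℤ) - ord f₂ z) → (∀ z, D z ≠ 0 → jH z ≠ 0 ∧ jH z ≠ 1728) →
      IsOfFinAddOrder (hsum D))
    {n : ℕ} (hn : 0 < n) {f₁ f₂ : ℍ → ℂ}
    (h₁ : MF (CongruenceSubgroup.Gamma n) f₁) (h₂ : MF (CongruenceSubgroup.Gamma n) f₂)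
    (n₁ : f₁ ≠ 0) (n₂ : f₂ ≠ 0) (D : ℍ → ℤ) (N : ℤ) (hN : N ≠ 0)
    (hD : ∀ z, N * D z = (ord f₁ z : ℤ) - ord f₂ z) (hi : ∀ γ ∈ G0, ∀ z, D (γ • z) = D z)
    (hf : Fin0 D) (hj : ∀ z, D z ≠ 0 → jH z ≠ 0 ∧ jH z ≠ 1728) :
    IsOfFinAddOrder (hsum D) := by
  obtain ⟨ι, s, g, h0, hg, H⟩ := exists_norm hn
  have key : ∀ f : ℍ → ℂ, Hol f → f ≠ 0 → ∀ z, (fun τ => ∏ i ∈ s, f (g i • τ)) ≠ 0 ∧
      ord (fun τ => ∏ i ∈ s, f (g i • τ)) z = ∑ i ∈ s, ord f (g i • z) := fun f h h' z => by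
    have := ord_prod s (F := fun i τ => f (g i • τ)) (fun i _ => h.smul _)
      (fun i _ e => h' (funext fun τ => by simpa using congrFun e ((g i)⁻¹ • τ))) z
    exact ⟨this.1, this.2.trans (Finset.sum_congr rfl fun i _ => ord_smul h _ _)⟩
  have h := abel (H _ h₁) (H _ h₂) (key _ h₁.hol n₁ I).1 (key _ h₂.hol n₂ I).1
    (fun z => s.card * N * D z) (fun z => ?_) fun z hz => hj z (right_ne_zero_of_mul hz)
  · rw [(hsum_mul hf _).2, isOfFinAddOrder_iff_zsmul_eq_zero] at h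
    obtain ⟨k, h1, h2⟩ := h
    refine isOfFinAddOrder_iff_zsmul_eq_zero.2 ⟨k * (s.card * N), ?_, by rw [mul_zsmul, h2]⟩
    exact mul_ne_zero h1 (mul_ne_zero (by exact_mod_cast h0.card_ne_zero) hN)
  · rw [(key _ h₁.hol n₁ z).2, (key _ h₂.hol n₂ z).2]
    push_cast
    rw [← Finset.sum_sub_distrib, Finset.sum_congr rfl fun i _ => (hD _).symm,
      Finset.sum_congr rfl fun i _ => congrArg (N * ·) (hi _ (hg i) z), Finset.sum_const,
      nsmul_eq_mul, mul_assoc]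

/-- The Fricke involution. -/
def WW (z : ℍ) : ℍ := ofComplex (-1 / (17 * (z : ℂ)))

theorem coe_WW (z : ℍ) : (WW z : ℂ) = -1 / (17 * (z : ℂ)) := by
  have h : 0 < (-1 / (17 * (z : ℂ))).im := by
    have h1 := z.im_pos
    have h2 := Complex.normSq_pos.2 z.ne_zero
    simp only [neg_div, one_div, Complex.neg_im, Complex.inv_im, map_mul, neg_neg]
    simp
    positivity
  rw [WW, ofComplex_apply_of_im_pos h]

theorem WW_WW (z : ℍ) : WW (WW z) = z := by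
  ext1
  have := z.ne_zero
  rw [coe_WW, coe_WW]
  field_simp

theorem WW_smul {γ : SL(2, ℤ)} (h : γ ∈ G0) (z : ℍ) : ∃ δ ∈ G0, WW (γ • z) = δ • WW z := by
  obtain ⟨k, hk⟩ := (ZMod.intCast_zmod_eq_zero_iff_dvd _ 17).1 (CongruenceSubgroup.Gamma0_mem.1 h)
  have hd := det_eq γ
  let δ : SL(2, ℤ) := ⟨!![γ 1 1, -k; -17 * γ 0 1, γ 0 0], by
    rw [hk] at hd
    rw [Matrix.det_fin_two_of]
    push_cast at hd
    linear_combination hd⟩
  refine ⟨δ, CongruenceSubgroup.Gamma0_mem.2 ((ZMod.intCast_zmod_eq_zero_iff_dvd _ 17).2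
    ⟨-γ 0 1, by simp [δ]⟩), ?_⟩
  ext1
  have h1 := den γ z
  have h2 := (γ • z).ne_zero
  have h3 := den δ (WW z)
  have h4 := z.ne_zero
  rw [coe_sl] at h2
  have h5 := (div_ne_zero_iff.1 h2).1
  rw [coe_WW, coe_sl, coe_sl, eq_div_iff h3, coe_WW, hk]
  simp only [δ, Matrix.of_apply, Matrix.cons_val',
    Matrix.cons_val_zero, Matrix.cons_val_one, Matrix.cons_val_fin_one]
  push_cast
  rw [show -17 * (γ 0 1 : ℂ) * (-1 / (17 * (z : ℂ))) + γ 0 0 = ((γ 0 0 : ℂ) * z + γ 0 1) / z by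
    field_simp
    ring]
  generalize (γ 0 0 : ℂ) * z + γ 0 1 = u at h5
  field_simp
  ring

theorem jac_prod (a : ℤ) (s : Finset ℕ) (h : ∀ p ∈ s, p ≠ 0) :
    jacobiSym a (∏ p ∈ s, p) = ∏ p ∈ s, jacobiSym a p := by
  induction s using Finset.cons_induction with
  | empty => simp
  | cons p s hp ih =>
    have h1 : ∀ q ∈ s, q ≠ 0 := fun q hq => h q (Finset.mem_cons_of_mem hq)
    rw [Finset.prod_cons, Finset.prod_cons, ← ih h1,
      jacobiSym.mul_right' a (h p (Finset.mem_cons_self _ _)) (Finset.prod_ne_zero_iff.2 h1)]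

theorem chi_W (m : ℕ) (hm : Odd m) (h17 : jacobiSym 17 m = 1) (hs : Squarefree m) (a b c : ℤ) :
    chi m (17 * c) (-b) a = chi m (17 * a) b c := by
  have h1 := chi_sl m hm a b (17 * c) 0 (-1) 1 0 (by norm_num)
  have h2 := jac_prod 17 m.primeFactors fun p hp => (Nat.prime_of_mem_primeFactors hp).ne_zero
  rw [Nat.prod_primeFactors_of_squarefree hs, h17] at h2
  simp only [mul_zero, neg_zero, zero_add, add_zero, mul_one, mul_neg, one_pow, even_two,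
    Even.neg_pow, ne_eq, OfNat.ofNat_ne_zero, not_false_eq_true, zero_pow] at h1
  rw [h1, ← one_mul (chi m a b _), h2, chi, chi, ← Finset.prod_mul_distrib]
  refine Finset.prod_congr rfl fun p hp => ?_
  have h3 : jacobiSym 17 p ≠ 0 := Finset.prod_ne_zero_iff.1 (h2 ▸ one_ne_zero) p hp
  have h4 := Nat.prime_of_mem_primeFactors hp
  have := Fact.mk h4
  have h5 : ¬ (p : ℤ) ∣ 17 := fun e => h3 (by
    rw [← jacobiSym.legendreSym.to_jacobiSym, legendreSym.eq_zero_iff]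
    exact (ZMod.intCast_zmod_eq_zero_iff_dvd _ p).2 e)
  have h6 : (p : ℤ) ∣ 17 * a ↔ (p : ℤ) ∣ a :=
    ⟨fun e => (Int.Prime.dvd_mul' h4 e).resolve_left h5, fun e => e.mul_left _⟩
  rw [chip, chip, show b ^ 2 - 4 * (17 * a) * c = b ^ 2 - 4 * a * (17 * c) by ring,
    jacobiSym.mul_left, jacobiSym.mul_left]
  simp only [h6]
  split_ifs
  · rcases jacobiSym.trichotomy 17 p with e | e | e
    · exact (h3 e).elim
    · rw [e, one_mul, one_mul]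
    · rw [e, neg_one_mul, neg_one_mul, neg_neg]
  · rfl
  · exact mul_zero _

theorem hg_W {Δ β : ℤ} {z : ℍ} {Q : ℤ × ℤ × ℤ} (h : Q ∈ Hg Δ β z) :
    (Q.2.2, -Q.2.1, Q.1) ∈ Hg Δ (-β) (WW z) := by
  have h0 := (mem_hg.1 h).1.pos (p := 0) (r := 1) (Or.inr one_ne_zero)
  obtain ⟨-, h2, h3, h4⟩ := h
  refine ⟨by simpa using h0, by linear_combination h2, ?_, ?_⟩
  · exact (dvd_neg.2 h3).trans (dvd_of_eq (by ring))
  · have := z.ne_zero
    rw [coe_WW]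
    push_cast
    field_simp
    linear_combination h4

theorem dv_W (m : ℕ) (hm : Odd m) (h17 : jacobiSym 17 m = 1) (hs : Squarefree m) {Δ : ℤ}
    (hΔ : Δ < 0) (β : ℤ) (z : ℍ) : Dv m Δ (-β) (WW z) = Dv m Δ β z := by
  refine (dv_congr m hΔ (fun Q hQ => ⟨_, hg_W hQ, chi_W m hm h17 hs _ _ _⟩) fun ⟨Q, hQ⟩ => ?_).symm
  have := hg_W hQ
  rw [neg_neg, WW_WW] at this
  exact ⟨_, this⟩

theorem pp_of (hi : ∀ γ ∈ G0, ∀ τ, phi (γ • τ) = phi τ) (hW : ∀ τ, phi (WW τ) = TT - phi τ)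
    (m : ℕ) (hm : Odd m) (h17 : jacobiSym 17 m = 1) (hs : Squarefree m) {Δ : ℤ}
    (hΔ : Δ < 0) (β : ℤ) : PP m Δ (-β) = hdeg (Dv m Δ β) • TT - PP m Δ β := by
  have hv : Function.Involutive fun c : Orb => (Quotient.mk _ (WW c.out) : Orb) := fun c => by
    obtain ⟨γ, h1, h2⟩ := out_mk (WW c.out)
    obtain ⟨δ, h3, h4⟩ := WW_smul h1 (WW c.out)
    beta_reduce
    rw [h2, h4, mk_smul h3, WW_WW, Quotient.out_eq]
  have hf := dv_fin m hΔ β
  have e : hdeg (Dv m Δ β) • TT = ∑ᶠ c : Orb, Dv m Δ β c.out • TT := finsum_smul' hf TT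
  rw [PP, PP, hsum, hsum, e, ← finsum_comp_equiv hv.toPerm,
    ← finsum_sub_distrib (fin_smul hf _) (fin_smul hf _)]
  refine finsum_congr fun c => ?_
  obtain ⟨γ, h1, h2⟩ := out_mk (WW c.out)
  rw [Function.Involutive.coe_toPerm, h2, dv_inv m hm hΔ _ h1, hi γ h1, hW, dv_W m hm h17 hs hΔ,
    zsmul_sub]

end Pool.Agent.Lib.MP_d6ddbd_nt.K.HeegAux
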