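import Mathlib
import Pool.Agent.Lib.MP_d6ddbd_nt.K.Defs

set_option autoImplicit false

open UpperHalfPlane
open scoped MatrixGroups
open Pool.Agent.Lib.MP_9177b7_ag.CM (jH up dn)

noncomputable section

namespace Pool.Agent.Lib.MP_d6ddbd_nt.K

/-- Jacobi forms of weight `k` and index `M`, with poles at the cusp allowed. -/
structure JF (M : ℕ) (k : ℤ) (φ : ℂ → ℂ → ℂ) : Prop where
  diff : ∀ τ z : ℂ, 0 < τ.im → DifferentiableAt ℂ (fun p : ℂ × ℂ => φ p.1 p.2) (τ, z)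
  e1 : ∀ τ z : ℂ, 0 < τ.im → φ τ (z + 1) = φ τ z
  e2 : ∀ τ z : ℂ, 0 < τ.im → φ τ (z + τ) = ee (-(M * (τ + 2 * z))) * φ τ z
  lawT : ∀ τ z : ℂ, 0 < τ.im → φ (τ + 1) z = φ τ z
  lawS : ∃ l : ℂ, l ≠ 0 ∧ ∀ τ z : ℂ, 0 < τ.im →
    φ (-1 / τ) (z / τ) = l * τ ^ k * ee (M * z ^ 2 / τ) * φ τ z

/-- The theta components of a Jacobi form. -/
def cmp (M : ℕ) (φ : ℂ → ℂ → ℂ) (r : ℤ) (τ : ℍ) : ℂ :=
  ee (-(r : ℂ) ^ 2 * τ / (4 * M)) * ∫ x in (0 : ℝ)..1, φ τ x * ee (-(r * x))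

/-- The odd vector `e_h - e_(-h)` modulo `34`. -/
def od (h r : ℤ) : ℤ := (if (34 : ℤ) ∣ r - h then 1 else 0) - (if (34 : ℤ) ∣ r + h then 1 else 0)

/-- The embedding of forms and a trace into matrices. -/
def piM (a b c r : ℤ) : Mat ℤ := !![r - 3 * b, -6 * c; 102 * a, r + 3 * b]

/-- The action of an integer matrix of positive determinant. -/
def act (A : Mat ℤ) (z : ℍ) : ℍ :=
  ofComplex (((A 0 0 : ℂ) * z + A 0 1) / ((A 1 0 : ℂ) * z + A 1 1))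

/-- Hermite representatives of determinant `m`. -/
def herm (m : ℕ) : Finset (Mat ℤ) :=
  (m.divisorsAntidiagonal.sigma fun p => Finset.range p.2).image
    fun s => !![(s.1.1 : ℤ), (s.2 : ℤ); 0, (s.1.2 : ℤ)]

/-- The Hecke sums. -/
def psi {n : ℕ} [NeZero n] (F : Mat (ZMod n) → ℍ → ℂ) (m : ℕ) (z : ℍ) : ℂ :=
  ∑ A ∈ herm m, pf F (red n A) (act A z)

def Pi0 (L : ℕ) (z₁ z₂ : ℍ) : ℂ :=
  ∏ δ ∈ Finset.Icc 1 L, ∏ A ∈ herm δ, (jH z₂ - jH (act A z₁))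

/-- The symmetric product of modular polynomials. -/
def Pi1 (L : ℕ) (z₁ z₂ : ℍ) : ℂ := Pi0 L z₁ z₂ * Pi0 L z₂ z₁

/-- Finite sums of products of modular functions. -/
def Ten (Γ : Subgroup SL(2, ℤ)) (R : ℍ → ℍ → ℂ) : Prop :=
  ∃ (k : ℕ) (a b : Fin k → ℍ → ℂ), (∀ i, MF Γ (a i)) ∧ (∀ i, MF Γ (b i)) ∧
    ∀ z₁ z₂, R z₁ z₂ = ∑ i, a i z₁ * b i z₂

def del (n : ℕ) (x u : ℕ) (y : ZMod n) (z₁ z₂ : ℍ) : ℂ :=
  ee (-(x * (z₁ : ℂ) + y.val) / n) - ee (-(u * (z₂ : ℂ)) / n)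

/-- Pairs of positive integers with product at most `L`. -/
def idx (L : ℕ) : Finset (ℕ × ℕ) :=
  (Finset.Icc 1 L ×ˢ Finset.Icc 1 L).filter fun p => p.1 * p.2 ≤ L

/-- The Taylor coefficient of order `k` along the diagonal. -/
def qp (k : ℕ) (R : ℍ → ℍ → ℂ) (z : ℍ) : ℂ :=
  (k.factorial : ℂ)⁻¹ * iteratedDeriv k (R z ∘ ofComplex) z

/-- Vanishing to order `k` along the graph of `α`. -/
def Van (R : ℍ → ℍ → ℂ) (α : Mat ℤ) (k : ℕ) : Prop :=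
  ∀ z : ℍ, ∀ i < k, iteratedDeriv i (R z ∘ ofComplex) (act α z) = 0

/-- Primitive matrices. -/
def Prim (α : Mat ℤ) : Prop := ∀ d : ℤ, (∀ i j, d ∣ α i j) → IsUnit d

/-- The multiplicity along the graph of a primitive matrix. -/
def msum (L : ℕ) (μ : Mat ℤ → ℕ) (α : Mat ℤ) : ℕ :=
  ∑ k ∈ (Finset.Icc 1 L).filter (fun k : ℕ => (k : ℤ) ^ 2 * α.det ≤ L), μ ((k : ℤ) • α)

/-- Modular functions of level `n` with poles of bounded order. -/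
def VV (n : ℕ) (K : ℝ) : Set (ℍ → ℂ) :=
  {f | Hol f ∧ (∀ γ ∈ CongruenceSubgroup.Gamma n, ∀ τ : ℍ, f (γ • τ) = f τ) ∧
    ∀ g : SL(2, ℤ), ∃ C : ℝ, ∀ τ : ℍ, 1 ≤ τ.im → ‖f (g • τ)‖ ≤ C * Real.exp (K * τ.im)}

/-- A form of weight `-2` and level one. -/
def wm2 (z : ℍ) : ℂ := ModularForm.E₄ z * ModularForm.E₆ z / ModularForm.discriminant z

end Pool.Agent.Lib.MP_d6ddbd_nt.K
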