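import Mathlib
import Pool.Agent.Lib.MP_d6ddbd_nt.K.Defs2

/-! The action of integer matrices of positive determinant and Hermite normal forms. -/

set_option autoImplicit false

open UpperHalfPlane
open scoped MatrixGroups

noncomputable section

namespace Pool.Agent.Lib.MP_d6ddbd_nt.K

theorem den_ne {A : Mat ℤ} (hA : 0 < A.det) (z : ℍ) : (A 1 0 : ℂ) * z + A 1 1 ≠ 0 := by
  intro h
  have h1 : A 1 0 = 0 := by simpa [z.im_ne_zero] using congrArg Complex.im h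
  have h2 : A 1 1 = 0 := by simpa [h1] using h
  simp [Matrix.det_fin_two, h1, h2] at hA

theorem im_frac (A : Mat ℤ) (z : ℂ) :
    (((A 0 0 : ℂ) * z + A 0 1) / ((A 1 0 : ℂ) * z + A 1 1)).im =
      A.det * z.im / Complex.normSq ((A 1 0 : ℂ) * z + A 1 1) := by
  rw [Complex.div_im, ← sub_div, Matrix.det_fin_two]
  congr 1
  simp
  ring

theorem im_frac_pos {A : Mat ℤ} (hA : 0 < A.det) (z : ℍ) :
    0 < (((A 0 0 : ℂ) * z + A 0 1) / ((A 1 0 : ℂ) * z + A 1 1)).im := by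
  rw [im_frac]
  exact div_pos (mul_pos (by exact_mod_cast hA) z.im_pos) (Complex.normSq_pos.2 (den_ne hA z))

theorem coe_act {A : Mat ℤ} (hA : 0 < A.det) (z : ℍ) :
    (act A z : ℂ) = ((A 0 0 : ℂ) * z + A 0 1) / ((A 1 0 : ℂ) * z + A 1 1) := by
  rw [act, ofComplex_apply_of_im_pos (im_frac_pos hA z)]

theorem act_mul {A B : Mat ℤ} (hA : 0 < A.det) (hB : 0 < B.det) (z : ℍ) :
    act (A * B) z = act A (act B z) := by
  have _ := hA
  have h := den_ne hB z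
  rw [act, act, coe_act hB, ← mul_div_mul_right _ _ (inv_ne_zero h)]
  congr 2 <;> simp only [Matrix.mul_apply, Fin.sum_univ_two] <;> push_cast <;> field_simp <;> ring

theorem act_sl (γ : SL(2, ℤ)) (z : ℍ) : act γ.1 z = γ • z := by
  ext
  rw [coe_act (by simp), coe_specialLinearGroup_apply]
  simp

theorem act_smul {A : Mat ℤ} {k : ℤ} (hk : k ≠ 0) (z : ℍ) : act (k • A) z = act A z := by
  rw [act, act, ← mul_div_mul_left ((A 0 0 : ℂ) * z + A 0 1) _ (Int.cast_ne_zero.2 hk)]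
  congr 2 <;> simp only [Matrix.smul_apply, smul_eq_mul] <;> push_cast <;> ring

theorem act_one (z : ℍ) : act 1 z = z := by simp [act]

theorem act_adj {A : Mat ℤ} (hA : 0 < A.det) (z : ℍ) : act A.adjugate (act A z) = z := by
  rw [← act_mul (by simpa [Matrix.det_adjugate] using hA) hA, Matrix.adjugate_mul,
    act_smul hA.ne', act_one]

theorem comp_act (f : ℍ → ℂ) (A : Mat ℤ) {w : ℂ} (hw : 0 < w.im) :
    ((fun t => f (act A t)) ∘ ofComplex) w =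
      ((f ∘ ofComplex) ∘ fun w => ((A 0 0 : ℂ) * w + A 0 1) / ((A 1 0 : ℂ) * w + A 1 1)) w := by
  simp only [Function.comp_apply, act, ofComplex_apply_of_im_pos hw]

theorem Hol.act {f : ℍ → ℂ} (h : Hol f) {A : Mat ℤ} (hA : 0 < A.det) :
    Hol fun z => f (act A z) := by
  refine DifferentiableOn.congr (DifferentiableOn.comp h ?_ fun w hw => im_frac_pos hA ⟨w, hw⟩)
    fun w hw => comp_act f A hw
  exact DifferentiableOn.div (by fun_prop) (by fun_prop) fun w hw => den_ne hA ⟨w, hw⟩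

theorem ord_act {f : ℍ → ℂ} (h : Hol f) {A : Mat ℤ} (hA : 0 < A.det) (z : ℍ) :
    ord (fun t => f (act A t)) z = ord f (act A z) := by
  have _ := h
  have h1 := den_ne hA z
  have h2 : HasDerivAt (fun w : ℂ => ((A 0 0 : ℂ) * w + A 0 1) / ((A 1 0 : ℂ) * w + A 1 1)) _ z :=
    (((hasDerivAt_id' (z : ℂ)).const_mul (A 0 0 : ℂ)).add_const (A 0 1 : ℂ)).fun_div
      (((hasDerivAt_id' (z : ℂ)).const_mul (A 1 0 : ℂ)).add_const (A 1 1 : ℂ)) h1
  rw [ord, ord, analyticOrderNatAt, analyticOrderNatAt, analyticOrderAt_congr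
    (Filter.eventually_of_mem (isOpen_upperHalfPlaneSet.mem_nhds z.2) fun w hw => comp_act f A hw),
    coe_act hA]
  refine congrArg _ (analyticOrderAt_comp_of_deriv_ne_zero (f := f ∘ ofComplex)
    (g := fun w : ℂ => ((A 0 0 : ℂ) * w + A 0 1) / ((A 1 0 : ℂ) * w + A 1 1))
    (AnalyticAt.fun_div (by fun_prop) (by fun_prop) h1) ?_)
  rw [h2.deriv]
  refine div_ne_zero (fun h3 => hA.ne' ?_) (pow_ne_zero _ h1)
  rw [Matrix.det_fin_two, ← Int.cast_eq_zero (α := ℂ)]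
  push_cast
  linear_combination h3

theorem mem_MM {L : ℕ} {z w : ℍ} {α : Mat ℤ} :
    α ∈ MM L z w ↔ 1 ≤ α.det ∧ α.det ≤ L ∧ act α z = w := by
  refine and_congr_right fun h => and_congr_right fun _ => ?_
  rw [UpperHalfPlane.ext_iff, coe_act h, div_eq_iff (den_ne h z)]

theorem mm_finite (L : ℕ) (z w : ℍ) : (MM L z w).Finite := by
  have h : ∀ R : ℝ, {p : Fin 2 → ℤ | Complex.normSq ((p 0 : ℂ) * z + p 1) ≤ R}.Finite := fun R => by
    simpa using Filter.eventually_cofinite.1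
      ((ModularGroup.tendsto_normSq_coprime_pair z).eventually_gt_atTop R)
  refine (Set.Finite.pi' fun i : Fin 2 =>
    h (max 1 (Complex.normSq w) * (L * z.im / w.im))).subset fun α hα => ?_
  have h1 := im_frac α z
  have h2 := Complex.normSq_pos.2 (den_ne hα.1 z)
  rw [← coe_act hα.1, (mem_MM.1 hα).2.2, eq_div_iff h2.ne'] at h1
  have h3 : Complex.normSq ((α 1 0 : ℂ) * z + α 1 1) ≤ L * z.im / w.im := by
    rw [le_div_iff₀' w.im_pos]
    exact h1.le.trans (mul_le_mul_of_nonneg_right (by exact_mod_cast hα.2.1) z.im_pos.le)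
  refine Fin.forall_fin_two.2 ⟨?_, ?_⟩
  · change Complex.normSq ((α 0 0 : ℂ) * z + α 0 1) ≤ _
    rw [hα.2.2, map_mul]
    exact mul_le_mul (le_max_right _ _) h3 h2.le (by positivity)
  · exact h3.trans (le_mul_of_one_le_left (h2.le.trans h3) (le_max_left _ _))

theorem mem_herm {m : ℕ} (hm : 0 < m) {A : Mat ℤ} : A ∈ herm m ↔
    A 1 0 = 0 ∧ 0 < A 0 0 ∧ A 0 0 * A 1 1 = m ∧ 0 ≤ A 0 1 ∧ A 0 1 < A 1 1 := by
  simp only [herm, Finset.mem_image, Finset.mem_sigma, Nat.mem_divisorsAntidiagonal,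
    Finset.mem_range]
  constructor
  · rintro ⟨⟨⟨a, d⟩, l⟩, ⟨⟨h1, -⟩, h2⟩, rfl⟩
    have h3 : 0 < a := Nat.pos_of_mul_pos_right (h1 ▸ hm : 0 < a * d)
    simp only at h1 h2
    simp [← h1, h2, h3]
  · rintro ⟨h1, h2, h3, h4, h5⟩
    obtain ⟨a, ha⟩ := Int.eq_ofNat_of_zero_le h2.le
    obtain ⟨l, hl⟩ := Int.eq_ofNat_of_zero_le h4
    obtain ⟨d, hd⟩ := Int.eq_ofNat_of_zero_le (h4.trans h5.le)
    rw [ha, hd] at h3
    rw [hl, hd] at h5
    refine ⟨⟨(a, d), l⟩, ⟨⟨by exact_mod_cast h3, hm.ne'⟩, by exact_mod_cast h5⟩, ?_⟩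
    rw [Matrix.eta_fin_two A, h1, ha, hl, hd]

theorem herm_zero : herm 0 = ∅ := by simp [herm]

theorem herm_det {m : ℕ} {A : Mat ℤ} (h : A ∈ herm m) : A.det = m := by
  rcases m.eq_zero_or_pos with rfl | hm
  · simp [herm_zero] at h
  · obtain ⟨h1, -, h3, -⟩ := (mem_herm hm).1 h
    rw [Matrix.det_fin_two, h1, h3, mul_zero, sub_zero]

theorem prod_herm {β : Type} [CommMonoid β] (m : ℕ) (Φ : Mat ℤ → β) : ∏ A ∈ herm m, Φ A =
    ∏ p ∈ m.divisorsAntidiagonal, ∏ l ∈ Finset.range p.2,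
      Φ !![(p.1 : ℤ), (l : ℤ); 0, (p.2 : ℤ)] := by
  rw [herm, Finset.prod_image, Finset.prod_sigma]
  rintro ⟨⟨a, d⟩, l⟩ - ⟨⟨a', d'⟩, l'⟩ - e
  obtain rfl : a = a' := by simpa using congrFun₂ e 0 0
  obtain rfl : d = d' := by simpa using congrFun₂ e 1 1
  obtain rfl : l = l' := by simpa using congrFun₂ e 0 1
  rfl

theorem sum_herm {β : Type} [AddCommMonoid β] (m : ℕ) (Φ : Mat ℤ → β) : ∑ A ∈ herm m, Φ A =
    ∑ p ∈ m.divisorsAntidiagonal, ∑ l ∈ Finset.range p.2,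
      Φ !![(p.1 : ℤ), (l : ℤ); 0, (p.2 : ℤ)] := prod_herm (β := Multiplicative β) m Φ

theorem exists_herm {m : ℕ} (hm : 0 < m) {α : Mat ℤ} (h : α.det = m) :
    ∃ (γ : SL(2, ℤ)) (A : Mat ℤ), A ∈ herm m ∧ α = γ.1 * A := by
  rw [Matrix.det_fin_two] at h
  have h0 : 0 < Int.gcd (α 0 0) (α 1 0) := Nat.pos_of_ne_zero fun h0 => by
    obtain ⟨h1, h2⟩ := Int.gcd_eq_zero_iff.1 h0
    rw [h1, h2] at h
    omega
  obtain ⟨g, a, c, hg, hac, ha, hc⟩ := Int.exists_gcd_one' h0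
  obtain ⟨u, v, huv⟩ := Int.isCoprime_iff_gcd_eq_one.2 hac
  have hg' : (0 : ℤ) < g := by exact_mod_cast hg
  obtain ⟨D, hD⟩ : ∃ D, D = a * α 1 1 - c * α 0 1 := ⟨_, rfl⟩
  have h1 : g * D = m := by rw [← h, hD, ha, hc]; ring
  have h2 : 0 < D := (mul_pos_iff_of_pos_left hg').1 (by rw [h1]; exact_mod_cast hm)
  have h3 := Int.emod_add_mul_ediv (u * α 0 1 + v * α 1 1) D
  have h4 := Int.emod_nonneg (u * α 0 1 + v * α 1 1) h2.ne'
  have h5 := Int.emod_lt_of_pos (u * α 0 1 + v * α 1 1) h2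
  generalize (u * α 0 1 + v * α 1 1) % D = r at h3 h4 h5
  generalize (u * α 0 1 + v * α 1 1) / D = q at h3
  refine ⟨⟨!![a, a * q - v; c, c * q + u], by
    rw [Matrix.det_fin_two_of]; linear_combination huv⟩, !![g, r; 0, D],
    (mem_herm hm).2 (by simpa using ⟨hg, h1, h4, h5⟩), ?_⟩
  rw [Matrix.mul_fin_two, Matrix.eta_fin_two α]
  congr 3
  · linear_combination ha
  · congr 1
    linear_combination -a * h3 + v * hD - α 0 1 * huv
  · congr 1
    · linear_combination hc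
    · congr 1
      linear_combination -c * h3 - u * hD - α 1 1 * huv

theorem herm_unique {m : ℕ} (hm : 0 < m) {γ γ' : SL(2, ℤ)} {A A' : Mat ℤ} (h : A ∈ herm m)
    (h' : A' ∈ herm m) (e : γ.1 * A = γ'.1 * A') : γ = γ' ∧ A = A' := by
  obtain ⟨δ, rfl⟩ : ∃ δ, γ = γ' * δ := ⟨γ'⁻¹ * γ, by simp⟩
  have e1 : δ.1 * A = A' := by
    have := congrArg (fun B => (γ'⁻¹).1 * B) e
    simpa only [← mul_assoc, ← Matrix.SpecialLinearGroup.coe_mul, inv_mul_cancel, one_mul,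
      Matrix.SpecialLinearGroup.coe_one] using this
  obtain ⟨h1, h2, -, h4, h5⟩ := (mem_herm hm).1 h
  obtain ⟨h1', h2', -, h4', h5'⟩ := (mem_herm hm).1 h'
  simp only [← e1, Matrix.mul_apply, Fin.sum_univ_two, h1, mul_zero, add_zero] at h1' h2' h4' h5'
  have d1 : δ.1 1 0 = 0 := (mul_eq_zero.1 h1').resolve_right h2.ne'
  have d2 : δ.1 0 0 * δ.1 1 1 = 1 := by
    have := δ.2
    rwa [Matrix.det_fin_two, d1, mul_zero, sub_zero] at this
  have d3 : δ.1 0 0 = 1 := Int.eq_one_of_mul_eq_one_right ((mul_pos_iff_of_pos_right h2).1 h2').le d2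
  have d4 : δ.1 1 1 = 1 := by simpa [d3] using d2
  rw [d3] at h4'
  rw [d1, d3, d4] at h5'
  have d5 : δ.1 0 1 = 0 := by
    rcases lt_trichotomy (δ.1 0 1) 0 with h6 | h6 | h6
    · nlinarith
    · exact h6
    · nlinarith
  have d6 : δ = 1 := Subtype.ext (by
    rw [Matrix.eta_fin_two δ.1, d1, d3, d4, d5]
    exact Matrix.one_fin_two.symm)
  subst d6
  exact ⟨mul_one _, by simpa using e1⟩

theorem prod_herm_mul {β : Type} [CommMonoid β] (m : ℕ) (Φ : Mat ℤ → β)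
    (hΦ : ∀ (γ : SL(2, ℤ)) (A : Mat ℤ), A.det = m → Φ (γ.1 * A) = Φ A) (g : SL(2, ℤ)) :
    ∏ A ∈ herm m, Φ (A * g.1) = ∏ A ∈ herm m, Φ A := by
  rcases m.eq_zero_or_pos with rfl | hm
  · simp [herm_zero]
  have h : ∀ A ∈ herm m, ∃ (γ : SL(2, ℤ)) (B : Mat ℤ), B ∈ herm m ∧ A * g.1 = γ.1 * B :=
    fun A hA => exists_herm hm (by rw [Matrix.det_mul, g.2, mul_one, herm_det hA])
  choose γ r h1 h2 using h
  have hi : ∀ A hA A' hA', r A hA = r A' hA' → A = A' := fun A hA A' hA' e => by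
    refine (herm_unique hm (γ := (γ A hA)⁻¹) (γ' := (γ A' hA')⁻¹) hA hA' ?_).2
    have h3 : ∀ A hA, ((γ A hA)⁻¹).1 * A = r A hA * (g⁻¹).1 := fun A hA => by
      have h4 : ((γ A hA)⁻¹).1 * (γ A hA).1 = 1 := by
        rw [← Matrix.SpecialLinearGroup.coe_mul, inv_mul_cancel, Matrix.SpecialLinearGroup.coe_one]
      have h5 : g.1 * (g⁻¹).1 = 1 := by
        rw [← Matrix.SpecialLinearGroup.coe_mul, mul_inv_cancel, Matrix.SpecialLinearGroup.coe_one]
      rw [← one_mul (r A hA), ← h4, mul_assoc _ _ (r A hA), ← h2, mul_assoc, mul_assoc, h5, mul_one]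
    rw [h3, h3, e]
  refine Finset.prod_bij r h1 hi (fun B hB => ?_) fun A hA => by
    rw [h2 A hA, hΦ _ _ (herm_det (h1 A hA))]
  obtain ⟨A, hA, e⟩ := Finset.surj_on_of_inj_on_of_card_le r h1 (fun A A' hA hA' => hi A hA A' hA')
    le_rfl B hB
  exact ⟨A, hA, e.symm⟩

theorem sum_herm_mul {β : Type} [AddCommMonoid β] (m : ℕ) (Φ : Mat ℤ → β)
    (hΦ : ∀ (γ : SL(2, ℤ)) (A : Mat ℤ), A.det = m → Φ (γ.1 * A) = Φ A) (g : SL(2, ℤ)) :
    ∑ A ∈ herm m, Φ (A * g.1) = ∑ A ∈ herm m, Φ A :=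
  prod_herm_mul (β := Multiplicative β) m Φ hΦ g

end Pool.Agent.Lib.MP_d6ddbd_nt.K
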