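import Mathlib
import Pool.Agent.Lib.MP_d6ddbd_nt.K.QE
import Pool.Agent.Lib.MP_d6ddbd_nt.K.Defs2
import Pool.Agent.Lib.MP_9177b7_ag.CM.Main

/-! The derivative of the modular invariant and its ramification. -/

set_option autoImplicit false

open UpperHalfPlane ModularForm Filter Topology
open scoped MatrixGroups Manifold ModularForm
open Pool.Agent.Lib.MP_9177b7_ag.CM (jH hyp)

noncomputable section

namespace Pool.Agent.Lib.MP_d6ddbd_nt.K

namespace PO

theorem hol_E4 : Hol E₄ := hol_iff.2 E₄.holo'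
theorem hol_E6 : Hol E₆ := hol_iff.2 E₆.holo'
theorem hol_Dinv : Hol fun τ => (discriminant τ)⁻¹ :=
  (hol_iff.2 CuspForm.discriminant.holo').inv discriminant_ne_zero

theorem ne_of_lead {f : ℍ → ℂ} {c : LaurentSeries ℂ} {N : ℤ} (h : QE 1 f c) (l : Lead c N 1) :
    f ≠ 0 := fun e => by
  have := l.2
  rw [(h.eq_zero_iff one_pos).2 e] at this
  simp at this

theorem E4_ne : (E₄ : ℍ → ℂ) ≠ 0 := by
  obtain ⟨c, h, -, l⟩ := qe_E4
  exact ne_of_lead h l

theorem E6_ne : (E₆ : ℍ → ℂ) ≠ 0 := by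
  obtain ⟨c, h, -, l⟩ := qe_E6
  exact ne_of_lead h l

theorem Dinv_ne : (fun τ => (discriminant τ)⁻¹) ≠ 0 :=
  fun e => inv_ne_zero (discriminant_ne_zero I) (congrFun e I)

theorem ord_Dinv (z : ℍ) : ord (fun τ => (discriminant τ)⁻¹) z = 0 :=
  (ord_eq_zero hol_Dinv Dinv_ne z).2 (inv_ne_zero (discriminant_ne_zero z))

theorem j_smul (γ : SL(2, ℤ)) (τ : ℍ) : jH (γ • τ) = jH τ := hyp.eis.2.2.2.2.1 γ τ

/-- The derivative of `j`. -/
noncomputable def dj (z : ℍ) : ℂ := deriv (jH ∘ ofComplex) z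

theorem hol_dj : Hol dj := by
  have h := hol_jH.iteratedDeriv 1
  rwa [iteratedDeriv_one] at h

/-- The difference of the two sides of the differential equation. -/
noncomputable def GG : ℍ → ℂ :=
  Derivative.normalizedDerivOfComplex jH + (E₄ * E₄ * E₆) / CuspForm.discriminant

theorem GG_slash (γ : SL(2, ℤ)) : GG ∣[(2 : ℤ)] γ = GG := by
  have hγ : (γ : GL (Fin 2) ℝ) ∈ 𝒮ℒ := ⟨γ, rfl⟩
  have h0 : jH ∣[(0 : ℤ)] γ = jH := by
    ext τ
    rw [SL_slash_apply, j_smul]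
    simp
  have h1 := Derivative.normalizedDerivOfComplex_SL_slash (k := 0) (γ := γ) (hol_iff.1 hol_jH)
  have h2 := div_slash_SL2 (4 + 4 + 6) 12 γ (E₄ * E₄ * E₆) CuspForm.discriminant
  rw [mul_slash_SL2, mul_slash_SL2] at h2
  simp only [SL_slash, SlashInvariantForm.slash_action_eqn _ _ hγ] at h2
  rw [h0] at h1
  rw [GG, SlashAction.add_slash]
  refine congrArg₂ _ ?_ h2
  refine Eq.trans ?_ h1.symm
  ext τ
  simp

theorem GG_bdd : ∃ C : ℝ, ∀ τ : ℍ, 1 ≤ τ.im → ‖GG τ‖ ≤ C := by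
  obtain ⟨c4, h4, -, l4⟩ := qe_E4
  obtain ⟨c6, h6, -, l6⟩ := qe_E6
  obtain ⟨cd, hd, -, ld⟩ := qe_Delta
  obtain ⟨cj, hj, -, lj⟩ := qe_j
  obtain ⟨d, h1, h2⟩ := hj.deriv one_pos
  have h3 := h1.add (((h4.mul h4).mul h6).mul (hd.inv one_pos discriminant_ne_zero))
  have l3 := ((l4.mul l4).mul l6).mul (ld.inv one_ne_zero)
  obtain ⟨C, hC⟩ := h3.bound one_pos (N₀ := 0) (fun N hN => by
    rw [HahnSeries.coeff_add, h2]
    rcases (by omega : N < -1 ∨ N = -1) with e | rfl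
    · rw [lj.1 N e, l3.1 N (by omega)]
      simp
    · have := l3.2
      rw [show (0 : ℤ) + 0 + 0 + -1 = -1 from rfl] at this
      rw [lj.2, this]
      simp) one_pos
  exact ⟨C, fun τ hτ => by simpa [GG, div_eq_mul_inv] using hC τ hτ⟩

theorem GG_eq : GG = 0 := by
  let f : ModularForm 𝒮ℒ 2 :=
    { toFun := GG
      slash_action_eq' := fun _ ⟨γ, hγ⟩ => hγ ▸ GG_slash γ
      holo' := (Derivative.normalizedDerivOfComplex_mdifferentiable (hol_iff.1 hol_jH)).add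
        (((E₄.holo'.mul E₄.holo').mul E₆.holo').div CuspForm.discriminant.holo'
          discriminant_ne_zero)
      bdd_at_cusps' := fun {x} hx => by
        rw [Subgroup.IsArithmetic.isCusp_iff_isCusp_SL2Z] at hx
        rw [OnePoint.isBoundedAt_iff_forall_SL2Z hx]
        intro γ _
        obtain ⟨C, hC⟩ := GG_bdd
        rw [GG_slash γ]
        exact isBoundedAtImInfty_iff.2 ⟨C, 1, hC⟩ }
  have h : f = 0 := rank_zero_iff_forall_zero.1 levelOne_weight_two_rank_zero f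
  exact congrArg DFunLike.coe h

theorem dj_eq : dj = fun z =>
    -(2 * Real.pi * Complex.I) * (E₄ z ^ 2 * (E₆ z * (discriminant z)⁻¹)) := by
  ext z
  have h : (2 * Real.pi * Complex.I)⁻¹ * dj z + E₄ z * E₄ z * E₆ z / discriminant z = 0 :=
    congrFun GG_eq z
  have h0 := Complex.two_pi_I_ne_zero
  rw [← eq_neg_iff_add_eq_zero, inv_mul_eq_iff_eq_mul₀ h0] at h
  rw [h]
  ring

theorem ord_const_mul {f : ℍ → ℂ} (h : Hol f) (h0 : f ≠ 0) {a : ℂ} (ha : a ≠ 0) (z : ℍ) :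
    ord (fun τ => a * f τ) z = ord f z := by
  have h1 : (fun _ : ℍ => a) ≠ 0 := fun e => ha (congrFun e I)
  rw [ord_mul (hol_const a) h h1 h0, (ord_eq_zero (hol_const a) h1 z).2 ha, zero_add]

theorem pow_ne {f : ℍ → ℂ} (h0 : f ≠ 0) (k : ℕ) : (fun τ => f τ ^ k) ≠ 0 := by
  obtain ⟨τ, h⟩ := Function.ne_iff.1 h0
  exact fun e => pow_ne_zero k h (congrFun e τ)

theorem ord_dj (z : ℍ) : dj ≠ 0 ∧ ord dj z = 2 * ord E₄ z + ord E₆ z := by
  have h1 := hol_E6.mul_ne_zero hol_Dinv E6_ne Dinv_ne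
  have h2 := (hol_E4.pow 2).mul_ne_zero (hol_E6.mul hol_Dinv) (pow_ne E4_ne 2) h1
  have h3 := neg_ne_zero.2 Complex.two_pi_I_ne_zero
  rw [dj_eq]
  refine ⟨(hol_const _).mul_ne_zero ((hol_E4.pow 2).mul (hol_E6.mul hol_Dinv))
    (fun e => h3 (congrFun e I)) h2, ?_⟩
  rw [ord_const_mul ((hol_E4.pow 2).mul (hol_E6.mul hol_Dinv)) h2 h3,
    ord_mul (hol_E4.pow 2) (hol_E6.mul hol_Dinv) (pow_ne E4_ne 2) h1, ord_pow hol_E4 E4_ne,
    ord_mul hol_E6 hol_Dinv E6_ne Dinv_ne, ord_Dinv, add_zero]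

theorem hol_sub (c : ℂ) : Hol fun t => jH t - c := hol_jH.sub (hol_const c)

theorem sub_ne (c : ℂ) : (fun t => jH t - c) ≠ 0 := fun e => by
  obtain ⟨t, h⟩ := hyp.eis.2.2.2.2.2.2.2 (c + 1)
  have : jH t - c = 0 := congrFun e t
  rw [h] at this
  simp at this

/-- The ramification index of `j`. -/
noncomputable def ram (w : ℍ) : ℕ := ord (fun t => jH t - jH w) w

theorem ord_dj_add (w : ℍ) : ord dj w + 1 = ram w := by
  have h1 := (hol_jH.analyticAt w).analyticOrderAt_deriv_add_one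
  have h2 : dj ∘ ofComplex =ᶠ[𝓝 (w : ℂ)] deriv (jH ∘ ofComplex) :=
    (eventuallyEq_coe_comp_ofComplex w.im_pos).fun_comp (deriv (jH ∘ ofComplex))
  have h3 : (fun t => (jH ∘ ofComplex) t - (jH ∘ ofComplex) w) =
      (fun t => jH t - jH w) ∘ ofComplex := by
    ext t
    simp [ofComplex_apply]
  rw [← analyticOrderAt_congr h2, h3,
    ← Nat.cast_analyticOrderNatAt (hol_dj.order_ne_top (ord_dj w).1 w),
    ← Nat.cast_analyticOrderNatAt ((hol_sub _).order_ne_top (sub_ne _) w)] at h1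
  exact_mod_cast h1

theorem j_sub (z : ℍ) : jH z - 1728 = E₆ z ^ 2 * (discriminant z)⁻¹ := by
  have h := discriminant_ne_zero z
  have h1 := discriminant_eq_E₄_cube_sub_E₆_sq z
  rw [jH]
  field_simp
  linear_combination -1728 * h1

theorem ord_E4 {w : ℍ} (h : jH w ≠ 0) : ord E₄ w = 0 :=
  (ord_eq_zero hol_E4 E4_ne w).2 fun e => h (by rw [jH, e]; simp)

theorem ord_E6 {w : ℍ} (h : jH w ≠ 1728) : ord E₆ w = 0 :=
  (ord_eq_zero hol_E6 E6_ne w).2 fun e => h (sub_eq_zero.1 (by rw [j_sub, e]; simp))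

theorem ram_one {w : ℍ} (h0 : jH w ≠ 0) (h1 : jH w ≠ 1728) : ram w = 1 := by
  rw [← ord_dj_add, (ord_dj w).2, ord_E4 h0, ord_E6 h1]

theorem ram_three {w : ℍ} (h : jH w = 0) : ram w = 3 := by
  have h1 := ord_dj_add w
  have h2 : ram w = 3 * ord E₄ w := by
    rw [ram, h, show (fun t => jH t - 0) = fun t => E₄ t ^ 3 * (discriminant t)⁻¹ from
      funext fun t => by rw [sub_zero, jH, div_eq_mul_inv],
      ord_mul (hol_E4.pow 3) hol_Dinv (pow_ne E4_ne 3) Dinv_ne, ord_pow hol_E4 E4_ne, ord_Dinv,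
      add_zero]
  rw [(ord_dj w).2, ord_E6 (by rw [h]; norm_num)] at h1
  omega

theorem ram_two {w : ℍ} (h : jH w = 1728) : ram w = 2 := by
  have h1 := ord_dj_add w
  have h2 : ram w = 2 * ord E₆ w := by
    rw [ram, h, funext j_sub, ord_mul (hol_E6.pow 2) hol_Dinv (pow_ne E6_ne 2) Dinv_ne,
      ord_pow hol_E6 E6_ne, ord_Dinv, add_zero]
  rw [(ord_dj w).2, ord_E4 (by rw [h]; norm_num)] at h1
  omega

theorem form_fix {k : ℤ} (f : ModularForm 𝒮ℒ k) {γ : SL(2, ℤ)} {z : ℍ} (h : γ • z = z)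
    (hd : ((γ 1 0 : ℂ) * z + γ 1 1) ^ k ≠ 1) : f z = 0 := by
  have h1 := (slash_action_eq'_iff k f γ z).1
    (congrFun (SlashInvariantForm.slash_action_eqn f (γ : GL (Fin 2) ℝ) ⟨γ, rfl⟩) z)
  rw [h] at h1
  by_contra h0
  exact hd (mul_right_cancel₀ h0 (by rw [← h1, one_mul]))

theorem j_I : jH I = 1728 := by
  have h : E₆ I = 0 := form_fix E₆ (γ := ModularGroup.S) (ModularGroup.stabilizer_I.2 (by simp))
    (by
      have : Complex.I ^ 6 = -1 := by linear_combination (Complex.I ^ 4 - Complex.I ^ 2 + 1) *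
        Complex.I_sq
      simp [ModularGroup.S, zpow_ofNat, this]
      norm_num)
  rw [← sub_eq_zero, j_sub, h]
  simp

theorem j_rho : jH ρ = 0 := by
  have h : E₄ ρ = 0 := form_fix E₄ (γ := ModularGroup.S * ModularGroup.T)
    (ModularGroup.stabilizer_ρ.2 (by simp)) (by
      have h1 : ((ρ : ℂ) + 1) ^ 4 = ρ ^ 2 := by
        linear_combination (ρ ^ 2 + 3 * ρ + 1 : ℂ) * ρ_sq
      have h2 : (ModularGroup.S * ModularGroup.T : SL(2, ℤ)) 1 0 = 1 := by decide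
      have h3 : (ModularGroup.S * ModularGroup.T : SL(2, ℤ)) 1 1 = 1 := by decide
      rw [h2, h3, zpow_ofNat, Int.cast_one, one_mul, h1, ρ_sq]
      intro e
      have := congrArg Complex.im e
      simp at this
      exact ρ.im_pos.ne' this)
  rw [jH, h]
  simp

/-- The elements that send `u` to `w`. -/
def tr (u w : ℍ) : Set SL(2, ℤ) := {γ | γ • u = w}

theorem tr_left (g : SL(2, ℤ)) (u w : ℍ) : (tr (g • u) w).ncard = (tr u w).ncard :=
  Set.ncard_congr (fun γ _ => γ * g) (fun γ h => (mul_smul γ g u).trans h)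
    (fun _ _ _ _ => mul_right_cancel) fun γ h => ⟨γ * g⁻¹, by
      change (γ * g⁻¹) • g • u = w
      rwa [mul_smul, inv_smul_smul], inv_mul_cancel_right _ _⟩

theorem tr_right (g : SL(2, ℤ)) (u w : ℍ) : (tr u (g • w)).ncard = (tr u w).ncard :=
  Set.ncard_congr (fun γ _ => g⁻¹ * γ) (fun γ h => (mul_smul _ γ u).trans (inv_smul_eq_iff.2 h))
    (fun _ _ _ _ => mul_left_cancel) fun γ h => ⟨g * γ,
      (mul_smul g γ u).trans (congrArg _ h), inv_mul_cancel_left _ _⟩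

theorem stab_triv {w : ℍ} (h0 : jH w ≠ 0) (h1 : jH w ≠ 1728) (γ : SL(2, ℤ)) (h : γ • w = w) :
    γ = 1 ∨ γ = -1 := by
  obtain ⟨g, hg⟩ := ModularGroup.exists_smul_mem_fd w
  rw [← j_smul g] at h0 h1
  have h2 := ModularGroup.stabilizer_of_ne (g := g * γ * g⁻¹) hg
    (by rw [mul_smul, inv_smul_smul, mul_smul, h]) (fun e => h1 (e ▸ j_I)) (fun e => h0 (e ▸ j_rho))
    (fun e => h0 (by rw [e, ← modular_T_smul, j_smul, j_rho]))
  rw [mul_inv_eq_iff_eq_mul, mul_inv_eq_iff_eq_mul, one_mul, neg_mul, one_mul] at h2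
  exact h2.imp (fun e => mul_left_cancel (e.trans (mul_one g).symm))
    fun e => mul_left_cancel (a := g) (by rw [e, mul_neg, mul_one])

theorem two_ram (w : ℍ) : 2 * ram w = (tr w w).ncard := by
  by_cases h0 : jH w = 0
  · obtain ⟨g, rfl⟩ := hyp.jH_eq_iff.1 (j_rho.trans h0.symm)
    rw [ram_three h0, tr_left, tr_right, show tr ρ ρ = _ from Set.ext fun _ =>
      ModularGroup.stabilizer_ρ.trans Finset.mem_coe.symm, Set.ncard_coe_finset]
    decide
  by_cases h1 : jH w = 1728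
  · obtain ⟨g, rfl⟩ := hyp.jH_eq_iff.1 (j_I.trans h1.symm)
    rw [ram_two h1, tr_left, tr_right, show tr I I = _ from Set.ext fun _ =>
      ModularGroup.stabilizer_I.trans Finset.mem_coe.symm, Set.ncard_coe_finset]
    decide
  rw [ram_one h0 h1, show tr w w = {1, -1} from Set.ext fun γ => ⟨stab_triv h0 h1 γ, by
    rintro (rfl | rfl)
    · exact one_smul _ w
    · exact (ModularGroup.SL_neg_smul 1 w).trans (one_smul _ w)⟩, Set.ncard_pair (by decide)]

theorem two_ord (u w : ℍ) : 2 * ord (fun t => jH t - jH u) w = (tr u w).ncard := by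
  by_cases h : jH u = jH w
  · obtain ⟨g, rfl⟩ := hyp.jH_eq_iff.1 h
    rw [h, ← tr_left g]
    exact two_ram _
  · rw [(ord_eq_zero (hol_sub _) (sub_ne _) w).2 (sub_ne_zero.2 (Ne.symm h)),
      show tr u w = ∅ from Set.eq_empty_of_forall_notMem fun γ (e : γ • u = w) =>
        h (by rw [← e, j_smul]), Set.ncard_empty]

end PO

end Pool.Agent.Lib.MP_d6ddbd_nt.K
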