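import Mathlib
import Pool.Agent.Lib.MP_d6ddbd_nt.K.Hec
import Pool.Agent.Lib.MP_d6ddbd_nt.K.PiOrd1

/-! The order of `j (t) - j (B t)` at a fixed point of `B`. -/

set_option autoImplicit false

open UpperHalfPlane Filter Topology
open scoped MatrixGroups
open Pool.Agent.Lib.MP_9177b7_ag.CM (jH)

noncomputable section

namespace Pool.Agent.Lib.MP_d6ddbd_nt.K

namespace PO

/-- The denominator. -/
noncomputable def mu (B : Mat ℤ) (t : ℂ) : ℂ := (B 1 0 : ℂ) * t + B 1 1

theorem num_eq {B : Mat ℤ} (hB : 0 < B.det) {z : ℍ} (hz : act B z = z) :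
    (B 0 0 : ℂ) * z + B 0 1 = z * mu B z := by
  have h := coe_act hB z
  rw [hz, eq_div_iff (den_ne hB z)] at h
  exact h.symm

theorem key {B : Mat ℤ} (hB : 0 < B.det) {z : ℍ} (hz : act B z = z)
    (hl : ((B.det : ℂ) / mu B z ^ 2) ^ ram z ≠ 1) :
    analyticOrderAt ((fun t => jH t - jH (act B t)) ∘ ofComplex) (z : ℂ) = ram z := by
  obtain ⟨g, hg, g0, hF⟩ := (((hol_sub (jH z)).analyticAt z).analyticOrderNatAt_eq_iff
    ((hol_sub _).order_ne_top (sub_ne _) z)).1 (rfl : _ = ram z)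
  have hd : mu B z ≠ 0 := den_ne hB z
  have hμ : AnalyticAt ℂ (mu B) z := by unfold mu; fun_prop
  let m : ℂ → ℂ := fun t => ((B 0 0 : ℂ) * t + B 0 1) / mu B t
  let n : ℂ → ℂ := fun t => (B.det : ℂ) / (mu B t * mu B z)
  have hm : AnalyticAt ℂ m z := AnalyticAt.div (by fun_prop) hμ hd
  have hn : AnalyticAt ℂ n z := analyticAt_const.div (hμ.mul analyticAt_const) (mul_ne_zero hd hd)
  have hmz : m z = z := by simp only [m]; rw [num_eq hB hz, mul_div_cancel_right₀ _ hd]
  have ht : Tendsto m (𝓝 (z : ℂ)) (𝓝 (z : ℂ)) := by simpa [hmz] using hm.continuousAt.tendsto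
  have hgm : AnalyticAt ℂ (fun t => g (m t)) z := AnalyticAt.comp_of_eq hg hm hmz
  refine (((hol_jH.sub (hol_jH.act hB)).analyticAt z).analyticOrderAt_eq_natCast).2
    ⟨fun t => g t - n t ^ ram z * g (m t), hg.sub ((hn.pow _).mul hgm), ?_, ?_⟩
  · beta_reduce
    rw [hmz, ← one_sub_mul]
    exact mul_ne_zero (sub_ne_zero.2 (by simpa only [n, ← pow_two] using hl.symm)) g0
  · filter_upwards [hF, ht.eventually hF, hμ.continuousAt.eventually_ne hd,
      isOpen_upperHalfPlaneSet.mem_nhds z.im_pos] with t h1 h2 h3 h4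
    have h5 : act B (ofComplex t) = ofComplex (m t) := by
      rw [ofComplex_apply_of_im_pos h4]
      rfl
    have h6 : m t - z = (t - z) * n t := by
      have h7 := num_eq hB hz
      simp only [m, n, Matrix.det_fin_two]
      field_simp
      simp only [mu] at h7 ⊢
      push_cast
      linear_combination ((B 1 0 : ℂ) * t + B 1 1) * h7
    simp only [Function.comp_apply, smul_eq_mul] at h1 h2 ⊢
    rw [h5]
    rw [h6, mul_pow] at h2
    linear_combination h1 - h2

theorem lin (z : ℍ) {x y x' y' : ℝ} (h : (x : ℂ) * z + y = x' * z + y') : x = x' ∧ y = y' := by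
  have h1 := congrArg Complex.im h
  simp only [Complex.add_im, Complex.im_ofReal_mul, Complex.ofReal_im, add_zero] at h1
  obtain rfl : x = x' := mul_right_cancel₀ z.coe_im_pos.ne' h1
  exact ⟨rfl, Complex.ofReal_injective (add_left_cancel h)⟩

theorem sl_pos (γ : SL(2, ℤ)) : 0 < γ.1.det := by rw [γ.2]; exact one_pos

theorem ram_pos (z : ℍ) : 0 < ram z := by rw [← ord_dj_add]; exact Nat.succ_pos _

theorem mu_pow {z : ℍ} {γ : SL(2, ℤ)} (h : γ • z = z) : mu γ.1 z ^ (2 * ram z) = 1 := by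
  by_contra h1
  have h2 := key (sl_pos γ) ((act_sl γ z).trans h) (by
    rwa [γ.2, Int.cast_one, div_pow, one_pow, ← pow_mul, one_div, Ne, inv_eq_one])
  rw [analyticOrderAt_eq_top.2 (Eventually.of_forall fun t => by
    simp only [Function.comp_apply, act_sl, j_smul, sub_self])] at h2
  exact ENat.top_ne_coe _ h2

/-- Two matrices with the same fixed point and proportional denominators are proportional. -/
theorem prop_of {A B : Mat ℤ} (hA : 0 < A.det) (hB : 0 < B.det) {z : ℍ} (h : act A z = z)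
    (h' : act B z = z) {r : ℝ} (e : mu B z = r * mu A z) (i k : Fin 2) :
    (B i k : ℝ) = r * A i k := by
  have h1 := lin z (x := B 1 0) (y := B 1 1) (x' := r * A 1 0) (y' := r * A 1 1) (by
    simp only [mu] at e
    push_cast
    linear_combination e)
  have h2 := lin z (x := B 0 0) (y := B 0 1) (x' := r * A 0 0) (y' := r * A 0 1) (by
    push_cast
    linear_combination num_eq hB h' - r * num_eq hA h + z * e)
  fin_cases i <;> fin_cases k
  exacts [h2.1, h2.2, h1.1, h1.2]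

theorem exists_mu (z : ℍ) {ν : ℂ} (hν : ν ^ (2 * ram z) = 1) :
    ∃ γ : SL(2, ℤ), γ • z = z ∧ mu γ.1 z = ν := by
  have h0 : 0 < 2 * ram z := Nat.mul_pos two_pos (ram_pos z)
  have h1 : (fun γ : SL(2, ℤ) => mu γ.1 z) '' tr z z =
      (Polynomial.nthRootsFinset (2 * ram z) (1 : ℂ) : Set ℂ) := by
    refine Set.eq_of_subset_of_ncard_le ?_ ?_
    · rintro _ ⟨γ, h, rfl⟩
      exact (Polynomial.mem_nthRootsFinset h0 1).2 (mu_pow h)
    · rw [Set.ncard_coe_finset, (Complex.isPrimitiveRoot_exp _ h0.ne').card_nthRootsFinset,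
        Set.InjOn.ncard_image, two_ram]
      intro γ h γ' h' e
      refine Subtype.ext (Matrix.ext fun i k => ?_)
      have := prop_of (sl_pos γ') (sl_pos γ) ((act_sl γ' z).trans h') ((act_sl γ z).trans h)
        (r := 1) (by simpa using e) i k
      exact_mod_cast this.trans (one_mul _)
  have h2 : ν ∈ (fun γ : SL(2, ℤ) => mu γ.1 z) '' tr z z :=
    h1 ▸ (Polynomial.mem_nthRootsFinset h0 1).2 hν
  exact h2

theorem scalar_of {B : Mat ℤ} (hB : 0 < B.det) {z : ℍ} (hz : act B z = z)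
    (hl : ((B.det : ℂ) / mu B z ^ 2) ^ ram z = 1) :
    ∃ (k : ℤ) (γ : SL(2, ℤ)), 0 < k ∧ B = k • γ.1 := by
  have h0 : (0 : ℝ) < B.det := by exact_mod_cast hB
  have hr := Real.sqrt_pos.2 h0
  have h1 : ((√(B.det : ℝ) : ℝ) : ℂ) ^ 2 = B.det := by
    rw [← Complex.ofReal_pow, Real.sq_sqrt h0.le, Complex.ofReal_intCast]
  set r := √(B.det : ℝ)
  have hr' : (r : ℂ) ≠ 0 := by exact_mod_cast hr.ne'
  obtain ⟨γ, h2, h3⟩ := exists_mu z (ν := mu B z / r) (by
    rw [pow_mul, div_pow, h1, ← inv_div, inv_pow, hl, inv_one])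
  have h4 := prop_of (sl_pos γ) hB ((act_sl γ z).trans h2) hz (r := r)
    (by rw [h3, mul_div_cancel₀ _ hr'])
  have h5 : ((γ.1 0 0 * γ.1 1 1 - γ.1 0 1 * γ.1 1 0 : ℤ) : ℝ) = 1 := by
    rw [← Matrix.det_fin_two, γ.2, Int.cast_one]
  have h6 : r = (B 0 0 * γ.1 1 1 - B 0 1 * γ.1 1 0 : ℤ) := by
    push_cast at h5 ⊢
    rw [h4, h4]
    linear_combination -r * h5
  refine ⟨_, γ, by exact_mod_cast h6 ▸ hr, Matrix.ext fun i k => ?_⟩
  have h7 := h4 i k
  rw [h6] at h7
  exact_mod_cast h7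

theorem tr_finite (u w : ℍ) : (tr u w).Finite :=
  ((mm_finite 1 u w).preimage Subtype.val_injective.injOn).subset fun γ h =>
    mem_MM.2 ⟨γ.2.ge, γ.2.le, (act_sl γ u).trans h⟩

theorem smul_mem_herm {k : ℤ} (hk : 0 < k) {m : ℕ} (hm : k * k = m) : k • (1 : Mat ℤ) ∈ herm m :=
  (mem_herm (by exact_mod_cast hm ▸ mul_pos hk hk)).2 (by simp [hk, hm])

/-- The diagonal factor of a Hermite matrix that is not scalar. -/
theorem ord_diag {m : ℕ} (hm : 0 < m) {A : Mat ℤ} (hA : A ∈ herm m)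
    (hs : ∀ k : ℤ, 0 < k → A ≠ k • 1) (z : ℍ) : (fun t => jH t - jH (act A t)) ≠ 0 ∧
      2 * ord (fun t => jH t - jH (act A t)) z = (tr (act A z) z).ncard := by
  have hd := herm_det hA
  have h0 : 0 < A.det := by rw [hd]; exact_mod_cast hm
  have hh := hol_jH.sub (hol_jH.act h0)
  have h1 : ∀ (z : ℍ) (γ : SL(2, ℤ)), γ • act A z = z →
      analyticOrderAt ((fun t => jH t - jH (act A t)) ∘ ofComplex) (z : ℂ) = ram z := by
    intro z γ h
    have h2 : (γ.1 * A).det = A.det := by rw [Matrix.det_mul, γ.2, one_mul]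
    have h3 : ∀ t, act (γ.1 * A) t = γ • act A t := fun t => by
      rw [act_mul (sl_pos γ) h0, act_sl]
    have h4 := key (h2 ▸ h0) ((h3 z).trans h) fun e => by
      obtain ⟨k, γ', hk, e'⟩ := scalar_of (h2 ▸ h0) ((h3 z).trans h) e
      refine hs k hk (herm_unique hm (γ := γ) (γ' := γ') hA (smul_mem_herm hk ?_)
        (by rw [e', Matrix.mul_smul, mul_one])).2
      rw [← hd, ← h2, e', Matrix.det_smul, γ'.2]
      simp [pow_two]
    simpa only [h3, j_smul] using h4
  have h5 : ∀ z : ℍ, jH z - jH (act A z) = 0 → ∃ γ : SL(2, ℤ), γ • act A z = z := fun z e =>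
    (MP_9177b7_ag.CM.hyp.jH_eq_iff.1 (sub_eq_zero.1 e).symm).imp fun _ => Eq.symm
  have h6 : (fun t => jH t - jH (act A t)) ≠ 0 := fun e => by
    obtain ⟨γ, h⟩ := h5 z (congrFun e z)
    have h7 := h1 z γ h
    rw [e] at h7
    exact ENat.top_ne_coe _ ((analyticOrderAt_eq_top.2 (.of_forall fun _ => rfl)).symm.trans h7)
  refine ⟨h6, ?_⟩
  by_cases e : jH z - jH (act A z) = 0
  · obtain ⟨γ, h⟩ := h5 z e
    rw [eq_inv_smul_iff.2 h, tr_left, ← two_ram, ord, analyticOrderNatAt, h1 z γ h, ENat.toNat_coe]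
  · rw [(ord_eq_zero hh h6 z).2 e, ← two_ord, (ord_eq_zero (hol_sub _) (sub_ne _) z).2 e]

theorem deriv_pow_mul {u : ℂ → ℂ} {z : ℂ} (hu : AnalyticAt ℂ u z) {k i : ℕ} (hi : i ≤ k) :
    iteratedDeriv i (fun t => (t - z) ^ k * u t) z = if i = k then k.factorial * u z else 0 := by
  have h : ∀ l, iteratedDeriv l (fun t => (t - z) ^ k) z = if l = k then k.factorial else 0 :=
    fun l => by
      rw [iteratedDeriv_comp_sub_const (f := (· ^ k))]
      simp only [sub_self, iteratedDeriv_fun_pow_zero]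
  rw [iteratedDeriv_fun_mul (by fun_prop) hu.contDiffAt]
  split_ifs with e
  · subst e
    rw [Finset.sum_eq_single i (fun l _ hl => by simp [h, hl]) (by simp)]
    simp [h]
  · exact Finset.sum_eq_zero fun l hl => by
      rw [h, if_neg (by have := Finset.mem_range.1 hl; omega)]
      simp

end PO

end Pool.Agent.Lib.MP_d6ddbd_nt.K
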