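import Mathlib
import Pool.Agent.Lib.MP_d6ddbd_nt.K.PiOrd2

set_option autoImplicit false

open UpperHalfPlane
open scoped MatrixGroups
open Pool.Agent.Lib.MP_9177b7_ag.CM (jH up dn)

noncomputable section

namespace Pool.Agent.Lib.MP_d6ddbd_nt.K

namespace PO

/-- All Hermite representatives of determinant at most `L`. -/
noncomputable def HH (L : ℕ) : Finset (Mat ℤ) := (Finset.Icc 1 L).biUnion herm

variable {L : ℕ} {A : Mat ℤ}

theorem mem_HH : A ∈ HH L ↔ ∃ m, 0 < m ∧ m ≤ L ∧ A ∈ herm m := by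
  simp only [HH, Finset.mem_biUnion, Finset.mem_Icc, and_assoc]
  rfl

theorem HH_det (h : A ∈ HH L) : 0 < A.det ∧ A.det ≤ L := by
  obtain ⟨m, h1, h2, h3⟩ := mem_HH.1 h
  rw [herm_det h3]
  exact ⟨by exact_mod_cast h1, by exact_mod_cast h2⟩

theorem pi0_eq (L : ℕ) (z w : ℍ) : Pi0 L z w = ∏ A ∈ HH L, (jH w - jH (act A z)) :=
  (Finset.prod_biUnion fun m _ m' _ hm => Finset.disjoint_left.2 fun _ h h' =>
    hm (by exact_mod_cast (herm_det h).symm.trans (herm_det h'))).symm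

theorem det_sl (γ : SL(2, ℤ)) (A : Mat ℤ) : (γ.1 * A).det = A.det := by
  rw [Matrix.det_mul, γ.2, one_mul]

theorem card_MM (L : ℕ) (z w : ℍ) :
    (MM L z w).ncard = ∑ A ∈ HH L, (tr (act A z) w).ncard := by
  simp only [fun A => Set.ncard_eq_toFinset_card _ (tr_finite (act A z) w)]
  rw [← Finset.card_sigma, ← Set.ncard_coe_finset]
  refine (Set.ncard_congr (fun p _ => p.2.1 * p.1) ?_ ?_ ?_).symm
  · rintro ⟨A, γ⟩ h
    obtain ⟨h1, h2⟩ := Finset.mem_sigma.1 h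
    rw [mem_MM, det_sl, act_mul (sl_pos γ) (HH_det h1).1, act_sl]
    exact ⟨(HH_det h1).1, (HH_det h1).2, (tr_finite _ _).mem_toFinset.1 h2⟩
  · rintro ⟨A, γ⟩ ⟨A', γ'⟩ h h' e
    obtain ⟨m, h1, -, h2⟩ := mem_HH.1 (Finset.mem_sigma.1 h).1
    obtain ⟨m', -, -, h3⟩ := mem_HH.1 (Finset.mem_sigma.1 h').1
    have h4 := congrArg Matrix.det e
    rw [det_sl, det_sl, herm_det h2, herm_det h3, Nat.cast_inj] at h4
    obtain ⟨rfl, rfl⟩ := herm_unique h1 h2 (h4 ▸ h3) e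
    rfl
  · intro α h
    obtain ⟨h1, h2, h3⟩ := mem_MM.1 h
    obtain ⟨m, hm⟩ := Int.eq_ofNat_of_zero_le (zero_le_one.trans h1)
    have h4 : 0 < m := by omega
    obtain ⟨γ, A, h5, rfl⟩ := exists_herm h4 hm
    have h6 : A ∈ HH L := mem_HH.2 ⟨m, h4, by omega, h5⟩
    rw [act_mul (sl_pos γ) (HH_det h6).1, act_sl] at h3
    exact ⟨⟨A, γ⟩, Finset.mem_sigma.2 ⟨h6, (tr_finite _ _).mem_toFinset.2 h3⟩, rfl⟩

theorem det_adj (A : Mat ℤ) : A.adjugate.det = A.det := by simp [Matrix.det_adjugate]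

theorem adj_adj (A : Mat ℤ) : A.adjugate.adjugate = A := by simp [Matrix.adjugate_adjugate']

theorem adj_mem {z w : ℍ} (h : A ∈ MM L z w) : A.adjugate ∈ MM L w z := by
  obtain ⟨h1, h2, rfl⟩ := mem_MM.1 h
  rw [mem_MM, det_adj]
  exact ⟨h1, h2, act_adj h1 z⟩

theorem card_adj (L : ℕ) (z w : ℍ) : (MM L z w).ncard = (MM L w z).ncard :=
  Set.ncard_congr (fun A _ => A.adjugate) (fun _ => adj_mem)
    (fun A B _ _ e => by rw [← adj_adj A, e, adj_adj]) fun A h => ⟨_, adj_mem h, adj_adj A⟩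

theorem ord_back (hA : 0 < A.det) (z : ℍ) : Hol (fun t => jH z - jH (act A t)) ∧
    (fun t => jH z - jH (act A t)) ≠ 0 ∧
      ∀ w, 2 * ord (fun t => jH z - jH (act A t)) w = (tr (act A w) z).ncard := by
  have h1 : (fun t => jH z - jH t) = fun t => -1 * (jH t - jH z) := funext fun t => by ring
  refine ⟨(hol_const _).sub (hol_jH.act hA), fun e => sub_ne (jH z) (funext fun t => ?_),
    fun w => ?_⟩
  · have h2 := act_adj (det_adj A ▸ hA) t
    rw [adj_adj] at h2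
    have h3 : jH z - jH (act A (act A.adjugate t)) = 0 := congrFun e _
    rw [h2, sub_eq_zero] at h3
    exact sub_eq_zero.2 h3.symm
  · rw [ord_act (f := fun t => jH z - jH t) ((hol_const _).sub hol_jH) hA, h1,
      ord_const_mul (hol_sub _) (sub_ne _) (by norm_num), two_ord]
    exact Set.ncard_congr (fun γ _ => γ⁻¹) (fun γ h => inv_smul_eq_iff.2 h.symm)
      (fun _ _ _ _ e => inv_injective e) fun γ h => ⟨γ⁻¹, inv_smul_eq_iff.2 h.symm, inv_inv γ⟩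

/-- The scalar matrices. -/
noncomputable def SC (L : ℕ) : Finset (Mat ℤ) :=
  (Finset.Icc 1 L.sqrt).image fun k : ℕ => (k : ℤ) • (1 : Mat ℤ)

theorem card_SC (L : ℕ) : (SC L).card = L.sqrt := by
  rw [SC, Finset.card_image_of_injective _ fun k k' e => by
    simpa using congrFun (congrFun e 0) 0]
  simp

theorem SC_sub (L : ℕ) : SC L ⊆ HH L := fun A h => by
  obtain ⟨k, hk, rfl⟩ := Finset.mem_image.1 h
  obtain ⟨h1, h2⟩ := Finset.mem_Icc.1 hk
  exact mem_HH.2 ⟨k * k, Nat.mul_pos h1 h1, Nat.le_sqrt.1 h2,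
    smul_mem_herm (by exact_mod_cast h1) (by push_cast; rfl)⟩

theorem act_SC (h : A ∈ SC L) (z : ℍ) : act A z = z := by
  obtain ⟨k, hk, rfl⟩ := Finset.mem_image.1 h
  rw [act_smul (by have := (Finset.mem_Icc.1 hk).1; omega), act_one]

theorem ord_rest (h : A ∈ HH L \ SC L) (z : ℍ) : (fun t => jH t - jH (act A t)) ≠ 0 ∧
    2 * ord (fun t => jH t - jH (act A t)) z = (tr (act A z) z).ncard := by
  obtain ⟨h1, h2⟩ := Finset.mem_sdiff.1 h
  obtain ⟨m, h3, -, h4⟩ := mem_HH.1 h1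
  refine ord_diag h3 h4 (fun k hk e => h2 ?_) z
  obtain ⟨k, rfl⟩ := Int.eq_ofNat_of_zero_le hk.le
  have h5 := (HH_det h1).2
  rw [e, Matrix.det_smul, Matrix.det_one, mul_one, Fintype.card_fin] at h5
  exact Finset.mem_image.2 ⟨k, Finset.mem_Icc.2 ⟨by omega, Nat.le_sqrt'.2 (by exact_mod_cast h5)⟩,
    e.symm⟩

/-- The factors that do not vanish on the diagonal. -/
noncomputable def rest (L : ℕ) (z w : ℍ) : ℂ :=
  (-1) ^ L.sqrt * ∏ A ∈ HH L \ SC L, ((jH w - jH (act A z)) * (jH z - jH (act A w)))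

theorem hol_rest (L : ℕ) (z : ℍ) : Hol (rest L z) :=
  (hol_const _).mul (hol_prod _ fun _ h => (hol_sub _).mul
    (ord_back (HH_det (Finset.mem_sdiff.1 h).1).1 z).1)

theorem pi1_eq (L : ℕ) (z w : ℍ) : Pi1 L z w = (jH w - jH z) ^ (2 * L.sqrt) * rest L z w := by
  rw [Pi1, pi0_eq, pi0_eq, ← Finset.prod_mul_distrib, ← Finset.prod_sdiff (SC_sub L), rest,
    Finset.prod_congr (s₁ := SC L) rfl (g := fun _ => -1 * (jH w - jH z) ^ 2) fun A h => by
      rw [act_SC h, act_SC h]; ring, Finset.prod_const, card_SC, mul_pow, ← pow_mul, mul_comm,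
    mul_comm ((-1 : ℂ) ^ _), mul_assoc]

theorem deriv_pi (L : ℕ) (z : ℍ) {i : ℕ} (hi : i ≤ 2 * L.sqrt) :
    iteratedDeriv i (Pi1 L z ∘ ofComplex) z = if i = 2 * L.sqrt then
      (2 * L.sqrt).factorial * (dj z ^ (2 * L.sqrt) * rest L z z) else 0 := by
  obtain ⟨p, hp⟩ := hol_jH.analyticAt z
  have h1 : AnalyticAt ℂ (dslope (jH ∘ ofComplex) z) z := ⟨_, hp.has_fpower_series_dslope_fslope⟩
  have h2 : Pi1 L z ∘ ofComplex = fun t => (t - z) ^ (2 * L.sqrt) *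
      (dslope (jH ∘ ofComplex) z t ^ (2 * L.sqrt) * (rest L z ∘ ofComplex) t) := by
    ext t
    rw [← mul_assoc, ← mul_pow, ← smul_eq_mul (t - z), sub_smul_dslope]
    simp only [Function.comp_apply, ofComplex_apply, pi1_eq]
  rw [h2, deriv_pow_mul ((h1.fun_pow _).fun_mul ((hol_rest L z).analyticAt z)) hi, dslope_same]
  simp only [Function.comp_apply, ofComplex_apply, dj]

theorem qp_pi (L : ℕ) : qp (2 * L.sqrt) (Pi1 L) = fun z => (-1) ^ L.sqrt *
    (dj z ^ (2 * L.sqrt) * ∏ A ∈ HH L \ SC L, (jH z - jH (act A z)) ^ 2) := by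
  ext z
  rw [qp, deriv_pi L z le_rfl, if_pos rfl,
    inv_mul_cancel_left₀ (Nat.cast_ne_zero.2 (Nat.factorial_ne_zero _)), rest]
  simp only [pow_two]
  ring

end PO

open PO

theorem ord_j (w : ℍ) : (fun t => jH t - jH w) ≠ 0 ∧
    2 * ord (fun t => jH t - jH w) w = {γ : SL(2, ℤ) | γ • w = w}.ncard :=
  ⟨sub_ne _, two_ram w⟩

theorem ord_j_one {w : ℍ} (h0 : jH w ≠ 0) (h1 : jH w ≠ 1728) :
    ord (fun t => jH t - jH w) w = 1 ∧ ∀ γ : SL(2, ℤ), γ • w = w → γ = 1 ∨ γ = -1 :=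
  ⟨ram_one h0 h1, stab_triv h0 h1⟩

theorem pi_fib (L : ℕ) (z : ℍ) : Pi1 L z ≠ 0 ∧ ∀ w, ord (Pi1 L z) w = (MM L z w).ncard := by
  have h1 := ord_prod (HH L) (F := fun A t => jH t - jH (act A z)) (fun _ _ => hol_sub _)
    fun _ _ => sub_ne _
  have h2 := ord_prod (HH L) (F := fun A t => jH z - jH (act A t))
    (fun _ h => (ord_back (HH_det h).1 z).1) fun _ h => (ord_back (HH_det h).1 z).2.1
  have h3 := hol_prod (HH L) (F := fun A t => jH t - jH (act A z)) fun _ _ => hol_sub _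
  have h4 := hol_prod (HH L) (F := fun A t => jH z - jH (act A t))
    fun _ h => (ord_back (HH_det h).1 z).1
  rw [show Pi1 L z = fun w => (∏ A ∈ HH L, (jH w - jH (act A z))) *
    ∏ A ∈ HH L, (jH z - jH (act A w)) from funext fun w => by rw [Pi1, pi0_eq, pi0_eq]]
  refine ⟨h3.mul_ne_zero h4 (h1 z).1 (h2 z).1, fun w => ?_⟩
  have h5 : 2 * ∑ A ∈ HH L, ord (fun t => jH t - jH (act A z)) w = (MM L z w).ncard := by
    rw [card_MM, Finset.mul_sum]
    exact Finset.sum_congr rfl fun A _ => two_ord _ _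
  have h6 : 2 * ∑ A ∈ HH L, ord (fun t => jH z - jH (act A t)) w = (MM L z w).ncard := by
    rw [card_adj, card_MM, Finset.mul_sum]
    exact Finset.sum_congr rfl fun A h => (ord_back (HH_det h).1 z).2.2 w
  rw [ord_mul h3 h4 (h1 z).1 (h2 z).1, (h1 w).2, (h2 w).2]
  omega

theorem pi_van (L : ℕ) : Van (Pi1 L) 1 (2 * L.sqrt) := fun z i hi => by
  rw [act_one, deriv_pi L z hi.le, if_neg hi.ne]

theorem pi_diag (L : ℕ) : qp (2 * L.sqrt) (Pi1 L) ≠ 0 ∧
    ∀ z, ord (qp (2 * L.sqrt) (Pi1 L)) z + 2 * L.sqrt = (MM L z z).ncard := by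
  have h0 : ∀ A ∈ HH L \ SC L, Hol fun t => jH t - jH (act A t) := fun A h =>
    hol_jH.sub (hol_jH.act (HH_det (Finset.mem_sdiff.1 h).1).1)
  have h1 := ord_prod (HH L \ SC L) (F := fun A t => (jH t - jH (act A t)) ^ 2)
    (fun A h => (h0 A h).pow 2) fun _ h => pow_ne (ord_rest h I).1 2
  have h2 := hol_prod (HH L \ SC L) (F := fun A t => (jH t - jH (act A t)) ^ 2)
    fun A h => (h0 A h).pow 2
  have h3 := hol_dj.pow (2 * L.sqrt)
  have h4 := pow_ne (ord_dj I).1 (2 * L.sqrt)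
  have h5 := h3.mul_ne_zero h2 h4 (h1 I).1
  have h6 : ((-1 : ℂ)) ^ L.sqrt ≠ 0 := pow_ne_zero _ (by norm_num)
  rw [qp_pi]
  refine ⟨(hol_const _).mul_ne_zero (h3.mul h2) (fun e => h6 (congrFun e I)) h5, fun z => ?_⟩
  rw [ord_const_mul (h3.mul h2) h5 h6, ord_mul h3 h2 h4 (h1 I).1, ord_pow hol_dj (ord_dj I).1,
    (h1 z).2, card_MM, ← Finset.sum_sdiff (SC_sub L),
    Finset.sum_congr (s₁ := SC L) rfl (g := fun _ => 2 * (ord dj z + 1)) fun A h => by
      rw [act_SC h, ord_dj_add, two_ram], Finset.sum_const, card_SC,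
    Finset.sum_congr rfl fun A h =>
      (ord_pow (h0 A h) (ord_rest h z).1 2 z).trans (ord_rest h z).2, smul_eq_mul]
  ring

theorem wm2_hol : Hol wm2 ∧ wm2 ≠ 0 := by
  rw [show wm2 = fun z => ModularForm.E₄ z * ModularForm.E₆ z * (ModularForm.discriminant z)⁻¹ from
    funext fun z => div_eq_mul_inv _ _]
  exact ⟨(hol_E4.mul hol_E6).mul hol_Dinv, (hol_E4.mul hol_E6).mul_ne_zero hol_Dinv
    (hol_E4.mul_ne_zero hol_E6 E4_ne E6_ne) Dinv_ne⟩

end Pool.Agent.Lib.MP_d6ddbd_nt.K
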