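import Mathlib
import Pool.Agent.Lib.MP_d6ddbd_nt.K.QE
import Pool.Agent.Lib.MP_d6ddbd_nt.K.DefsX
import Pool.Agent.Lib.MP_d6ddbd_nt.K.PiOrd3
import Pool.Agent.Lib.MP_d6ddbd_nt.X.Main
import Pool.Agent.Lib.MP_d6ddbd_nt.GF.Abel
import Pool.Agent.Lib.MP_d6ddbd_nt.G.Curve

set_option autoImplicit false

open UpperHalfPlane
open scoped MatrixGroups
open Pool.Agent.Lib.MP_9177b7_ag.CM (jH up dn)
open Pool.Agent.Lib.MP_d6ddbd_nt.X (xf tf)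

noncomputable section

namespace Pool.Agent.Lib.MP_d6ddbd_nt.K

theorem ww_eq (τ : ℍ) : ofComplex (-1 / (17 * (τ : ℂ))) = X.ww τ := by
  rw [← X.coe_ww, ofComplex_apply]

theorem mf_xf : MF G0 xf := X.modS.1

theorem mf_xfW : MF G0 fun τ => xf (ofComplex (-1 / (17 * (τ : ℂ)))) := by
  simp only [ww_eq]
  refine X.cos.2.2.2.2.2.2.2 _ X.ex_xw.hol (fun γ hγ τ => ?_) X.ex_xw.gro ?_
  · obtain ⟨δ, h1, h2⟩ := X.cos.2.2.1 γ hγ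
    rw [h2, mf_xf.inv δ h1]
  · simp only [X.ww_ww]
    exact X.ex_xf.gro

theorem qe_xf : ∃ c, QE 1 xf c ∧ RatS c ∧ Lead c (-2) 1 ∧ c.coeff (-1) = 1 := by
  obtain ⟨c, h1, h2, h3, h4⟩ := X.modS.2.2.2.2.2.2.2.2.1
  exact ⟨c, h1, h2, ⟨h3, by simpa using h4 0 (by norm_num)⟩, by simpa using h4 1 (by norm_num)⟩

theorem qe_xfW : ∃ c, QE 1 (fun τ => xf (ofComplex (-1 / (17 * (τ : ℂ))))) c ∧
    ∀ N < 0, c.coeff N = 0 := by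
  obtain ⟨c, h1, -, h3, -⟩ := X.modS.2.2.2.2.2.2.2.2.2.2.2.2.2.1
  simp only [ww_eq]
  exact ⟨c, h1, by simpa using h3⟩

theorem on_curve (τ : ℍ) : EE.Nonsingular (XX τ) (YY τ) := (G.EE_ns _ _).2 (X.curS.1 τ)

theorem phi_inv {γ : SL(2, ℤ)} (h : γ ∈ G0) (τ : ℍ) : phi (γ • τ) = phi τ := by
  rw [phi, phi, X.mdlS.mX.inv γ h, X.mdlS.mY.inv γ h]

theorem four_TT : 4 • TT = 0 := by
  apply G.br.injective
  rw [map_nsmul, G.br_TT, map_zero, ← G.curve.1, ← natCast_zsmul]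
  rfl

theorem phi_W (τ : ℍ) : phi (ofComplex (-1 / (17 * (τ : ℂ)))) = TT - phi τ := by
  rw [ww_eq, X.curS.2.1]

theorem abel {f₁ f₂ : ℍ → ℂ} (h₁ : MF G0 f₁) (h₂ : MF G0 f₂) (n₁ : f₁ ≠ 0) (n₂ : f₂ ≠ 0)
    (D : ℍ → ℤ) (hD : ∀ z, D z = (ord f₁ z : ℤ) - ord f₂ z)
    (hj : ∀ z, D z ≠ 0 → jH z ≠ 0 ∧ jH z ≠ 1728) : IsOfFinAddOrder (hsum D) :=
  (GF.abel X.mdlS X.injS ⟨mf_jH.mono le_top, fun _ h0 h1 => (ord_j_one h0 h1).1⟩ EE rfl phi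
    (fun z => ⟨on_curve z, dif_pos _⟩) f₁ f₂ D h₁ h₂ (Function.ne_iff.1 n₁) (Function.ne_iff.1 n₂)
    (fun z => (hD z).symm) hj).2

end Pool.Agent.Lib.MP_d6ddbd_nt.K
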