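import Mathlib
import Pool.Agent.Lib.MP_d6ddbd_nt.K.X0
import Pool.Agent.Lib.MP_d6ddbd_nt.K.Hec
import Pool.Agent.Lib.MP_d6ddbd_nt.K.Heeg2

set_option autoImplicit false

open UpperHalfPlane
open scoped MatrixGroups
open Pool.Agent.Lib.MP_9177b7_ag.CM (jH up dn)

noncomputable section

namespace Pool.Agent.Lib.MP_d6ddbd_nt.K

/-- Abel's theorem from level `n`, through the norm. -/
theorem abel_level {n : ℕ} (hn : 0 < n) (h17 : 17 ∣ n) {f₁ f₂ : ℍ → ℂ}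
    (h₁ : MF (CongruenceSubgroup.Gamma n) f₁) (h₂ : MF (CongruenceSubgroup.Gamma n) f₂)
    (n₁ : f₁ ≠ 0) (n₂ : f₂ ≠ 0) (D : ℍ → ℤ) (N : ℤ) (hN : N ≠ 0)
    (hD : ∀ z, N * D z = (ord f₁ z : ℤ) - ord f₂ z) (hi : ∀ γ ∈ G0, ∀ z, D (γ • z) = D z)
    (hf : Fin0 D) (hj : ∀ z, D z ≠ 0 → jH z ≠ 0 ∧ jH z ≠ 1728) :
    IsOfFinAddOrder (hsum D) :=
  HeegAux.abel_of abel hn h₁ h₂ n₁ n₂ D N hN hD hi hf hj

theorem pp_neg (m : ℕ) (hm : Odd m) (h17 : jacobiSym 17 m = 1) (hs : Squarefree m) {Δ : ℤ}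
    (hΔ : Δ < 0) (β : ℤ) : PP m Δ (-β) = hdeg (Dv m Δ β) • TT - PP m Δ β :=
  HeegAux.pp_of (fun _ h => phi_inv h) phi_W m hm h17 hs hΔ β

end Pool.Agent.Lib.MP_d6ddbd_nt.K
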