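import Mathlib
import Pool.Agent.Lib.MP_d6ddbd_nt.K.Heeg
import Pool.Agent.Lib.MP_d6ddbd_nt.K.Hec
import Pool.Agent.Lib.MP_d6ddbd_nt.K.QE

/-!
Lemmas for the relation between twisted Heegner points: clearing denominators, the convolution
with the auxiliary vector, and the sum over the matrices that fix a point.
-/

set_option autoImplicit false

open UpperHalfPlane
open scoped MatrixGroups

noncomputable section

namespace Pool.Agent.Lib.MP_d6ddbd_nt.K.Gk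

theorem low_ex (c : LaurentSeries ℂ) : ∃ A : ℕ, ∀ N : ℤ, N < -(A : ℤ) → c.coeff N = 0 :=
  ⟨c.order.natAbs, fun N hN => HahnSeries.coeff_eq_zero_of_lt_order (by omega)⟩

/-- Clearing the denominators of the polar coefficients. -/
theorem exists_inp {n : ℕ} [NeZero n] {F : Mat (ZMod n) → ℍ → ℂ}
    {C : Mat (ZMod n) → LaurentSeries ℂ} (hW : WL n F) (hq : ∀ α, QE n (F α) (C α))
    (hr : ∀ α, RatS (C α)) :
    ∃ (D L : ℕ) (I : Mat (ZMod n) → ℤ → ℤ), 0 < D ∧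
      Inp n (fun α τ => (D : ℂ) * F α τ) (fun α => (D : ℂ) • C α) L I := by
  choose A hA using fun α => low_ex (C α)
  choose r hr using hr
  obtain ⟨L, hL⟩ : ∃ L : ℕ, ∀ α (N : ℤ), N < -(L : ℤ) → (C α).coeff N = 0 := by
    refine ⟨Finset.univ.sup A, fun α N hN => hA α N ?_⟩
    have : A α ≤ Finset.univ.sup A := Finset.le_sup (Finset.mem_univ α)
    omega
  obtain ⟨D, hD0, hD⟩ : ∃ D : ℕ, 0 < D ∧
      ∀ α (N : ℤ), N < 0 → ∃ i : ℤ, (D : ℂ) * (C α).coeff N = i := by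
    refine ⟨∏ α, ∏ N ∈ Finset.Icc (-(L : ℤ)) 0, (r α N).den,
      Finset.prod_pos fun α _ => Finset.prod_pos fun N _ => (r α N).den_pos, fun α N hN => ?_⟩
    rcases lt_or_ge N (-(L : ℤ)) with h | h
    · exact ⟨0, by rw [hL α N h]; simp⟩
    obtain ⟨t, ht⟩ : (r α N).den ∣ ∏ α, ∏ N ∈ Finset.Icc (-(L : ℤ)) 0, (r α N).den :=
      (Finset.dvd_prod_of_mem (fun N => (r α N).den) (Finset.mem_Icc.2 ⟨h, hN.le⟩)).trans
        (Finset.dvd_prod_of_mem (fun α => ∏ N ∈ Finset.Icc (-(L : ℤ)) 0, (r α N).den)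
          (Finset.mem_univ α))
    refine ⟨t * (r α N).num, ?_⟩
    have h1 : (((r α N).den : ℚ) * r α N : ℚ) = (r α N).num := Rat.den_mul_eq_num _
    have h2 : ((r α N).den : ℂ) * (r α N : ℂ) = (r α N).num := by exact_mod_cast h1
    rw [ht, hr α N]
    push_cast
    linear_combination (t : ℂ) * h2
  choose! I hI using hD
  refine ⟨D, L, I, hD0, ⟨fun α => (hol_const _).mul (hW.hol α), fun α τ => ?_, ?_⟩,
    fun α => (hq α).smul _, fun α N hN => ?_, fun α N hN => ?_⟩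
  · rw [hW.lawT]
    ring
  · obtain ⟨l, hl, h⟩ := hW.lawS
    refine ⟨l, hl, fun α τ => ?_⟩
    rw [h, mul_left_comm, Finset.mul_sum]
    congr 1
    exact Finset.sum_congr rfl fun β _ => by ring
  · rw [HahnSeries.coeff_smul, hL α N hN, smul_zero]
  · rw [HahnSeries.coeff_smul, smul_eq_mul, hI α N hN]

theorem coeff_mul_Icc (x y : LaurentSeries ℂ) (N A B : ℤ) (hx : ∀ i < A, x.coeff i = 0)
    (hy : ∀ i, B < i → y.coeff (N - i) = 0) :
    (x * y).coeff N = ∑ i ∈ Finset.Icc A B, x.coeff i * y.coeff (N - i) := by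
  rw [HahnSeries.coeff_mul]
  refine Finset.sum_bij_ne_zero (fun p _ _ => p.1) ?_ ?_ ?_ ?_
  · intro p hp h0
    obtain ⟨-, -, e⟩ := Finset.mem_antidiagonal.1 hp
    rw [Finset.mem_Icc]
    constructor
    · by_contra h
      exact h0 (by rw [hx _ (not_le.1 h), zero_mul])
    · by_contra h
      have := hy _ (not_le.1 h)
      rw [← e, add_sub_cancel_left] at this
      exact h0 (by rw [this, mul_zero])
  · intro p hp _ q hq _ e
    obtain ⟨-, -, e1⟩ := Finset.mem_antidiagonal.1 hp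
    obtain ⟨-, -, e2⟩ := Finset.mem_antidiagonal.1 hq
    exact Prod.ext e (by omega)
  · intro i _ h0
    exact ⟨(i, N - i), Finset.mem_antidiagonal.2
      ⟨left_ne_zero_of_mul h0, right_ne_zero_of_mul h0, by simp⟩, h0, rfl⟩
  · intro p hp _
    obtain ⟨-, -, e⟩ := Finset.mem_antidiagonal.1 hp
    rw [← e, add_sub_cancel_left]

/-- The convolution with the auxiliary vector. -/
theorem conv {c : ℤ → LaurentSeries ℂ} {K : ℕ} {w : ℂ}
    (hl : ∀ r (N : ℤ), N < -(K : ℤ) → (c r).coeff N = 0)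
    (hs : ∀ N : ℤ, ∑ᶠ r : ℤ, (c r).coeff (N - r ^ 2) = if N = 0 then w else 0)
    (x : LaurentSeries ℂ) (M : ℤ) :
    ∑ᶠ r : ℤ, (x * c r).coeff (M - r ^ 2) = w * x.coeff M := by
  obtain ⟨A, hA⟩ := low_ex x
  have h1 : ∀ r : ℤ, (x * c r).coeff (M - r ^ 2) =
      ∑ i ∈ Finset.Icc (-(A : ℤ)) (M + K), x.coeff i * (c r).coeff (M - i - r ^ 2) := by
    intro r
    rw [coeff_mul_Icc x (c r) _ (-(A : ℤ)) (M + K) hA
      fun i hi => hl r _ (by nlinarith [sq_nonneg r])]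
    exact Finset.sum_congr rfl fun i _ => by rw [sub_right_comm]
  simp only [h1]
  rw [finsum_sum_comm]
  · simp only [← mul_finsum, hs]
    rw [Finset.sum_eq_single M]
    · simp [mul_comm]
    · intro i _ hi
      rw [if_neg (by omega), mul_zero]
    · intro hM
      rw [Finset.mem_Icc] at hM
      rw [hA M (by omega), zero_mul]
  · intro i _
    refine (Set.finite_Icc (-(|M - i| + K + 1)) (|M - i| + K + 1)).subset fun r hr => ?_
    have h2 : ¬ M - i - r ^ 2 < -(K : ℤ) := fun h => hr (by simp only [hl r _ h, mul_zero])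
    have h3 := le_abs_self (M - i)
    have h4 := abs_nonneg (M - i)
    constructor <;> nlinarith [sq_nonneg (r - 1), sq_nonneg (r + 1)]

theorem chi_zero {m : ℕ} (hm : 1 < m) : chi m 0 0 0 = 0 := by
  obtain ⟨p, hp, hpm⟩ := Nat.exists_prime_and_dvd hm.ne'
  refine Finset.prod_eq_zero (i := p) (Nat.mem_primeFactors.2 ⟨hp, hpm, by omega⟩) ?_
  simp [chip, jacobiSym.zero_left hp.one_lt]

theorem chi_neg {m : ℕ} (hm : Squarefree m) (h4 : m % 4 = 3) (A B C : ℤ) :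
    chi m (-A) (-B) (-C) = -chi m A B C := by
  have h1 : ∀ p : ℕ, chip p (-A) (-B) (-C) = jacobiSym (-1) p * chip p A B C := by
    intro p
    simp only [chip, dvd_neg, neg_sq, mul_neg, neg_mul, neg_neg]
    rw [← neg_one_mul A, ← neg_one_mul C, jacobiSym.mul_left, jacobiSym.mul_left]
    split_ifs <;> simp
  have h2 : ∀ s : Finset ℕ, (∀ p ∈ s, p ≠ 0) →
      ∏ p ∈ s, jacobiSym (-1) p = jacobiSym (-1) (∏ p ∈ s, p) := by
    intro s
    induction s using Finset.induction_on with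
    | empty => simp
    | insert a s ha ih =>
      intro h
      have hs : ∀ p ∈ s, p ≠ 0 := fun p hp => h p (Finset.mem_insert_of_mem hp)
      rw [Finset.prod_insert ha, Finset.prod_insert ha, ih hs,
        jacobiSym.mul_right' _ (h a (Finset.mem_insert_self _ _)) (Finset.prod_ne_zero_iff.2 hs)]
  simp only [chi, h1]
  rw [Finset.prod_mul_distrib, h2 _ fun p hp => (Nat.prime_of_mem_primeFactors hp).ne_zero,
    Nat.prod_primeFactors_of_squarefree hm, jacobiSym.at_neg_one (Nat.odd_iff.2 (by omega)),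
    ZMod.χ₄_nat_three_mod_four h4, neg_one_mul]

/-- Forms `[17 a, b, c]` with root `z`. -/
def Zs (z : ℍ) : Set (ℤ × ℤ × ℤ) :=
  {Q | 17 * (Q.1 : ℂ) * (z : ℂ) ^ 2 + Q.2.1 * (z : ℂ) + Q.2.2 = 0}

/-- The discriminant of `[17 a, b, c]`. -/
def dsc (Q : ℤ × ℤ × ℤ) : ℤ := Q.2.1 ^ 2 - 68 * Q.1 * Q.2.2

theorem zs_neg {z : ℍ} {Q : ℤ × ℤ × ℤ} (h : Q ∈ Zs z) : Q = 0 ∨ dsc Q < 0 := by
  obtain ⟨a, b, c⟩ := Q
  have h0 : 17 * (a : ℂ) * (z : ℂ) ^ 2 + b * (z : ℂ) + c = 0 := h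
  have h1 := congrArg Complex.re h0
  have h2 := congrArg Complex.im h0
  simp [sq] at h1 h2
  have hy := z.im_pos
  have hb : (b : ℝ) = -(34 * a * z.re) := by
    apply mul_right_cancel₀ hy.ne'
    linarith
  have hc : (c : ℝ) = 17 * a * (z.re ^ 2 + z.im ^ 2) := by
    rw [hb] at h1
    linarith
  rcases eq_or_ne a 0 with rfl | ha
  · left
    simp only [Int.cast_zero, mul_zero, zero_mul, neg_zero, Int.cast_eq_zero] at hb hc
    rw [hb, hc]
    rfl
  · right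
    have ha' : (a : ℝ) ≠ 0 := by exact_mod_cast ha
    have h3 : ((dsc (a, b, c) : ℤ) : ℝ) = -(1156 * (a * z.im) ^ 2) := by
      simp only [dsc]
      push_cast
      rw [hb, hc]
      ring
    have h4 : 0 < ((a : ℝ) * z.im) ^ 2 := by positivity
    have h5 : ((dsc (a, b, c) : ℤ) : ℝ) < 0 := by linarith
    exact_mod_cast h5

theorem det_piM (Q : ℤ × ℤ × ℤ) (r : ℤ) :
    -(piM Q.1 Q.2.1 Q.2.2 r).det = 9 * dsc Q - r ^ 2 := by
  simp only [piM, Matrix.det_fin_two_of, dsc]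
  ring

theorem piM_inj : Function.Injective
    fun x : (ℤ × ℤ × ℤ) × ℤ => piM x.1.1 x.1.2.1 x.1.2.2 x.2 := by
  rintro ⟨⟨a, b, c⟩, r⟩ ⟨⟨a', b', c'⟩, r'⟩ e
  have h1 := congrFun (congrFun e 0) 0
  have h2 := congrFun (congrFun e 0) 1
  have h3 := congrFun (congrFun e 1) 0
  have h4 := congrFun (congrFun e 1) 1
  simp [piM] at h1 h2 h3 h4
  simp only [Prod.mk.injEq]
  omega

theorem piM_fix (z : ℍ) (Q : ℤ × ℤ × ℤ) (r : ℤ) :
    ((piM Q.1 Q.2.1 Q.2.2 r 0 0 : ℤ) : ℂ) * z + (piM Q.1 Q.2.1 Q.2.2 r 0 1 : ℤ) =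
      (z : ℂ) * ((piM Q.1 Q.2.1 Q.2.2 r 1 0 : ℤ) * z + (piM Q.1 Q.2.1 Q.2.2 r 1 1 : ℤ)) ↔
      Q ∈ Zs z := by
  simp only [piM, Zs, Set.mem_ofPred_eq, Matrix.of_apply, Matrix.cons_val', Matrix.cons_val_zero,
    Matrix.cons_val_one, Matrix.cons_val_fin_one]
  push_cast
  constructor
  · intro h
    linear_combination (-1 / 6 : ℂ) * h
  · intro h
    linear_combination (-6 : ℂ) * h

/-- The sum over the matrices that fix `z` as a sum over forms. -/
theorem diag_sum {m L : ℕ} (hm : 1 < m) {G : Mat ℤ → LaurentSeries ℂ}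
    {u c : ℤ → LaurentSeries ℂ} {w : ℂ}
    (hG : ∀ a b d r, G (piM a b d r) = (chi m (17 * a) b d : ℂ) • (u b * c r))
    (h0 : ∀ α, (¬ ∃ a b d r, α = piM a b d r) → G α = 0)
    (hL : ∀ α (N : ℤ), N < -(L : ℤ) → (G α).coeff N = 0)
    (hc : ∀ (x : LaurentSeries ℂ) (M : ℤ), ∑ᶠ r : ℤ, (x * c r).coeff (M - r ^ 2) = w * x.coeff M)
    (z : ℍ) : ∑ᶠ α ∈ MM L z z, (G α).coeff (-α.det) =
      w * ∑ᶠ Q ∈ Zs z, (chi m (17 * Q.1) Q.2.1 Q.2.2 : ℂ) * (u Q.2.1).coeff (9 * dsc Q) := by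
  classical
  set π : (ℤ × ℤ × ℤ) × ℤ → Mat ℤ := fun x => piM x.1.1 x.1.2.1 x.1.2.2 x.2 with hπ
  have hS : ∀ x, (G (π x)).coeff (-(π x).det) ≠ 0 → (π x ∈ MM L z z ↔ x.1 ∈ Zs z) := by
    intro x hx
    refine ⟨fun h => (piM_fix z x.1 x.2).1 h.2.2, fun h => ⟨?_, ?_, (piM_fix z x.1 x.2).2 h⟩⟩
    · rcases zs_neg h with h1 | h1
      · refine absurd ?_ hx
        simp only [hπ, hG, h1, Prod.fst_zero, Prod.snd_zero, mul_zero, chi_zero hm]
        simp
      · have h2 := det_piM x.1 x.2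
        have h3 := sq_nonneg x.2
        simp only [hπ]
        omega
    · by_contra h1
      exact hx (hL _ _ (by omega))
  have e1 : ∑ᶠ α ∈ MM L z z, (G α).coeff (-α.det) =
      ∑ᶠ α ∈ π '' {x | x.1 ∈ Zs z}, (G α).coeff (-α.det) := by
    refine finsum_mem_inter_support_eq' _ _ _ fun α hα => ?_
    obtain ⟨a, b, d, r, rfl⟩ : ∃ a b d r, α = piM a b d r := by
      by_contra h
      exact hα (by simp only [h0 α h, HahnSeries.coeff_zero])
    have h1 := hS ((a, b, d), r) hα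
    refine h1.trans ⟨fun h => ⟨_, h, rfl⟩, ?_⟩
    rintro ⟨x, hx, e⟩
    have : x = ((a, b, d), r) := piM_inj e
    rwa [this] at hx
  rw [e1, finsum_mem_image piM_inj.injOn, finsum_mem_def, finsum_curry, finsum_mem_def,
    mul_finsum]
  · refine finsum_congr fun Q => ?_
    by_cases hQ : Q ∈ Zs z
    · rw [Set.indicator_of_mem hQ, mul_left_comm, ← hc, mul_finsum]
      refine finsum_congr fun r => ?_
      rw [Set.indicator_of_mem (by exact hQ), det_piM, hG, HahnSeries.coeff_smul, smul_eq_mul]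
    · rw [Set.indicator_of_notMem hQ, mul_zero]
      exact finsum_eq_zero_of_forall_eq_zero fun r => Set.indicator_of_notMem (by exact hQ) _
  · refine ((mm_finite L z z).preimage piM_inj.injOn).subset fun x hx => ?_
    rw [Set.support_indicator] at hx
    exact (hS x hx.2).2 hx.1

/-- Both signs of the leading coefficient. -/
theorem both_signs {m : ℕ} (hm : Squarefree m) (h4 : m % 4 = 3) {Δ : ℤ} (hΔ : Δ < 0) (β : ℤ)
    (z : ℍ) : {Q | Q ∈ Zs z ∧ dsc Q = Δ ∧ (34 : ℤ) ∣ Q.2.1 - β}.Finite ∧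
      ∑ᶠ Q ∈ {Q | Q ∈ Zs z ∧ dsc Q = Δ ∧ (34 : ℤ) ∣ Q.2.1 - β},
        (chi m (17 * Q.1) Q.2.1 Q.2.2 : ℂ) = (Dv m Δ β z : ℂ) - Dv m Δ (-β) z := by
  have f1 := (hg_sub hΔ β z).finite
  have f2 := (hg_sub hΔ (-β) z).finite
  have e : {Q | Q ∈ Zs z ∧ dsc Q = Δ ∧ (34 : ℤ) ∣ Q.2.1 - β} =
      Hg Δ β z ∪ (fun Q => -Q) '' Hg Δ (-β) z := by
    ext ⟨a, b, c⟩
    constructor
    · rintro ⟨h1, h2, h3⟩
      have h1' : 17 * (a : ℂ) * (z : ℂ) ^ 2 + b * (z : ℂ) + c = 0 := h1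
      have h2' : b ^ 2 - 68 * a * c = Δ := h2
      have h3' : (34 : ℤ) ∣ b - β := h3
      rcases lt_trichotomy a 0 with ha | ha | ha
      · refine Or.inr ⟨(-a, -b, -c), ⟨by simpa using ha, ?_, ?_, ?_⟩, by simp⟩
        · simp only
          linear_combination h2'
        · simp only
          omega
        · simp only
          push_cast
          linear_combination -h1'
      · rw [ha] at h2'
        nlinarith [sq_nonneg b]
      · exact Or.inl ⟨ha, h2, h3, h1⟩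
    · rintro (⟨-, h2, h3, h1⟩ | ⟨⟨a', b', c'⟩, ⟨-, h2, h3, h1⟩, e⟩)
      · exact ⟨h1, h2, h3⟩
      · simp only [Prod.neg_mk, Prod.mk.injEq] at e h1 h2 h3
        obtain ⟨rfl, rfl, rfl⟩ := e
        refine ⟨?_, ?_, ?_⟩
        · simp only [Zs, Set.mem_ofPred_eq]
          push_cast
          linear_combination -h1
        · simp only [dsc]
          linear_combination h2
        · simp only
          omega
  have hd : Disjoint (Hg Δ β z) ((fun Q => -Q) '' Hg Δ (-β) z) := by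
    rw [Set.disjoint_left]
    rintro Q h1 ⟨Q', h2, rfl⟩
    have h3 : 0 < -Q'.1 := h1.1
    have h5 := h2.1
    omega
  rw [e]
  refine ⟨f1.union (f2.image _), ?_⟩
  rw [finsum_mem_union hd f1 (f2.image _), finsum_mem_image neg_injective.injOn, Dv, Dv,
    sub_eq_add_neg]
  congr 1
  · exact ((Int.castAddHom ℂ).map_finsum_mem _ f1).symm
  · have h1 := ((Int.castAddHom ℂ).comp negAddMonoidHom).map_finsum_mem
      (fun Q : ℤ × ℤ × ℤ => chi m (17 * Q.1) Q.2.1 Q.2.2) f2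
    simp only [AddMonoidHom.comp_apply, negAddMonoidHom_apply, Int.coe_castAddHom,
      Int.cast_neg] at h1
    rw [h1]
    refine finsum_mem_congr rfl fun Q _ => ?_
    simp only [Prod.fst_neg, Prod.snd_neg, mul_neg, chi_neg hm h4, Int.cast_neg]

/-- One polar term of the input. -/
theorem one_term {m : ℕ} (hm : Squarefree m) (h4 : m % 4 = 3) {d : ℤ} (hd : 0 < d) {ρ r₀ : ℤ}
    (hρ : (34 : ℤ) ∣ ρ * r₀ - 1) (h : ℤ) (z : ℍ) :
    (Zs z ∩ Function.support fun Q : ℤ × ℤ × ℤ => (chi m (17 * Q.1) Q.2.1 Q.2.2 : ℂ) *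
      if dsc Q = -(m * d) then (od h (ρ * Q.2.1) : ℂ) else 0).Finite ∧
    ∑ᶠ Q ∈ Zs z, ((chi m (17 * Q.1) Q.2.1 Q.2.2 : ℂ) *
      if dsc Q = -(m * d) then (od h (ρ * Q.2.1) : ℂ) else 0) =
      2 * ((Dv m (-(m * d)) (r₀ * h) z : ℂ) - Dv m (-(m * d)) (-(r₀ * h)) z) := by
  classical
  have hm0 : (0 : ℤ) < m := by omega
  have hΔ : -((m : ℤ) * d) < 0 := neg_neg_of_pos (mul_pos hm0 hd)
  obtain ⟨f1, s1⟩ := both_signs hm h4 hΔ (r₀ * h) z
  obtain ⟨f2, s2⟩ := both_signs hm h4 hΔ (-(r₀ * h)) z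
  have key : ∀ b k : ℤ, (34 : ℤ) ∣ ρ * b - k ↔ (34 : ℤ) ∣ b - r₀ * k := by
    intro b k
    constructor
    · intro h1
      have : b - r₀ * k = r₀ * (ρ * b - k) - b * (ρ * r₀ - 1) := by ring
      rw [this]
      exact (h1.mul_left _).sub (hρ.mul_left _)
    · intro h1
      have : ρ * b - k = ρ * (b - r₀ * k) + k * (ρ * r₀ - 1) := by ring
      rw [this]
      exact (h1.mul_left _).add (hρ.mul_left _)
  have e : ∀ Q, Set.indicator (Zs z) (fun Q : ℤ × ℤ × ℤ => (chi m (17 * Q.1) Q.2.1 Q.2.2 : ℂ) *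
      if dsc Q = -(m * d) then (od h (ρ * Q.2.1) : ℂ) else 0) Q =
      Set.indicator {Q | Q ∈ Zs z ∧ dsc Q = -(m * d) ∧ (34 : ℤ) ∣ Q.2.1 - r₀ * h}
        (fun Q : ℤ × ℤ × ℤ => (chi m (17 * Q.1) Q.2.1 Q.2.2 : ℂ)) Q -
      Set.indicator {Q | Q ∈ Zs z ∧ dsc Q = -(m * d) ∧ (34 : ℤ) ∣ Q.2.1 - -(r₀ * h)}
        (fun Q : ℤ × ℤ × ℤ => (chi m (17 * Q.1) Q.2.1 Q.2.2 : ℂ)) Q := by
    intro Q
    have k1 := key Q.2.1 h
    have k2 := key Q.2.1 (-h)
    rw [sub_neg_eq_add, mul_neg] at k2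
    simp only [Set.indicator_apply, Set.mem_ofPred_eq, od, k1, k2]
    by_cases a1 : Q ∈ Zs z <;> by_cases a2 : dsc Q = -(m * d) <;>
      by_cases a3 : (34 : ℤ) ∣ Q.2.1 - r₀ * h <;> by_cases a4 : (34 : ℤ) ∣ Q.2.1 - -(r₀ * h) <;>
      simp only [a1, a2, a3, a4, if_true, if_false, and_self, false_and, and_false] <;>
      simp
  have g1 := f1.subset (Set.support_indicator_subset
    (f := fun Q : ℤ × ℤ × ℤ => (chi m (17 * Q.1) Q.2.1 Q.2.2 : ℂ)))
  have g2 := f2.subset (Set.support_indicator_subset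
    (f := fun Q : ℤ × ℤ × ℤ => (chi m (17 * Q.1) Q.2.1 Q.2.2 : ℂ)))
  constructor
  · rw [← Set.support_indicator, funext e]
    exact (g1.union g2).subset (Function.support_sub _ _)
  · rw [finsum_mem_def, finsum_congr e, finsum_sub_distrib g1 g2, ← finsum_mem_def,
      ← finsum_mem_def, s1, s2, neg_neg]
    ring

end Pool.Agent.Lib.MP_d6ddbd_nt.K.Gk
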