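import Mathlib
import Pool.Agent.Lib.MP_d6ddbd_nt.K.GenF3

set_option autoImplicit false

open UpperHalfPlane
open scoped MatrixGroups
open Pool.Agent.Lib.MP_9177b7_ag.CM (jH up dn)

noncomputable section

namespace Pool.Agent.Lib.MP_d6ddbd_nt.K

namespace GenFAux

variable {μ : ℂ}

/-- Prescribed principal parts up to level `l`. -/
theorem levels (hS : CS μ) (l : ℕ) : ∀ t : ℤ → ℕ → ℚ, ∃ f c, GV μ 1 f c ∧
    ∀ h ∈ Finset.Icc (1 : ℤ) 16, (∀ N < -dd h - 68 * l, (c h).coeff N = 0) ∧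
      ∀ j ≤ l, j ≠ 0 ∨ 3 ≤ h → (c h).coeff (-dd h - 68 * j) = t h j := by
  induction l with
  | zero =>
    intro t
    obtain ⟨v, ⟨f, c, h1, h2⟩, h3⟩ := lead_any hS 0 fun h => t h 0
    refine ⟨f, c, h1, fun h hh => ⟨(h2 h hh).1, fun j hj hc => ?_⟩⟩
    obtain rfl : j = 0 := by omega
    rw [(h2 h hh).2, h3 h hh hc]
  | succ l ih =>
    intro t
    obtain ⟨v, ⟨f, c, h1, h2⟩, h3⟩ := lead_any hS (l + 1) fun h => t h (l + 1)
    choose s hs using fun (h : ℤ) (j : ℕ) => h1.rat h (-dd h - 68 * j)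
    obtain ⟨f', c', h1', h2'⟩ := ih fun h j => t h j - s h j
    refine ⟨_, _, h1.add h1', fun h hh => ⟨fun N hN => ?_, fun j hj hc => ?_⟩⟩
    · rw [HahnSeries.coeff_add, (h2 h hh).1 N hN, (h2' h hh).1 N (by push_cast at hN; omega),
        add_zero]
    · rw [HahnSeries.coeff_add]
      rcases Nat.lt_or_ge l j with hl | hl
      · obtain rfl : j = l + 1 := by omega
        rw [(h2 h hh).2, h3 h hh hc, (h2' h hh).1 _ (by push_cast; omega), add_zero]
      · rw [hs, (h2' h hh).2 j hl hc]; push_cast; ring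

theorem od_per (h r q : ℤ) : od h (r + 34 * q) = od h r := by
  unfold od
  congr 1 <;> refine if_congr ?_ rfl rfl <;> omega

theorem od_neg (h r : ℤ) : od h (-r) = -od h r := by
  unfold od
  rw [neg_sub]
  congr 1 <;> refine if_congr ?_ rfl rfl <;> omega

theorem od_sq {h r : ℤ} (e : od h r ≠ 0) : (68 : ℤ) ∣ r ^ 2 - h ^ 2 := by
  have : (34 : ℤ) ∣ r - h ∨ (34 : ℤ) ∣ r + h := by
    by_contra hc
    rw [not_or] at hc
    simp [od, hc.1, hc.2] at e
  rcases this with ⟨q, hq⟩ | ⟨q, hq⟩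
  · exact ⟨q * h + 17 * q ^ 2, by rw [show r = h + 34 * q by omega]; ring⟩
  · exact ⟨-q * h + 17 * q ^ 2, by rw [show r = -h + 34 * q by omega]; ring⟩

variable {k : ℤ} {f : ℤ → ℍ → ℂ} {c : ℤ → LaurentSeries ℂ}

theorem GV.c_neg (h : GV μ k f c) (r N : ℤ) : (c (-r)).coeff N = -(c r).coeff N := by
  have e : f (-r) = fun τ => (-1) * f r τ := by funext τ; rw [h.odd]; ring
  have h1 := h.qe (-r)
  rw [e] at h1
  rw [h1.unique (by norm_num) ((h.qe r).smul (-1)), HahnSeries.coeff_smul]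
  simp

theorem GV.c_per (h : GV μ k f c) (r q : ℤ) : c (r + 34 * q) = c r := by
  have e : f (r + 34 * q) = f r := by
    induction q using Int.induction_on with
    | zero => simp
    | succ q ih => rw [mul_add, mul_one, ← add_assoc, h.per, ih]
    | pred q ih => rw [← ih, ← h.per]; congr 1; ring
  have h1 := h.qe (r + 34 * q)
  rw [e] at h1
  exact h1.unique (by norm_num) (h.qe r)

theorem GV.supp (h : GV μ k f c) {r N : ℤ} (hN : (c r).coeff N ≠ 0) : (68 : ℤ) ∣ N + r ^ 2 := by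
  have := (h.qe r).supp (by norm_num) (s := -r ^ 2) (fun τ => by
    rw [h.lawT]; congr 2; push_cast; ring) hN
  simpa using this

theorem GV.uv (hμ : μ ≠ 0) (h : GV μ 1 f c) : UV 17 (1 / 2) f where
  per r := h.per r
  hol r := (h.qe r).hol (by norm_num)
  lawT r τ := by rw [h.lawT]; congr 2; push_cast; ring
  lawS := ⟨μ, hμ, fun r τ => by
    have e1 : (((1 : ℤ) : ℂ) - 1 / 2) = 1 / 2 := by norm_num
    have e2 : (2 * (17 : ℕ) : ℂ) = 34 := by norm_num
    rw [h.lawS, e1, e2]⟩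

/-- An odd periodic identity follows from the classes `1, ..., 16`. -/
theorem reduce {A B : ℤ → ℂ} (a1 : ∀ r q, A (r + 34 * q) = A r) (a2 : ∀ r, A (-r) = -A r)
    (b1 : ∀ r q, B (r + 34 * q) = B r) (b2 : ∀ r, B (-r) = -B r)
    (e : ∀ r ∈ Finset.Icc (1 : ℤ) 16, A r = B r) (r : ℤ) : A r = B r := by
  have z : ∀ {A : ℤ → ℂ}, (∀ r q, A (r + 34 * q) = A r) → (∀ r, A (-r) = -A r) →
      A 0 = 0 ∧ A 17 = 0 := by
    intro A a1 a2
    have h1 := a2 0
    have h2 := a2 17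
    have h3 := a1 (-17) 1
    norm_num at h1 h3
    constructor
    · linear_combination h1 / 2
    · linear_combination (h3 + h2) / 2
  have e1 : r = r % 34 + 34 * (r / 34) := by omega
  rw [e1, a1, b1]
  have h0 : 0 ≤ r % 34 := by omega
  have h1 : r % 34 < 34 := by omega
  generalize r % 34 = s at h0 h1
  rcases eq_or_ne s 0 with rfl | h2
  · rw [(z a1 a2).1, (z b1 b2).1]
  rcases eq_or_ne s 17 with rfl | h3
  · rw [(z a1 a2).2, (z b1 b2).2]
  rcases lt_or_ge s 17 with h4 | h4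
  · exact e s (Finset.mem_Icc.2 ⟨by omega, by omega⟩)
  · rw [show s = -(34 - s) + 34 * 1 by ring, a1, b1, a2, b2,
      e _ (Finset.mem_Icc.2 ⟨by omega, by omega⟩)]

end GenFAux

open GenFAux in
theorem exists_f (d h : ℤ) (hd : 0 < d) (hh : (68 : ℤ) ∣ d - h ^ 2) (h17 : ¬ (17 : ℤ) ∣ h) :
    ∃ (f : ℤ → ℍ → ℂ) (c : ℤ → LaurentSeries ℂ) (α β : ℚ), UV 17 (1 / 2) f ∧
      (∀ r, QE 68 (f r) (c r)) ∧ (∀ r, RatS (c r)) ∧
      ∀ r (N : ℤ), N < 0 → (c r).coeff N =
        (if N = -d then (od h r : ℂ) else 0) + (if N = -1 then (α : ℂ) * od 1 r else 0) +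
          (if N = -4 then (β : ℂ) * od 2 r else 0) := by
  obtain ⟨μ, hμ, hS⟩ := cmp_S 17 (by norm_num)
  obtain ⟨f, c, h1, h2⟩ := levels (μ := μ) hS d.toNat
    fun g j => if -dd g - 68 * j = -d then od h g else 0
  obtain ⟨a, ha⟩ := h1.rat 1 (-1)
  obtain ⟨b, hb⟩ := h1.rat 2 (-4)
  refine ⟨f, c, a - if -1 = -d then od h 1 else 0, b - if -4 = -d then od h 2 else 0, h1.uv hμ,
    h1.qe, h1.rat, fun r N hN => ?_⟩
  refine reduce (A := fun r => (c r).coeff N)
    (B := fun r => (if N = -d then (od h r : ℂ) else 0) +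
      (if N = -1 then ((a - if -1 = -d then od h 1 else 0 : ℚ) : ℂ) * od 1 r else 0) +
      (if N = -4 then ((b - if -4 = -d then od h 2 else 0 : ℚ) : ℂ) * od 2 r else 0))
    (fun r q => by rw [h1.c_per])
    (fun r => h1.c_neg r N) (fun r q => by simp only [od_per]) (fun r => ?_) (fun g hg => ?_) r
  · simp only [od_neg]
    split_ifs <;> push_cast <;> ring
  have o1 : ∀ g ∈ Finset.Icc (1 : ℤ) 16, od 1 g = if g = 1 then 1 else 0 := by decide
  have o2 : ∀ g ∈ Finset.Icc (1 : ℤ) 16, od 2 g = if g = 2 then 1 else 0 := by decide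
  have hdd : dd g = g ^ 2 % 68 := rfl
  have hg' := Finset.mem_Icc.1 hg
  simp only [o1 g hg, o2 g hg]
  by_cases g1 : g = 1 ∧ N = -1
  · obtain ⟨rfl, rfl⟩ := g1
    rw [ha, if_pos rfl, if_pos rfl, if_neg (show ¬ (-1 : ℤ) = -4 by norm_num)]
    split_ifs <;> push_cast <;> ring
  by_cases g2 : g = 2 ∧ N = -4
  · obtain ⟨rfl, rfl⟩ := g2
    rw [hb, if_neg (show ¬ (-4 : ℤ) = -1 by norm_num), if_pos rfl, if_pos rfl]
    split_ifs <;> push_cast <;> ring
  have z1 : (if N = -1 then ((a - if -1 = -d then od h 1 else 0 : ℚ) : ℂ) *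
      ((if g = 1 then 1 else 0 : ℤ) : ℂ) else 0) = 0 := by
    by_cases e : N = -1
    · rw [if_pos e, if_neg (show ¬ g = 1 from fun e' => g1 ⟨e', e⟩)]; simp
    · rw [if_neg e]
  have z2 : (if N = -4 then ((b - if -4 = -d then od h 2 else 0 : ℚ) : ℂ) *
      ((if g = 2 then 1 else 0 : ℤ) : ℂ) else 0) = 0 := by
    by_cases e : N = -4
    · rw [if_pos e, if_neg (show ¬ g = 2 from fun e' => g2 ⟨e', e⟩)]; simp
    · rw [if_neg e]
  rw [z1, z2, add_zero, add_zero]
  by_cases hs : (68 : ℤ) ∣ N + g ^ 2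
  · obtain ⟨j, rfl⟩ : ∃ j : ℕ, N = -dd g - 68 * j :=
      ⟨((-dd g - N) / 68).toNat, by generalize g ^ 2 = x at hdd hs; omega⟩
    rcases Nat.lt_or_ge d.toNat j with hl | hl
    · rw [(h2 g hg).1 _ (by omega), if_neg (by generalize g ^ 2 = x at hdd; omega)]
    · rw [(h2 g hg).2 j hl ?_]
      · split_ifs <;> simp
      · by_contra hc
        rw [not_or, not_not] at hc
        obtain ⟨rfl, h3⟩ := hc
        have : g = 1 ∨ g = 2 := by omega
        rcases this with rfl | rfl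
        · exact g1 ⟨rfl, by decide⟩
        · exact g2 ⟨rfl, by decide⟩
  · have : (c g).coeff N = 0 := by
      by_contra hc
      exact hs (h1.supp hc)
    rw [this]
    split_ifs with e
    · have : od h g = 0 := by
        by_contra hc
        apply hs
        have := dvd_sub (od_sq hc) hh
        rwa [show g ^ 2 - h ^ 2 - (d - h ^ 2) = N + g ^ 2 by rw [e]; ring] at this
      rw [this]; simp
    · rfl

end Pool.Agent.Lib.MP_d6ddbd_nt.K
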