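import Mathlib
import Pool.Agent.Lib.MP_d6ddbd_nt.K.Defs

/-!
Transformation laws of the odd Jacobi theta function and of the eta function.
-/

set_option autoImplicit false

open UpperHalfPlane
open scoped MatrixGroups

noncomputable section

namespace Pool.Agent.Lib.MP_d6ddbd_nt.K

namespace ThA

theorem add (a b : ℂ) : ee (a + b) = ee a * ee b := by
  unfold ee; rw [mul_add, Complex.exp_add]

theorem zero : ee 0 = 1 := by simp [ee]

theorem ne (a : ℂ) : ee a ≠ 0 := Complex.exp_ne_zero _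

theorem int (k : ℤ) : ee k = 1 := by
  unfold ee; rw [mul_comm]; exact Complex.exp_int_mul_two_pi_mul_I k

theorem one : ee 1 = 1 := by simpa using int 1

theorem half : ee (1 / 2) = -1 := by
  unfold ee
  rw [show (2 * Real.pi * Complex.I * (1 / 2) : ℂ) = Real.pi * Complex.I by ring]
  exact Complex.exp_pi_mul_I

theorem zmul (k : ℤ) (a : ℂ) : ee (k * a) = ee a ^ k := by
  unfold ee; rw [← Complex.exp_int_mul]; congr 1; ring

theorem quarter : ee (-(1 / 4)) = -Complex.I := by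
  unfold ee
  rw [show (2 * Real.pi * Complex.I * (-(1 / 4)) : ℂ) = -(Real.pi / 2 * Complex.I) by ring,
    Complex.exp_neg, Complex.exp_pi_div_two_mul_I, Complex.inv_I]

theorem congr_int {a b : ℂ} (k : ℤ) (h : a = b + k) : ee a = ee b := by
  rw [h, add, int, mul_one]

theorem norm (a : ℂ) : ‖ee a‖ = Real.exp (-(2 * Real.pi * a.im)) := by
  unfold ee; rw [Complex.norm_exp]; congr 1; simp

theorem diff : Differentiable ℂ ee := by
  unfold ee; fun_prop

theorem term (n : ℤ) (z τ : ℂ) : jacobiTheta₂_term n z τ = ee (n * z + n ^ 2 * τ / 2) := by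
  unfold jacobiTheta₂_term ee; congr 1; ring

theorem left' (z τ : ℂ) : jacobiTheta₂ (z + τ) τ = ee (-(τ / 2) - z) * jacobiTheta₂ z τ := by
  rw [jacobiTheta₂_add_left']; unfold ee; congr 2; ring

theorem right1 (z τ : ℂ) : jacobiTheta₂ z (τ + 1) = jacobiTheta₂ (z + 1 / 2) τ := by
  refine tsum_congr fun n => ?_
  rw [term, term]
  obtain ⟨m, hm⟩ : Even (n * (n - 1)) := Int.even_mul_pred_self n
  refine congr_int m ?_
  have : ((n : ℂ) * (n - 1)) = m + m := by exact_mod_cast hm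
  linear_combination (1 / 2 : ℂ) * this

theorem cpow_ne {τ : ℂ} (hτ : 0 < τ.im) (s : ℂ) : (-Complex.I * τ) ^ s ≠ 0 := by
  have : τ ≠ 0 := fun h => by simp [h] at hτ
  rw [Ne, Complex.cpow_eq_zero_iff]
  simp [this]

/-- The functional equation of the theta function, solved for the transformed value. -/
theorem fe {τ : ℂ} (hτ : 0 < τ.im) (z : ℂ) : jacobiTheta₂ (z / τ) (-1 / τ) =
    (-Complex.I * τ) ^ (1 / 2 : ℂ) * ee (z ^ 2 / (2 * τ)) * jacobiTheta₂ z τ := by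
  have h0 : τ ≠ 0 := fun h => by simp [h] at hτ
  have h1 := cpow_ne hτ (1 / 2)
  have h2 : ee (z ^ 2 / (2 * τ)) * Complex.exp (-Real.pi * Complex.I * z ^ 2 / τ) = 1 := by
    unfold ee; rw [← Complex.exp_add, ← Complex.exp_zero]; congr 1; field_simp; ring
  rw [jacobiTheta₂_functional_equation z τ]
  have h3 : (-Complex.I * τ) ^ (1 / 2 : ℂ) * (1 / (-Complex.I * τ) ^ (1 / 2 : ℂ)) = 1 :=
    mul_one_div_cancel h1
  generalize (1 / (-Complex.I * τ) ^ (1 / 2 : ℂ)) = u at *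
  linear_combination (-jacobiTheta₂ (z / τ) (-1 / τ)) * h3 +
    (-jacobiTheta₂ (z / τ) (-1 / τ) * (-Complex.I * τ) ^ (1 / 2 : ℂ) * u) * h2

/-- Complex powers of `τ` and of `-i τ` on the upper half plane. -/
theorem cpow_negI {τ : ℂ} (hτ : 0 < τ.im) (s : ℂ) :
    (-Complex.I * τ) ^ s = ee (-(s / 4)) * τ ^ s := by
  have h0 : τ ≠ 0 := fun h => by simp [h] at hτ
  have hI : (-Complex.I) ≠ 0 := by simp
  have ha : (-Complex.I).arg = -(Real.pi / 2) := Complex.arg_neg_I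
  have h1 : 0 ≤ τ.arg := Complex.arg_nonneg_iff.2 hτ.le
  have h2 : τ.arg ≤ Real.pi := Complex.arg_le_pi τ
  have hp := Real.pi_pos
  have hl : Complex.log (-Complex.I * τ) = Complex.log (-Complex.I) + Complex.log τ := by
    rw [Complex.log_mul_eq_add_log_iff hI h0, ha]
    constructor <;> linarith
  rw [Complex.cpow_def_of_ne_zero (mul_ne_zero hI h0), Complex.cpow_def_of_ne_zero h0, hl,
    Complex.log_neg_I]
  unfold ee
  rw [← Complex.exp_add]; congr 1; ring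

end ThA

theorem hasSum_th {τ : ℂ} (hτ : 0 < τ.im) (z : ℂ) :
    HasSum (fun k : ℤ => (-1) ^ k * ee ((k + 1 / 2) ^ 2 * τ / 2 + (k + 1 / 2) * z)) (th τ z) := by
  have h := (hasSum_jacobiTheta₂_term (z + τ / 2 + 1 / 2) hτ).mul_left (ee (τ / 8 + z / 2))
  have e : ∀ k : ℤ, (-1) ^ k * ee ((k + 1 / 2) ^ 2 * τ / 2 + (k + 1 / 2) * z) =
      ee (τ / 8 + z / 2) * jacobiTheta₂_term k (z + τ / 2 + 1 / 2) τ := fun k => by
    rw [ThA.term, ← ThA.half, ← ThA.zmul, ← ThA.add, ← ThA.add]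
    congr 1; ring
  simp only [e]
  exact h

theorem th_diff {τ : ℂ} (hτ : 0 < τ.im) (z : ℂ) :
    DifferentiableAt ℂ (fun p : ℂ × ℂ => th p.1 p.2) (τ, z) := by
  unfold th
  refine DifferentiableAt.mul ?_ ?_
  · exact ThA.diff.differentiableAt.comp (τ, z) (by fun_prop)
  · have h1 := (hasFDerivAt_jacobiTheta₂ (z + τ / 2 + 1 / 2) hτ).differentiableAt
    have h2 : DifferentiableAt ℂ (fun p : ℂ × ℂ => (p.2 + p.1 / 2 + 1 / 2, p.1)) (τ, z) := by
      fun_prop
    exact DifferentiableAt.comp (τ, z) (g := fun p : ℂ × ℂ => jacobiTheta₂ p.1 p.2) h1 h2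

theorem th_add_one (τ z : ℂ) : th τ (z + 1) = -th τ z := by
  unfold th
  rw [show z + 1 + τ / 2 + 1 / 2 = z + τ / 2 + 1 / 2 + 1 by ring, jacobiTheta₂_add_left,
    show τ / 8 + (z + 1) / 2 = τ / 8 + z / 2 + 1 / 2 by ring, ThA.add, ThA.half]
  ring

theorem th_add_tau (τ z : ℂ) : th τ (z + τ) = -ee (-(τ / 2) - z) * th τ z := by
  unfold th
  rw [show z + τ + τ / 2 + 1 / 2 = z + τ / 2 + 1 / 2 + τ by ring, ThA.left', ← mul_assoc,
    ← mul_assoc, ← ThA.add, neg_mul, ← ThA.add, ← neg_one_mul (ee _), ← ThA.half, ← ThA.add]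
  congr 1
  refine ThA.congr_int (-1) ?_
  push_cast; ring

theorem th_neg (τ z : ℂ) : th τ (-z) = -th τ z := by
  unfold th
  rw [show -z + τ / 2 + 1 / 2 = -(z - τ / 2 - 1 / 2) by ring, jacobiTheta₂_neg_left,
    show z + τ / 2 + 1 / 2 = z - τ / 2 - 1 / 2 + τ + 1 by ring, jacobiTheta₂_add_left,
    ThA.left', ← mul_assoc, ← ThA.add, ← neg_mul, ← neg_one_mul (ee _), ← ThA.half, ← ThA.add]
  congr 1
  refine ThA.congr_int (-1) ?_
  push_cast; ring

theorem th_T (τ z : ℂ) : th (τ + 1) z = ee (1 / 8) * th τ z := by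
  unfold th
  rw [ThA.right1, show z + (τ + 1) / 2 + 1 / 2 + 1 / 2 = z + τ / 2 + 1 / 2 + 1 by ring,
    jacobiTheta₂_add_left, ← mul_assoc, ← ThA.add]
  congr 2; ring

theorem th_S {τ : ℂ} (hτ : 0 < τ.im) (z : ℂ) : th (-1 / τ) (z / τ) =
    -Complex.I * (-Complex.I * τ) ^ (1 / 2 : ℂ) * ee (z ^ 2 / (2 * τ)) * th τ z := by
  have h0 : τ ≠ 0 := fun h => by simp [h] at hτ
  unfold th
  rw [show z / τ + -1 / τ / 2 + 1 / 2 = (z + τ / 2 - 1 / 2) / τ by field_simp; ring, ThA.fe hτ,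
    show z + τ / 2 + 1 / 2 = z + τ / 2 - 1 / 2 + 1 by ring, jacobiTheta₂_add_left]
  have h : ee (-1 / τ / 8 + z / τ / 2) * ee ((z + τ / 2 - 1 / 2) ^ 2 / (2 * τ)) =
      -Complex.I * (ee (z ^ 2 / (2 * τ)) * ee (τ / 8 + z / 2)) := by
    rw [← ThA.quarter, ← ThA.add, ← ThA.add, ← ThA.add]
    congr 1; field_simp; ring
  linear_combination ((-Complex.I * τ) ^ (1 / 2 : ℂ) * jacobiTheta₂ (z + τ / 2 - 1 / 2) τ) * h

theorem eta_T (τ : ℂ) : ModularForm.eta (τ + 1) = ee (1 / 24) * ModularForm.eta τ := by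
  unfold ModularForm.eta
  have h1 : ∀ n, ModularForm.eta_q n (τ + 1) = ModularForm.eta_q n τ := fun n => by
    rw [ModularForm.eta_q_eq_pow, ModularForm.eta_q_eq_pow, mul_add, Complex.exp_add, mul_one,
      Complex.exp_two_pi_mul_I, mul_one]
  simp only [h1]
  rw [← mul_assoc]
  congr 1
  unfold Function.Periodic.qParam ee
  rw [← Complex.exp_add]; congr 1; push_cast; ring

theorem eta_S {τ : ℂ} (hτ : 0 < τ.im) :
    ModularForm.eta (-1 / τ) = (-Complex.I * τ) ^ (1 / 2 : ℂ) * ModularForm.eta τ := by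
  have h := ModularForm.eta_comp_eq_csqrt_I_inv (show τ ∈ upperHalfPlaneSet from hτ)
  simp only [Function.comp_apply, Pi.smul_apply, Pi.mul_apply, smul_eq_mul] at h
  have hI := ThA.cpow_negI (τ := Complex.I) (by simp) (1 / 2)
  rw [show -Complex.I * Complex.I = 1 by simp, Complex.one_cpow] at hI
  rw [h, ThA.cpow_negI hτ, Complex.sqrt, Complex.sqrt, ← one_div (2 : ℂ),
    ← eq_inv_of_mul_eq_one_left hI.symm]
  ring

end Pool.Agent.Lib.MP_d6ddbd_nt.K
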