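import Mathlib
import Pool.Agent.Lib.MP_d6ddbd_nt.K.Th0

/-!
Fourier expansion of entire periodic functions.
-/

set_option autoImplicit false

open MeasureTheory

noncomputable section

namespace Pool.Agent.Lib.MP_d6ddbd_nt.K

namespace JacA

/-- Fourier coefficients of a function with period one. -/
def co (f : ℂ → ℂ) (r : ℤ) : ℂ := ∫ x in (0 : ℝ)..1, f x * ee (-(r * x))

theorem shift0 {F : ℂ → ℂ} (hF : Differentiable ℂ F) (hp : ∀ z, F (z + 1) = F z) (w : ℂ) :
    ∫ x in (0 : ℝ)..1, F (x + w) = ∫ x in (0 : ℝ)..1, F x := by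
  obtain ⟨G, hG⟩ := hF.isExactOn_univ
  have hG' : ∀ z, HasDerivAt G (F z) z := fun z => hG z (Set.mem_univ z)
  have h1 : ∀ w : ℂ, ∫ x in (0 : ℝ)..1, F (x + w) = G (w + 1) - G w := fun w => by
    have hd : ∀ x ∈ Set.uIcc (0 : ℝ) 1, HasDerivAt (fun x : ℝ => G (x + w)) (F (x + w)) x :=
      fun x _ => ((hG' (x + w)).comp_add_const (x : ℂ) w).comp_ofReal
    have hc : Continuous fun x : ℝ => F (x + w) := hF.continuous.comp (by fun_prop)
    rw [intervalIntegral.integral_eq_sub_of_hasDerivAt hd (hc.intervalIntegrable _ _)]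
    simp [add_comm]
  have h2 : ∀ z, HasDerivAt (fun z => G (z + 1) - G z) 0 z := fun z => by
    have := ((hG' (z + 1)).comp_add_const z 1).sub (hG' z)
    rwa [hp, sub_self] at this
  have h3 := is_const_of_deriv_eq_zero (fun z => (h2 z).differentiableAt)
    (fun z => (h2 z).deriv) w 0
  have h4 := h1 0
  simp only [add_zero] at h4
  rw [h1, h4]
  exact h3

variable {f : ℂ → ℂ}

theorem shift (hf : Differentiable ℂ f) (hp : ∀ z, f (z + 1) = f z) (r : ℤ) (w : ℂ) :
    ∫ x in (0 : ℝ)..1, f (x + w) * ee (-(r * x)) = co f r * ee (r * w) := by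
  have h := shift0 (F := fun z => f z * ee (-(r * z)))
    (hf.mul (ThA.diff.comp (by fun_prop)))
    (fun z => by
      rw [hp]; congr 1
      exact ThA.congr_int (-r) (by push_cast; ring)) w
  unfold co
  rw [← h, ← intervalIntegral.integral_mul_const]
  congr 1; ext x
  rw [mul_assoc, ← ThA.add]; congr 2; ring

theorem norm_real (r : ℤ) (x : ℝ) : ‖ee (r * x)‖ = 1 := by
  rw [ThA.norm]; simp

theorem norm_real' (r : ℤ) (x : ℝ) : ‖ee (-(r * x))‖ = 1 := by
  rw [ThA.norm]; simp

theorem bound (hf : Differentiable ℂ f) (hp : ∀ z, f (z + 1) = f z) (w : ℂ) :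
    ∃ B : ℝ, ∀ r : ℤ, ‖co f r * ee (r * w)‖ ≤ B := by
  have hc : Continuous fun x : ℝ => f (x + w) := hf.continuous.comp (by fun_prop)
  obtain ⟨B, hB⟩ := (isCompact_Icc (a := (0 : ℝ)) (b := 1)).exists_bound_of_continuousOn
    hc.continuousOn
  refine ⟨B, fun r => ?_⟩
  rw [← shift hf hp]
  have := intervalIntegral.norm_integral_le_of_norm_le_const (a := 0) (b := 1) (C := B)
    (f := fun x : ℝ => f (x + w) * ee (-(r * x))) (fun x hx => by
      rw [norm_mul, norm_real', mul_one]
      rw [Set.uIoc_of_le zero_le_one] at hx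
      exact hB x ⟨hx.1.le, hx.2⟩)
  simpa using this

theorem summable_co (hf : Differentiable ℂ f) (hp : ∀ z, f (z + 1) = f z) (z : ℂ) :
    Summable fun r : ℤ => co f r * ee (r * z) := by
  have hq : ‖ee Complex.I‖ < 1 := by
    rw [ThA.norm, Real.exp_lt_one_iff]
    simp [Real.pi_pos]
  have hg : Summable fun n : ℕ => ‖ee Complex.I‖ ^ n :=
    summable_geometric_of_lt_one (norm_nonneg _) hq
  obtain ⟨B, hB⟩ := bound hf hp (z - Complex.I)
  obtain ⟨B', hB'⟩ := bound hf hp (z + Complex.I)
  refine Summable.of_nat_of_neg ?_ ?_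
  · refine Summable.of_norm_bounded (hg.mul_left B) fun n => ?_
    have e : co f n * ee (((n : ℤ) : ℂ) * z) =
        co f n * ee (((n : ℤ) : ℂ) * (z - Complex.I)) * ee Complex.I ^ n := by
      rw [← zpow_natCast, ← ThA.zmul, mul_assoc, ← ThA.add]; congr 2; ring
    rw [e, norm_mul, norm_pow]
    exact mul_le_mul_of_nonneg_right (hB n) (by positivity)
  · refine Summable.of_norm_bounded (hg.mul_left B') fun n => ?_
    have e : co f (-n) * ee (((-(n : ℤ) : ℤ) : ℂ) * z) =
        co f (-n) * ee (((-(n : ℤ) : ℤ) : ℂ) * (z + Complex.I)) * ee Complex.I ^ n := by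
      rw [← zpow_natCast, ← ThA.zmul, mul_assoc, ← ThA.add]; congr 2; push_cast; ring
    rw [e, norm_mul, norm_pow]
    exact mul_le_mul_of_nonneg_right (hB' (-n)) (by positivity)

theorem hasSum_co (hf : Differentiable ℂ f) (hp : ∀ z, f (z + 1) = f z) (z : ℂ) :
    HasSum (fun r : ℤ => co f r * ee (r * z)) (f z) := by
  have hc : Continuous fun x : ℝ => f (x + z) := hf.continuous.comp (by fun_prop)
  have hper : Function.Periodic (fun x : ℝ => f (x + z)) 1 := fun x => by
    simp only
    rw [← hp (x + z)]; congr 1; push_cast; ring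
  let F : C(UnitAddCircle, ℂ) := ⟨hper.lift, continuous_coinduced_dom.mpr hc⟩
  have hF : ∀ x : ℝ, F (x : UnitAddCircle) = f (x + z) := fun x => rfl
  have hco : ∀ r : ℤ, fourierCoeff F r = co f r * ee (r * z) := fun r => by
    rw [fourierCoeff_eq_intervalIntegral F r 0, ← shift hf hp]
    simp only [hF, fourier_coe_apply, zero_add, div_one, one_smul, smul_eq_mul]
    congr 1; ext x
    rw [mul_comm]; unfold ee; congr 2; push_cast; ring
  have hs : Summable (fourierCoeff F) := by
    rw [funext hco]; exact summable_co hf hp z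
  have := has_pointwise_sum_fourier_series_of_summable hs ((0 : ℝ) : UnitAddCircle)
  simp only [hF, hco, fourier_coe_apply, Complex.ofReal_zero, mul_zero, zero_div, Complex.exp_zero,
    smul_eq_mul, mul_one, zero_add] at this
  exact this

theorem int_ee (m : ℤ) : ∫ x in (0 : ℝ)..1, ee (m * x) = if m = 0 then 1 else 0 := by
  split_ifs with h
  · simp [h, ThA.zero]
  · have hc : (2 * Real.pi * Complex.I * m : ℂ) ≠ 0 := by
      simp [Real.pi_ne_zero, h]
    have := integral_exp_mul_complex (a := 0) (b := 1) hc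
    unfold ee
    simp only [← mul_assoc]
    rw [this]
    have h1 := ThA.int m
    unfold ee at h1
    simp [h1]

/-- Termwise extraction of Fourier coefficients. -/
theorem co_hasSum {ι : Type} [Countable ι] (b : ι → ℂ) (s : ι → ℤ)
    (h : ∀ x : ℝ, HasSum (fun i => b i * ee (s i * x)) (f x)) (r : ℤ) :
    HasSum (fun i => if s i = r then b i else 0) (co f r) := by
  have hb : Summable fun i => ‖b i‖ := by
    have := (h 0).summable.norm
    simpa [ThA.zero] using this
  have := intervalIntegral.hasSum_integral_of_dominated_convergence (μ := volume) (a := 0) (b := 1)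
    (F := fun i (x : ℝ) => b i * ee (s i * x) * ee (-(r * x)))
    (f := fun x : ℝ => f x * ee (-(r * x))) (fun i _ => ‖b i‖)
    (fun i => by
      have := ThA.diff.continuous
      exact Continuous.aestronglyMeasurable (by fun_prop))
    (fun i => Filter.Eventually.of_forall fun x _ => by
      rw [norm_mul, norm_mul, norm_real, norm_real', mul_one, mul_one])
    (Filter.Eventually.of_forall fun _ _ => hb) intervalIntegrable_const
    (Filter.Eventually.of_forall fun x _ => (h x).mul_right _)
  have e : ∀ i, ∫ x in (0 : ℝ)..1, b i * ee (s i * x) * ee (-(r * x)) =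
      if s i = r then b i else 0 := fun i => by
    have e1 : ∀ x : ℝ, b i * ee (s i * x) * ee (-(r * x)) = b i * ee ((s i - r : ℤ) * x) :=
      fun x => by rw [mul_assoc, ← ThA.add]; congr 2; push_cast; ring
    simp only [e1]
    rw [intervalIntegral.integral_const_mul, int_ee]
    simp [sub_eq_zero]
  simp only [e] at this
  exact this

/-- Holomorphy of parameter integrals. -/
theorem diff_int {G : ℂ × ℂ → ℂ} (hG : ∀ τ z : ℂ, 0 < τ.im → DifferentiableAt ℂ G (τ, z))
    {τ : ℂ} (hτ : 0 < τ.im) :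
    DifferentiableAt ℂ (fun t => ∫ x in (0 : ℝ)..1, G (t, x)) τ := by
  set ε := τ.im / 3 with hε
  have hε0 : 0 < ε := by positivity
  have him : ∀ t ∈ Metric.closedBall τ (2 * ε), 0 < t.im := fun t ht => by
    have h1 : |(t - τ).im| ≤ 2 * ε :=
      (Complex.abs_im_le_norm _).trans (by simpa [dist_eq_norm] using ht)
    rw [Complex.sub_im, abs_le] at h1
    linarith [h1.1]
  have hcx : ∀ t : ℂ, 0 < t.im → Continuous fun x : ℝ => G (t, x) := fun t ht =>
    continuous_iff_continuousAt.2 fun x =>
      ContinuousAt.comp (f := fun x : ℝ => (t, (x : ℂ))) (hG t x ht).continuousAt (by fun_prop)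
  have hK : IsCompact (Metric.closedBall τ (2 * ε) ×ˢ Set.Icc (0 : ℝ) 1) :=
    (isCompact_closedBall _ _).prod isCompact_Icc
  have hco : ContinuousOn (fun p : ℂ × ℝ => G (p.1, p.2))
      (Metric.closedBall τ (2 * ε) ×ˢ Set.Icc (0 : ℝ) 1) := fun p hp =>
    (ContinuousAt.comp (f := fun p : ℂ × ℝ => (p.1, (p.2 : ℂ)))
      (hG p.1 p.2 (him _ hp.1)).continuousAt (by fun_prop)).continuousWithinAt
  obtain ⟨B, hB⟩ := hK.exists_bound_of_continuousOn hco
  have hd : ∀ (t : ℂ) (x : ℝ), 0 < t.im →
      HasDerivAt (fun t => G (t, x)) (fderiv ℂ G (t, x) (1, 0)) t := fun t x ht =>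
    (hG t x ht).hasFDerivAt.comp_hasDerivAt t ((hasDerivAt_id t).prodMk (hasDerivAt_const t _))
  have hb : ∀ t ∈ Metric.ball τ ε, Metric.closedBall t ε ⊆ Metric.closedBall τ (2 * ε) :=
    fun t ht => Metric.closedBall_subset_closedBall' (by
      have := Metric.mem_ball.1 ht
      linarith)
  refine (intervalIntegral.hasDerivAt_integral_of_dominated_loc_of_deriv_le (μ := volume)
    (F := fun t (x : ℝ) => G (t, x)) (F' := fun t (x : ℝ) => fderiv ℂ G (t, x) (1, 0))
    (bound := fun _ => B / ε) (Metric.ball_mem_nhds τ hε0) ?_ ?_ ?_ ?_ intervalIntegrable_const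
    ?_).2.differentiableAt
  · filter_upwards [Metric.closedBall_mem_nhds τ (show 0 < 2 * ε by positivity)] with t ht
    exact (hcx t (him t ht)).aestronglyMeasurable
  · exact (hcx τ hτ).intervalIntegrable _ _
  · exact ((measurable_fderiv_apply_const ℂ G (1, 0)).comp
      (f := fun x : ℝ => (τ, (x : ℂ))) (by fun_prop)).aestronglyMeasurable
  · refine Filter.Eventually.of_forall fun x hx t ht => ?_
    rw [Set.uIoc_of_le zero_le_one] at hx
    rw [← (hd t x (him t (hb t ht (Metric.mem_closedBall_self hε0.le)))).deriv]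
    refine Complex.norm_deriv_le_of_forall_mem_sphere_norm_le hε0 ?_ fun u hu => ?_
    · refine DifferentiableOn.diffContOnCl fun u hu => ?_
      rw [closure_ball t hε0.ne'] at hu
      exact (hd u x (him u (hb t ht hu))).differentiableAt.differentiableWithinAt
    · exact hB (u, x) ⟨hb t ht (Metric.sphere_subset_closedBall hu), hx.1.le, hx.2⟩
  · exact Filter.Eventually.of_forall fun x _ t ht =>
      hd t x (him t (hb t ht (Metric.mem_closedBall_self hε0.le)))

end JacA

end Pool.Agent.Lib.MP_d6ddbd_nt.K
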