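import Mathlib
import Pool.Agent.Lib.MP_d6ddbd_nt.K.Jac1
import Pool.Agent.Lib.MP_d6ddbd_nt.K.Defs2

/-!
The theta decomposition of Jacobi forms.
-/

set_option autoImplicit false

open UpperHalfPlane
open scoped MatrixGroups

noncomputable section

namespace Pool.Agent.Lib.MP_d6ddbd_nt.K

variable {M : ℕ} {k : ℤ} {φ : ℂ → ℂ → ℂ}

namespace JacA

theorem cmp_eq (r : ℤ) (τ : ℍ) :
    cmp M φ r τ = ee (-(r : ℂ) ^ 2 * τ / (4 * M)) * co (φ τ) r := rfl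

theorem co_eq (r : ℤ) (τ : ℍ) :
    co (φ τ) r = cmp M φ r τ * ee ((r : ℂ) ^ 2 * τ / (4 * M)) := by
  rw [cmp_eq, mul_right_comm, ← ThA.add,
    show -(r : ℂ) ^ 2 * τ / (4 * M) + (r : ℂ) ^ 2 * τ / (4 * M) = 0 by ring, ThA.zero, one_mul]

theorem cT (τ : ℍ) : ((ModularGroup.T • τ : ℍ) : ℂ) = τ + 1 := by
  rw [modular_T_smul]; simp [add_comm]

theorem cS (τ : ℍ) : ((ModularGroup.S • τ : ℍ) : ℂ) = -1 / τ := by
  rw [modular_S_smul]; simp [neg_div, inv_neg]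

theorem diffz (h : JF M k φ) {τ : ℂ} (hτ : 0 < τ.im) : Differentiable ℂ (φ τ) := fun z =>
  DifferentiableAt.comp z (g := fun p : ℂ × ℂ => φ p.1 p.2) (f := fun z => (τ, z))
    (h.diff τ z hτ) (by fun_prop)

theorem per (h : JF M k φ) (hM : 0 < M) (r : ℤ) : cmp M φ (r + 2 * M) = cmp M φ r := by
  have hM' : (M : ℂ) ≠ 0 := by exact_mod_cast hM.ne'
  ext τ
  have h1 := shift (diffz h τ.2) (fun z => h.e1 τ z τ.2) r τ
  have h2 : ∫ x in (0 : ℝ)..1, φ τ (x + τ) * ee (-(r * x)) =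
      ee (-(M * τ)) * co (φ τ) (r + 2 * M) := by
    unfold co
    rw [← intervalIntegral.integral_const_mul]
    congr 1; ext x
    rw [h.e2 τ x τ.2, mul_right_comm, mul_left_comm, ← ThA.add, ← ThA.add, mul_comm]
    congr 2; push_cast; ring
  have h3 : co (φ τ) (r + 2 * M) = ee (M * τ) * (co (φ τ) r * ee (r * τ)) := by
    rw [← h1, h2, ← mul_assoc, ← ThA.add, add_neg_cancel, ThA.zero, one_mul]
  rw [cmp_eq, cmp_eq, h3, mul_comm (co _ _), ← mul_assoc, ← mul_assoc, ← ThA.add, ← ThA.add]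
  congr 2; push_cast; field_simp; ring

theorem per_mul (h : JF M k φ) (hM : 0 < M) (n s : ℤ) :
    cmp M φ (n * (2 * M : ℕ) + s) = cmp M φ s := by
  have hp : Function.Periodic (cmp M φ) (2 * M : ℤ) := per h hM
  have := hp.int_mul n s
  rw [← this]; congr 1; push_cast; ring

theorem hol (h : JF M k φ) (r : ℤ) : Hol (cmp M φ r) := by
  have hd : DifferentiableOn ℂ (fun t : ℂ => ee (-(r : ℂ) ^ 2 * t / (4 * M)) *
      ∫ x in (0 : ℝ)..1, φ t x * ee (-(r * x))) {z : ℂ | 0 < z.im} := fun t ht => by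
    refine (DifferentiableAt.mul (ThA.diff.differentiableAt.comp t (by fun_prop)) ?_
      ).differentiableWithinAt
    exact diff_int (G := fun p => φ p.1 p.2 * ee (-(r * p.2)))
      (fun τ z hτ => (h.diff τ z hτ).mul
        (ThA.diff.differentiableAt.comp (τ, z) (by fun_prop))) ht
  refine hd.congr fun t ht => ?_
  simp only [Function.comp_apply, ofComplex_apply_of_im_pos ht]
  rfl

theorem lawT (h : JF M k φ) (r : ℤ) (τ : ℍ) :
    cmp M φ r (ModularGroup.T • τ) = ee (-(r : ℂ) ^ 2 / (4 * M)) * cmp M φ r τ := by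
  rw [cmp_eq, cmp_eq, cT, funext fun z => h.lawT τ z τ.2, ← mul_assoc, ← ThA.add]
  congr 2; ring

/-- Splitting a sum over the integers into residue classes. -/
theorem split {N : ℕ} (hN : 0 < N) {g : ℤ → ℂ} {S : ℂ} (hg : HasSum g S) {A : ℕ → ℂ}
    (hA : ∀ s : ℕ, HasSum (fun n : ℤ => g (n * N + s)) (A s)) :
    S = ∑ s ∈ Finset.range N, A s := by
  have : NeZero N := ⟨hN.ne'⟩
  have h1 : HasSum (fun p : Fin N × ℤ => g (p.2 * N + (p.1 : ℕ))) S :=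
    ((Equiv.prodComm (Fin N) ℤ).trans (Int.divModEquiv N).symm).hasSum_iff.2 hg
  have h2 : HasSum (fun s : Fin N => A s) S := h1.prod_fiberwise fun s => hA s
  rw [← Fin.sum_univ_eq_sum_range]
  exact h2.unique (hasSum_fintype _)

end JacA

theorem JF.hasSum (h : JF M k φ) (hM : 0 < M) (τ : ℍ) (z : ℂ) :
    HasSum (fun r : ℤ => cmp M φ r τ * ee (r ^ 2 * (τ : ℂ) / (4 * M) + r * z)) (φ τ z) := by
  have := JacA.hasSum_co (JacA.diffz h τ.2) (fun z => h.e1 τ z τ.2) z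
  simp only [JacA.co_eq (M := M), mul_assoc, ← ThA.add] at this
  have _ := hM
  exact this

namespace JacA

theorem decomp (h : JF M k φ) (hM : 0 < M) (τ : ℍ) (z : ℂ) :
    φ τ z = ∑ s ∈ Finset.range (2 * M), cmp M φ s τ * ee (s ^ 2 * (τ : ℂ) / (4 * M) + s * z) *
      jacobiTheta₂ (s * τ + 2 * M * z) (2 * M * τ) := by
  have hM' : (M : ℂ) ≠ 0 := by exact_mod_cast hM.ne'
  have hT : 0 < (2 * M * τ : ℂ).im := by
    have : (0 : ℝ) < M := by exact_mod_cast hM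
    have := τ.im_pos
    simp only [Complex.mul_im, Complex.mul_re, Complex.re_ofNat, Complex.im_ofNat,
      Complex.natCast_re, Complex.natCast_im, coe_im, coe_re, mul_zero, zero_mul, add_zero,
      sub_zero]
    positivity
  refine split (by omega) (h.hasSum hM τ z) fun s => ?_
  have := (hasSum_jacobiTheta₂_term (s * τ + 2 * M * z) hT).mul_left
    (cmp M φ s τ * ee (s ^ 2 * (τ : ℂ) / (4 * M) + s * z))
  have e : ∀ n : ℤ, cmp M φ (n * (2 * M : ℕ) + s) τ *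
      ee (((n * (2 * M : ℕ) + s : ℤ) : ℂ) ^ 2 * (τ : ℂ) / (4 * M) +
        ((n * (2 * M : ℕ) + s : ℤ) : ℂ) * z) =
      cmp M φ s τ * ee (s ^ 2 * (τ : ℂ) / (4 * M) + s * z) *
        jacobiTheta₂_term n (s * τ + 2 * M * z) (2 * M * τ) := fun n => by
    rw [per_mul h hM, ThA.term, mul_assoc, ← ThA.add]
    congr 2; push_cast; field_simp; ring
  simp only [e]
  exact this

theorem real_mul_cpow {a : ℝ} (ha : 0 < a) {τ : ℂ} (h0 : τ ≠ 0) (s : ℂ) :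
    ((a : ℂ) * τ) ^ s = (a : ℂ) ^ s * τ ^ s := by
  have ha' : (a : ℂ) ≠ 0 := by exact_mod_cast ha.ne'
  rw [Complex.cpow_def_of_ne_zero (mul_ne_zero ha' h0), Complex.cpow_def_of_ne_zero ha',
    Complex.cpow_def_of_ne_zero h0, Complex.log_ofReal_mul ha h0, ← Complex.exp_add,
    Complex.ofReal_log ha.le, add_mul]

theorem cst_ne (hM : 0 < M) :
    (ee (-((1 / 2) / 4)) * ((2 * M : ℝ) : ℂ) ^ (1 / 2 : ℂ))⁻¹ ≠ 0 := by
  refine inv_ne_zero (mul_ne_zero (ThA.ne _) ?_)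
  rw [Ne, Complex.cpow_eq_zero_iff]; simp [hM.ne']

theorem lawS (h : JF M k φ) (hM : 0 < M) {l : ℂ}
    (hS : ∀ τ z : ℂ, 0 < τ.im → φ (-1 / τ) (z / τ) = l * τ ^ k * ee (M * z ^ 2 / τ) * φ τ z)
    (r : ℤ) (τ : ℍ) : cmp M φ r (ModularGroup.S • τ) =
      l * (ee (-((1 / 2) / 4)) * ((2 * M : ℝ) : ℂ) ^ (1 / 2 : ℂ))⁻¹ * (τ : ℂ) ^ ((k : ℂ) - 1 / 2) *
        ∑ s ∈ Finset.range (2 * M), ee (r * s / (2 * M)) * cmp M φ s τ := by
  have hM' : (M : ℂ) ≠ 0 := by exact_mod_cast hM.ne'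
  have hMr : (0 : ℝ) < 2 * M := by positivity
  rw [← div_eq_mul_inv]
  have h0 : (τ : ℂ) ≠ 0 := τ.ne_zero
  have hT : 0 < (2 * M * τ : ℂ).im := by
    have := τ.im_pos
    simp only [Complex.mul_im, Complex.mul_re, Complex.re_ofNat, Complex.im_ofNat,
      Complex.natCast_re, Complex.natCast_im, coe_im, coe_re, mul_zero, zero_mul, add_zero,
      sub_zero]
    positivity
  have hT' : 0 < (-1 / (2 * M * τ) : ℂ).im := by
    have := (ModularGroup.S • (⟨_, hT⟩ : ℍ)).im_pos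
    rwa [← coe_im, cS] at this
  set u : ℂ := (-Complex.I * (2 * M * τ)) ^ (1 / 2 : ℂ) with hu
  have hu0 : u ≠ 0 := ThA.cpow_ne hT _
  have hu1 : u = ee (-((1 / 2) / 4)) * ((2 * M : ℝ) : ℂ) ^ (1 / 2 : ℂ) * (τ : ℂ) ^ (1 / 2 : ℂ) := by
    rw [hu, ThA.cpow_negI hT, mul_assoc (ee _), ← real_mul_cpow hMr h0]
    push_cast; rfl
  have key : ∀ x : ℝ, HasSum (fun m : ℤ => (l * (τ : ℂ) ^ k / u * ee (-m ^ 2 / (4 * M * τ)) *
      ∑ s ∈ Finset.range (2 * M), ee (m * s / (2 * M)) * cmp M φ s τ) * ee ((id m : ℤ) * x))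
      (φ (-1 / τ) x) := fun x => by
    have e1 := hS τ (τ * x) τ.2
    rw [mul_div_cancel_left₀ _ h0, decomp h hM, Finset.mul_sum] at e1
    rw [e1]
    simp only [Finset.mul_sum, Finset.sum_mul]
    refine hasSum_sum fun s _ => ?_
    have e2 := ThA.fe hT (s * τ + 2 * M * (τ * x))
    have e3 : ee (M * (τ * x) ^ 2 / τ) * ee (s ^ 2 * (τ : ℂ) / (4 * M) + s * (τ * x)) =
        ee ((s * τ + 2 * M * (τ * x)) ^ 2 / (2 * (2 * M * τ))) := by
      rw [← ThA.add]; congr 1; field_simp; ring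
    have e4 : l * (τ : ℂ) ^ k * ee (M * (τ * x) ^ 2 / τ) * (cmp M φ s τ *
        ee (s ^ 2 * (τ : ℂ) / (4 * M) + s * (τ * x)) *
        jacobiTheta₂ (s * τ + 2 * M * (τ * x)) (2 * M * τ)) =
        l * (τ : ℂ) ^ k / u * cmp M φ s τ *
          jacobiTheta₂ ((s * τ + 2 * M * (τ * x)) / (2 * M * τ)) (-1 / (2 * M * τ)) := by
      rw [e2, ← e3, ← hu]; field_simp
    rw [e4]
    have := (hasSum_jacobiTheta₂_term ((s * τ + 2 * M * (τ * x)) / (2 * M * τ)) hT').mul_left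
      (l * (τ : ℂ) ^ k / u * cmp M φ s τ)
    have e : ∀ m : ℤ, l * (τ : ℂ) ^ k / u * ee (-m ^ 2 / (4 * M * τ)) *
        (ee (m * s / (2 * M)) * cmp M φ s τ) * ee ((id m : ℤ) * x) =
        l * (τ : ℂ) ^ k / u * cmp M φ s τ *
          jacobiTheta₂_term m ((s * τ + 2 * M * (τ * x)) / (2 * M * τ)) (-1 / (2 * M * τ)) :=
      fun m => by
        rw [ThA.term, show (m : ℂ) * ((s * τ + 2 * M * (τ * x)) / (2 * M * τ)) +
          m ^ 2 * (-1 / (2 * M * τ)) / 2 = -m ^ 2 / (4 * M * τ) + m * s / (2 * M) + m * x by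
            field_simp; ring, ThA.add, ThA.add, id]
        ring
    simp only [e]
    exact this
  have h1 := (co_hasSum _ id key r).unique (hasSum_single r fun m hm => if_neg hm)
  have h2 : ee (-(r : ℂ) ^ 2 * (-1 / τ) / (4 * M)) * ee (-(r : ℂ) ^ 2 / (4 * M * τ)) = 1 := by
    rw [← ThA.add, show -(r : ℂ) ^ 2 * (-1 / τ) / (4 * M) + -(r : ℂ) ^ 2 / (4 * M * τ) = 0 by
      field_simp; ring, ThA.zero]
  rw [cmp_eq, cS, h1, if_pos rfl, Complex.cpow_sub _ _ h0, Complex.cpow_intCast, hu1,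
    div_mul_div_comm, ← mul_assoc, mul_left_comm (ee _), h2, mul_one]

end JacA

theorem cmp_S (M : ℕ) (hM : 0 < M) : ∃ μ : ℂ, μ ≠ 0 ∧ ∀ (k : ℤ) (φ : ℂ → ℂ → ℂ) (l : ℂ), JF M k φ →
    (∀ τ z : ℂ, 0 < τ.im → φ (-1 / τ) (z / τ) = l * τ ^ k * ee (M * z ^ 2 / τ) * φ τ z) →
    ∀ (r : ℤ) (τ : ℍ), cmp M φ r (ModularGroup.S • τ) = l * μ * (τ : ℂ) ^ ((k : ℂ) - 1 / 2) *
      ∑ s ∈ Finset.range (2 * M), ee (r * s / (2 * M)) * cmp M φ s τ :=
  ⟨_, JacA.cst_ne hM, fun _ _ _ h hS => JacA.lawS h hM hS⟩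

theorem JF.uv (h : JF M k φ) (hM : 0 < M) : UV M (k - 1 / 2) (cmp M φ) := by
  obtain ⟨l, hl, hS⟩ := h.lawS
  exact ⟨JacA.per h hM, JacA.hol h, JacA.lawT h, _, mul_ne_zero hl (JacA.cst_ne hM),
    JacA.lawS h hM hS⟩

/-- Termwise extraction of the components from an absolutely convergent expansion. -/
theorem cmp_hasSum {ι : Type} [Countable ι] (a : ι → ℂ) (e : ι → ℂ) (s : ι → ℤ) (τ : ℍ)
    (h : ∀ x : ℝ, HasSum (fun i => a i * ee (e i * τ + s i * x)) (φ τ x)) (r : ℤ) :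
    HasSum (fun i => if s i = r then a i * ee ((e i - r ^ 2 / (4 * M)) * τ) else 0)
      (cmp M φ r τ) := by
  have h1 := (JacA.co_hasSum (f := φ τ) (fun i => a i * ee (e i * τ)) s
    (fun x => by simpa only [ThA.add, mul_assoc] using h x) r).mul_left
      (ee (-(r : ℂ) ^ 2 * τ / (4 * M)))
  have e1 : ∀ i, (if s i = r then a i * ee ((e i - r ^ 2 / (4 * M)) * τ) else 0) =
      ee (-(r : ℂ) ^ 2 * τ / (4 * M)) * if s i = r then a i * ee (e i * τ) else 0 := fun i => by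
    split_ifs
    · rw [mul_left_comm, ← ThA.add]; congr 2; ring
    · simp
  simp only [e1]
  exact h1

end Pool.Agent.Lib.MP_d6ddbd_nt.K
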