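import Mathlib
import Pool.Agent.Lib.MP_d6ddbd_nt.K.QE2
import Pool.Agent.Lib.MP_d6ddbd_nt.K.Jac2

/-!
Double expansions with rational coefficients.
-/

set_option autoImplicit false

open UpperHalfPlane
open scoped MatrixGroups

noncomputable section

namespace Pool.Agent.Lib.MP_d6ddbd_nt.K

namespace GenH

/-- Regrouping a series along the fibres of the exponent. -/
theorem regroup {ι : Type} {b : ι → ℂ} {E : ι → ℤ} {F : ℤ → Finset ι}
    (hF : ∀ N i, i ∈ F N ↔ E i = N) {w : ℤ → ℂ} {S : ℂ}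
    (h : HasSum (fun i => b i * w (E i)) S) :
    HasSum (fun N => (∑ i ∈ F N, b i) * w N) S := by
  have h1 := h.tsum_fiberwise E
  refine h1.congr_fun ?_ |> fun t => t
  intro N
  have e1 : E ⁻¹' {N} = (F N : Set ι) := by
    ext i
    simp [hF]
  rw [e1, Finset.tsum_subtype' (F N) (fun i => b i * w (E i)), Finset.sum_mul]
  refine Finset.sum_congr rfl fun i hi => ?_
  rw [(hF N i).1 hi]

theorem hs_mul {ι κ : Type} {f : ι → ℂ} {g : κ → ℂ} {a b : ℂ} (hf : HasSum f a)
    (hg : HasSum g b) : HasSum (fun p : ι × κ => f p.1 * g p.2) (a * b) :=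
  hf.mul hg (summable_mul_of_summable_norm hf.summable.norm hg.summable.norm)

theorem hs_congr {ι : Type} {f g : ι → ℂ} {a : ℂ} (hf : HasSum f a) (h : ∀ i, g i = f i) :
    HasSum g a := by
  rwa [show g = f from funext h]

/-- Only finitely many indices have small exponent. -/
def Pr {ι : Type} (e : ι → ℤ) : Prop := ∀ B : ℤ, {i | e i ≤ B}.Finite

theorem Pr.bdd {ι : Type} {e : ι → ℤ} (h : Pr e) : ∃ L : ℤ, ∀ i, L ≤ e i := by
  obtain ⟨L, hL⟩ := ((h 0).image e).bddBelow
  refine ⟨min L 0, fun i => ?_⟩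
  rcases le_total (e i) 0 with h0 | h0
  · exact (min_le_left _ _).trans (hL ⟨i, h0, rfl⟩)
  · exact (min_le_right _ _).trans h0

theorem Pr.countable {ι : Type} {e : ι → ℤ} (h : Pr e) : Countable ι := by
  rw [← Set.countable_univ_iff]
  have : (Set.univ : Set ι) = ⋃ B : ℤ, {i | e i ≤ B} := by
    ext i
    simp only [Set.mem_univ, Set.mem_iUnion, Set.mem_ofPred_eq, true_iff]
    exact ⟨e i, le_rfl⟩
  rw [this]
  exact Set.countable_iUnion fun B => (h B).countable

theorem Pr.add {ι κ : Type} {e : ι → ℤ} {e' : κ → ℤ} (h : Pr e) (h' : Pr e') :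
    Pr fun p : ι × κ => e p.1 + e' p.2 := by
  obtain ⟨L, hL⟩ := h.bdd
  obtain ⟨L', hL'⟩ := h'.bdd
  intro B
  refine ((h (B - L')).prod (h' (B - L))).subset ?_
  rintro ⟨i, j⟩ hij
  have h1 := hL i
  have h2 := hL' j
  simp only [Set.mem_ofPred_eq, Set.mem_prod] at hij ⊢
  constructor <;> omega

/-- The fibres of a proper exponent. -/
theorem Pr.fib {ι : Type} {e : ι → ℤ} (h : Pr e) {M : ℕ} (hM : 0 < M) :
    ∃ F : ℤ → Finset ι, ∀ N i, i ∈ F N ↔ M * e i = N := by
  have : ∀ N : ℤ, {i | M * e i = N}.Finite := fun N => by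
    refine (h |N|).subset fun i hi => ?_
    simp only [Set.mem_ofPred_eq] at hi ⊢
    have h1 : (1 : ℤ) ≤ M := by exact_mod_cast hM
    rw [← hi, abs_mul]
    have h2 := le_abs_self (e i)
    have h3 := abs_nonneg (e i)
    have h4 : |(M : ℤ)| = M := abs_of_nonneg (by omega)
    rw [h4]
    nlinarith
  exact ⟨fun N => (this N).toFinset, fun N i => by simp⟩

/-- Double expansions in `e (τ / 4)` and `e (x)` with rational coefficients. -/
def DX (φ : ℂ → ℂ → ℂ) : Prop :=
  ∃ (ι : Type) (a : ι → ℚ) (e s : ι → ℤ), Pr e ∧ ∀ (τ : ℍ) (x : ℝ),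
    HasSum (fun i => (a i : ℂ) * ee ((e i / 4 : ℂ) * τ + s i * x)) (φ τ x)

theorem DX.mul {φ ψ : ℂ → ℂ → ℂ} (h : DX φ) (h' : DX ψ) : DX fun τ z => φ τ z * ψ τ z := by
  obtain ⟨ι, a, e, s, hp, hs⟩ := h
  obtain ⟨κ, a', e', s', hp', hs'⟩ := h'
  refine ⟨ι × κ, fun p => a p.1 * a' p.2, fun p => e p.1 + e' p.2, fun p => s p.1 + s' p.2,
    hp.add hp', fun τ x => ?_⟩
  refine hs_congr (hs_mul (hs τ x) (hs' τ x)) fun p => ?_
  have : (((e p.1 + e' p.2 : ℤ) : ℂ) / 4 : ℂ) * τ + ((s p.1 + s' p.2 : ℤ) : ℂ) * x =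
      ((e p.1 / 4 : ℂ) * τ + s p.1 * x) + ((e' p.2 / 4 : ℂ) * τ + s' p.2 * x) := by
    push_cast
    ring
  rw [this, ee_add]
  push_cast
  ring

theorem dx_mono (e s : ℤ) : DX fun τ z => ee ((e / 4 : ℂ) * τ + s * z) := by
  refine ⟨Unit, fun _ => 1, fun _ => e, fun _ => s, fun _ => Set.toFinite _, fun τ x => ?_⟩
  simp

theorem dx_one : DX fun _ _ => 1 := by
  simpa [ee_zero] using dx_mono 0 0

theorem DX.pow {φ : ℂ → ℂ → ℂ} (h : DX φ) (k : ℕ) : DX fun τ z => φ τ z ^ k := by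
  induction k with
  | zero => simpa using dx_one
  | succ k ih => simpa [pow_succ] using ih.mul h

theorem dx_of_qe {u : ℂ → ℂ} {c : LaurentSeries ℂ} (h : QE 4 (fun τ => u τ) c) (hr : RatS c) :
    DX fun τ _ => u τ := by
  choose a ha using hr
  refine ⟨{N : ℤ // c.order ≤ N}, fun N => a N.1, fun N => N.1, fun _ => 0, fun B => ?_,
    fun τ x => ?_⟩
  · refine Set.Finite.of_finite_image ((Set.finite_Icc c.order B).subset ?_)
      Subtype.val_injective.injOn
    rintro _ ⟨N, hN, rfl⟩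
    exact ⟨N.2, hN⟩
  · have h1 := h τ
    rw [← hasSum_subtype_iff_of_support_subset (s := {N : ℤ | c.order ≤ N})] at h1
    · refine h1.congr_fun ?_ |> fun t => t
      intro N
      simp only [Function.comp, ha]
      congr 2
      push_cast
      ring
    · intro N hN
      by_contra hc
      simp only [Set.mem_ofPred_eq, not_le] at hc
      exact hN (by simp [HahnSeries.coeff_eq_zero_of_lt_order hc])

/-- A series with coefficients vanishing below some bound. -/
theorem exists_ser {a : ℤ → ℂ} {L : ℤ} (h : ∀ N < L, a N = 0) :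
    ∃ c : LaurentSeries ℂ, ∀ N, c.coeff N = a N := by
  refine ⟨HahnSeries.ofSuppBddBelow a ⟨L, fun N hN => ?_⟩, fun N => rfl⟩
  by_contra hc
  exact hN (h N (not_le.1 hc))

/-- Expansions of the components of a function with a double expansion. -/
theorem DX.comp {φ : ℂ → ℂ → ℂ} (h : DX φ) {M : ℕ} (hM : 0 < M) :
    ∃ (c : ℤ → LaurentSeries ℂ), (∀ r, QE (4 * M) (cmp M φ r) (c r)) ∧ (∀ r, RatS (c r)) ∧
      ∀ τ : ℍ, HasSum (fun N : ℤ => (∑ᶠ r : ℤ, (c r).coeff (N - r ^ 2)) *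
        ee (N * (τ : ℂ) / (4 * M : ℕ))) (φ τ 0) := by
  classical
  obtain ⟨ι, a, e, s, hp, hs⟩ := h
  obtain ⟨F, hF⟩ := hp.fib hM
  obtain ⟨L, hL⟩ := hp.bdd
  have := hp.countable
  have hM' : (M : ℂ) ≠ 0 := by exact_mod_cast hM.ne'
  have hc : ∀ r : ℤ, ∃ c : LaurentSeries ℂ, ∀ N, c.coeff N =
      ∑ i ∈ F (N + r ^ 2), if s i = r then (a i : ℂ) else 0 := fun r => by
    refine exists_ser (L := M * L - r ^ 2) fun N hN => Finset.sum_eq_zero fun i hi => ?_
    have h1 := (hF _ i).1 hi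
    have h2 : (M : ℤ) * L ≤ M * e i := mul_le_mul_of_nonneg_left (hL i) (by omega)
    omega
  choose c hc using hc
  refine ⟨c, fun r τ => ?_, fun r N => ?_, fun τ => ?_⟩
  · have h1 := cmp_hasSum (M := M) (φ := φ) (fun i => (a i : ℂ)) (fun i => (e i / 4 : ℂ)) s τ
      (hs τ) r
    have h2 : HasSum (fun i => (if s i = r then (a i : ℂ) else 0) *
        ee (((M * e i - r ^ 2 : ℤ) : ℂ) * (τ : ℂ) / (4 * M : ℕ))) (cmp M φ r τ) := by
      refine hs_congr h1 fun i => ?_
      split_ifs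
      · congr 2
        push_cast
        field_simp
      · simp
    have h3 := regroup (F := fun N => F (N + r ^ 2)) (E := fun i => M * e i - r ^ 2)
      (w := fun N : ℤ => ee (N * (τ : ℂ) / (4 * M : ℕ))) (fun N i => by rw [hF]; omega) h2
    simpa only [hc] using h3
  · refine ⟨∑ i ∈ F (N + r ^ 2), if s i = r then a i else 0, ?_⟩
    rw [hc]
    push_cast
    refine Finset.sum_congr rfl fun i _ => ?_
    split_ifs <;> simp
  · have h2 : HasSum (fun i => (a i : ℂ) *
        ee (((M * e i : ℤ) : ℂ) * (τ : ℂ) / (4 * M : ℕ))) (φ τ 0) := by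
      have h1 := hs τ 0
      rw [Complex.ofReal_zero] at h1
      refine hs_congr h1 fun i => ?_
      congr 2
      push_cast
      field_simp
      ring
    have h3 := regroup (w := fun N : ℤ => ee (N * (τ : ℂ) / (4 * M : ℕ))) hF h2
    refine hs_congr h3 fun N => ?_
    congr 1
    simp only [hc, sub_add_cancel]
    rw [finsum_sum_comm]
    · refine Finset.sum_congr rfl fun i _ => ?_
      rw [finsum_eq_single _ (s i) fun r hr => if_neg (Ne.symm hr)]
      simp
    · intro i _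
      refine (Set.finite_singleton (s i)).subset fun r hr => ?_
      by_contra hc'
      exact hr (if_neg (Ne.symm hc'))

end GenH

end Pool.Agent.Lib.MP_d6ddbd_nt.K
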