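import Mathlib
import Pool.Agent.Lib.MP_d6ddbd_nt.K.GenH1

/-!
A Jacobi form of weight zero and index three.
-/

set_option autoImplicit false

open UpperHalfPlane
open scoped MatrixGroups

noncomputable section

namespace Pool.Agent.Lib.MP_d6ddbd_nt.K

namespace GenH

theorem jt_hasSum {τ : ℂ} (hτ : 0 < τ.im) (z : ℂ) :
    HasSum (fun n : ℤ => ee (n ^ 2 * τ / 2 + n * z)) (jacobiTheta₂ z τ) := by
  refine hs_congr (hasSum_jacobiTheta₂_term z hτ) fun n => ?_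
  unfold ee jacobiTheta₂_term
  congr 1
  ring

theorem jt_tau (τ z : ℂ) : jacobiTheta₂ (z + τ) τ = ee (-(τ / 2) - z) * jacobiTheta₂ z τ := by
  rw [jacobiTheta₂_add_left']
  unfold ee
  congr 2
  ring

theorem jt_T {τ : ℂ} (hτ : 0 < τ.im) (z : ℂ) :
    jacobiTheta₂ z (τ + 1) = jacobiTheta₂ (z + 1 / 2) τ := by
  have h1 := jt_hasSum (τ := τ + 1) (by simpa using hτ) z
  refine h1.unique (hs_congr (jt_hasSum hτ (z + 1 / 2)) fun n => ?_)
  obtain ⟨m, hm⟩ := Int.even_mul_pred_self n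
  have hm' : (n : ℂ) * (n - 1) = m + m := by exact_mod_cast hm
  have : (n : ℂ) ^ 2 * (τ + 1) / 2 + n * z = (n ^ 2 * τ / 2 + n * (z + 1 / 2)) + (m : ℤ) := by
    linear_combination hm' / 2
  rw [this, ee_add, ee_int, mul_one]

theorem jt_S {τ : ℂ} (hτ : 0 < τ.im) (z : ℂ) : jacobiTheta₂ (z / τ) (-1 / τ) =
    (-Complex.I * τ) ^ (1 / 2 : ℂ) * ee (z ^ 2 / (2 * τ)) * jacobiTheta₂ z τ := by
  have h0 : τ ≠ 0 := by
    rintro rfl
    simp at hτ
  have h1 : (-Complex.I * τ) ^ (1 / 2 : ℂ) ≠ 0 := by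
    rw [Ne, Complex.cpow_eq_zero_iff]
    simp [h0]
  have h2 : Complex.exp (-Real.pi * Complex.I * z ^ 2 / τ) = (ee (z ^ 2 / (2 * τ)))⁻¹ := by
    rw [← ee_neg]
    unfold ee
    congr 1
    field_simp
  rw [jacobiTheta₂_functional_equation z τ, h2]
  have h3 := ee_ne (z ^ 2 / (2 * τ))
  generalize ee (z ^ 2 / (2 * τ)) = t at h3
  generalize jacobiTheta₂ (z / τ) (-1 / τ) = u
  field_simp

/-- The square of the product of the three even theta functions. -/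
def num (τ z : ℂ) : ℂ := ee (τ / 4 + z) *
  (jacobiTheta₂ z τ * jacobiTheta₂ (z + 1 / 2) τ * jacobiTheta₂ (z + τ / 2) τ) ^ 2

/-- The Jacobi form of weight zero and index three. -/
def phi (τ z : ℂ) : ℂ := num τ z * (ModularForm.eta τ ^ 6)⁻¹

theorem num_e1 (τ z : ℂ) : num τ (z + 1) = num τ z := by
  unfold num
  rw [add_right_comm z 1 (1 / 2), add_right_comm z 1 (τ / 2), jacobiTheta₂_add_left,
    jacobiTheta₂_add_left, jacobiTheta₂_add_left, ← add_assoc, ee_add (τ / 4 + z) 1]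
  have := ee_int 1
  rw [Int.cast_one] at this
  rw [this, mul_one]

theorem num_e2 (τ z : ℂ) : num τ (z + τ) = ee (-(3 * (τ + 2 * z))) * num τ z := by
  unfold num
  rw [add_right_comm z τ (1 / 2), add_right_comm z τ (τ / 2), jt_tau, jt_tau, jt_tau]
  have h : ee (τ / 4 + (z + τ)) * (ee (-(τ / 2) - z) * ee (-(τ / 2) - (z + 1 / 2)) *
      ee (-(τ / 2) - (z + τ / 2))) ^ 2 = ee (-(3 * (τ + 2 * z))) * ee (τ / 4 + z) := by
    have h1 : ∀ w : ℂ, ee (w + ((-1 : ℤ) : ℂ)) = ee w := fun w => by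
      rw [ee_add, ee_int, mul_one]
    rw [← ee_add, ← ee_add, sq, ← ee_add, ← ee_add, ← ee_add,
      ← h1 (-(3 * (τ + 2 * z)) + (τ / 4 + z))]
    congr 1
    push_cast
    ring
  linear_combination (jacobiTheta₂ z τ * jacobiTheta₂ (z + 1 / 2) τ *
    jacobiTheta₂ (z + τ / 2) τ) ^ 2 * h

theorem num_T {τ : ℂ} (hτ : 0 < τ.im) (z : ℂ) : num (τ + 1) z = ee (1 / 4) * num τ z := by
  unfold num
  rw [jt_T hτ, jt_T hτ, jt_T hτ, show z + 1 / 2 + 1 / 2 = z + 1 by ring,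
    show z + (τ + 1) / 2 + 1 / 2 = z + τ / 2 + 1 by ring, jacobiTheta₂_add_left,
    jacobiTheta₂_add_left, show (τ + 1) / 4 + z = 1 / 4 + (τ / 4 + z) by ring, ee_add]
  ring

theorem num_S {τ : ℂ} (hτ : 0 < τ.im) (z : ℂ) : num (-1 / τ) (z / τ) =
    ((-Complex.I * τ) ^ (1 / 2 : ℂ)) ^ 6 * ee (3 * z ^ 2 / τ) * num τ z := by
  have h0 : τ ≠ 0 := by
    rintro rfl
    simp at hτ
  unfold num
  have e1 : z / τ + 1 / 2 = (z + τ / 2) / τ := by field_simp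
  have e2 : z / τ + -1 / τ / 2 = (z - 1 / 2) / τ := by
    field_simp
    ring
  have e3 : jacobiTheta₂ (z - 1 / 2) τ = jacobiTheta₂ (z + 1 / 2) τ := by
    rw [← jacobiTheta₂_add_left]
    congr 1
    ring
  rw [e1, e2, jt_S hτ, jt_S hτ, jt_S hτ, e3]
  have h : ee (-1 / τ / 4 + z / τ) * (ee (z ^ 2 / (2 * τ)) * ee ((z + τ / 2) ^ 2 / (2 * τ)) *
      ee ((z - 1 / 2) ^ 2 / (2 * τ))) ^ 2 = ee (3 * z ^ 2 / τ) * ee (τ / 4 + z) := by
    rw [← ee_add, ← ee_add, sq, ← ee_add, ← ee_add, ← ee_add]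
    congr 1
    field_simp
    ring
  linear_combination ((-Complex.I * τ) ^ (1 / 2 : ℂ)) ^ 6 * (jacobiTheta₂ z τ *
    jacobiTheta₂ (z + 1 / 2) τ * jacobiTheta₂ (z + τ / 2) τ) ^ 2 * h

theorem phi_T {τ : ℂ} (hτ : 0 < τ.im) (z : ℂ) : phi (τ + 1) z = phi τ z := by
  unfold phi
  rw [num_T hτ, eta_T, mul_pow, ← ee_nmul, show ((6 : ℕ) : ℂ) * (1 / 24) = 1 / 4 by norm_num]
  have := ee_ne (1 / 4)
  field_simp

theorem phi_S {τ : ℂ} (hτ : 0 < τ.im) (z : ℂ) :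
    phi (-1 / τ) (z / τ) = ee (3 * z ^ 2 / τ) * phi τ z := by
  have h0 : τ ≠ 0 := by
    rintro rfl
    simp at hτ
  have h1 : (-Complex.I * τ) ^ (1 / 2 : ℂ) ≠ 0 := by
    rw [Ne, Complex.cpow_eq_zero_iff]
    simp [h0]
  unfold phi
  rw [num_S hτ, eta_S hτ, mul_pow]
  generalize (-Complex.I * τ) ^ (1 / 2 : ℂ) = s at h1
  field_simp

theorem jt_diff {τ : ℂ} (hτ : 0 < τ.im) (z : ℂ) {w : ℂ × ℂ → ℂ}
    (hw : DifferentiableAt ℂ w (τ, z)) :
    DifferentiableAt ℂ (fun p : ℂ × ℂ => jacobiTheta₂ (w p) p.1) (τ, z) := by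
  have h1 := (hasFDerivAt_jacobiTheta₂ (w (τ, z)) hτ).differentiableAt
  have h2 : DifferentiableAt ℂ (fun p : ℂ × ℂ => (w p, p.1)) (τ, z) :=
    hw.prodMk differentiableAt_fst
  exact DifferentiableAt.comp (g := fun p : ℂ × ℂ => jacobiTheta₂ p.1 p.2) (τ, z) h1 h2

theorem phi_diff {τ : ℂ} (hτ : 0 < τ.im) (z : ℂ) :
    DifferentiableAt ℂ (fun p : ℂ × ℂ => phi p.1 p.2) (τ, z) := by
  have h1 := jt_diff hτ z (w := fun p => p.2) (by fun_prop)
  have h2 := jt_diff hτ z (w := fun p => p.2 + 1 / 2) (by fun_prop)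
  have h3 := jt_diff hτ z (w := fun p => p.2 + p.1 / 2) (by fun_prop)
  have h4 : DifferentiableAt ℂ (fun p : ℂ × ℂ => ee (p.1 / 4 + p.2)) (τ, z) := by
    unfold ee
    fun_prop
  have h5 : DifferentiableAt ℂ (fun p : ℂ × ℂ => ModularForm.eta p.1) (τ, z) :=
    DifferentiableAt.comp (g := ModularForm.eta) (τ, z)
      (ModularForm.differentiableAt_eta_of_mem_upperHalfPlaneSet hτ) differentiableAt_fst
  exact (h4.mul (((h1.mul h2).mul h3).pow 2)).mul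
    ((h5.pow 6).inv (pow_ne_zero 6 (ModularForm.eta_ne_zero hτ)))

theorem jf_pow (k : ℕ) : JF (3 * k) 0 fun τ z => phi τ z ^ k where
  diff τ z hτ := (phi_diff hτ z).pow k
  e1 τ z _ := by simp only [phi, num_e1]
  e2 τ z _ := by
    simp only [phi, num_e2]
    rw [mul_assoc, mul_pow, ← ee_nmul]
    congr 2
    push_cast
    ring
  lawT τ z hτ := by rw [phi_T hτ]
  lawS := ⟨1, one_ne_zero, fun τ z hτ => by
    rw [phi_S hτ, mul_pow, ← ee_nmul, zpow_zero, mul_one, one_mul]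
    congr 2
    push_cast
    ring⟩

end GenH

end Pool.Agent.Lib.MP_d6ddbd_nt.K
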