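import Mathlib
import Pool.Agent.Lib.MP_d6ddbd_nt.K.QE
import Pool.Agent.Lib.MP_d6ddbd_nt.K.GenH2

set_option autoImplicit false

open UpperHalfPlane
open scoped MatrixGroups
open Pool.Agent.Lib.MP_9177b7_ag.CM (jH up dn)

noncomputable section

namespace Pool.Agent.Lib.MP_d6ddbd_nt.K

namespace GenH

open Filter Topology
open scoped ModularForm

theorem ee_half : ee (1 / 2) = -1 := by
  unfold ee
  rw [← Complex.exp_pi_mul_I]
  congr 1
  ring

theorem pr_sq {α : ℤ} (h0 : 0 ≤ α) (h1 : α ≤ 1) : Pr fun n : ℤ => 2 * n ^ 2 + 2 * α * n := by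
  intro B
  refine (Set.finite_Icc (-B - 2) (B + 2)).subset fun n hn => ?_
  simp only [Set.mem_ofPred_eq] at hn
  obtain rfl | rfl : α = 0 ∨ α = 1 := by omega
  · constructor <;> nlinarith [sq_nonneg (n - 1), sq_nonneg (n + 1)]
  · constructor <;> nlinarith [sq_nonneg (n - 1), sq_nonneg (n + 1)]

theorem jt_exp (α β : ℤ) (τ : ℍ) (z : ℂ) :
    HasSum (fun n : ℤ => ((((-1 : ℚ) ^ (β * n) : ℚ)) : ℂ) *
      ee ((((2 * n ^ 2 + 2 * α * n : ℤ) : ℂ) / 4 : ℂ) * τ + n * z))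
      (jacobiTheta₂ (z + α * τ / 2 + β / 2) τ) := by
  refine hs_congr (jt_hasSum τ.2 _) fun n => ?_
  push_cast
  rw [← ee_half, ← ee_zmul, ← ee_add]
  congr 1
  push_cast
  ring

theorem dx_jt {α : ℤ} (h0 : 0 ≤ α) (h1 : α ≤ 1) (β : ℤ) :
    DX fun τ z => jacobiTheta₂ (z + α * τ / 2 + β / 2) τ :=
  ⟨ℤ, fun n => (-1) ^ (β * n), fun n => 2 * n ^ 2 + 2 * α * n, fun n => n, pr_sq h0 h1,
    fun τ x => jt_exp α β τ x⟩

theorem lim_of {ι : Type} {a : ι → ℂ} {e : ι → ℤ} (hp : Pr e) (h0 : ∀ i, 0 ≤ e i)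
    {S : Finset ι} (hS : ∀ i, i ∈ S ↔ e i = 0) {u : ℍ → ℂ}
    (h : ∀ τ : ℍ, HasSum (fun i => a i * ee (e i * (τ : ℂ) / (4 : ℕ))) (u τ)) :
    Tendsto u atImInfty (𝓝 (∑ i ∈ S, a i)) := by
  obtain ⟨F, hF⟩ := hp.fib one_pos
  simp only [Nat.cast_one, one_mul] at hF
  have hl : ∀ N < 0, ∑ i ∈ F N, a i = 0 := fun N hN => Finset.sum_eq_zero fun i hi => by
    have h1 := (hF N i).1 hi
    have h2 := h0 i
    omega
  obtain ⟨c, hc⟩ := exists_ser (a := fun N => ∑ i ∈ F N, a i) hl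
  have hq : QE 4 u c := fun τ => by
    simpa only [hc] using regroup (w := fun N : ℤ => ee (N * (τ : ℂ) / (4 : ℕ))) hF (h τ)
  have h1 := hq.tendsto (by norm_num) (N₀ := 0) fun N hN => by rw [hc, hl N hN]
  have h2 : F 0 = S := by
    ext i
    rw [hF, hS]
  simpa [hc, h2, ee_zero] using h1

theorem lim_jt {α : ℤ} (h0 : 0 ≤ α) (h1 : α ≤ 1) (β : ℤ) :
    Tendsto (fun τ : ℍ => jacobiTheta₂ (0 + α * τ / 2 + β / 2) τ) atImInfty
      (𝓝 (∑ n ∈ ({0, -α} : Finset ℤ), ((((-1 : ℚ) ^ (β * n) : ℚ)) : ℂ))) := by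
  refine lim_of (pr_sq h0 h1) (fun n => ?_) (fun n => ?_) fun τ => ?_
  · obtain rfl | rfl : α = 0 ∨ α = 1 := by omega
    · nlinarith [sq_nonneg n]
    · rcases le_or_gt 0 n with h | h
      · nlinarith
      · nlinarith
  · rw [show 2 * n ^ 2 + 2 * α * n = 2 * (n * (n + α)) by ring]
    simp [add_eq_zero_iff_eq_neg]
  · refine hs_congr (jt_exp α β τ 0) fun n => ?_
    congr 2
    push_cast
    ring

theorem phi_eq (τ z : ℂ) : phi τ z = ee (((0 : ℤ) / 4 : ℂ) * τ + (1 : ℤ) * z) *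
    (jacobiTheta₂ (z + (0 : ℤ) * τ / 2 + (0 : ℤ) / 2) τ *
      jacobiTheta₂ (z + (0 : ℤ) * τ / 2 + (1 : ℤ) / 2) τ *
      jacobiTheta₂ (z + (1 : ℤ) * τ / 2 + (0 : ℤ) / 2) τ) ^ 2 *
    ((ModularForm.eta τ * ee (-τ / 24)) ^ 6)⁻¹ := by
  have h : ee (τ / 4 + z) = ee z * (ee (-τ / 24) ^ 6)⁻¹ := by
    rw [← ee_nmul, ← ee_neg, ← ee_add]
    congr 1
    push_cast
    ring
  simp only [phi, num, h, Int.cast_zero, Int.cast_one, zero_mul, zero_div, add_zero, one_mul,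
    zero_add, mul_pow, mul_inv]
  ring

theorem dx_phi : DX phi := by
  obtain ⟨c, hc, hr, -⟩ := qe_eta
  have h1 : QE 4 (fun τ : ℍ => ((ModularForm.eta τ * ee (-(τ : ℂ) / 24)) ^ 6)⁻¹)
      ((dil 4 (by norm_num) c ^ 6)⁻¹) :=
    ((hc.level 4 (by norm_num)).pow 6).inv (by norm_num) fun τ =>
      pow_ne_zero _ (mul_ne_zero (ModularForm.eta_ne_zero τ.2) (ee_ne _))
  have h2 := dx_of_qe (u := fun τ => ((ModularForm.eta τ * ee (-τ / 24)) ^ 6)⁻¹) h1
    ((hr.dil 4 _).pow 6).inv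
  have h3 := ((dx_mono 0 1).mul ((((dx_jt (α := 0) le_rfl zero_le_one 0).mul
    (dx_jt (α := 0) le_rfl zero_le_one 1)).mul (dx_jt (α := 1) zero_le_one le_rfl 0)).pow 2)).mul h2
  rw [show phi = _ from funext fun τ => funext fun z => phi_eq τ z]
  exact h3

theorem lim_phi : Tendsto (fun τ : ℍ => phi τ 0) atImInfty (𝓝 4) := by
  obtain ⟨c, hc, -, hl, -⟩ := qe_eta
  have h1 := hc.tendsto one_pos hl.1
  rw [hl.2] at h1
  have h2 : Tendsto (fun τ : ℍ => ModularForm.eta τ * ee (-(τ : ℂ) / 24)) atImInfty (𝓝 1) := by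
    simpa [ee_zero] using h1
  have h3 := ((((lim_jt (α := 0) le_rfl zero_le_one 0).mul
    (lim_jt (α := 0) le_rfl zero_le_one 1)).mul (lim_jt (α := 1) zero_le_one le_rfl 0)).pow 2).mul
    ((h2.pow 6).inv₀ (by norm_num))
  simp only [phi_eq]
  convert h3 using 2
  · simp [ee_zero]
  · norm_num

theorem phi_zero (τ : ℍ) : phi τ 0 = 4 := by
  have hs : ∀ γ : SL(2, ℤ), (fun τ : ℍ => phi τ 0) ∣[(0 : ℤ)] γ = fun τ : ℍ => phi τ 0 := by
    refine SlashInvariantForm.slash_action_generators_SL2Z ?_ ?_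
    · ext τ
      have := phi_S τ.2 0
      rw [ModularForm.SL_slash_apply, coe_S]
      simpa [ee_zero] using this
    · ext τ
      rw [ModularForm.SL_slash_apply, coe_T, phi_T τ.2]
      simp
  have hh : Hol fun τ : ℍ => phi τ 0 := by
    refine hol_of (F := fun τ => phi τ 0) fun τ hτ => ?_
    exact (DifferentiableAt.comp (g := fun p : ℂ × ℂ => phi p.1 p.2) (f := fun t : ℂ => (t, 0)) τ
      (phi_diff hτ 0) (by fun_prop)).differentiableWithinAt
  let f : ModularForm 𝒮ℒ 0 :=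
    { toFun := fun τ => phi τ 0
      slash_action_eq' := fun _ ⟨γ, hγ⟩ => hγ ▸ hs γ
      holo' := hol_iff.1 hh
      bdd_at_cusps' := fun {x} hx => by
        rw [Subgroup.IsArithmetic.isCusp_iff_isCusp_SL2Z] at hx
        rw [OnePoint.isBoundedAt_iff_forall_SL2Z hx]
        intro γ _
        rw [hs γ]
        exact lim_phi.isBigO_one ℝ }
  obtain ⟨a, ha⟩ := ModularFormClass.levelOne_weight_zero_const f
  have ha' : (fun τ : ℍ => phi τ 0) = fun _ => a := ha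
  have hz := lim_phi
  rw [ha'] at hz
  exact (congrFun ha' τ).trans (tendsto_nhds_unique tendsto_const_nhds hz)

/-- A periodic family of series has poles of bounded order. -/
theorem low_of_per {c : ℤ → LaurentSeries ℂ} {m : ℕ} (hm : 0 < m) (hp : ∀ r, c (r + m) = c r) :
    ∃ K : ℕ, ∀ r (N : ℤ), N < -(K : ℤ) → (c r).coeff N = 0 := by
  have hper : Function.Periodic c (m : ℤ) := hp
  refine ⟨(Finset.range m).sup fun r => (-(c r).order).toNat, fun r N hN => ?_⟩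
  have hm' : (0 : ℤ) < m := by exact_mod_cast hm
  have h1 := Int.emod_nonneg r hm'.ne'
  have h2 := Int.emod_lt_of_pos r hm'
  have h3 : c r = c ((r % m).toNat : ℕ) := by
    rw [Int.toNat_of_nonneg h1, ← hper.int_mul (r / m) (r % m)]
    congr 1
    simpa [mul_comm] using (Int.emod_add_mul_ediv r m).symm
  have h4 : (-(c ((r % m).toNat : ℕ)).order).toNat ≤
      (Finset.range m).sup fun r => (-(c r).order).toNat :=
    Finset.le_sup (f := fun r : ℕ => (-(c r).order).toNat) (Finset.mem_range.2 (by omega))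
  rw [h3]
  exact HahnSeries.coeff_eq_zero_of_lt_order (by omega)

end GenH

open GenH in
theorem exists_h (k : ℕ) (hk : 0 < k) :
    ∃ (h : ℤ → ℍ → ℂ) (c : ℤ → LaurentSeries ℂ) (K : ℕ), UV (3 * k) (-(1 / 2)) h ∧
      (∀ r, QE (12 * k) (h r) (c r)) ∧ (∀ r, RatS (c r)) ∧
      (∀ r (N : ℤ), N < -(K : ℤ) → (c r).coeff N = 0) ∧
      ∀ N : ℤ, ∑ᶠ r : ℤ, (c r).coeff (N - r ^ 2) = if N = 0 then 4 ^ k else 0 := by
  have hM : 0 < 3 * k := by omega
  have hn : 0 < 4 * (3 * k) := by omega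
  have huv := (jf_pow k).uv hM
  obtain ⟨c, hq, hr, hs⟩ := (dx_phi.pow k).comp hM
  obtain ⟨K, hK⟩ := low_of_per (c := c) (m := 2 * (3 * k)) (by omega) fun r => by
    have h1 := hq (r + (2 * (3 * k) : ℕ))
    rw [show ((2 * (3 * k) : ℕ) : ℤ) = 2 * ((3 * k : ℕ) : ℤ) by push_cast; ring, huv.per] at h1
    rw [show ((2 * (3 * k) : ℕ) : ℤ) = 2 * ((3 * k : ℕ) : ℤ) by push_cast; ring]
    exact h1.unique hn (hq r)
  refine ⟨_, c, K, by simpa using huv, fun r => ?_, hr, hK, fun N => ?_⟩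
  · rw [show 12 * k = 4 * (3 * k) by ring]
    exact hq r
  · have h1 := coeff_unique hn 0 (s := fun _ => 4 ^ k)
      (fun τ _ => by simpa only [phi_zero] using hs τ) fun τ _ => qe_const (4 ^ k) τ
    rw [congrFun h1 N, HahnSeries.coeff_single]
    simp

end Pool.Agent.Lib.MP_d6ddbd_nt.K
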