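import Mathlib
import Pool.Agent.Lib.MP_d6ddbd_nt.K.QE
import Pool.Agent.Lib.MP_d6ddbd_nt.K.Defs2

/-! Series lemmas for the product construction. -/

set_option autoImplicit false

open UpperHalfPlane
open scoped MatrixGroups

noncomputable section

namespace Pool.Agent.Lib.MP_d6ddbd_nt.K

theorem coeff_mul_range {c d : LaurentSeries ℂ} {a b : ℤ} (hc : ∀ N < a, c.coeff N = 0)
    (hd : ∀ N < b, d.coeff N = 0) (m : ℤ) :
    (c * d).coeff m = ∑ j ∈ Finset.range (m - a - b + 1).toNat,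
      c.coeff (a + j) * d.coeff (m - a - j) := by
  classical
  rw [HahnSeries.coeff_mul]
  symm
  refine Finset.sum_bij_ne_zero (fun j _ _ => ((a + j : ℤ), (m - a - j : ℤ))) ?_ ?_ ?_ ?_
  · intro j _ h
    rw [Finset.mem_antidiagonal]
    exact ⟨left_ne_zero_of_mul h, right_ne_zero_of_mul h, by ring⟩
  · intro i _ _ j _ _ e
    have := congrArg Prod.fst e
    simp at this
    exact this
  · rintro ⟨x, y⟩ hxy h
    rw [Finset.mem_antidiagonal] at hxy
    have h1 : a ≤ x := le_of_not_gt fun hh => left_ne_zero_of_mul h (hc _ hh)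
    have h2 : b ≤ y := le_of_not_gt fun hh => right_ne_zero_of_mul h (hd _ hh)
    have h3 : x + y = m := hxy.2.2
    have e1 : a + ((x - a).toNat : ℤ) = x := by omega
    have e2 : m - a - ((x - a).toNat : ℤ) = y := by omega
    refine ⟨(x - a).toNat, Finset.mem_range.2 (by omega), ?_, ?_⟩
    · rw [e1, e2]; exact h
    · rw [e1, e2]
  · intro j _ _
    rfl

theorem low_mul {c d : LaurentSeries ℂ} {a b : ℤ} (hc : ∀ N < a, c.coeff N = 0)
    (hd : ∀ N < b, d.coeff N = 0) : ∀ N < a + b, (c * d).coeff N = 0 := fun N hN => by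
  rw [coeff_mul_range hc hd, show (N - a - b + 1).toNat = 0 by omega]
  simp

theorem exists_low (c : LaurentSeries ℂ) : ∃ a : ℤ, ∀ N < a, c.coeff N = 0 :=
  ⟨c.order, fun _ h => HahnSeries.coeff_eq_zero_of_lt_order h⟩

theorem hasSum_mul_prod {ι ι' : Type} {f : ι → ℂ} {g : ι' → ℂ} {s s' : ℂ} (h : HasSum f s)
    (h' : HasSum g s') : HasSum (fun x : ι × ι' => f x.1 * g x.2) (s * s') := by
  have h1 : Summable fun x => ‖f x‖ := summable_norm_iff.2 h.summable
  have h2 : Summable fun x => ‖g x‖ := summable_norm_iff.2 h'.summable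
  exact HasSum.mul h h' (summable_mul_of_summable_norm h1 h2)

/-- The Cauchy product at one point. -/
theorem hasSum_mul_pt {c d : LaurentSeries ℂ} {t : ℤ → ℂ} (ht : ∀ a b, t (a + b) = t a * t b)
    {s s' : ℂ} (h : HasSum (fun N => c.coeff N * t N) s)
    (h' : HasSum (fun N => d.coeff N * t N) s') :
    HasSum (fun N => (c * d).coeff N * t N) (s * s') := by
  classical
  have hs := hasSum_mul_prod (f := fun N => c.coeff N * t N) (g := fun N => d.coeff N * t N) h h'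
  let e : (Σ _ : ℤ, ℤ) ≃ ℤ × ℤ :=
    ⟨fun p => (p.2, p.1 - p.2), fun q => ⟨q.1 + q.2, q.1⟩, fun p => by simp, fun q => by simp⟩
  have hs' : HasSum (fun p : (Σ _ : ℤ, ℤ) =>
      c.coeff p.2 * t p.2 * (d.coeff (p.1 - p.2) * t (p.1 - p.2))) (s * s') := e.hasSum_iff.2 hs
  refine hs'.sigma fun N => ?_
  rw [HahnSeries.coeff_mul, Finset.sum_mul]
  have := hasSum_sum_of_ne_finset_zero
    (f := fun x : ℤ => c.coeff x * t x * (d.coeff (N - x) * t (N - x)))
    (s := (Finset.antidiagonal c.isPWO_support d.isPWO_support N).image Prod.fst)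
    (L := SummationFilter.unconditional ℤ) (by
      intro x hx
      by_contra hne
      apply hx
      refine Finset.mem_image.2 ⟨(x, N - x), Finset.mem_antidiagonal.2 ⟨?_, ?_, by ring⟩, rfl⟩
      · exact left_ne_zero_of_mul (left_ne_zero_of_mul hne)
      · exact left_ne_zero_of_mul (right_ne_zero_of_mul hne))
  convert this using 1
  rw [Finset.sum_image]
  · refine Finset.sum_congr rfl fun p hp => ?_
    have h3 : p.1 + p.2 = N := (Finset.mem_antidiagonal.1 hp).2.2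
    rw [show N - p.1 = p.2 by omega, ← h3, ht]
    ring
  · intro p hp q hq e
    have h3 : p.1 + p.2 = N := (Finset.mem_antidiagonal.1 hp).2.2
    have h4 : q.1 + q.2 = N := (Finset.mem_antidiagonal.1 hq).2.2
    exact Prod.ext e (by omega)

theorem ee_step (n : ℕ) (z : ℂ) (a b : ℤ) :
    ee (((a + b : ℤ) : ℂ) * z / n) = ee (a * z / n) * ee (b * z / n) := by
  rw [← ee_add]; congr 1; push_cast; ring

/-- The shift by `i Y`. -/
def sh (Y : ℝ) (τ : ℍ) : ℍ := ofComplex ((τ : ℂ) + Y * Complex.I)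

theorem coe_sh {Y : ℝ} (hY : 0 ≤ Y) (τ : ℍ) : (sh Y τ : ℂ) = τ + Y * Complex.I := by
  have : 0 < ((τ : ℂ) + Y * Complex.I).im := by
    have := τ.im_pos
    simp; linarith
  rw [sh, ofComplex_apply_of_im_pos this]

theorem im_sh {Y : ℝ} (hY : 0 ≤ Y) (τ : ℍ) : (sh Y τ).im = τ.im + Y := by
  rw [← coe_im, coe_sh hY]; simp

theorem exists_sh {Y : ℝ} (hY : 0 ≤ Y) {z : ℍ} (hz : Y < z.im) : ∃ τ, z = sh Y τ := by
  have : 0 < ((z : ℂ) - Y * Complex.I).im := by simp; linarith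
  refine ⟨⟨_, this⟩, UpperHalfPlane.ext ?_⟩
  rw [coe_sh hY]; simp

/-- Expansion on a half plane with a bound for the coefficients. -/
theorem exists_half {n : ℕ} (hn : 0 < n) {f : ℍ → ℂ} {Y B K : ℝ} (hY : 0 ≤ Y) (hK : 0 ≤ K)
    (hd : DifferentiableOn ℂ (f ∘ ofComplex) {t : ℂ | Y < t.im})
    (hp : ∀ τ : ℍ, Y < τ.im → f ((n : ℝ) +ᵥ τ) = f τ)
    (hb : ∀ τ : ℍ, Y < τ.im → ‖f τ‖ ≤ B * Real.exp (K * τ.im)) :
    ∃ a : LaurentSeries ℂ,
      (∀ τ : ℍ, Y < τ.im → HasSum (fun N : ℤ => a.coeff N * ee (N * (τ : ℂ) / n)) (f τ)) ∧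
      ∀ N : ℤ, ‖a.coeff N‖ ≤ B * Real.exp (K * (1 + Y)) * Real.exp (2 * Real.pi * N * (1 + Y) / n) := by
  have him : ∀ τ : ℍ, Y < (sh Y τ).im := fun τ => by
    rw [im_sh hY]; linarith [τ.im_pos]
  have hB : 0 ≤ B := by
    have := (norm_nonneg _).trans (hb _ (him UpperHalfPlane.I))
    exact nonneg_of_mul_nonneg_left this (Real.exp_pos _)
  have h1 : Hol fun τ => f (sh Y τ) := by
    have : DifferentiableOn ℂ (fun t : ℂ => (f ∘ ofComplex) (t + Y * Complex.I))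
        {z : ℂ | 0 < z.im} := by
      refine hd.comp (by fun_prop) fun t ht => ?_
      simp at ht ⊢; exact ht
    exact hol_of this
  have h2 : ∀ τ : ℍ, f (sh Y ((n : ℝ) +ᵥ τ)) = f (sh Y τ) := fun τ => by
    rw [← hp _ (him τ)]
    congr 1
    apply UpperHalfPlane.ext
    rw [coe_vadd, coe_sh hY, coe_sh hY, coe_vadd]; ring
  have h3 : Gro fun τ => f (sh Y τ) := by
    refine ⟨B * Real.exp (K * Y), K, fun τ _ => (hb _ (him τ)).trans (le_of_eq ?_)⟩
    rw [im_sh hY, mul_add, Real.exp_add]; ring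
  obtain ⟨c, hc⟩ := exists_qe hn h1 h2 h3
  refine ⟨⟨fun N => c.coeff N * ee (-(N * (Y * Complex.I) / n)),
    c.isPWO_support.mono fun N hN => left_ne_zero_of_mul hN⟩, fun z hz => ?_, fun N => ?_⟩
  · obtain ⟨τ, rfl⟩ := exists_sh hY hz
    convert hc τ using 2 with N
    change c.coeff N * ee _ * _ = _
    rw [mul_assoc, ← ee_add, coe_sh hY]
    congr 2; ring
  · have := hc.coeff_bound hn (s := 1) (M := B * Real.exp (K * (1 + Y))) one_pos
      (fun τ hτ => by have := hb _ (him τ); rwa [im_sh hY, hτ] at this) N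
    change ‖c.coeff N * ee _‖ ≤ _
    rw [norm_mul, norm_ee]
    have e : (-((N : ℂ) * (Y * Complex.I) / n)).im = -(N * Y / n) := by
      rw [show -((N : ℂ) * (Y * Complex.I) / n) = ((-(N * Y / n) : ℝ) : ℂ) * Complex.I by
        push_cast; ring]
      simp
    rw [e]
    refine (mul_le_mul_of_nonneg_right this (Real.exp_pos _).le).trans (le_of_eq ?_)
    rw [mul_assoc, ← Real.exp_add]
    congr 2; ring

/-! ### The space `VV` -/

theorem vv_zero (n : ℕ) (K : ℝ) : (fun _ => 0) ∈ VV n K :=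
  ⟨hol_const 0, fun _ _ _ => rfl, fun _ => ⟨0, fun _ _ => by simp⟩⟩

theorem vv_add {n : ℕ} {K : ℝ} {f g : ℍ → ℂ} (h : f ∈ VV n K) (h' : g ∈ VV n K) :
    (fun τ => f τ + g τ) ∈ VV n K := by
  refine ⟨h.1.add h'.1, fun γ hγ τ => by simp only [h.2.1 γ hγ, h'.2.1 γ hγ], fun γ => ?_⟩
  obtain ⟨C, hC⟩ := h.2.2 γ
  obtain ⟨C', hC'⟩ := h'.2.2 γ
  exact ⟨C + C', fun τ hτ => (norm_add_le _ _).trans (by linarith [hC τ hτ, hC' τ hτ])⟩

theorem vv_smul {n : ℕ} {K : ℝ} {f : ℍ → ℂ} (h : f ∈ VV n K) (a : ℂ) :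
    (fun τ => a * f τ) ∈ VV n K := by
  refine ⟨(hol_const a).mul h.1, fun γ hγ τ => by simp only [h.2.1 γ hγ], fun γ => ?_⟩
  obtain ⟨C, hC⟩ := h.2.2 γ
  refine ⟨‖a‖ * C, fun τ hτ => ?_⟩
  rw [norm_mul, mul_assoc]
  exact mul_le_mul_of_nonneg_left (hC τ hτ) (norm_nonneg _)

theorem vv_sum {n : ℕ} {K : ℝ} {ι : Type} (s : Finset ι) {F : ι → ℍ → ℂ}
    (h : ∀ i ∈ s, F i ∈ VV n K) : (fun τ => ∑ i ∈ s, F i τ) ∈ VV n K := by
  classical
  induction s using Finset.induction_on with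
  | empty => simpa using vv_zero n K
  | insert a s ha ih =>
    simp only [Finset.sum_insert ha]
    exact vv_add (h a (Finset.mem_insert_self _ _))
      (ih fun i hi => h i (Finset.mem_insert_of_mem hi))

theorem vv_mono {n : ℕ} {K K' : ℝ} (hK : K ≤ K') {f : ℍ → ℂ} (h : f ∈ VV n K) : f ∈ VV n K' := by
  refine ⟨h.1, h.2.1, fun γ => ?_⟩
  obtain ⟨C, hC⟩ := h.2.2 γ
  refine ⟨|C|, fun τ hτ => (hC τ hτ).trans ?_⟩
  exact mul_le_mul (le_abs_self C) (Real.exp_le_exp.2 (by nlinarith)) (Real.exp_pos _).le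
    (abs_nonneg C)

/-! ### The exponential of a power series -/

/-- Coefficients of `exp (- ∑ a (m + 1) p ^ (m + 1) / (m + 1))`. -/
def em (a : ℕ → ℂ) : ℕ → ℂ
  | 0 => 1
  | m + 1 => -((m + 1 : ℕ) : ℂ)⁻¹ * ∑ i : Fin (m + 1), a (m + 1 - i) * em a i
  decreasing_by exact i.2

/-- The series with coefficients `e`. -/
def ser (e : ℕ → ℂ) : LaurentSeries ℂ := HahnSeries.ofPowerSeries ℤ ℂ (PowerSeries.mk e)

theorem ser_nat (e : ℕ → ℂ) (m : ℕ) : (ser e).coeff m = e m := by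
  rw [ser, HahnSeries.ofPowerSeries_apply_coeff, PowerSeries.coeff_mk]

theorem ser_neg (e : ℕ → ℂ) : ∀ N < (0 : ℤ), (ser e).coeff N = 0 := fun N hN => by
  rw [ser, HahnSeries.ofPowerSeries_apply]
  apply HahnSeries.embDomain_of_notMem_range
  rintro ⟨m, hm⟩
  simp at hm
  omega

theorem hasSum_ser {e : ℕ → ℂ} {t : ℤ → ℂ} {s : ℂ} (h : HasSum (fun m : ℕ => e m * t m) s) :
    HasSum (fun N : ℤ => (ser e).coeff N * t N) s := by
  have := HasSum.of_nat_of_neg_add_one (f := fun N : ℤ => (ser e).coeff N * t N) (m := s) (m' := 0)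
    (by simpa only [ser_nat] using h)
    (by
      have : (fun m : ℕ => (ser e).coeff (-((m : ℤ) + 1)) * t (-((m : ℤ) + 1))) = fun _ => 0 := by
        funext m; rw [ser_neg e _ (by omega), zero_mul]
      rw [this]; exact hasSum_zero)
  simpa using this

end Pool.Agent.Lib.MP_d6ddbd_nt.K
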