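import Mathlib
import Pool.Agent.Lib.MP_d6ddbd_nt.K.Ext1

/-! The exponential of a power series. -/

set_option autoImplicit false

open UpperHalfPlane
open scoped MatrixGroups

noncomputable section

namespace Pool.Agent.Lib.MP_d6ddbd_nt.K

theorem em_scale (a : ℕ → ℂ) (r : ℂ) (m : ℕ) : em (fun i => a i * r ^ i) m = em a m * r ^ m := by
  induction m using Nat.strong_induction_on with
  | _ m ih =>
    cases m with
    | zero => simp [em]
    | succ m =>
      rw [em, em, mul_assoc (-_), Finset.sum_mul]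
      congr 1
      refine Finset.sum_congr rfl fun i _ => ?_
      rw [ih i i.2]
      have : r ^ (m + 1) = r ^ (m + 1 - i) * r ^ (i : ℕ) := by
        rw [← pow_add]; congr 1; have := i.2; omega
      rw [this]; ring

theorem qe_em {n : ℕ} (hn : 0 < n) (a : ℕ → ℂ) {l : ℍ → ℂ}
    (hl : ∀ τ : ℍ, HasSum (fun m : ℕ => a (m + 1) * ee ((m + 1 : ℕ) * (τ : ℂ) / n) / (m + 1 : ℕ))
      (l τ)) : QE n (fun τ => Complex.exp (-l τ)) (ser (em a)) := by
  have hn' : (n : ℂ) ≠ 0 := by exact_mod_cast hn.ne'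
  have q1 : QE n l (ser fun m => a m / m) := fun τ => by
    apply hasSum_ser (t := fun N : ℤ => ee (N * (τ : ℂ) / n))
    rw [← hasSum_nat_add_iff' 1]
    simp only [Finset.range_one, Finset.sum_singleton, Nat.cast_zero, div_zero, zero_mul, sub_zero]
    have := hl τ
    convert this using 2 with m
    · rfl
    · rw [Int.cast_natCast]; ring
  have hol : Hol l := q1.hol hn
  have hol' : Hol fun τ => Complex.exp (-l τ) := DifferentiableOn.cexp (DifferentiableOn.neg hol)
  obtain ⟨C, hC⟩ := q1.bound hn (N₀ := 0) (ser_neg _) one_pos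
  have hb : ∀ τ : ℍ, 1 ≤ τ.im → ‖Complex.exp (-l τ)‖ ≤ Real.exp C := fun τ hτ => by
    rw [Complex.norm_exp]
    apply Real.exp_le_exp.2
    have h1 := hC τ hτ
    simp only [Int.cast_zero, mul_zero, zero_mul, zero_div, neg_zero, Real.exp_zero, mul_one] at h1
    exact (Complex.re_le_norm _).trans (by rwa [norm_neg])
  obtain ⟨c, hc⟩ := exists_qe hn hol' (fun τ => by rw [q1.per hn]) (gro_coe_bdd hb)
  have hlow : ∀ N < (0 : ℤ), c.coeff N = 0 := fun N hN =>
    hc.low hn (C := Real.exp C) (K := 0) (Y := 1)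
      (fun τ hτ => by simpa using hb τ hτ.le) (by exact_mod_cast hN)
  have h0 : c.coeff 0 = 1 := by
    have t1 := hc.tendsto hn hlow
    have t2 := q1.tendsto hn (N₀ := 0) (ser_neg _)
    have e0 : (ser fun m => a m / m).coeff 0 = 0 := by
      have := ser_nat (fun m => a m / m) 0
      simpa using this
    simp only [Int.cast_zero, zero_mul, zero_div, neg_zero, ee_zero, mul_one, e0] at t1 t2
    have t3 := (Complex.continuous_exp.tendsto _).comp t2.neg
    simp only [neg_zero, Complex.exp_zero] at t3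
    exact tendsto_nhds_unique t1 t3
  obtain ⟨d, hd, hd'⟩ := hc.deriv hn
  obtain ⟨dl, hdl, hdl'⟩ := q1.deriv hn
  have hD : Derivative.normalizedDerivOfComplex (fun τ => Complex.exp (-l τ)) =
      fun τ => -1 * (Complex.exp (-l τ) * Derivative.normalizedDerivOfComplex l τ) := by
    funext τ
    have h1 := (hol.analyticAt τ).differentiableAt.hasDerivAt
    have h2 := h1.neg.cexp
    have h3 : deriv ((fun τ => Complex.exp (-l τ)) ∘ ofComplex) τ = _ := h2.deriv
    rw [Derivative.normalizedDerivOfComplex, Derivative.normalizedDerivOfComplex, h3]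
    simp only [Pi.neg_apply, Function.comp_apply, ofComplex_apply]
    ring
  have e := hd.unique hn (hD ▸ (hc.mul hdl).smul (-1))
  have hdl0 : ∀ N < (0 : ℤ), dl.coeff N = 0 := fun N hN => by rw [hdl', ser_neg _ _ hN, mul_zero]
  have key : ∀ m : ℕ, c.coeff m = em a m := by
    intro m
    induction m using Nat.strong_induction_on with
    | _ m ih =>
      cases m with
      | zero => simpa [em] using h0
      | succ m =>
        have h1 := congrArg (fun s : LaurentSeries ℂ => s.coeff ((m + 1 : ℕ) : ℤ)) e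
        simp only [hd', HahnSeries.coeff_smul, smul_eq_mul] at h1
        rw [coeff_mul_range hlow hdl0, show (((m + 1 : ℕ) : ℤ) - 0 - 0 + 1).toNat = m + 1 + 1 by
          omega, Finset.sum_range_succ] at h1
        have h2 : dl.coeff (((m + 1 : ℕ) : ℤ) - 0 - ((m + 1 : ℕ) : ℤ)) = 0 := by
          rw [hdl']; simp
        rw [h2, mul_zero, add_zero] at h1
        have h3 : ∑ j ∈ Finset.range (m + 1), c.coeff (0 + j) * dl.coeff (((m + 1 : ℕ) : ℤ) - 0 - j)
            = (n : ℂ)⁻¹ * ∑ i : Fin (m + 1), a (m + 1 - i) * em a i := by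
          rw [Finset.mul_sum, Finset.sum_range]
          refine Finset.sum_congr rfl fun i _ => ?_
          have hi := i.2
          have e1 : ((m + 1 : ℕ) : ℤ) - 0 - ((i : ℕ) : ℤ) = ((m + 1 - i : ℕ) : ℤ) := by omega
          have e2 : ((m + 1 - i : ℕ) : ℂ) ≠ 0 := by exact_mod_cast (by omega : m + 1 - (i : ℕ) ≠ 0)
          rw [zero_add, ih i hi, e1, hdl', ser_nat, Int.cast_natCast]
          field_simp
        rw [h3, Int.cast_natCast] at h1
        have e2 : ((m + 1 : ℕ) : ℂ) ≠ 0 := by exact_mod_cast Nat.succ_ne_zero m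
        rw [em]
        field_simp at h1 ⊢
        linear_combination h1
  have : c = ser (em a) := by
    ext N
    rcases lt_or_ge N 0 with hN | hN
    · rw [hlow N hN, ser_neg _ N hN]
    · obtain ⟨m, rfl⟩ := Int.eq_ofNat_of_zero_le hN
      rw [key, ser_nat]
  exact this ▸ hc

theorem hasSum_em {n : ℕ} (hn : 0 < n) (a : ℕ → ℂ) {Y : ℝ} (hY : 0 ≤ Y) {l : ℍ → ℂ}
    (hl : ∀ τ : ℍ, Y < τ.im →
      HasSum (fun m : ℕ => a (m + 1) * ee ((m + 1 : ℕ) * (τ : ℂ) / n) / (m + 1 : ℕ)) (l τ))
    {z : ℍ} (hz : Y < z.im) :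
    HasSum (fun N : ℤ => (ser (em a)).coeff N * ee (N * (z : ℂ) / n)) (Complex.exp (-l z)) := by
  obtain ⟨τ, rfl⟩ := exists_sh hY hz
  have him : ∀ τ : ℍ, Y < (sh Y τ).im := fun τ => by
    rw [im_sh hY]; linarith [τ.im_pos]
  have key : ∀ (m : ℕ) (τ : ℍ), ee (m * (sh Y τ : ℂ) / n) =
      ee (Y * Complex.I / n) ^ m * ee (m * (τ : ℂ) / n) := fun m τ => by
    rw [← ee_nmul, ← ee_add, coe_sh hY]; congr 1; ring
  have q := qe_em hn (fun i => a i * ee (Y * Complex.I / n) ^ i) (l := fun τ => l (sh Y τ))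
    (fun τ => by
      convert hl _ (him τ) using 2 with m
      rw [key]; ring)
  convert q τ using 2 with N
  rcases lt_or_ge N 0 with hN | hN
  · rw [ser_neg _ N hN, ser_neg _ N hN, zero_mul, zero_mul]
  · obtain ⟨m, rfl⟩ := Int.eq_ofNat_of_zero_le hN
    rw [ser_nat, ser_nat, em_scale, Int.cast_natCast, key]; ring

theorem em_hol {a : ℕ → ℍ → ℂ} (h : ∀ m, Hol (a m)) (m : ℕ) :
    Hol fun τ => em (fun i => a i τ) m := by
  induction m using Nat.strong_induction_on with
  | _ m ih =>
    cases m with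
    | zero => simpa [em] using hol_const 1
    | succ m =>
      simp only [em]
      exact (hol_const _).mul (hol_sum _ fun i _ => (h _).mul (ih i i.2))

end Pool.Agent.Lib.MP_d6ddbd_nt.K
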