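import Mathlib
import Pool.Agent.Lib.MP_d6ddbd_nt.K.Defs2

/-! The product near the pair of cusps. -/

set_option autoImplicit false

open UpperHalfPlane
open scoped MatrixGroups

noncomputable section

namespace Pool.Agent.Lib.MP_d6ddbd_nt.K

/-- Upper triangular matrices modulo `n`. -/
def tri {n : ℕ} (x : ℕ) (y : ZMod n) (u : ℤ) : Mat (ZMod n) := !![(x : ZMod n), y; 0, (u : ZMod n)]

/-- One term of the logarithm of the product. -/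
def tA {n : ℕ} [NeZero n] (C : Mat (ZMod n) → LaurentSeries ℂ) (z w : ℂ) (x k : ℕ) (u : ℤ) : ℂ :=
  ∑ y : ZMod n, (C (tri x y u)).coeff (-(x * u)) * ee (k * (x * z - u * w + y.val) / n) / k

/-- The terms with `u < 0`. -/
def sB {n : ℕ} [NeZero n] (C : Mat (ZMod n) → LaurentSeries ℂ) (z w : ℂ) : ℂ :=
  ∑' p : (ℕ × ℕ) × ℕ, tA C z w (p.1.1 + 1) (p.1.2 + 1) (-((p.2 : ℤ) + 1))

/-- The terms with `u = 0`. -/
def s0 {n : ℕ} [NeZero n] (C : Mat (ZMod n) → LaurentSeries ℂ) (z : ℂ) : ℂ :=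
  ∑' p : ℕ × ℕ, tA C z 0 (p.1 + 1) (p.2 + 1) 0

/-- The factor that depends on the first variable only. -/
def aF {n : ℕ} [NeZero n] (C : Mat (ZMod n) → LaurentSeries ℂ) (L : ℕ)
    (I : Mat (ZMod n) → ℤ → ℤ) (z : ℂ) : ℂ :=
  Complex.exp (s0 C z) * ∏ p ∈ idx L, ∏ y : ZMod n,
    ee (-(p.1 * z + y.val) / n) ^ I (tri p.1 y p.2) (-(p.1 * p.2))

/-- The product near the pair of cusps, with its poles cleared. -/
def Rc {n : ℕ} [NeZero n] (U : ℍ → ℍ → ℂ) (κ : ℕ) (C : Mat (ZMod n) → LaurentSeries ℂ) (L : ℕ)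
    (I : Mat (ZMod n) → ℤ → ℤ) (z w : ℍ) : ℂ :=
  Complex.exp (-sB C z w) * U z w ^ κ * ∏ p ∈ idx L, ∏ y : ZMod n,
    del n p.1 p.2 y z w ^ (2 * κ + I (tri p.1 y p.2) (-(p.1 * p.2))).toNat

/-- The cusp data of the product of modular polynomials. -/
structure PiC (n : ℕ) [NeZero n] (L : ℕ) (Y B : ℝ) (U : ℍ → ℍ → ℂ) : Prop where
  symm : ∀ z w, U z w = U w z
  diff : ∀ z : ℍ, Y < z.im → DifferentiableOn ℂ (U z ∘ ofComplex) {t : ℂ | Y < t.im}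
  per : ∀ z w : ℍ, U z (ModularGroup.T • w) = U z w
  one : 1 ≤ Y
  bd : ∀ z w : ℍ, Y < z.im → Y < w.im → ‖U z w‖ ≤ B
  eq : ∀ z w : ℍ, Y < z.im → Y < w.im →
    Pi1 L z w = U z w * ∏ p ∈ idx L, ∏ y : ZMod n, del n p.1 p.2 y z w ^ 2

/-- The multiplicities. -/
def mu (n κ : ℕ) (I : Mat (ZMod n) → ℤ → ℤ) (α : Mat ℤ) : ℕ :=
  if 0 < α.det then (2 * κ + I (red n α) (-α.det)).toNat else 0

end Pool.Agent.Lib.MP_d6ddbd_nt.K
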