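import Mathlib
import Pool.Agent.Lib.MP_d6ddbd_nt.K.QE1
import Pool.Agent.Lib.MP_d6ddbd_nt.K.Defs3

set_option autoImplicit false

open UpperHalfPlane
open scoped MatrixGroups

noncomputable section

namespace Pool.Agent.Lib.MP_d6ddbd_nt.K

variable {n : ℕ} [NeZero n] {F : Mat (ZMod n) → ℍ → ℂ} {C : Mat (ZMod n) → LaurentSeries ℂ}
  {L : ℕ} {I : Mat (ZMod n) → ℤ → ℤ}

namespace Ext3Aux

theorem n_pos : (0 : ℝ) < n := Nat.cast_pos.2 (NeZero.pos n)

theorem n_ne : (n : ℂ) ≠ 0 := Nat.cast_ne_zero.2 (NeZero.ne n)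

omit [NeZero n] in
theorem norm_ee' (k x : ℕ) (u : ℤ) (z w : ℂ) (y : ℕ) :
    ‖ee (k * (x * z - u * w + y) / n)‖ =
      Real.exp (-(2 * Real.pi * (k * (x * z.im - u * w.im) / n))) := by
  rw [norm_ee]
  congr 3
  rw [Complex.div_natCast_im]
  simp

theorem tA_le {x k : ℕ} (hk : 0 < k) {u : ℤ} {z w : ℂ} {a b : ℝ}
    (ha : ∀ y : ZMod n, ‖(C (tri x y u)).coeff (-(x * u))‖ ≤ a)
    (hb : -(2 * Real.pi * (k * (x * z.im - u * w.im) / n)) ≤ b) :
    ‖tA C z w x k u‖ ≤ n * a * Real.exp b := by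
  unfold tA
  refine (norm_sum_le _ _).trans ?_
  have : ∀ y : ZMod n, ‖(C (tri x y u)).coeff (-(x * u)) *
      ee (k * (x * z - u * w + y.val) / n) / k‖ ≤ a * Real.exp b := by
    intro y
    rw [norm_div, norm_mul, norm_ee', Complex.norm_natCast]
    have h1 : (1 : ℝ) ≤ k := Nat.one_le_cast.2 hk
    refine (div_le_self (by positivity) h1).trans ?_
    exact mul_le_mul (ha y) (Real.exp_le_exp.2 hb) (Real.exp_pos _).le
      ((norm_nonneg _).trans (ha y))
  refine (Finset.sum_le_sum fun y _ => this y).trans ?_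
  simp [mul_assoc]

theorem tA_diff (C : Mat (ZMod n) → LaurentSeries ℂ) (x k : ℕ) (u : ℤ) {f g : ℂ → ℂ}
    (hf : Differentiable ℂ f) (hg : Differentiable ℂ g) :
    Differentiable ℂ fun t => tA C (f t) (g t) x k u := by
  unfold tA ee
  fun_prop

/-- The majorant. -/
def mj (i : ℕ) : ℝ := Real.exp (-((i : ℝ) + 1))

theorem mj_sum : Summable mj := by
  have := (summable_nat_add_iff 1).2 Real.summable_exp_neg_nat
  refine this.congr fun i => ?_
  simp [mj]

theorem mj_pos (i : ℕ) : 0 ≤ mj i := (Real.exp_pos _).le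

theorem mj_sum2 : Summable fun p : ℕ × ℕ => mj p.1 * mj p.2 :=
  mj_sum.mul_of_nonneg mj_sum mj_pos mj_pos

theorem mj_sum3 : Summable fun p : (ℕ × ℕ) × ℕ => mj p.1.1 * mj p.1.2 * mj p.2 :=
  mj_sum2.mul_of_nonneg mj_sum (fun _ => mul_nonneg (mj_pos _) (mj_pos _)) mj_pos

theorem bd0 (C : Mat (ZMod n) → LaurentSeries ℂ) : ∃ A : ℝ, ∀ z w : ℂ, n < z.im →
    ∀ p : ℕ × ℕ, ‖tA C z w (p.1 + 1) (p.2 + 1) 0‖ ≤ A * (mj p.1 * mj p.2) := by
  have hn := n_pos (n := n)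
  refine ⟨n * ∑ α, ‖(C α).coeff 0‖, ?_⟩
  rintro z w hz ⟨x, k⟩
  have h1 := tA_le (C := C) (x := x + 1) (k := k + 1) k.succ_pos (u := 0) (z := z)
    (w := w) (a := ∑ α, ‖(C α).coeff 0‖) (b := -(x + 1) - (k + 1)) (fun y => by
      rw [mul_zero, neg_zero]
      exact Finset.single_le_sum (f := fun α => ‖(C α).coeff 0‖) (fun _ _ => norm_nonneg _)
        (Finset.mem_univ _)) (by
      push_cast
      have a0 : (0 : ℝ) ≤ x := Nat.cast_nonneg x
      have a1 : (0 : ℝ) ≤ k := Nat.cast_nonneg k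
      have a3 : x + 1 ≤ ((x + 1) * z.im - 0 * w.im) / n := by
        rw [le_div_iff₀ hn]; nlinarith
      have a5 := Real.pi_gt_three
      rw [mul_div_assoc]
      generalize (((x : ℝ) + 1) * z.im - 0 * w.im) / n = s at a3
      have a7 : 0 ≤ k * (s - 1) := mul_nonneg a1 (by linarith)
      have a8 : 0 ≤ (k + 1) * s := by nlinarith
      nlinarith)
  refine h1.trans (le_of_eq ?_)
  simp only [mj]
  rw [← Real.exp_add]
  congr 2

theorem regroup {f : ℕ → ℕ → ℂ} {l : ℂ} (h : HasSum (fun p : ℕ × ℕ => f (p.1 + 1) (p.2 + 1)) l) :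
    HasSum (fun m : ℕ => ∑ q ∈ (m + 1).divisorsAntidiagonal, f q.2 q.1) l := by
  have := h.tsum_fiberwise (fun p : ℕ × ℕ => (p.1 + 1) * (p.2 + 1) - 1)
  refine this.congr_fun fun m => ?_
  have e : (fun p : ℕ × ℕ => (p.1 + 1) * (p.2 + 1) - 1) ⁻¹' {m} =
      ((m + 1).divisorsAntidiagonal.image (fun q => (q.2 - 1, q.1 - 1)) : Finset (ℕ × ℕ)) := by
    ext ⟨x, k⟩
    simp only [Set.mem_preimage, Set.mem_singleton_iff, Finset.coe_image, Set.mem_image,
      Finset.mem_coe, Nat.mem_divisorsAntidiagonal, Prod.mk.injEq]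
    constructor
    · intro e
      have : 0 < (x + 1) * (k + 1) := by positivity
      exact ⟨(k + 1, x + 1), ⟨by rw [mul_comm]; simp only; omega, by omega⟩, rfl, rfl⟩
    · rintro ⟨⟨a, b⟩, ⟨e, -⟩, rfl, rfl⟩
      have ha : a ≠ 0 := by rintro rfl; simp at e
      have hb : b ≠ 0 := by rintro rfl; simp at e
      simp only at e ⊢
      rw [Nat.sub_add_cancel (Nat.pos_of_ne_zero ha), Nat.sub_add_cancel (Nat.pos_of_ne_zero hb),
        mul_comm, e]
      rfl
  have pos : ∀ q ∈ (m + 1).divisorsAntidiagonal, 0 < q.1 ∧ 0 < q.2 := fun q hq =>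
    ⟨Nat.pos_of_ne_zero (Nat.left_ne_zero_of_mem_divisorsAntidiagonal hq),
      Nat.pos_of_ne_zero (Nat.right_ne_zero_of_mem_divisorsAntidiagonal hq)⟩
  rw [e, Finset.tsum_subtype' _ (fun p : ℕ × ℕ => f (p.1 + 1) (p.2 + 1)), Finset.sum_image]
  · refine Finset.sum_congr rfl fun q hq => ?_
    simp only
    rw [Nat.sub_add_cancel (pos q hq).1, Nat.sub_add_cancel (pos q hq).2]
  · rintro ⟨a, b⟩ h1 ⟨c, d⟩ h2 e
    have := pos _ h1
    have := pos _ h2
    simp only [Prod.mk.injEq] at *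
    omega

theorem mem_idx {p : ℕ × ℕ} : p ∈ idx L ↔ 0 < p.1 ∧ 0 < p.2 ∧ p.1 * p.2 ≤ L := by
  unfold idx
  simp only [Finset.mem_filter, Finset.mem_product, Finset.mem_Icc]
  exact ⟨fun h => ⟨h.1.1.1, h.1.2.1, h.2⟩, fun h => ⟨⟨⟨h.1, (Nat.le_mul_of_pos_right _ h.2.1).trans
    h.2.2⟩, h.2.1, (Nat.le_mul_of_pos_left _ h.1).trans h.2.2⟩, h.2.2⟩⟩

/-- The terms with `u > 0`. -/
def tD (C : Mat (ZMod n) → LaurentSeries ℂ) (L : ℕ) (z w : ℂ) (x k : ℕ) : ℂ :=
  ∑ q ∈ idx L, if x = q.1 then tA C z w q.1 k q.2 else 0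

theorem tD_sum (h : Inp n F C L I) {x : ℕ} (hx : 0 < x) (k : ℕ) (z w : ℂ) :
    HasSum (fun u : ℕ => tA C z w x k ((u + 1 : ℕ) : ℤ)) (tD C L z w x k) := by
  have h1 : ∀ q ∈ idx L, HasSum (fun u : ℕ => if q = (x, u + 1) then tA C z w q.1 k q.2 else 0)
      (if x = q.1 then tA C z w q.1 k q.2 else 0) := by
    rintro ⟨a, b⟩ hq
    obtain ⟨-, hb, -⟩ := mem_idx.1 hq
    by_cases e : x = a
    · rw [if_pos e]
      refine (hasSum_ite_eq (b - 1) _).congr_fun fun u => ?_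
      refine if_congr ?_ rfl rfl
      simp only [Prod.mk.injEq] at *
      omega
    · rw [if_neg e]
      refine hasSum_zero.congr_fun fun u => ?_
      rw [if_neg fun e' => e (Prod.mk.inj e').1.symm]
  refine (hasSum_sum h1).congr_fun fun u => ?_
  rw [Finset.sum_ite_eq']
  split_ifs with hm
  · rfl
  · refine Finset.sum_eq_zero fun y _ => ?_
    have : ¬ x * (u + 1) ≤ L := fun h' => hm (mem_idx.2 ⟨hx, u.succ_pos, h'⟩)
    rw [h.low _ _ (by
      have := (Nat.cast_lt (α := ℤ)).2 (not_le.1 this)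
      push_cast at this ⊢; linarith)]
    simp

theorem tD_tot (h : Inp n F C L I) (z w : ℂ)
    (hE : ∀ p ∈ idx L, ∀ y : ZMod n, ‖ee ((p.1 * z - p.2 * w + y.val) / n)‖ < 1) :
    HasSum (fun p : ℕ × ℕ => tD C L z w (p.1 + 1) (p.2 + 1))
      (∑ p ∈ idx L, ∑ y : ZMod n, I (tri p.1 y p.2) (-(p.1 * p.2)) *
        -Complex.log (1 - ee ((p.1 * z - p.2 * w + y.val) / n))) := by
  refine hasSum_sum fun q hq => ?_
  obtain ⟨ha, hb, -⟩ := mem_idx.1 hq
  have hi : Function.Injective fun k : ℕ => (q.1 - 1, k) := fun a b e => (Prod.mk.inj e).2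
  rw [← hi.hasSum_iff]
  · have := hasSum_sum (s := Finset.univ) fun (y : ZMod n) _ =>
      (Complex.hasSum_taylorSeries_neg_log' (hE q hq y)).mul_left
        (I (tri q.1 y q.2) (-(q.1 * q.2)) : ℂ)
    refine this.congr_fun fun k => ?_
    simp only [Function.comp]
    rw [if_pos (by omega)]
    refine Finset.sum_congr rfl fun y _ => ?_
    rw [h.int _ _ (by have := Nat.mul_pos ha hb; omega), ← ee_nmul]
    push_cast
    rw [mul_div_assoc, mul_div_assoc]
  · rintro ⟨a, b⟩ hab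
    rw [if_neg]
    intro e
    exact hab ⟨b, by simp only at e ⊢; rw [← e]; rfl⟩

omit [NeZero n] in
theorem adj_tri (x u : ℕ) (y : ZMod n) : (tri x y u).adjugate = tri u (-y) x := by
  simp [tri, Matrix.adjugate_fin_two]

omit [NeZero n] in
theorem adj_tri' (x v : ℕ) (y : ZMod n) :
    (tri (x + 1) y (-((v : ℤ) + 1))).adjugate = -tri (v + 1) y (-((x : ℤ) + 1)) := by
  simp [tri, Matrix.adjugate_fin_two]

theorem del_swap (x u : ℕ) (y : ZMod n) (z w : ℍ) :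
    del n x u y z w = -ee (-(y.val : ℂ) / n) * del n u x (-y) w z := by
  obtain ⟨j, hj⟩ : (n : ℤ) ∣ (y.val : ℤ) + (-y).val := by
    rw [← ZMod.intCast_zmod_eq_zero_iff_dvd]; simp
  have hj' : (y.val : ℂ) + (-y).val = n * j := by exact_mod_cast hj
  have hn := n_ne (n := n)
  unfold del
  rw [mul_sub, neg_mul, neg_mul, ← ee_add, ← ee_add]
  have e1 : -(y.val : ℂ) / n + -(u * (w : ℂ) + (-y).val) / n = -(u * (w : ℂ)) / n + (-j : ℤ) := by
    push_cast; field_simp; linear_combination -hj'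
  have e2 : -(y.val : ℂ) / n + -(x * (z : ℂ)) / n = -(x * (z : ℂ) + y.val) / n := by ring
  rw [e1, e2, ee_add, ee_int]
  ring

theorem tA_per (C : Mat (ZMod n) → LaurentSeries ℂ) (z w : ℂ) (x k : ℕ) (u : ℤ) :
    tA C (n + z) w x k u = tA C z w x k u := by
  refine Finset.sum_congr rfl fun y _ => ?_
  have hn := n_ne (n := n)
  have e : k * (x * (n + z) - u * w + y.val) / n =
      k * (x * z - u * w + y.val) / n + ((k * x : ℤ) : ℂ) := by
    push_cast; field_simp; ring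
  rw [e, ee_add, ee_int, mul_one]

end Ext3Aux

end Pool.Agent.Lib.MP_d6ddbd_nt.K
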