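import Mathlib
import Pool.Agent.Lib.MP_d6ddbd_nt.K.Defs

/-!
Finite Fourier analysis on two by two matrices modulo `n`.
-/

set_option autoImplicit false

noncomputable section

namespace Pool.Agent.Lib.MP_d6ddbd_nt.K.Wl

variable {n : ℕ} [NeZero n]

/-- The pointwise form of the transform `pf`. -/
def pf0 (φ : Mat (ZMod n) → ℂ) (B : Mat (ZMod n)) : ℂ :=
  ∑ y : ZMod n, ∑ u : ZMod n,
    ZMod.stdAddChar (B 0 0 * y + B 0 1 * u) * φ !![B 1 1, y; -B 1 0, u]

theorem pf_eq (F : Mat (ZMod n) → UpperHalfPlane → ℂ) (B : Mat (ZMod n)) (τ : UpperHalfPlane) :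
    pf F B τ = pf0 (fun α => F α τ) B := rfl

theorem orth (b : ZMod n) :
    ∑ x : ZMod n, ZMod.stdAddChar (x * b) = if b = 0 then (n : ℂ) else 0 := by
  rw [AddChar.sum_mulShift b (ZMod.isPrimitive_stdAddChar n), ZMod.card]
  split_ifs <;> simp

/-- Orthogonality against an arbitrary function. -/
theorem orth_sum (a : ZMod n) (Φ : ZMod n → ℂ) :
    ∑ x : ZMod n, ∑ t : ZMod n, ZMod.stdAddChar (x * (t - a)) * Φ t = n * Φ a := by
  rw [Finset.sum_comm]
  have : ∀ t : ZMod n, ∑ x : ZMod n, ZMod.stdAddChar (x * (t - a)) * Φ t =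
      if t = a then (n : ℂ) * Φ t else 0 := by
    intro t
    rw [← Finset.sum_mul, orth]
    by_cases h : t = a
    · simp [h]
    · simp [h, sub_eq_zero]
  simp [this]

theorem orth_sum2 (a b : ZMod n) (Φ : ZMod n → ZMod n → ℂ) :
    ∑ x : ZMod n, ∑ y : ZMod n, ∑ s : ZMod n, ∑ t : ZMod n,
      ZMod.stdAddChar (x * (s - a) + y * (t - b)) * Φ s t = (n : ℂ) ^ 2 * Φ a b := by
  have h1 : ∀ x : ZMod n, ∑ y : ZMod n, ∑ s : ZMod n, ∑ t : ZMod n,
      ZMod.stdAddChar (x * (s - a) + y * (t - b)) * Φ s t =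
      ∑ s : ZMod n, ZMod.stdAddChar (x * (s - a)) * (n * Φ s b) := by
    intro x
    rw [Finset.sum_comm]
    refine Finset.sum_congr rfl fun s _ => ?_
    rw [← orth_sum b (Φ s), Finset.mul_sum]
    refine Finset.sum_congr rfl fun y _ => ?_
    rw [Finset.mul_sum]
    refine Finset.sum_congr rfl fun t _ => ?_
    rw [AddChar.map_add_eq_mul, mul_assoc]
  simp_rw [h1]
  rw [orth_sum a fun s => n * Φ s b]
  ring

/-- Matrices as quadruples. -/
def matEquiv (R : Type) : (R × R × R × R) ≃ Mat R where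
  toFun p := !![p.1, p.2.1; p.2.2.1, p.2.2.2]
  invFun A := (A 0 0, A 0 1, A 1 0, A 1 1)
  left_inv _ := rfl
  right_inv A := by
    ext i j
    fin_cases i <;> fin_cases j <;> rfl

theorem sum_mat (Φ : Mat (ZMod n) → ℂ) : ∑ β, Φ β =
    ∑ a : ZMod n, ∑ b : ZMod n, ∑ c : ZMod n, ∑ d : ZMod n, Φ !![a, b; c, d] := by
  rw [← (matEquiv (ZMod n)).sum_comp]
  simp only [Fintype.sum_prod_type]
  rfl

theorem pf0_T (φ : Mat (ZMod n) → ℂ) (B : Mat (ZMod n)) :
    pf0 (fun α => ZMod.stdAddChar (-α.det) * φ α) (!![1, 1; 0, 1] * B) = pf0 φ B := by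
  unfold pf0
  refine Finset.sum_congr rfl fun y _ => Finset.sum_congr rfl fun u _ => ?_
  simp only [Matrix.mul_apply, Fin.sum_univ_two, Matrix.det_fin_two, Matrix.of_apply,
    Matrix.cons_val', Matrix.cons_val_zero, Matrix.cons_val_one, Matrix.cons_val_fin_one,
    one_mul, zero_mul, zero_add]
  rw [← mul_assoc, ← AddChar.map_add_eq_mul]
  congr 2
  ring

theorem pf0_S (φ : Mat (ZMod n) → ℂ) (B : Mat (ZMod n)) :
    pf0 (fun α => ∑ β, ZMod.stdAddChar (pol α β) * φ β) (!![0, -1; 1, 0] * B) =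
      (n : ℂ) ^ 2 * pf0 φ B := by
  have key := orth_sum2 (-B 1 0) (B 1 1) fun c a => ∑ b : ZMod n, ∑ d : ZMod n,
    ZMod.stdAddChar (B 0 0 * b + B 0 1 * d) * φ !![a, b; c, d]
  unfold pf0
  rw [← key, ← Equiv.sum_comp (Equiv.neg (ZMod n))]
  refine Finset.sum_congr rfl fun y _ => Finset.sum_congr rfl fun u _ => ?_
  beta_reduce
  rw [sum_mat, Finset.mul_sum, Finset.sum_comm]
  refine Finset.sum_congr rfl fun a _ => ?_
  rw [Finset.sum_comm, Finset.mul_sum]
  refine Finset.sum_congr rfl fun c _ => ?_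
  rw [Finset.mul_sum, Finset.mul_sum]
  refine Finset.sum_congr rfl fun b _ => ?_
  rw [Finset.mul_sum, Finset.mul_sum]
  refine Finset.sum_congr rfl fun d _ => ?_
  rw [← mul_assoc, ← mul_assoc, ← AddChar.map_add_eq_mul, ← AddChar.map_add_eq_mul]
  congr 2
  simp only [pol, Matrix.mul_apply, Fin.sum_univ_two, Matrix.of_apply,
    Matrix.cons_val', Matrix.cons_val_zero, Matrix.cons_val_one, Matrix.cons_val_fin_one,
    Equiv.neg_apply]
  ring

theorem pf0_smul (a : ℂ) (φ : Mat (ZMod n) → ℂ) (B : Mat (ZMod n)) :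
    pf0 (fun α => a * φ α) B = a * pf0 φ B := by
  unfold pf0
  rw [Finset.mul_sum]
  refine Finset.sum_congr rfl fun y _ => ?_
  rw [Finset.mul_sum]
  refine Finset.sum_congr rfl fun u _ => ?_
  ring

theorem pf0_inv (φ : Mat (ZMod n) → ℂ) (α : Mat (ZMod n)) :
    φ α = ((n : ℂ) ^ 2)⁻¹ * ∑ k : ZMod n, ∑ l : ZMod n,
      ZMod.stdAddChar (-(k * α 0 1 + l * α 1 1)) * pf0 φ !![k, l; -α 1 0, α 0 0] := by
  have hn : (n : ℂ) ≠ 0 := Nat.cast_ne_zero.2 (NeZero.ne n)
  have key := orth_sum2 (α 0 1) (α 1 1) fun y u => φ !![α 0 0, y; α 1 0, u]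
  have e : !![α 0 0, α 0 1; α 1 0, α 1 1] = α := (Matrix.eta_fin_two α).symm
  rw [e] at key
  rw [eq_inv_mul_iff_mul_eq₀ (pow_ne_zero 2 hn), ← key]
  refine Finset.sum_congr rfl fun k _ => Finset.sum_congr rfl fun l _ => ?_
  unfold pf0
  rw [Finset.mul_sum]
  refine Finset.sum_congr rfl fun y _ => ?_
  rw [Finset.mul_sum]
  refine Finset.sum_congr rfl fun u _ => ?_
  rw [← mul_assoc, ← AddChar.map_add_eq_mul]
  simp only [Matrix.of_apply, Matrix.cons_val', Matrix.cons_val_zero, Matrix.cons_val_one,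
    Matrix.cons_val_fin_one, neg_neg]
  congr 2
  ring

theorem pf0_inj {φ ψ : Mat (ZMod n) → ℂ} (h : ∀ B, pf0 φ B = pf0 ψ B) (α : Mat (ZMod n)) :
    φ α = ψ α := by
  rw [pf0_inv φ α, pf0_inv ψ α]
  simp_rw [h]

theorem pf0_left (φ : Mat (ZMod n) → ℂ) (g B : Mat (ZMod n)) (hg : g.det = 1) :
    pf0 (fun α => φ (g * α)) B = pf0 φ (B * g.adjugate) := by
  rw [Matrix.det_fin_two] at hg
  let e : (ZMod n × ZMod n) ≃ (ZMod n × ZMod n) :=
    { toFun := fun p => (g 0 0 * p.1 + g 0 1 * p.2, g 1 0 * p.1 + g 1 1 * p.2)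
      invFun := fun p => (g 1 1 * p.1 - g 0 1 * p.2, -g 1 0 * p.1 + g 0 0 * p.2)
      left_inv := fun p => by
        ext
        · show g 1 1 * _ - g 0 1 * _ = p.1
          linear_combination p.1 * hg
        · show -g 1 0 * _ + g 0 0 * _ = p.2
          linear_combination p.2 * hg
      right_inv := fun p => by
        ext
        · show g 0 0 * _ + g 0 1 * _ = p.1
          linear_combination p.1 * hg
        · show g 1 0 * _ + g 1 1 * _ = p.2
          linear_combination p.2 * hg }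
  unfold pf0
  rw [← Fintype.sum_prod_type', ← Fintype.sum_prod_type', ← e.sum_comp (fun p : ZMod n × ZMod n =>
    ZMod.stdAddChar ((B * g.adjugate) 0 0 * p.1 + (B * g.adjugate) 0 1 * p.2) *
      φ !![(B * g.adjugate) 1 1, p.1; -(B * g.adjugate) 1 0, p.2])]
  refine Finset.sum_congr rfl fun p _ => ?_
  beta_reduce
  congr 2
  · simp only [e, Matrix.adjugate_fin_two, Matrix.mul_apply, Fin.sum_univ_two, Matrix.of_apply,
      Matrix.cons_val', Matrix.cons_val_zero, Matrix.cons_val_one, Matrix.cons_val_fin_one,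
      Equiv.coe_fn_mk]
    linear_combination (-(B 0 0 * p.1 + B 0 1 * p.2)) * hg
  · ext i j
    fin_cases i <;> fin_cases j <;>
      simp [e, Matrix.adjugate_fin_two, Matrix.mul_apply, Fin.sum_univ_two] <;> ring

end Pool.Agent.Lib.MP_d6ddbd_nt.K.Wl
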