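import Mathlib
import Pool.Agent.Lib.MP_d6ddbd_nt.K.QE
import Pool.Agent.Lib.MP_d6ddbd_nt.K.Defs2
import Pool.Agent.Lib.MP_d6ddbd_nt.K.Weil1

set_option autoImplicit false
set_option linter.unusedSectionVars false

open UpperHalfPlane
open scoped MatrixGroups
open Pool.Agent.Lib.MP_9177b7_ag.CM (jH up dn)

noncomputable section

namespace Pool.Agent.Lib.MP_d6ddbd_nt.K

open Wl

variable {n : ℕ} [NeZero n] {F : Mat (ZMod n) → ℍ → ℂ} {C : Mat (ZMod n) → LaurentSeries ℂ}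
  {L : ℕ} {I : Mat (ZMod n) → ℤ → ℤ}

theorem red_mul (A B : Mat ℤ) : red n (A * B) = red n A * red n B := by
  ext i j
  simp [red, Matrix.mul_apply, Fin.sum_univ_two]

theorem red_det (A : Mat ℤ) : (red n A).det = (A.det : ZMod n) := by
  simp [red, Matrix.det_fin_two]

theorem red_gamma {γ : SL(2, ℤ)} (h : γ ∈ CongruenceSubgroup.Gamma n) : red n γ.1 = 1 := by
  obtain ⟨h1, h2, h3, h4⟩ := CongruenceSubgroup.Gamma_mem.1 h
  ext i j
  fin_cases i <;> fin_cases j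
  · simpa [red] using h1
  · simpa [red] using h2
  · simpa [red] using h3
  · simpa [red] using h4

theorem Wl.red_one : red n 1 = 1 := by
  ext i j
  fin_cases i <;> fin_cases j <;> simp [red]

theorem Wl.red_T : red n ModularGroup.T.1 = !![1, 1; 0, 1] := by
  ext i j
  fin_cases i <;> fin_cases j <;> simp [red, ModularGroup.T]

theorem Wl.red_S : red n ModularGroup.S.1 = !![0, -1; 1, 0] := by
  ext i j
  fin_cases i <;> fin_cases j <;> simp [red, ModularGroup.S]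

theorem Wl.red_sl_mul (a b : SL(2, ℤ)) : red n (a * b).1 = red n a.1 * red n b.1 := red_mul _ _

theorem Wl.red_mul_inv (g : SL(2, ℤ)) : red n g.1 * red n (g⁻¹).1 = 1 := by
  rw [← red_sl_mul, mul_inv_cancel]
  exact red_one

theorem Wl.red_inv (g : SL(2, ℤ)) : red n (g⁻¹).1 = (red n g.1).adjugate := by
  ext i j
  fin_cases i <;> fin_cases j <;>
    simp [red, Matrix.SpecialLinearGroup.coe_inv, Matrix.adjugate_fin_two]

theorem Wl.red_neg_one : red n (-1 : SL(2, ℤ)).1 = -1 := by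
  ext i j
  fin_cases i <;> fin_cases j <;> simp [red]

/-- The transformation law up to the scalar `c`. -/
def Wl.Law (F : Mat (ZMod n) → ℍ → ℂ) (γ : SL(2, ℤ)) (c : ℂ) : Prop :=
  ∀ B (τ : ℍ), pf F (red n γ.1 * B) (γ • τ) = c * pf F B τ

theorem Wl.Law.mul {a b : SL(2, ℤ)} {c d : ℂ} (h : Law F a c) (h' : Law F b d) :
    Law F (a * b) (c * d) := by
  intro B τ
  rw [red_sl_mul, mul_assoc, mul_smul, h, h', mul_assoc]

theorem Wl.law_T (h : WL n F) : Law F ModularGroup.T 1 := by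
  intro B τ
  rw [red_T, pf_eq, pf_eq, one_mul, ← pf0_T (fun α => F α τ) B]
  congr 1
  funext α
  exact h.lawT α τ

theorem Wl.law_S (h : WL n F) : Law F ModularGroup.S 1 := by
  obtain ⟨l, hl, hS⟩ := h.lawS
  have hn : (n : ℂ) ≠ 0 := Nat.cast_ne_zero.2 (NeZero.ne n)
  have h1 : Law F ModularGroup.S (l * (n : ℂ) ^ 2) := by
    intro B τ
    rw [red_S, pf_eq, pf_eq, mul_assoc, ← pf0_S (fun α => F α τ) B, ← pf0_smul]
    congr 1
    funext α
    exact hS α τ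
  have hc : l * (n : ℂ) ^ 2 ≠ 0 := mul_ne_zero hl (pow_ne_zero 2 hn)
  set c := l * (n : ℂ) ^ 2
  have h2 := h1.mul (law_T h)
  have h3 := (h2.mul h2).mul h2
  have h4 := h1.mul h1
  have e : ModularGroup.S * ModularGroup.T * (ModularGroup.S * ModularGroup.T) *
      (ModularGroup.S * ModularGroup.T) = ModularGroup.S * ModularGroup.S := by
    decide
  rw [e] at h3
  intro B τ
  have h5 := (h3 B τ).symm.trans (h4 B τ)
  rw [h1 B τ]
  apply mul_left_cancel₀ (mul_ne_zero hc hc)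
  linear_combination h5

theorem WL.pf_smul (h : WL n F) (γ : SL(2, ℤ)) (B : Mat (ZMod n)) (τ : ℍ) :
    pf F (red n γ.1 * B) (γ • τ) = pf F B τ := by
  have key : Law F γ 1 := by
    refine sl_ind (P := fun γ => Law F γ 1) (law_S h) (law_T h) (fun a b ha hb => ?_)
      (fun a ha => ?_) γ
    · simpa using ha.mul hb
    · intro B τ
      have := ha (red n (a⁻¹).1 * B) (a⁻¹ • τ)
      rw [← mul_assoc, red_mul_inv, one_mul, smul_inv_smul, one_mul] at this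
      rw [one_mul, this]
  simpa using key B τ

theorem wl_of_pf (h : ∀ α, Hol (F α))
    (h' : ∀ (γ : SL(2, ℤ)) B (τ : ℍ), pf F (red n γ.1 * B) (γ • τ) = pf F B τ) : WL n F := by
  have hn : (n : ℂ) ≠ 0 := Nat.cast_ne_zero.2 (NeZero.ne n)
  have sur : ∀ (g : SL(2, ℤ)) (B : Mat (ZMod n)), ∃ B', B = red n g.1 * B' := fun g B =>
    ⟨red n (g⁻¹).1 * B, by rw [← mul_assoc, red_mul_inv, one_mul]⟩
  refine ⟨h, fun α τ => ?_, ((n : ℂ) ^ 2)⁻¹, inv_ne_zero (pow_ne_zero 2 hn), fun α τ => ?_⟩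
  · refine pf0_inj (φ := fun α => F α (ModularGroup.T • τ))
      (ψ := fun α => ZMod.stdAddChar (-α.det) * F α τ) (fun B => ?_) α
    obtain ⟨B', rfl⟩ := sur ModularGroup.T B
    rw [← pf_eq, h', red_T, pf0_T, pf_eq]
  · refine pf0_inj (φ := fun α => F α (ModularGroup.S • τ))
      (ψ := fun α => ((n : ℂ) ^ 2)⁻¹ * ∑ β, ZMod.stdAddChar (pol α β) * F β τ) (fun B => ?_) α
    obtain ⟨B', rfl⟩ := sur ModularGroup.S B
    rw [← pf_eq, h', red_S, pf0_smul, pf0_S (fun β => F β τ), pf_eq,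
      inv_mul_cancel_left₀ (pow_ne_zero 2 hn)]

theorem pf_inv (α : Mat (ZMod n)) (τ : ℍ) : F α τ = ((n : ℂ) ^ 2)⁻¹ * ∑ k : ZMod n, ∑ l : ZMod n,
    ZMod.stdAddChar (-(k * α 0 1 + l * α 1 1)) * pf F !![k, l; -α 1 0, α 0 0] τ :=
  pf0_inv (fun α => F α τ) α

theorem pf_left (g : SL(2, ℤ)) (B : Mat (ZMod n)) :
    pf (fun α => F (red n g.1 * α)) B = pf F (B * red n (g⁻¹).1) := by
  funext τ
  rw [pf_eq, pf_eq, red_inv]
  refine pf0_left (fun α => F α τ) _ B ?_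
  rw [red_det, g.2, Int.cast_one]

theorem WL.even (h : WL n F) (α : Mat (ZMod n)) : F (-α) = F α := by
  funext τ
  refine pf0_inj (φ := fun α => F (-α) τ) (ψ := fun α => F α τ) (fun B => ?_) α
  have h1 := congrFun (pf_left (F := F) (-1) B) τ
  have h2 := h.pf_smul (-1) B τ
  rw [ModularGroup.SL_neg_smul, one_smul, red_neg_one, neg_one_mul] at h2
  rw [inv_neg_one, red_neg_one, mul_neg_one] at h1
  simp only [neg_one_mul] at h1
  exact h1.trans h2

theorem Wl.wl_left (h : WL n F) (g : SL(2, ℤ)) : WL n fun α => F (red n g.1 * α) := by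
  refine wl_of_pf (fun α => h.hol _) fun γ B τ => ?_
  rw [pf_left, pf_left, mul_assoc, h.pf_smul]

theorem Inp.left (h : Inp n F C L I) (g : SL(2, ℤ)) : Inp n (fun α => F (red n g.1 * α))
    (fun α => C (red n g.1 * α)) L (fun α => I (red n g.1 * α)) :=
  ⟨wl_left h.wl g, fun _ => h.qe _, fun _ => h.low _, fun _ => h.int _⟩

theorem Wl.adj_adj (α : Mat (ZMod n)) : α.adjugate.adjugate = α := by
  ext i j
  fin_cases i <;> fin_cases j <;> simp [Matrix.adjugate_fin_two]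

theorem Wl.wl_adj (h : WL n F) : WL n fun α => F α.adjugate := by
  obtain ⟨l, hl, hS⟩ := h.lawS
  refine ⟨fun α => h.hol _, fun α τ => ?_, l, hl, fun α τ => ?_⟩
  · rw [h.lawT]
    congr 3
    simp [Matrix.adjugate_fin_two, Matrix.det_fin_two]
    ring
  · rw [hS]
    congr 1
    let e : Mat (ZMod n) ≃ Mat (ZMod n) := ⟨Matrix.adjugate, Matrix.adjugate, adj_adj, adj_adj⟩
    rw [← Equiv.sum_comp e]
    refine Finset.sum_congr rfl fun β _ => ?_
    show ZMod.stdAddChar (pol α.adjugate β.adjugate) * F β.adjugate τ = _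
    congr 2
    simp [pol, Matrix.adjugate_fin_two]
    ring

theorem Inp.adj (h : Inp n F C L I) : Inp n (fun α => F α.adjugate) (fun α => C α.adjugate) L
    (fun α => I α.adjugate) :=
  ⟨wl_adj h.wl, fun _ => h.qe _, fun _ => h.low _, fun _ => h.int _⟩

theorem Inp.neg (h : Inp n F C L I) : Inp n (fun α τ => -F α τ) (fun α => -C α) L
    (fun α N => -I α N) := by
  obtain ⟨l, hl, hS⟩ := h.wl.lawS
  refine ⟨⟨fun α => ?_, fun α τ => ?_, l, hl, fun α τ => ?_⟩, fun α τ => ?_, fun α N hN => ?_,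
    fun α N hN => ?_⟩
  · exact (h.wl.hol α).neg
  · rw [h.wl.lawT, mul_neg]
  · rw [hS]
    simp only [mul_neg, Finset.sum_neg_distrib]
  · simpa using (h.qe α τ).neg
  · simp [h.low α N hN]
  · simp [h.int α N hN]

theorem Inp.evenC (h : Inp n F C L I) (α : Mat (ZMod n)) : C (-α) = C α := by
  have h1 := h.qe (-α)
  rw [h.wl.even] at h1
  exact h1.unique (Nat.pos_of_ne_zero (NeZero.ne n)) (h.qe α)

theorem Inp.evenI (h : Inp n F C L I) (α : Mat (ZMod n)) {N : ℤ} (hN : N < 0) :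
    I (-α) N = I α N := by
  have h1 := h.int (-α) N hN
  rw [h.evenC, h.int α N hN] at h1
  exact_mod_cast h1.symm

theorem Wl.im_smul_le (γ : SL(2, ℤ)) (τ : ℍ) : (γ • τ).im ≤ τ.im + (τ.im)⁻¹ := by
  have hv := τ.im_pos
  have hi : 0 < (τ.im)⁻¹ := inv_pos.2 hv
  rw [ModularGroup.im_smul_eq_div_normSq, ModularGroup.denom_apply]
  have e : Complex.normSq ((γ 1 0 : ℂ) * τ + (γ 1 1 : ℂ)) =
      ((γ 1 0 : ℝ) * τ.re + γ 1 1) ^ 2 + ((γ 1 0 : ℝ) * τ.im) ^ 2 := by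
    simp [Complex.normSq_apply]
    ring
  rw [e]
  by_cases hc : γ 1 0 = 0
  · have hd := γ.det_coe
    rw [Matrix.det_fin_two, hc, mul_zero, sub_zero] at hd
    have hd0 : γ 1 1 ≠ 0 := fun h0 => by simp [h0] at hd
    have h1 : (1 : ℝ) ≤ (γ 1 1 : ℝ) ^ 2 := by
      exact_mod_cast (one_le_sq_iff_one_le_abs _).2 (Int.one_le_abs hd0)
    rw [hc, Int.cast_zero, zero_mul, zero_mul, zero_add]
    have : τ.im / ((γ 1 1 : ℝ) ^ 2 + 0 ^ 2) ≤ τ.im := div_le_self hv.le (by linarith)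
    linarith
  · have h1 : (1 : ℝ) ≤ (γ 1 0 : ℝ) ^ 2 := by
      exact_mod_cast (one_le_sq_iff_one_le_abs _).2 (Int.one_le_abs hc)
    have h2 : τ.im ^ 2 ≤ ((γ 1 0 : ℝ) * τ.re + γ 1 1) ^ 2 + ((γ 1 0 : ℝ) * τ.im) ^ 2 := by
      nlinarith [sq_nonneg ((γ 1 0 : ℝ) * τ.re + γ 1 1), sq_nonneg τ.im]
    have : τ.im / (((γ 1 0 : ℝ) * τ.re + γ 1 1) ^ 2 + ((γ 1 0 : ℝ) * τ.im) ^ 2) ≤ (τ.im)⁻¹ := by
      refine (div_le_div_of_nonneg_left hv.le (by positivity) h2).trans (le_of_eq ?_)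
      field_simp
    linarith

theorem Wl.norm_std (a : ZMod n) : ‖ZMod.stdAddChar a‖ = 1 := by
  rw [ZMod.stdAddChar_apply, Circle.norm_coe]

theorem Wl.norm_sum2_le (a : ZMod n → ZMod n → ZMod n) (Φ : ZMod n → ZMod n → ℂ) {M : ℝ}
    (h : ∀ y u, ‖Φ y u‖ ≤ M) :
    ‖∑ y, ∑ u, ZMod.stdAddChar (a y u) * Φ y u‖ ≤ (n : ℝ) ^ 2 * M := by
  have h1 : ∀ y, ‖∑ u, ZMod.stdAddChar (a y u) * Φ y u‖ ≤ n * M := by
    intro y
    refine (norm_sum_le _ _).trans ?_
    refine (Finset.sum_le_sum (g := fun _ => M) fun u _ => ?_).trans (le_of_eq ?_)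
    · rw [norm_mul, norm_std, one_mul]
      exact h y u
    · simp [ZMod.card]
  refine (norm_sum_le _ _).trans ?_
  refine (Finset.sum_le_sum fun y _ => h1 y).trans (le_of_eq ?_)
  simp [ZMod.card]
  ring

theorem Inp.pf_bound (h : Inp n F C L I) : ∃ c : ℝ, 0 ≤ c ∧ ∀ B (τ : ℍ),
    ‖pf F B τ‖ ≤ c * Real.exp (c * (τ.im + (τ.im)⁻¹)) := by
  have hn : 0 < n := Nat.pos_of_ne_zero (NeZero.ne n)
  have hn1 : (1 : ℝ) ≤ n := by exact_mod_cast hn
  choose c hc using fun α => (h.qe α).bound hn (N₀ := -(L : ℤ)) (h.low α) (y := 1 / 2) (by norm_num)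
  set M : ℝ := ∑ α, |c α| with hM
  have hM0 : 0 ≤ M := Finset.sum_nonneg fun α _ => abs_nonneg _
  have hcM : ∀ α, c α ≤ M := fun α => (le_abs_self _).trans
    (Finset.single_le_sum (f := fun α => |c α|) (fun α _ => abs_nonneg _) (Finset.mem_univ α))
  have hK : 0 ≤ 2 * Real.pi * L := by positivity
  have hA : 0 ≤ (n : ℝ) ^ 2 * M := by positivity
  refine ⟨(n : ℝ) ^ 2 * M + 2 * Real.pi * L, by positivity, fun B τ => ?_⟩
  obtain ⟨γ, hγ⟩ := ModularGroup.exists_one_half_le_im_smul τ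
  have ht : 0 ≤ τ.im + (τ.im)⁻¹ := by have := τ.im_pos; positivity
  have hb : ∀ α, ‖F α (γ • τ)‖ ≤
      M * Real.exp (((n : ℝ) ^ 2 * M + 2 * Real.pi * L) * (τ.im + (τ.im)⁻¹)) := by
    intro α
    refine (hc α _ hγ).trans (mul_le_mul (hcM α) (Real.exp_le_exp.2 ?_) (Real.exp_pos _).le hM0)
    have e : -(2 * Real.pi * ((-(L : ℤ) : ℤ) : ℝ) * (γ • τ).im / n) =
        2 * Real.pi * L * (γ • τ).im / n := by
      push_cast
      ring
    rw [e]
    have h1 : 2 * Real.pi * L * (γ • τ).im / n ≤ 2 * Real.pi * L * (γ • τ).im :=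
      div_le_self (mul_nonneg hK (γ • τ).im_pos.le) hn1
    have h2 := mul_le_mul_of_nonneg_left (im_smul_le γ τ) hK
    nlinarith [mul_nonneg hA ht]
  rw [← h.wl.pf_smul γ B τ]
  refine (norm_sum2_le _ _ fun y u => hb _).trans ?_
  rw [← mul_assoc]
  exact mul_le_mul_of_nonneg_right (by linarith) (Real.exp_pos _).le

theorem Inp.coeff_bound (h : Inp n F C L I) : ∃ c : ℝ, 0 ≤ c ∧ ∀ α (x v : ℕ), 0 < x → 0 < v →
    ‖(C α).coeff (x * v)‖ ≤ c * Real.exp (c * (x + v)) := by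
  have hn : 0 < n := Nat.pos_of_ne_zero (NeZero.ne n)
  have hn1 : (1 : ℝ) ≤ n := by exact_mod_cast hn
  obtain ⟨c, hc0, hc⟩ := h.pf_bound
  have hF : ∀ α (τ : ℍ), ‖F α τ‖ ≤ c * Real.exp (c * (τ.im + (τ.im)⁻¹)) := by
    intro α τ
    rw [pf_inv (F := F) α τ, norm_mul, norm_inv, norm_pow, Complex.norm_natCast,
      inv_mul_le_iff₀ (by positivity)]
    exact norm_sum2_le _ _ fun k l => hc _ τ
  have hpi := Real.pi_pos
  refine ⟨2 * c + 2 * Real.pi, by positivity, fun α x v hx hv => ?_⟩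
  have hx1 : (1 : ℝ) ≤ x := by exact_mod_cast hx
  have hv1 : (1 : ℝ) ≤ v := by exact_mod_cast hv
  have hs : (0 : ℝ) < x + v := by linarith
  have h1 := (h.qe α).coeff_bound hn (s := ((x : ℝ) + v)⁻¹)
    (M := c * Real.exp (c * (((x : ℝ) + v)⁻¹ + (x + v)))) (inv_pos.2 hs)
    (fun τ hτ => by have := hF α τ; rwa [hτ, inv_inv] at this) (x * v)
  refine h1.trans ?_
  rw [mul_assoc, ← Real.exp_add]
  refine mul_le_mul (by linarith) (Real.exp_le_exp.2 ?_) (Real.exp_pos _).le (by positivity)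
  have h2 : ((x : ℝ) + v)⁻¹ ≤ x + v := (inv_le_one_of_one_le₀ (by linarith)).trans (by linarith)
  have h3 : (x : ℝ) * v * ((x : ℝ) + v)⁻¹ ≤ x + v := by
    rw [← div_eq_mul_inv, div_le_iff₀ hs]
    nlinarith
  have h4 : 2 * Real.pi * (((x : ℤ) * (v : ℤ) : ℤ) : ℝ) * ((x : ℝ) + v)⁻¹ / n ≤
      2 * Real.pi * (x + v) := by
    refine (div_le_self (by positivity) hn1).trans ?_
    push_cast
    rw [mul_assoc]
    exact mul_le_mul_of_nonneg_left h3 (by positivity)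
  nlinarith [mul_le_mul_of_nonneg_left h2 hc0]

end Pool.Agent.Lib.MP_d6ddbd_nt.K
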