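import Mathlib
import Pool.Agent.Lib.MP_d6ddbd_nt.K.Weil
import Pool.Agent.Lib.MP_d6ddbd_nt.K.Hec

set_option autoImplicit false

open UpperHalfPlane
open scoped MatrixGroups
open Pool.Agent.Lib.MP_9177b7_ag.CM (jH up dn)

noncomputable section

namespace Pool.Agent.Lib.MP_d6ddbd_nt.K

open Wl

variable {n : ℕ} [NeZero n] {F : Mat (ZMod n) → ℍ → ℂ} {C : Mat (ZMod n) → LaurentSeries ℂ}
  {L : ℕ} {I : Mat (ZMod n) → ℤ → ℤ}

theorem Wl.pf_hol (h : WL n F) (B : Mat (ZMod n)) : Hol (pf F B) :=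
  hol_sum _ fun _ _ => hol_sum _ fun _ _ => (hol_const _).mul (h.hol _)

theorem Wl.herm_pos {m : ℕ} {A : Mat ℤ} (h : A ∈ herm m) : 0 < A.det := by
  rcases Nat.eq_zero_or_pos m with rfl | hm
  · simp [herm] at h
  · rw [herm_det h]
    exact_mod_cast hm

theorem psi_hol (h : WL n F) (m : ℕ) : Hol (psi F m) :=
  hol_sum _ fun _ hA => (pf_hol h _).act (herm_pos hA)

theorem psi_smul (h : WL n F) (m : ℕ) (g : SL(2, ℤ)) (z : ℍ) :
    psi F m (g • z) = psi (fun α => F (red n g.1 * α)) m z := by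
  rcases Nat.eq_zero_or_pos m with rfl | hm
  · have e : herm 0 = ∅ := by simp [herm]
    simp [psi, e]
  have one : ∀ γ : SL(2, ℤ), 0 < γ.1.det := fun γ => by
    rw [γ.2]
    exact one_pos
  have key := sum_herm_mul m (fun A => pf F (red n A * red n (g⁻¹).1) (act A z))
    (fun γ A hA => by
      have hA' : 0 < A.det := by
        rw [hA]
        exact_mod_cast hm
      rw [red_mul, mul_assoc, act_mul (one γ) hA', act_sl, h.pf_smul]) g
  unfold psi
  simp_rw [pf_left]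
  rw [← key]
  refine Finset.sum_congr rfl fun A hA => ?_
  rw [red_mul, mul_assoc, red_mul_inv, mul_one, act_mul (herm_pos hA) (one g), act_sl]

theorem Wl.geom {x : ℕ} (hx : 0 < x) (M : ℤ) :
    ∑ l ∈ Finset.range x, ee (l * (M / x)) = if (x : ℤ) ∣ M then (x : ℂ) else 0 := by
  have hx0 : (x : ℂ) ≠ 0 := Nat.cast_ne_zero.2 hx.ne'
  have : NeZero x := ⟨hx.ne'⟩
  simp_rw [ee_nmul]
  split_ifs with hd
  · obtain ⟨M', rfl⟩ := hd
    have e : (((x : ℤ) * M' : ℤ) : ℂ) / x = (M' : ℂ) := by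
      push_cast
      field_simp
    rw [e, ee_int]
    simp
  · have h1 : ee ((M : ℂ) / x) ≠ 1 := by
      rw [← std_int]
      intro h0
      have := (ZMod.isPrimitive_stdAddChar x).zmod_char_eq_one_iff x (M : ZMod x)
      exact hd ((ZMod.intCast_zmod_eq_zero_iff_dvd M x).1 (this.1 h0))
    have h2 : ee ((M : ℂ) / x) ^ x = 1 := by
      rw [← ee_nmul, mul_div_cancel₀ _ hx0, ee_int]
    rw [geom_sum_eq h1, h2, sub_self, zero_div]

theorem Wl.std_val (a : ZMod n) : ZMod.stdAddChar a = ee ((a.val : ℂ) / n) := by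
  have := std_int (n := n) (a.val : ℤ)
  rwa [Int.cast_natCast, Int.cast_natCast, ZMod.natCast_zmod_val] at this

open Classical in
/-- The inner sum over the translates. -/
theorem Wl.inner (h : Inp n F C L I) {k x : ℕ} (hx : 0 < x) (z : ℍ) (y u : ZMod n) (N : ℤ) :
    ∑ l ∈ Finset.range x, ZMod.stdAddChar ((k : ZMod n) * y + (l : ZMod n) * u) *
      ((C !![(x : ZMod n), y; 0, u]).coeff N * ee (N * (((k : ℂ) * z + l) / x) / n)) =
    if ∃ w : ℤ, N = -(x * w) ∧ (w : ZMod n) = u then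
      x * (C !![(x : ZMod n), y; 0, u]).coeff N * ee (k * y.val / n + N * k * z / (x * n))
    else 0 := by
  have hn : 0 < n := Nat.pos_of_ne_zero (NeZero.ne n)
  have hn0 : (n : ℂ) ≠ 0 := Nat.cast_ne_zero.2 hn.ne'
  have hx0 : (x : ℂ) ≠ 0 := Nat.cast_ne_zero.2 hx.ne'
  by_cases hc : (C !![(x : ZMod n), y; 0, u]).coeff N = 0
  · simp [hc]
  have hT : ∀ τ : ℍ, F !![(x : ZMod n), y; 0, u] (ModularGroup.T • τ) =
      ee (((-(x * (u.val : ℤ)) : ℤ) : ℂ) / n) * F !![(x : ZMod n), y; 0, u] τ := by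
    intro τ
    rw [h.wl.lawT, ← std_int]
    congr 2
    simp [Matrix.det_fin_two]
  obtain ⟨M, hM⟩ := (h.qe _).supp hn hT hc
  have hN : N = n * M - x * (u.val : ℤ) := by linarith
  have e : ∀ l : ℕ, ZMod.stdAddChar ((k : ZMod n) * y + (l : ZMod n) * u) *
      ((C !![(x : ZMod n), y; 0, u]).coeff N * ee (N * (((k : ℂ) * z + l) / x) / n)) =
      (C !![(x : ZMod n), y; 0, u]).coeff N * ee (k * y.val / n + N * k * z / (x * n)) *
        ee (l * (M / x)) := by
    intro l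
    have e1 : (k : ZMod n) * y + (l : ZMod n) * u = ((k * y.val + l * u.val : ℤ) : ZMod n) := by
      simp
    rw [e1, std_int, mul_left_comm, ← ee_add, mul_assoc, ← ee_add]
    congr 2
    rw [hN]
    push_cast
    field_simp
    ring
  simp_rw [e]
  rw [← Finset.mul_sum, geom hx]
  have iff : (∃ w : ℤ, N = -(x * w) ∧ (w : ZMod n) = u) ↔ (x : ℤ) ∣ M := by
    constructor
    · rintro ⟨w, hw, hu⟩
      have h1 : (n : ℤ) ∣ (u.val : ℤ) - w := by
        rw [← ZMod.intCast_eq_intCast_iff_dvd_sub, hu, Int.cast_natCast, ZMod.natCast_zmod_val]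
      obtain ⟨t, ht⟩ := h1
      refine ⟨t, mul_left_cancel₀ (a := (n : ℤ)) (by exact_mod_cast hn.ne') ?_⟩
      linear_combination hw - hN + (x : ℤ) * ht
    · rintro ⟨t, rfl⟩
      refine ⟨u.val - n * t, by rw [hN]; ring, by simp⟩
  by_cases hd : (x : ℤ) ∣ M
  · rw [if_pos hd, if_pos (iff.2 hd)]
    ring
  · rw [if_neg hd, if_neg fun h0 => hd (iff.1 h0), mul_zero]

theorem psi_hasSum (h : Inp n F C L I) {k x : ℕ} (hk : 0 < k) (hx : 0 < x) (z : ℍ) :
    HasSum (fun u : ℤ => ∑ y : ZMod n, (x : ℂ) * (C !![(x : ZMod n), y; 0, (u : ZMod n)]).coeff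
        (-(x * u)) * ee (k * ((y.val : ℂ) - u * z) / n))
      (∑ l ∈ Finset.range x, pf F (red n !![(k : ℤ), (l : ℤ); 0, (x : ℤ)])
        (act !![(k : ℤ), (l : ℤ); 0, (x : ℤ)] z)) := by
  classical
  have hn0 : (n : ℂ) ≠ 0 := Nat.cast_ne_zero.2 (NeZero.ne n)
  have hx0 : (x : ℂ) ≠ 0 := Nat.cast_ne_zero.2 hx.ne'
  have hxz : (x : ℤ) ≠ 0 := by exact_mod_cast hx.ne'
  have hact : ∀ l : ℕ, (act !![(k : ℤ), (l : ℤ); 0, (x : ℤ)] z : ℂ) = ((k : ℂ) * z + l) / x := by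
    intro l
    rw [coe_act (by simp [Matrix.det_fin_two, hk, hx])]
    simp
  have h1 : HasSum (fun N : ℤ => ∑ l ∈ Finset.range x, ∑ y : ZMod n, ∑ u : ZMod n,
      ZMod.stdAddChar ((k : ZMod n) * y + (l : ZMod n) * u) *
        ((C !![(x : ZMod n), y; 0, u]).coeff N * ee (N * (((k : ℂ) * z + l) / x) / n)))
      (∑ l ∈ Finset.range x, pf F (red n !![(k : ℤ), (l : ℤ); 0, (x : ℤ)])
        (act !![(k : ℤ), (l : ℤ); 0, (x : ℤ)] z)) := by
    refine hasSum_sum fun l _ => ?_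
    have e : pf F (red n !![(k : ℤ), (l : ℤ); 0, (x : ℤ)]) (act !![(k : ℤ), (l : ℤ); 0, (x : ℤ)] z) =
        ∑ y : ZMod n, ∑ u : ZMod n, ZMod.stdAddChar ((k : ZMod n) * y + (l : ZMod n) * u) *
          F !![(x : ZMod n), y; 0, u] (act !![(k : ℤ), (l : ℤ); 0, (x : ℤ)] z) := by
      simp [pf, red]
    rw [e]
    refine hasSum_sum fun y _ => hasSum_sum fun u _ => HasSum.mul_left _ ?_
    rw [← hact]
    exact h.qe _ _
  have h2 : ∀ N : ℤ, ∑ l ∈ Finset.range x, ∑ y : ZMod n, ∑ u : ZMod n,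
      ZMod.stdAddChar ((k : ZMod n) * y + (l : ZMod n) * u) *
        ((C !![(x : ZMod n), y; 0, u]).coeff N * ee (N * (((k : ℂ) * z + l) / x) / n)) =
      ∑ y : ZMod n, ∑ u : ZMod n, if ∃ w : ℤ, N = -(x * w) ∧ (w : ZMod n) = u then
        x * (C !![(x : ZMod n), y; 0, u]).coeff N * ee (k * y.val / n + N * k * z / (x * n))
        else 0 := by
    intro N
    rw [Finset.sum_comm]
    refine Finset.sum_congr rfl fun y _ => ?_
    rw [Finset.sum_comm]
    exact Finset.sum_congr rfl fun u _ => inner h hx z y u N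
  simp_rw [h2] at h1
  have inj : Function.Injective fun u : ℤ => -((x : ℤ) * u) := fun a b e =>
    mul_left_cancel₀ hxz (neg_injective e)
  have h3 := (inj.hasSum_iff (fun N hN => by
    refine Finset.sum_eq_zero fun y _ => Finset.sum_eq_zero fun u _ => if_neg ?_
    rintro ⟨w, hw, -⟩
    exact hN ⟨w, hw.symm⟩)).2 h1
  convert h3 using 2 with u
  refine Finset.sum_congr rfl fun y _ => ?_
  rw [Finset.sum_eq_single (u : ZMod n), if_pos ⟨u, rfl, rfl⟩]
  · congr 2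
    push_cast
    field_simp
    ring
  · refine fun b _ hb => if_neg ?_
    rintro ⟨w, hw, rfl⟩
    exact hb (by rw [inj hw])
  · simp

end Pool.Agent.Lib.MP_d6ddbd_nt.K
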