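import Mathlib
import Pool.Agent.Lib.MP_d6ddbd_nt.K.Psi
import Pool.Agent.Lib.MP_d6ddbd_nt.K.Ext3a

set_option autoImplicit false

open UpperHalfPlane
open scoped MatrixGroups

noncomputable section

namespace Pool.Agent.Lib.MP_d6ddbd_nt.K

variable {n : ℕ} [NeZero n] {F : Mat (ZMod n) → ℍ → ℂ} {C : Mat (ZMod n) → LaurentSeries ℂ}
  {L : ℕ} {I : Mat (ZMod n) → ℤ → ℤ}

namespace Ext3Aux

theorem bdB (h : Inp n F C L I) : ∃ Y A : ℝ, n ≤ Y ∧ ∀ z w : ℂ, Y < z.im → Y < w.im →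
    ∀ p : (ℕ × ℕ) × ℕ, ‖tA C z w (p.1.1 + 1) (p.1.2 + 1) (-((p.2 : ℤ) + 1))‖ ≤
      A * (mj p.1.1 * mj p.1.2 * mj p.2) := by
  obtain ⟨c, hc, hC⟩ := h.coeff_bound
  have hn := n_pos (n := n)
  refine ⟨n * (c + 1), n * c, by nlinarith, ?_⟩
  rintro z w hz hw ⟨⟨x, k⟩, v⟩
  have h1 := tA_le (C := C) (x := x + 1) (k := k + 1) k.succ_pos (u := -((v : ℤ) + 1)) (z := z)
    (w := w) (a := c * Real.exp (c * ((x + 1 : ℕ) + (v + 1 : ℕ))))
    (b := -(c + 1) * ((x + 1) + (v + 1)) - (k + 1)) (fun y => by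
      have := hC (tri (x + 1) y (-((v : ℤ) + 1))) (x + 1) (v + 1) x.succ_pos v.succ_pos
      convert this using 3
      push_cast; ring) (by
      push_cast
      have a0 : (0 : ℝ) ≤ x := Nat.cast_nonneg x
      have a1 : (0 : ℝ) ≤ k := Nat.cast_nonneg k
      have a2 : (0 : ℝ) ≤ v := Nat.cast_nonneg v
      have a3 : (c + 1) * ((x + 1) + (v + 1)) ≤ ((x + 1) * z.im - -(v + 1) * w.im) / n := by
        rw [le_div_iff₀ hn]; nlinarith
      have a4 : 1 ≤ (c + 1) * ((x + 1) + (v + 1)) := by nlinarith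
      have a5 := Real.pi_gt_three
      rw [mul_div_assoc]
      generalize (((x : ℝ) + 1) * z.im - -(v + 1) * w.im) / n = s at a3
      have a6 : -(c + 1) * ((x + 1) + (v + 1)) = -((c + 1) * ((x + 1) + (v + 1))) := by ring
      rw [a6]
      generalize (c + 1) * (((x : ℝ) + 1) + (v + 1)) = t at a3 a4
      have a7 : 0 ≤ k * (s - 1) := mul_nonneg a1 (by linarith)
      have a8 : 0 ≤ (k + 1) * s := by nlinarith
      nlinarith)
  refine h1.trans (le_of_eq ?_)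
  simp only [mj]
  rw [← Real.exp_add, ← Real.exp_add, mul_assoc, mul_assoc, ← Real.exp_add, ← mul_assoc]
  congr 2
  push_cast; ring

/-- The sum over `u`. -/
def tT (F : Mat (ZMod n) → ℍ → ℂ) (z : ℂ) (w : ℍ) (x k : ℕ) : ℂ :=
  (∑ l ∈ Finset.range x, pf F (red n !![(k : ℤ), (l : ℤ); 0, (x : ℤ)])
    (act !![(k : ℤ), (l : ℤ); 0, (x : ℤ)] w)) * (ee ((k * x : ℕ) * z / n) / (k * x : ℕ))

theorem tT_sum (h : Inp n F C L I) {k x : ℕ} (hk : 0 < k) (hx : 0 < x) (z : ℂ) (w : ℍ) :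
    HasSum (fun u : ℤ => tA C z w x k u) (tT F z w x k) := by
  refine ((psi_hasSum h hk hx w).mul_right _).congr_fun fun u => ?_
  unfold tA
  rw [Finset.sum_mul]
  refine Finset.sum_congr rfl fun y _ => ?_
  have hk' : (k : ℂ) ≠ 0 := Nat.cast_ne_zero.2 hk.ne'
  have hx' : (x : ℂ) ≠ 0 := Nat.cast_ne_zero.2 hx.ne'
  have e : ee (k * (x * z - u * w + y.val) / n) =
      ee (k * ((y.val : ℂ) - u * w) / n) * ee ((k * x : ℕ) * z / n) := by
    rw [← ee_add]; congr 1; push_cast; ring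
  rw [e]
  unfold tri
  push_cast
  field_simp

theorem tT_psi (F : Mat (ZMod n) → ℍ → ℂ) (z : ℂ) (w : ℍ) (m : ℕ) :
    psi F m w * ee (m * z / n) / m = ∑ q ∈ m.divisorsAntidiagonal, tT F z w q.2 q.1 := by
  unfold psi
  rw [sum_herm, mul_div_assoc, Finset.sum_mul]
  refine Finset.sum_congr rfl fun q hq => ?_
  unfold tT
  rw [(Nat.mem_divisorsAntidiagonal.1 hq).1]

end Ext3Aux

open Ext3Aux

theorem sB_est (h : Inp n F C L I) : ∃ Y B : ℝ, 1 ≤ Y ∧
    (∀ w : ℂ, Y < w.im → DifferentiableOn ℂ (fun z => sB C z w) {t : ℂ | Y < t.im}) ∧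
    (∀ z : ℂ, Y < z.im → DifferentiableOn ℂ (fun w => sB C z w) {t : ℂ | Y < t.im}) ∧
    DifferentiableOn ℂ (s0 C) {t : ℂ | Y < t.im} ∧
    (∀ z w : ℂ, Y < z.im → Y < w.im → ‖sB C z w‖ ≤ B) ∧
    (∀ z : ℂ, Y < z.im → ‖s0 C z‖ ≤ B) ∧
    ∀ z w : ℍ, Y < w.im → Y + L * w.im < z.im → ∃ l : ℂ,
      HasSum (fun m : ℕ => psi F (m + 1) w * ee ((m + 1 : ℕ) * (z : ℂ) / n) / (m + 1 : ℕ)) l ∧
      Complex.exp (-l) = Complex.exp (-sB C z w) * Complex.exp (-s0 C z) *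
        ∏ p ∈ idx L, ∏ y : ZMod n, (1 - ee ((p.1 * (z : ℂ) - p.2 * (w : ℂ) + y.val) / n)) ^
          I (tri p.1 y p.2) (-(p.1 * p.2)) := by
  obtain ⟨Y, A, hY, hA⟩ := bdB h
  obtain ⟨A0, hA0⟩ := bd0 C
  have h1 : (1 : ℝ) ≤ n := Nat.one_le_cast.2 (NeZero.pos n)
  have ho : IsOpen {t : ℂ | Y < t.im} := isOpen_lt continuous_const Complex.continuous_im
  have s3 := mj_sum3.mul_left A
  have s2 := mj_sum2.mul_left A0
  refine ⟨Y, max (∑' p : (ℕ × ℕ) × ℕ, A * (mj p.1.1 * mj p.1.2 * mj p.2))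
    (∑' p : ℕ × ℕ, A0 * (mj p.1 * mj p.2)), h1.trans hY, fun w hw => ?_, fun z hz => ?_, ?_,
    fun z w hz hw => ?_, fun z hz => ?_, fun z w hw hz => ?_⟩
  · exact Complex.differentiableOn_tsum_of_summable_norm s3 (fun p =>
      (tA_diff C _ _ _ differentiable_id (differentiable_const w)).differentiableOn) ho
      fun p z hz => hA z w hz hw p
  · exact Complex.differentiableOn_tsum_of_summable_norm s3 (fun p =>
      (tA_diff C _ _ _ (differentiable_const z) differentiable_id).differentiableOn) ho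
      fun p w hw => hA z w hz hw p
  · exact Complex.differentiableOn_tsum_of_summable_norm s2 (fun p =>
      (tA_diff C _ _ _ differentiable_id (differentiable_const 0)).differentiableOn) ho
      fun p z hz => hA0 z 0 (hY.trans_lt hz) p
  · exact (tsum_of_norm_bounded s3.hasSum (hA z w hz hw)).trans (le_max_left _ _)
  · exact (tsum_of_norm_bounded s2.hasSum (hA0 z 0 (hY.trans_lt hz))).trans (le_max_right _ _)
  have hw0 := w.im_pos
  have hL : 0 ≤ L * w.im := by positivity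
  have hz' : Y < (z : ℂ).im := by rw [coe_im]; linarith
  have hE : ∀ p ∈ idx L, ∀ y : ZMod n,
      ‖ee ((p.1 * (z : ℂ) - p.2 * (w : ℂ) + y.val) / n)‖ < 1 := by
    intro p hp y
    obtain ⟨ha, hb, hab⟩ := mem_idx.1 hp
    have := norm_ee' (n := n) 1 p.1 p.2 z w y.val
    simp only [Nat.cast_one, one_mul, Int.cast_natCast, coe_im] at this
    rw [this, Real.exp_lt_one_iff, neg_lt_zero]
    have a1 : (1 : ℝ) ≤ p.1 := Nat.one_le_cast.2 ha
    have a2 : (p.2 : ℝ) ≤ L := Nat.cast_le.2 ((Nat.le_mul_of_pos_left _ ha).trans hab)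
    have a3 : 0 < p.1 * z.im - p.2 * w.im := by nlinarith [z.im_pos]
    have := Real.pi_pos
    positivity
  have b3 := Summable.of_norm_bounded s3 (hA z w hz' hw)
  have b2 := Summable.of_norm_bounded s2 (hA0 z 0 (hY.trans_lt hz'))
  have c3 := b3.hasSum.prod_fiberwise fun p => (b3.prod_factor p).hasSum
  have tot := (b2.hasSum.add (tD_tot h z w hE)).add c3
  have tot' : HasSum (fun p : ℕ × ℕ => tT F z w (p.1 + 1) (p.2 + 1)) _ :=
    tot.congr_fun fun p => by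
      refine (tT_sum h p.2.succ_pos p.1.succ_pos z w).unique
        (HasSum.of_nat_of_neg_add_one ?_ (b3.prod_factor p).hasSum)
      have := (hasSum_nat_add_iff (f := fun u : ℕ => tA C z w (p.1 + 1) (p.2 + 1) (u : ℤ)) 1).1
        (tD_sum h p.1.succ_pos (p.2 + 1) z w)
      rw [Finset.sum_range_one, add_comm (tD C L z w _ _)] at this
      have e : tA C z 0 (p.1 + 1) (p.2 + 1) 0 = tA C z w (p.1 + 1) (p.2 + 1) ((0 : ℕ) : ℤ) := by
        simp [tA]
      rw [e]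
      exact this
  refine ⟨_, (regroup tot').congr_fun fun m => tT_psi F z w (m + 1), ?_⟩
  rw [neg_add, neg_add, Complex.exp_add, Complex.exp_add, mul_comm, ← mul_assoc]
  congr 1
  rw [← Finset.sum_neg_distrib, Complex.exp_sum]
  refine Finset.prod_congr rfl fun p hp => ?_
  rw [← Finset.sum_neg_distrib, Complex.exp_sum]
  refine Finset.prod_congr rfl fun y _ => ?_
  rw [mul_neg, neg_neg, Complex.exp_int_mul, Complex.exp_log]
  intro e
  have := hE p hp y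
  rw [← sub_eq_zero.1 e] at this
  simp at this

theorem sB_per (C : Mat (ZMod n) → LaurentSeries ℂ) (z w : ℂ) : sB C (n + z) w = sB C z w :=
  tsum_congr fun _ => tA_per C z w _ _ _

theorem s0_per (C : Mat (ZMod n) → LaurentSeries ℂ) (z : ℂ) : s0 C (n + z) = s0 C z :=
  tsum_congr fun _ => tA_per C z 0 _ _ _

theorem sB_adj (h : Inp n F C L I) (z w : ℂ) :
    sB (fun α => C α.adjugate) w z = sB C z w := by
  let e : (ℕ × ℕ) × ℕ ≃ (ℕ × ℕ) × ℕ :=
    ⟨fun p => ((p.2, p.1.2), p.1.1), fun p => ((p.2, p.1.2), p.1.1), fun _ => rfl, fun _ => rfl⟩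
  unfold sB
  rw [← e.tsum_eq]
  refine tsum_congr fun p => Finset.sum_congr rfl fun y _ => ?_
  simp only [e, Equiv.coe_fn_mk]
  rw [adj_tri', h.evenC]
  congr 3 <;> push_cast <;> ring

theorem sB_neg (C : Mat (ZMod n) → LaurentSeries ℂ) (z w : ℂ) :
    sB (fun α => -C α) z w = -sB C z w := by
  unfold sB
  rw [← tsum_neg]
  refine tsum_congr fun p => ?_
  simp [tA, neg_div]

theorem rc_adj (h : Inp n F C L I) {U : ℍ → ℍ → ℂ} (hU : ∀ z w, U z w = U w z) (κ : ℕ) :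
    ∃ c : ℂ, ∀ z w : ℍ, Rc U κ C L I z w =
      c * Rc U κ (fun α => C α.adjugate) L (fun α => I α.adjugate) w z := by
  refine ⟨∏ p ∈ idx L, ∏ y : ZMod n,
    (-ee (-(y.val : ℂ) / n)) ^ (2 * κ + I (tri p.1 y p.2) (-(p.1 * p.2))).toNat, fun z w => ?_⟩
  unfold Rc
  rw [sB_adj h, hU w z, mul_left_comm]
  congr 1
  have e : ∏ p ∈ idx L, ∏ y : ZMod n, del n p.1 p.2 y w z ^
      (2 * κ + I (tri p.1 y p.2).adjugate (-(p.1 * p.2))).toNat = ∏ p ∈ idx L, ∏ y : ZMod n,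
        del n p.2 p.1 (-y) w z ^ (2 * κ + I (tri p.1 y p.2) (-(p.1 * p.2))).toNat := by
    refine Finset.prod_equiv (Equiv.prodComm ℕ ℕ) (fun p => ?_) fun p _ => ?_
    · simp only [mem_idx, Equiv.prodComm_apply, Prod.fst_swap, Prod.snd_swap, mul_comm p.2]
      tauto
    · refine Fintype.prod_equiv (Equiv.neg _) _ _ fun y => ?_
      simp only [Equiv.prodComm_apply, Prod.fst_swap, Prod.snd_swap, Equiv.neg_apply, neg_neg,
        adj_tri, mul_comm (p.2 : ℤ)]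
  rw [e, ← Finset.prod_mul_distrib]
  refine Finset.prod_congr rfl fun p _ => ?_
  rw [← Finset.prod_mul_distrib]
  refine Finset.prod_congr rfl fun y _ => ?_
  rw [del_swap, mul_pow]

end Pool.Agent.Lib.MP_d6ddbd_nt.K
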