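import Mathlib
import Pool.Agent.Lib.MP_d6ddbd_nt.K.Ext2
import Pool.Agent.Lib.MP_d6ddbd_nt.K.Ext3

/-! Growth and regularity of the product near the pair of cusps. -/

set_option autoImplicit false

open UpperHalfPlane
open scoped MatrixGroups

noncomputable section

namespace Pool.Agent.Lib.MP_d6ddbd_nt.K

/-- Exponential growth in both variables. -/
def GB (Y : ℝ) (f : ℍ → ℍ → ℂ) : Prop :=
  ∃ B K : ℝ, 0 ≤ K ∧ ∀ z w : ℍ, Y < z.im → Y < w.im → ‖f z w‖ ≤ B * Real.exp (K * (z.im + w.im))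

variable {Y : ℝ} {f g : ℍ → ℍ → ℂ}

theorem gb_bdd {B : ℝ} (h : ∀ z w : ℍ, Y < z.im → Y < w.im → ‖f z w‖ ≤ B) : GB Y f :=
  ⟨B, 0, le_rfl, fun z w hz hw => by simpa using h z w hz hw⟩

theorem GB.mul (h : GB Y f) (h' : GB Y g) : GB Y fun z w => f z w * g z w := by
  obtain ⟨B, K, hK, h⟩ := h
  obtain ⟨B', K', hK', h'⟩ := h'
  refine ⟨B * B', K + K', by linarith, fun z w hz hw => ?_⟩
  rw [norm_mul, add_mul, Real.exp_add]
  refine (mul_le_mul (h z w hz hw) (h' z w hz hw) (norm_nonneg _)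
    ((norm_nonneg _).trans (h z w hz hw))).trans (le_of_eq (by ring))

theorem GB.sub (h : GB Y f) (h' : GB Y g) : GB Y fun z w => f z w - g z w := by
  obtain ⟨B, K, hK, h⟩ := h
  obtain ⟨B', K', hK', h'⟩ := h'
  refine ⟨|B| + |B'|, K + K', by linarith, fun z w hz hw => ?_⟩
  have hs : 0 ≤ z.im + w.im := by linarith [z.im_pos, w.im_pos]
  have e1 : B * Real.exp (K * (z.im + w.im)) ≤ |B| * Real.exp ((K + K') * (z.im + w.im)) :=
    mul_le_mul (le_abs_self B) (Real.exp_le_exp.2 (by nlinarith)) (Real.exp_pos _).le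
      (abs_nonneg B)
  have e2 : B' * Real.exp (K' * (z.im + w.im)) ≤ |B'| * Real.exp ((K + K') * (z.im + w.im)) :=
    mul_le_mul (le_abs_self B') (Real.exp_le_exp.2 (by nlinarith)) (Real.exp_pos _).le
      (abs_nonneg B')
  have := norm_sub_le (f z w) (g z w)
  linarith [h z w hz hw, h' z w hz hw]

theorem gb_prod {ι : Type} (s : Finset ι) {F : ι → ℍ → ℍ → ℂ} (h : ∀ i ∈ s, GB Y (F i)) :
    GB Y fun z w => ∏ i ∈ s, F i z w := by
  classical
  induction s using Finset.induction_on with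
  | empty => exact gb_bdd (B := 1) fun z w _ _ => by simp
  | insert a s ha ih =>
    simp only [Finset.prod_insert ha]
    exact (h a (Finset.mem_insert_self _ _)).mul
      (ih fun i hi => h i (Finset.mem_insert_of_mem hi))

theorem GB.pow (h : GB Y f) (k : ℕ) : GB Y fun z w => f z w ^ k := by
  simpa using gb_prod (Finset.range k) (F := fun _ => f) fun _ _ => h

theorem gb_ee (Y r s t : ℝ) : GB Y fun z w => ee (r * (z : ℂ) + s * (w : ℂ) + t) := by
  refine ⟨1, 2 * Real.pi * (|r| + |s|), by positivity, fun z w _ _ => ?_⟩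
  rw [norm_ee, one_mul]
  apply Real.exp_le_exp.2
  have e : (r * (z : ℂ) + s * (w : ℂ) + t).im = r * z.im + s * w.im := by simp
  rw [e, mul_assoc (2 * Real.pi), ← mul_neg]
  refine mul_le_mul_of_nonneg_left ?_ (by positivity)
  have h1 := z.im_pos
  have h2 := w.im_pos
  nlinarith [neg_abs_le r, neg_abs_le s, abs_nonneg r, abs_nonneg s]

theorem gb_exp {B : ℝ} (h : ∀ z w : ℍ, Y < z.im → Y < w.im → ‖f z w‖ ≤ B) :
    GB Y fun z w => Complex.exp (f z w) :=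
  gb_bdd (B := Real.exp B) fun z w hz hw => by
    rw [Complex.norm_exp]
    exact Real.exp_le_exp.2 ((Complex.re_le_norm _).trans (h z w hz hw))

theorem gb_del (Y : ℝ) (n x u : ℕ) (y : ZMod n) : GB Y (del n x u y) := by
  have := (gb_ee Y (-(x / n)) 0 (-(y.val / n))).sub (gb_ee Y 0 (-(u / n)) 0)
  convert this using 3 with z w
  rw [del]
  congr 2 <;> push_cast <;> ring

theorem gb_lin (Y : ℝ) (n x : ℕ) (y : ℕ) (k : ℤ) :
    GB Y fun z _ => ee (-(x * (z : ℂ) + y) / n) ^ k := by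
  convert gb_ee Y (-(k * x / n)) 0 (-(k * y / n)) using 3 with z w
  rw [← ee_zmul]
  congr 1; push_cast; ring

theorem diff_ee : Differentiable ℂ ee := by
  unfold ee; fun_prop

/-- Holomorphy on a half plane. -/
def HD (Y : ℝ) (f : ℍ → ℂ) : Prop := DifferentiableOn ℂ (f ∘ ofComplex) {t : ℂ | Y < t.im}

theorem hd_of (hY : 0 ≤ Y) {G : ℂ → ℂ} (h : DifferentiableOn ℂ G {t : ℂ | Y < t.im}) :
    HD Y fun τ => G τ :=
  h.congr fun t ht => by
    have : 0 < t.im := lt_of_le_of_lt hY ht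
    simp [ofComplex_apply_of_im_pos this]

theorem HD.mul {a b : ℍ → ℂ} (h : HD Y a) (h' : HD Y b) : HD Y fun τ => a τ * b τ :=
  DifferentiableOn.mul h h'

theorem HD.pow {a : ℍ → ℂ} (h : HD Y a) (k : ℕ) : HD Y fun τ => a τ ^ k :=
  DifferentiableOn.pow h k

theorem HD.mono {Y' : ℝ} {a : ℍ → ℂ} (h : HD Y a) (hY : Y ≤ Y') : HD Y' a :=
  DifferentiableOn.mono h fun _ ht => lt_of_le_of_lt hY ht

theorem T_pow (n : ℕ) (τ : ℍ) : (n : ℝ) +ᵥ τ = ModularGroup.T ^ n • τ := by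
  have := modular_T_zpow_smul τ n
  rw [zpow_natCast] at this
  rw [this]; simp

theorem T_pow_mem (n : ℕ) : ModularGroup.T ^ n ∈ CongruenceSubgroup.Gamma n := by
  have := CongruenceSubgroup.ModularGroup_T_pow_mem_Gamma n n dvd_rfl
  simpa using this

variable {n : ℕ} [NeZero n] {F : Mat (ZMod n) → ℍ → ℂ} {C : Mat (ZMod n) → LaurentSeries ℂ}
  {L : ℕ} {I : Mat (ZMod n) → ℤ → ℤ}

theorem aF_ne (C : Mat (ZMod n) → LaurentSeries ℂ) (L : ℕ) (I : Mat (ZMod n) → ℤ → ℤ) (z : ℂ) :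
    aF C L I z ≠ 0 :=
  mul_ne_zero (Complex.exp_ne_zero _) (Finset.prod_ne_zero_iff.2 fun _ _ =>
    Finset.prod_ne_zero_iff.2 fun _ _ => zpow_ne_zero _ (ee_ne _))

theorem ee_shift (x : ℕ) (z t : ℂ) : ee (-(x * (n + z) + t) / n) = ee (-(x * z + t) / n) := by
  have hn : (n : ℂ) ≠ 0 := by exact_mod_cast NeZero.ne n
  rw [show -(x * (n + z) + t) / n = ((-x : ℤ) : ℂ) + -(x * z + t) / n by push_cast; field_simp; ring,
    ee_add, ee_int, one_mul]

theorem aF_per (C : Mat (ZMod n) → LaurentSeries ℂ) (L : ℕ) (I : Mat (ZMod n) → ℤ → ℤ) (z : ℂ) :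
    aF C L I (n + z) = aF C L I z := by
  simp only [aF, s0_per, ee_shift]

theorem aF_diff (h : DifferentiableOn ℂ (s0 C) {t : ℂ | Y < t.im}) :
    DifferentiableOn ℂ (aF C L I) {t : ℂ | Y < t.im} := by
  refine h.cexp.mul (DifferentiableOn.fun_finsetProd fun p _ =>
    DifferentiableOn.fun_finsetProd fun y _ => ?_)
  refine DifferentiableOn.zpow ?_ (Or.inl fun _ _ => ee_ne _)
  exact (diff_ee.comp (by fun_prop)).differentiableOn

theorem aF_gb {B : ℝ} (h : ∀ z : ℂ, Y < z.im → ‖s0 C z‖ ≤ B) :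
    (GB Y fun z _ => aF C L I z) ∧ GB Y fun z _ => (aF C L I z)⁻¹ := by
  constructor
  · exact (gb_exp (f := fun z _ => s0 C z) fun z _ hz _ => h z hz).mul
      (gb_prod _ fun p _ => gb_prod _ fun y _ => gb_lin Y n p.1 y.val _)
  · have := (gb_exp (f := fun z _ => -s0 C z) (B := B) fun z _ hz _ => by
        rw [norm_neg]; exact h z hz).mul
      (gb_prod (idx L) fun p _ => gb_prod Finset.univ fun y : ZMod n => fun _ =>
        gb_lin Y n p.1 y.val (-I (tri p.1 y p.2) (-(p.1 * p.2))))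
    convert this using 3 with z w
    simp only [aF, mul_inv, Complex.exp_neg, zpow_neg, Finset.prod_inv_distrib]

theorem rc_gb {B B' : ℝ} {U : ℍ → ℍ → ℂ} (κ : ℕ)
    (h : ∀ z w : ℂ, Y < z.im → Y < w.im → ‖sB C z w‖ ≤ B)
    (h' : ∀ z w : ℍ, Y < z.im → Y < w.im → ‖U z w‖ ≤ B') : GB Y (Rc U κ C L I) :=
  ((gb_exp (f := fun z w => -sB C z w) (B := B) fun z w hz hw => by
    rw [norm_neg]; exact h z w hz hw).mul ((gb_bdd h').pow κ)).mul
    (gb_prod _ fun p _ => gb_prod _ fun y _ => (gb_del Y n p.1 p.2 y).pow _)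

theorem rc_hd (hY : 0 ≤ Y) {U : ℍ → ℍ → ℂ} (κ : ℕ) (w : ℍ)
    (h : DifferentiableOn ℂ (fun z => sB C z w) {t : ℂ | Y < t.im}) (h' : HD Y fun z => U z w) :
    HD Y fun z => Rc U κ C L I z w := by
  refine ((hd_of hY h.neg.cexp).mul (h'.pow κ)).mul ?_
  refine hd_of hY (G := fun z => ∏ p ∈ idx L, ∏ y : ZMod n,
    (ee (-(p.1 * z + y.val) / n) - ee (-(p.2 * (w : ℂ)) / n)) ^
      (2 * κ + I (tri p.1 y p.2) (-(p.1 * p.2))).toNat) ?_
  refine DifferentiableOn.fun_finsetProd fun p _ => DifferentiableOn.fun_finsetProd fun y _ => ?_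
  refine DifferentiableOn.pow (DifferentiableOn.sub_const ?_ _) _
  exact (diff_ee.comp (by fun_prop)).differentiableOn

theorem rc_per {B : ℝ} {U : ℍ → ℍ → ℂ} (hU : PiC n L Y B U) (κ : ℕ) (z w : ℍ) :
    Rc U κ C L I ((n : ℝ) +ᵥ z) w = Rc U κ C L I z w := by
  have e : ∀ k : ℕ, U w (ModularGroup.T ^ k • z) = U w z := fun k => by
    induction k with
    | zero => simp
    | succ k ih => rw [pow_succ', mul_smul, hU.per, ih]
  have e' : U ((n : ℝ) +ᵥ z) w = U z w := by rw [hU.symm, T_pow, e, hU.symm]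
  simp only [Rc, del, e', coe_vadd, Complex.ofReal_natCast, sB_per, ee_shift]

/-- The product in terms of the Hecke sums. -/
theorem rc_eq {B : ℝ} {U : ℍ → ℍ → ℂ} (hU : PiC n L Y B U) (κ : ℕ)
    (hκ : ∀ α (N : ℤ), -(L : ℤ) ≤ N → N < 0 → 0 ≤ 2 * κ + I α N) {z w : ℍ} (hz : Y < z.im)
    (hw : Y < w.im) {l : ℂ}
    (e : Complex.exp (-l) = Complex.exp (-sB C z w) * Complex.exp (-s0 C z) *
        ∏ p ∈ idx L, ∏ y : ZMod n, (1 - ee ((p.1 * (z : ℂ) - p.2 * (w : ℂ) + y.val) / n)) ^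
          I (tri p.1 y p.2) (-(p.1 * p.2)))
    (hne : ∀ p ∈ idx L, ∀ y : ZMod n, 1 - ee ((p.1 * (z : ℂ) - p.2 * (w : ℂ) + y.val) / n) ≠ 0) :
    Rc U κ C L I z w * (aF C L I z)⁻¹ = Complex.exp (-l) * Pi1 L z w ^ κ := by
  rw [e, hU.eq z w hz hw, mul_inv_eq_iff_eq_mul₀ (aF_ne C L I z), Rc, aF, mul_pow,
    ← Finset.prod_pow]
  simp only [← Finset.prod_pow]
  have key : ∏ p ∈ idx L, ∏ y : ZMod n,
      del n p.1 p.2 y z w ^ (2 * κ + I (tri p.1 y p.2) (-(p.1 * p.2))).toNat =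
      (∏ p ∈ idx L, ∏ y : ZMod n, (1 - ee ((p.1 * (z : ℂ) - p.2 * (w : ℂ) + y.val) / n)) ^
          I (tri p.1 y p.2) (-(p.1 * p.2))) *
      (∏ p ∈ idx L, ∏ y : ZMod n, (del n p.1 p.2 y z w ^ 2) ^ κ) *
      ∏ p ∈ idx L, ∏ y : ZMod n,
        ee (-(p.1 * z + y.val) / n) ^ I (tri p.1 y p.2) (-(p.1 * p.2)) := by
    rw [← Finset.prod_mul_distrib, ← Finset.prod_mul_distrib]
    refine Finset.prod_congr rfl fun p hp => ?_
    rw [← Finset.prod_mul_distrib, ← Finset.prod_mul_distrib]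
    refine Finset.prod_congr rfl fun y _ => ?_
    have hp' := hp
    simp only [idx, Finset.mem_filter, Finset.mem_product, Finset.mem_Icc] at hp'
    have h1 : (p.1 : ℤ) * p.2 ≤ L := by exact_mod_cast hp'.2
    have h2 : (0 : ℤ) < p.1 * p.2 := by exact_mod_cast Nat.mul_pos hp'.1.1.1 hp'.1.2.1
    have h3 := hκ (tri p.1 y p.2) (-(p.1 * p.2)) (by linarith) (by linarith)
    have h4 : del n p.1 p.2 y z w = (1 - ee ((p.1 * (z : ℂ) - p.2 * (w : ℂ) + y.val) / n)) *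
        ee (-(p.1 * z + y.val) / n) := by
      rw [del, sub_mul, one_mul, ← ee_add]; congr 2; ring
    have h5 : del n p.1 p.2 y z w ≠ 0 := h4 ▸ mul_ne_zero (hne p hp y) (ee_ne _)
    rw [← zpow_natCast, Int.toNat_of_nonneg h3, zpow_add₀ h5, mul_right_comm, ← mul_zpow, ← h4,
      ← pow_mul, mul_comm]
    norm_cast
  rw [key]
  have : Complex.exp (-s0 C z) * Complex.exp (s0 C z) = 1 := by rw [← Complex.exp_add]; simp
  generalize (∏ p ∈ idx L, ∏ y : ZMod n,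
    (1 - ee ((p.1 * (z : ℂ) - p.2 * (w : ℂ) + y.val) / n)) ^ I (tri p.1 y p.2) (-(p.1 * p.2))) = P1
  generalize (∏ p ∈ idx L, ∏ y : ZMod n, (del n p.1 p.2 y z w ^ 2) ^ κ) = P2
  generalize (∏ p ∈ idx L, ∏ y : ZMod n,
    ee (-(p.1 * z + y.val) / n) ^ I (tri p.1 y p.2) (-(p.1 * p.2))) = P3
  linear_combination (-(Complex.exp (-sB C z w) * U z w ^ κ * P1 * P2 * P3)) * this

end Pool.Agent.Lib.MP_d6ddbd_nt.K
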