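import Mathlib
import Pool.Agent.Lib.MP_d6ddbd_nt.K.Hec

set_option autoImplicit false

open UpperHalfPlane
open scoped MatrixGroups
open Pool.Agent.Lib.MP_9177b7_ag.CM (jH up dn)

noncomputable section

namespace Pool.Agent.Lib.MP_d6ddbd_nt.K

namespace PiAux

open Polynomial

theorem im_pt (a b d : ℝ) (t : ℂ) : (((a : ℂ) * t + b) / d).im = a / d * t.im := by
  rw [Complex.div_ofReal_im, Complex.add_im, Complex.im_ofReal_mul, Complex.ofReal_im]
  ring

theorem norm_ee_lt {t : ℂ} (h : 0 < t.im) : ‖ee t‖ < 1 := by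
  rw [norm_ee, Real.exp_lt_one_iff, neg_lt_zero]
  positivity

theorem exists_J : ∃ J : ℂ → ℂ, DifferentiableOn ℂ J (Metric.ball 0 1) ∧
    ∀ τ : ℍ, jH τ = ee (-τ) + J (ee τ) := by
  obtain ⟨c, hc, -, h1, h2⟩ := qe_j
  have h3 := hc.sub (qe_mono (n := 1) 1 (-1))
  have hp : Function.Periodic ((fun τ : ℍ => jH τ - 1 * ee (((-1 : ℤ) : ℂ) * (τ : ℂ) / (1 : ℕ))) ∘
      ofComplex) ((1 : ℝ) : ℂ) := fun w => by
    by_cases hw : 0 < w.im
    · have h4 : 0 < (w + (1 : ℝ)).im := by simpa using hw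
      have h5 : (⟨w + (1 : ℝ), h4⟩ : ℍ) = ((1 : ℕ) : ℝ) +ᵥ (⟨w, hw⟩ : ℍ) := by
        ext
        simp [add_comm]
      rw [Function.comp_apply, Function.comp_apply, ofComplex_apply_of_im_pos h4,
        ofComplex_apply_of_im_pos hw, h5]
      exact h3.per one_pos _
    · rw [Function.comp_apply, Function.comp_apply,
        ofComplex_apply_eq_of_im_nonpos (w' := w) (by simpa using hw) (not_lt.1 hw)]
  obtain ⟨B, hB⟩ := h3.bound one_pos (N₀ := 0) (fun N hN => by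
    rw [HahnSeries.coeff_sub, HahnSeries.coeff_single]
    split_ifs with h
    · rw [h, h2, sub_self]
    · rw [h1 N (by omega), sub_zero]) one_pos
  refine ⟨_, differentiableOn_cuspFunction_ball one_pos hp (hol_iff.1 (h3.hol one_pos))
    (isBoundedAtImInfty_iff.2 ⟨B, 1, fun z hz => by simpa using hB z hz⟩), fun τ => ?_⟩
  have h4 := eq_cuspFunction τ one_ne_zero hp
  have h5 : Function.Periodic.qParam 1 τ = ee τ := by simp [Function.Periodic.qParam, ee]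
  rw [← h5, h4]
  simp

/-- The unit factor in the difference of two values of `j`. -/
def uu (J : ℂ → ℂ) (q r : ℂ) : ℂ := 1 - q * r * dslope J q r

theorem uu_comm (J : ℂ → ℂ) (q r : ℂ) : uu J q r = uu J r q := by
  by_cases h : q = r
  · rw [h]
  · rw [uu, uu, dslope_of_ne _ h, dslope_of_ne _ (Ne.symm h), slope_comm, mul_comm q]

theorem j_sub {J : ℂ → ℂ} (hJ : ∀ τ : ℍ, jH τ = ee (-τ) + J (ee τ)) (w t : ℍ) :
    jH w - jH t = (ee (-w) - ee (-t)) * uu J (ee w) (ee t) := by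
  have h1 := sub_smul_dslope J (ee w) (ee t)
  have h2 := ee_ne w
  have h3 := ee_ne t
  rw [smul_eq_mul] at h1
  rw [hJ, hJ, uu, ee_neg, ee_neg]
  field_simp
  linear_combination ee w * ee t * h1

theorem hol_uu {J : ℂ → ℂ} (hJ : DifferentiableOn ℂ J (Metric.ball 0 1)) {q : ℂ} (hq : ‖q‖ < 1)
    {g : ℂ → ℂ} (hg : Differentiable ℂ g) (hp : ∀ t, 0 < t.im → 0 < (g t).im) :
    Hol fun τ => uu J q (ee (g τ)) := by
  have h1 : Differentiable ℂ fun t => ee (g t) := by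
    unfold ee
    fun_prop
  have h2 := (Complex.differentiableOn_dslope
    (Metric.isOpen_ball.mem_nhds (mem_ball_zero_iff.2 hq))).2 hJ
  exact hol_of (F := fun t => uu J q (ee (g t))) ((differentiableOn_const 1).sub
    ((h1.differentiableOn.const_mul q).mul (h2.comp h1.differentiableOn
      fun t ht => mem_ball_zero_iff.2 (norm_ee_lt (hp t ht)))))

theorem uu_bound {J : ℂ → ℂ} (hJ : DifferentiableOn ℂ J (Metric.ball 0 1)) : ∃ B : ℝ,
    ∀ s t : ℂ, 1 ≤ s.im → 1 ≤ t.im → ‖uu J (ee s) (ee t)‖ ≤ B := by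
  have hr : Real.exp (-(2 * Real.pi)) < 1 := by
    rw [Real.exp_lt_one_iff, neg_lt_zero]
    positivity
  have hs := Metric.closedBall_subset_ball (x := (0 : ℂ)) hr
  obtain ⟨M, hM⟩ := (isCompact_closedBall (0 : ℂ) _).exists_bound_of_continuousOn
    ((hJ.deriv Metric.isOpen_ball).continuousOn.mono hs)
  have hm : ∀ t : ℂ, 1 ≤ t.im → ee t ∈ Metric.closedBall (0 : ℂ) (Real.exp (-(2 * Real.pi))) :=
    fun t ht => by
      rw [mem_closedBall_zero_iff, norm_ee, Real.exp_le_exp, neg_le_neg_iff]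
      exact le_mul_of_one_le_right (by positivity) ht
  refine ⟨1 + M, fun s t h1 h2 => ?_⟩
  have h3 : ‖dslope J (ee s) (ee t)‖ ≤ M := by
    by_cases h : ee t = ee s
    · rw [h, dslope_same]
      exact hM _ (hm s h1)
    · have h4 := (convex_closedBall _ _).norm_image_sub_le_of_norm_deriv_le
        (fun x hx => hJ.differentiableAt (Metric.isOpen_ball.mem_nhds (hs hx))) hM (hm s h1) (hm t h2)
      rw [← sub_smul_dslope, norm_smul, mul_comm] at h4
      exact le_of_mul_le_mul_right h4 (norm_pos_iff.2 (sub_ne_zero.2 h))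
  refine (norm_sub_le _ _).trans ?_
  rw [norm_one, norm_mul, norm_mul]
  have h4 := norm_ee_lt (one_pos.trans_le h1)
  have h5 := norm_ee_lt (one_pos.trans_le h2)
  have h6 : ‖ee s‖ * ‖ee t‖ ≤ 1 := mul_le_one₀ h4.le (norm_nonneg _) h5.le
  have h7 := mul_le_of_le_one_left (norm_nonneg (dslope J (ee s) (ee t))) h6
  linarith

theorem prod_root {d : ℕ} (hd : d ≠ 0) (x t : ℂ) :
    ∏ b ∈ Finset.range d, (x - ee (-(t + b) / d)) = x ^ d - ee (-t) := by
  have h0 : (d : ℂ) ≠ 0 := by exact_mod_cast hd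
  have h1 : IsPrimitiveRoot (ee (-1 / d)) d := by
    have h := (Complex.isPrimitiveRoot_exp d hd).inv
    rwa [← Complex.exp_neg, show -(2 * Real.pi * Complex.I / d) =
      2 * Real.pi * Complex.I * (-1 / d) by ring] at h
  have h2 : ee (-t / d) ^ d = ee (-t) := by rw [← ee_nmul, mul_div_cancel₀ _ h0]
  have h3 := congrArg (eval x) (X_pow_sub_C_eq_prod h1 (Nat.pos_of_ne_zero hd) h2)
  simp only [eval_sub, eval_pow, eval_X, eval_C, eval_prod] at h3
  rw [h3]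
  refine Finset.prod_congr rfl fun b _ => ?_
  rw [← ee_nmul, ← ee_add]
  congr 2
  ring

theorem prod_del (n : ℕ) [NeZero n] (x u : ℕ) (z w : ℍ) :
    ∏ y : ZMod n, del n x u y z w ^ 2 = (ee (-(u * w)) - ee (-(x * z))) ^ 2 := by
  have h0 : (n : ℂ) ≠ 0 := by exact_mod_cast NeZero.ne n
  have h1 := prod_root (NeZero.ne n) (ee (-(u * w) / n)) (x * z)
  rw [← ee_nmul, mul_div_cancel₀ _ h0] at h1
  rw [← h1, ← Finset.prod_pow]
  obtain ⟨m, rfl⟩ := Nat.exists_eq_succ_of_ne_zero (NeZero.ne n)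
  rw [← Fin.prod_univ_eq_prod_range
    fun b => (ee (-(u * w) / (m.succ : ℕ)) - ee (-(x * z + b) / (m.succ : ℕ))) ^ 2]
  exact Finset.prod_congr rfl fun y _ => sub_sq_comm _ _

theorem prod_shift {d : ℕ} {f : ℕ → ℂ} (hf : ∀ b, f (b + d) = f b) (a : ℕ) :
    ∏ b ∈ Finset.range d, f (b + a) = ∏ b ∈ Finset.range d, f b := by
  induction a with
  | zero => rfl
  | succ a ih =>
    rw [← ih]
    cases d with
    | zero => rfl
    | succ d =>
      rw [Finset.prod_range_succ, Finset.prod_range_succ', zero_add, ← hf a]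
      congr 1
      · exact Finset.prod_congr rfl fun b _ => congrArg f (by omega)
      · exact congrArg f (by omega)

theorem mem_idx {L : ℕ} {p : ℕ × ℕ} : p ∈ idx L ↔ 0 < p.1 ∧ 0 < p.2 ∧ p.1 * p.2 ≤ L := by
  simp only [idx, Finset.mem_filter, Finset.mem_product, Finset.mem_Icc]
  exact ⟨fun h => ⟨h.1.1.1, h.1.2.1, h.2⟩, fun h => ⟨⟨⟨h.1, (Nat.le_mul_of_pos_right _ h.2.1).trans
    h.2.2⟩, h.2.1, (Nat.le_mul_of_pos_left _ h.1).trans h.2.2⟩, h.2.2⟩⟩

theorem prod_idx (L : ℕ) (f : ℕ × ℕ → ℂ) :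
    ∏ δ ∈ Finset.Icc 1 L, ∏ p ∈ δ.divisorsAntidiagonal, f p = ∏ p ∈ idx L, f p := by
  rw [← Finset.prod_fiberwise_of_maps_to (s := idx L) (t := Finset.Icc 1 L) (g := fun p => p.1 * p.2)
    fun p hp => Finset.mem_Icc.2 ⟨Nat.mul_pos (mem_idx.1 hp).1 (mem_idx.1 hp).2.1, (mem_idx.1 hp).2.2⟩]
  refine Finset.prod_congr rfl fun δ hδ => Finset.prod_congr (Finset.ext fun p => ?_) fun _ _ => rfl
  rw [Finset.mem_Icc] at hδ
  rw [Finset.mem_filter, mem_idx, Nat.mem_divisorsAntidiagonal]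
  refine ⟨fun h => ⟨?_, h.1⟩, fun h => ⟨h.2, by omega⟩⟩
  have h1 : p.1 * p.2 ≠ 0 := h.1 ▸ h.2
  exact ⟨Nat.pos_of_ne_zero (left_ne_zero_of_mul h1), Nat.pos_of_ne_zero (right_ne_zero_of_mul h1),
    h.1 ▸ hδ.2⟩

/-- The product of the unit factors. -/
def VV (J : ℂ → ℂ) (L : ℕ) (z w : ℂ) : ℂ :=
  ∏ p ∈ idx L, ∏ b ∈ Finset.range p.2, uu J (ee w) (ee ((p.1 * z + b) / p.2))

theorem im_pt' (a b d : ℕ) (t : ℂ) : (((a : ℂ) * t + b) / d).im = a / d * t.im := by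
  simpa only [Complex.ofReal_natCast] using im_pt a b d t

theorem pi0_eq {J : ℂ → ℂ} (hJ : ∀ τ : ℍ, jH τ = ee (-τ) + J (ee τ)) (L : ℕ) (z w : ℍ) :
    Pi0 L z w = (∏ p ∈ idx L, (ee (-(p.2 * w)) - ee (-(p.1 * z)))) * VV J L z w := by
  rw [Pi0, VV, ← Finset.prod_mul_distrib]
  simp only [prod_herm]
  rw [prod_idx]
  refine Finset.prod_congr rfl fun p hp => ?_
  obtain ⟨h1, h2, -⟩ := mem_idx.1 hp
  rw [← mul_neg, ee_nmul, ← prod_root h2.ne', ← Finset.prod_mul_distrib]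
  refine Finset.prod_congr rfl fun b _ => ?_
  have h3 : 0 < (!![(p.1 : ℤ), (b : ℤ); 0, (p.2 : ℤ)] : Mat ℤ).det := by
    rw [Matrix.det_fin_two_of, mul_zero, sub_zero]
    exact_mod_cast Nat.mul_pos h1 h2
  rw [j_sub hJ, coe_act h3, neg_div]
  simp

theorem hol_VV {J : ℂ → ℂ} (hJ : DifferentiableOn ℂ J (Metric.ball 0 1)) (L : ℕ) (z : ℍ) :
    (Hol fun w => VV J L z w) ∧ Hol fun w => VV J L w z := by
  have hp : ∀ p ∈ idx L, ∀ (b : ℕ) (t : ℂ), 0 < t.im → 0 < (((p.1 : ℂ) * t + b) / p.2).im :=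
    fun p hp b t ht => by
      obtain ⟨h1, h2, -⟩ := mem_idx.1 hp
      rw [im_pt']
      positivity
  simp only [VV]
  refine ⟨hol_prod _ fun p h => hol_prod _ fun b _ => ?_,
    hol_prod _ fun p h => hol_prod _ fun b _ => ?_⟩
  · simp only [uu_comm J _ (ee ((p.1 * z + b) / p.2))]
    exact hol_uu hJ (norm_ee_lt (hp p h b z z.im_pos)) (g := fun t => t) differentiable_id
      fun _ h => h
  · exact hol_uu hJ (norm_ee_lt z.im_pos) (g := fun t => (p.1 * t + b) / p.2) (by fun_prop)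
      (hp p h b)

theorem VV_per (J : ℂ → ℂ) (L : ℕ) (z w : ℂ) :
    VV J L z (w + 1) = VV J L z w ∧ VV J L (w + 1) z = VV J L w z := by
  have h1 : ∀ t, ee (t + 1) = ee t := fun t => by rw [ee_add, ← Int.cast_one, ee_int, mul_one]
  refine ⟨by rw [VV, VV, h1], Finset.prod_congr rfl fun p h => ?_⟩
  have h2 : (p.2 : ℂ) ≠ 0 := by exact_mod_cast (mem_idx.1 h).2.1.ne'
  rw [← prod_shift (f := fun b : ℕ => uu J (ee z) (ee ((p.1 * w + b) / p.2))) (fun b => by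
    rw [Nat.cast_add, ← add_assoc, add_div, div_self h2, h1]) p.1]
  refine Finset.prod_congr rfl fun b _ => ?_
  congr 3
  push_cast
  ring

theorem VV_bound {J : ℂ → ℂ} (hJ : DifferentiableOn ℂ J (Metric.ball 0 1)) (L : ℕ) : ∃ B : ℝ,
    ∀ z w : ℂ, L + 1 < z.im → L + 1 < w.im → ‖VV J L z w‖ ≤ B := by
  obtain ⟨B, hB⟩ := uu_bound hJ
  have hL : (0 : ℝ) ≤ L := Nat.cast_nonneg L
  refine ⟨∏ p ∈ idx L, ∏ _b ∈ Finset.range p.2, B, fun z w hz hw => ?_⟩
  rw [VV, norm_prod]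
  refine Finset.prod_le_prod (fun _ _ => norm_nonneg _) fun p hp => ?_
  rw [norm_prod]
  refine Finset.prod_le_prod (fun _ _ => norm_nonneg _) fun b _ => hB _ _ (by linarith) ?_
  obtain ⟨h1, h2, h3⟩ := mem_idx.1 hp
  have h4 : (1 : ℝ) ≤ p.1 := by exact_mod_cast h1
  have h5 : (0 : ℝ) < p.2 := by exact_mod_cast h2
  have h6 : (p.2 : ℝ) ≤ L := by exact_mod_cast (Nat.le_mul_of_pos_left _ h1).trans h3
  rw [im_pt', div_mul_eq_mul_div, le_div_iff₀ h5]
  nlinarith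

end PiAux

end Pool.Agent.Lib.MP_d6ddbd_nt.K
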