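import Mathlib
import Pool.Agent.Lib.MP_d6ddbd_nt.K.Pi1

set_option autoImplicit false

open UpperHalfPlane
open scoped MatrixGroups
open Pool.Agent.Lib.MP_9177b7_ag.CM (jH up dn)

noncomputable section

namespace Pool.Agent.Lib.MP_d6ddbd_nt.K

namespace PiAux

open Polynomial

theorem ten_of {Γ : Subgroup SL(2, ℤ)} {ι : Type} [Fintype ι] {R : ℍ → ℍ → ℂ} (a b : ι → ℍ → ℂ)
    (ha : ∀ i, MF Γ (a i)) (hb : ∀ i, MF Γ (b i)) (e : ∀ z w, R z w = ∑ i, a i z * b i w) :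
    Ten Γ R :=
  ⟨Fintype.card ι, fun i => a ((Fintype.equivFin ι).symm i), fun i => b ((Fintype.equivFin ι).symm i),
    fun _ => ha _, fun _ => hb _, fun z w =>
      (e z w).trans ((Fintype.equivFin ι).symm.sum_comp fun i => a i z * b i w).symm⟩

theorem ten_one (Γ : Subgroup SL(2, ℤ)) : Ten Γ fun _ _ => 1 :=
  ten_of (ι := Unit) (fun _ _ => 1) (fun _ _ => 1) (fun _ => MF.const Γ 1) (fun _ => MF.const Γ 1)
    fun _ _ => by simp

theorem mf_sum {Γ : Subgroup SL(2, ℤ)} {ι : Type} (s : Finset ι) {F : ι → ℍ → ℂ}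
    (h : ∀ i, MF Γ (F i)) : MF Γ fun τ => ∑ i ∈ s, F i τ :=
  ⟨hol_sum s fun i _ => (h i).hol, fun γ hγ τ => Finset.sum_congr rfl fun i _ => (h i).inv γ hγ τ,
    fun g => gro_sum s fun i _ => (h i).gro g⟩

end PiAux

open PiAux

theorem Ten.mul {Γ : Subgroup SL(2, ℤ)} {R R' : ℍ → ℍ → ℂ} (h : Ten Γ R) (h' : Ten Γ R') :
    Ten Γ fun z w => R z w * R' z w := by
  obtain ⟨k, a, b, ha, hb, e⟩ := h
  obtain ⟨k', a', b', ha', hb', e'⟩ := h'
  refine ten_of (ι := Fin k × Fin k') (fun p z => a p.1 z * a' p.2 z) (fun p z => b p.1 z * b' p.2 z)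
    (fun p => (ha _).mul (ha' _)) (fun p => (hb _).mul (hb' _)) fun z w => ?_
  rw [e, e', Finset.sum_mul_sum, Fintype.sum_prod_type]
  exact Finset.sum_congr rfl fun i _ => Finset.sum_congr rfl fun j _ => by ring

theorem Ten.pow {Γ : Subgroup SL(2, ℤ)} {R : ℍ → ℍ → ℂ} (h : Ten Γ R) (k : ℕ) :
    Ten Γ fun z w => R z w ^ k := by
  induction k with
  | zero => simpa only [pow_zero] using ten_one Γ
  | succ k ih => simpa only [pow_succ] using ih.mul h

theorem Ten.swap {Γ : Subgroup SL(2, ℤ)} {R : ℍ → ℍ → ℂ} (h : Ten Γ R) :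
    Ten Γ fun z w => R w z := by
  obtain ⟨k, a, b, ha, hb, e⟩ := h
  exact ⟨k, b, a, hb, ha, fun z w => (e w z).trans (Finset.sum_congr rfl fun i _ => mul_comm _ _)⟩

theorem Ten.mono {Γ Γ' : Subgroup SL(2, ℤ)} {R : ℍ → ℍ → ℂ} (h : Ten Γ R) (hle : Γ' ≤ Γ) :
    Ten Γ' R := by
  obtain ⟨k, a, b, ha, hb, e⟩ := h
  exact ⟨k, a, b, fun i => (ha i).mono hle, fun i => (hb i).mono hle, e⟩

theorem Ten.mf {Γ : Subgroup SL(2, ℤ)} {R : ℍ → ℍ → ℂ} (h : Ten Γ R) (z : ℍ) : MF Γ (R z) := by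
  obtain ⟨k, a, b, -, hb, e⟩ := h
  rw [funext (e z)]
  exact mf_sum _ fun i => (MF.const Γ (a i z)).mul (hb i)

theorem Ten.eq_of_im {Γ Γ' : Subgroup SL(2, ℤ)} {R R' : ℍ → ℍ → ℂ} (h : Ten Γ R) (h' : Ten Γ' R')
    (Y : ℝ) (e : ∀ z w : ℍ, Y < z.im → Y < w.im → R z w = R' z w) : R = R' :=
  funext fun z => (h.mf z).hol.eq_of_im (h'.mf z).hol Y fun w hw =>
    congrFun ((h.swap.mf w).hol.eq_of_im (h'.swap.mf w).hol Y fun z hz => e z w hz hw) z

namespace PiAux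

open Polynomial

theorem ten_prod {Γ : Subgroup SL(2, ℤ)} {ι : Type} (s : Finset ι) {R : ι → ℍ → ℍ → ℂ}
    (h : ∀ i ∈ s, Ten Γ (R i)) : Ten Γ fun z w => ∏ i ∈ s, R i z w := by
  classical
  induction s using Finset.induction_on with
  | empty => simpa only [Finset.prod_empty] using ten_one Γ
  | insert i s hi ih =>
    simpa only [Finset.prod_insert hi] using (h i (Finset.mem_insert_self _ _)).mul
      (ih fun j hj => h j (Finset.mem_insert_of_mem hj))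

theorem coeff_good {ι : Type} (s : Finset ι) {f : ι → ℍ → ℂ} (h : ∀ i ∈ s, Hol (f i) ∧ Gro (f i))
    (k : ℕ) : (Hol fun z => (∏ i ∈ s, (X - C (f i z))).coeff k) ∧
      Gro fun z => (∏ i ∈ s, (X - C (f i z))).coeff k := by
  classical
  induction s using Finset.induction_on generalizing k with
  | empty => exact ⟨hol_const _, gro_const _⟩
  | insert i s hi ih =>
    have h1 := h i (Finset.mem_insert_self _ _)
    have h2 := ih fun j hj => h j (Finset.mem_insert_of_mem hj)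
    simp only [Finset.prod_insert hi, sub_mul, coeff_sub, coeff_C_mul]
    cases k with
    | zero =>
      simp only [coeff_X_mul_zero]
      exact ⟨(hol_const 0).sub (h1.1.mul (h2 0).1), (gro_const 0).sub (h1.2.mul (h2 0).2)⟩
    | succ k =>
      simp only [coeff_X_mul]
      exact ⟨(h2 k).1.sub (h1.1.mul (h2 _).1), (h2 k).2.sub (h1.2.mul (h2 _).2)⟩

theorem j_per (τ : ℍ) : jH (((1 : ℕ) : ℝ) +ᵥ τ) = jH τ := by
  rw [Nat.cast_one, ← modular_T_smul]
  exact mf_jH.inv _ (Subgroup.mem_top _) τ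

theorem gro_act {m : ℕ} (hm : 0 < m) {A : Mat ℤ} (hA : A ∈ herm m) :
    Gro fun z => jH (act A z) := by
  have hd : 0 < A.det := by rw [herm_det hA]; exact_mod_cast hm
  obtain ⟨h0, h1, -, h2, h3⟩ := (mem_herm hm).1 hA
  have h4 : (0 : ℝ) < A 1 1 := by exact_mod_cast h2.trans_lt h3
  have h5 : (1 : ℝ) ≤ A 0 0 := by exact_mod_cast h1
  have h6 : ∀ z : ℍ, (act A z).im = (A 0 0 : ℝ) / A 1 1 * z.im := fun z => by
    rw [← coe_im, coe_act hd, h0, Int.cast_zero, zero_mul, zero_add]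
    simpa only [Complex.ofReal_intCast, coe_im] using im_pt (A 0 0) (A 0 1) (A 1 1) z
  obtain ⟨C, K, hb⟩ := mf_jH.gro 1
  simp only [one_smul] at hb
  obtain ⟨C', hb'⟩ := bound_of_high one_pos hol_jH j_per (Y := 1) (fun τ h => hb τ h.le)
    (one_div_pos.2 h4)
  refine ⟨C', K * ((A 0 0 : ℝ) / A 1 1), fun z hz => ?_⟩
  rw [mul_assoc K, ← h6]
  refine hb' _ ?_
  rw [h6]
  exact (div_le_div_of_nonneg_right h5 h4.le).trans
    (le_mul_of_one_le_right (div_nonneg (zero_le_one.trans h5) h4.le) hz)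

theorem poly_inv {m : ℕ} (hm : 0 < m) (g : SL(2, ℤ)) (z : ℍ) :
    ∏ A ∈ herm m, (X - C (jH (act A (g • z)))) = ∏ A ∈ herm m, (X - C (jH (act A z))) := by
  have hg : ∀ γ : SL(2, ℤ), 0 < γ.1.det := fun γ => by rw [γ.2]; exact one_pos
  have hm' : (0 : ℤ) < m := by exact_mod_cast hm
  rw [← prod_herm_mul m (fun A => X - C (jH (act A z))) (fun γ A hA => by
    rw [act_mul (hg γ) (hA ▸ hm'), act_sl, mf_jH.inv γ (Subgroup.mem_top _)]) g]
  refine Finset.prod_congr rfl fun A hA => ?_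
  rw [act_mul (herm_det hA ▸ hm') (hg g), act_sl]

theorem ten_phi {m : ℕ} (hm : 0 < m) :
    Ten ⊤ fun z w => ∏ A ∈ herm m, (jH w - jH (act A z)) := by
  have hm' : (0 : ℤ) < m := by exact_mod_cast hm
  have h := coeff_good (herm m) (f := fun A z => jH (act A z)) fun A hA =>
    ⟨hol_jH.act (herm_det hA ▸ hm'), gro_act hm hA⟩
  refine ten_of (ι := Fin ((herm m).card + 1))
    (fun i z => (∏ A ∈ herm m, (X - C (jH (act A z)))).coeff i) (fun i w => jH w ^ (i : ℕ))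
    (fun i => ⟨(h i).1, fun γ _ τ => by rw [poly_inv hm], fun g => ?_⟩) (fun i => mf_jH.pow i)
    fun z w => ?_
  · simp only [poly_inv hm]
    exact (h i).2
  · rw [Fin.sum_univ_eq_sum_range
      fun i : ℕ => coeff (∏ A ∈ herm m, (X - C (jH (act A z))) : ℂ[X]) i * jH w ^ i,
      ← eval_eq_sum_range' (by rw [natDegree_finsetProd_X_sub_C_eq_card]; exact Nat.lt_succ_self _),
      eval_prod]
    simp only [eval_sub, eval_X, eval_C]

end PiAux

theorem pi_ten (L : ℕ) : Ten ⊤ (Pi1 L) := by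
  have h : Ten ⊤ (Pi0 L) := ten_prod _ fun δ hδ => ten_phi (Finset.mem_Icc.1 hδ).1
  exact h.mul h.swap

theorem pi_cusp (n : ℕ) [NeZero n] (L : ℕ) : ∃ (Y B : ℝ) (U : ℍ → ℍ → ℂ),
    (∀ z w, U z w = U w z) ∧
    (∀ z : ℍ, Y < z.im → DifferentiableOn ℂ (U z ∘ ofComplex) {t : ℂ | Y < t.im}) ∧
    (∀ z w : ℍ, U z (ModularGroup.T • w) = U z w) ∧ 1 ≤ Y ∧
    ∀ z w : ℍ, Y < z.im → Y < w.im → ‖U z w‖ ≤ B ∧
      Pi1 L z w = U z w * ∏ p ∈ idx L, ∏ y : ZMod n, del n p.1 p.2 y z w ^ 2 := by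
  obtain ⟨J, hJ, hj⟩ := exists_J
  obtain ⟨B, hB⟩ := VV_bound hJ L
  have hL : (0 : ℝ) ≤ L := Nat.cast_nonneg L
  refine ⟨L + 1, B * B, fun z w => (-1) ^ (idx L).card * (PiAux.VV J L z w * PiAux.VV J L w z),
    fun z w => congrArg _ (mul_comm _ _), fun z _ => ?_, fun z w => ?_, by linarith,
    fun z w hz hw => ⟨?_, ?_⟩⟩
  · have h := (hol_const ((-1) ^ (idx L).card)).mul ((hol_VV hJ L z).1.mul (hol_VV hJ L z).2)
    refine DifferentiableOn.mono h fun t ht => ?_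
    have h1 : (L : ℝ) + 1 < t.im := ht
    show 0 < t.im
    linarith
  · simp only [coe_T, (VV_per J L z w).1, (VV_per J L z w).2]
  · rw [norm_mul, norm_pow, norm_neg, norm_one, one_pow, one_mul, norm_mul]
    exact mul_le_mul (hB z w hz hw) (hB w z hw hz) (norm_nonneg _)
      ((norm_nonneg _).trans (hB z w hz hw))
  · have h1 : ∏ p ∈ idx L, (ee (-(p.2 * z)) - ee (-(p.1 * w))) =
        (-1) ^ (idx L).card * ∏ p ∈ idx L, (ee (-(p.2 * w)) - ee (-(p.1 * z))) := by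
      rw [← Finset.prod_const, ← Finset.prod_mul_distrib]
      refine Finset.prod_equiv (Equiv.prodComm _ _) (fun p => ?_) fun p _ => by simp
      simp only [mem_idx, Equiv.prodComm_apply, Prod.fst_swap, Prod.snd_swap, mul_comm p.1]
      exact and_left_comm
    simp only [prod_del]
    rw [Pi1, pi0_eq hj, pi0_eq hj, h1, Finset.prod_pow]
    ring

end Pool.Agent.Lib.MP_d6ddbd_nt.K
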