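import Mathlib
import Pool.Agent.Lib.MP_d6ddbd_nt.K.Ext4a
import Pool.Agent.Lib.MP_d6ddbd_nt.K.Pi

/-! The expansion of the product in the first variable. -/

set_option autoImplicit false

open UpperHalfPlane
open scoped MatrixGroups

noncomputable section

namespace Pool.Agent.Lib.MP_d6ddbd_nt.K

variable {n : ℕ} [NeZero n] {F : Mat (ZMod n) → ℍ → ℂ} {C : Mat (ZMod n) → LaurentSeries ℂ}
  {L : ℕ} {I : Mat (ZMod n) → ℤ → ℤ}

/-- The expansion of a power of the product of modular polynomials. -/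
structure PiE (n L κ : ℕ) (a0 : ℤ) (P : ℍ → LaurentSeries ℂ) : Prop where
  low : ∀ w, ∀ N < a0, (P w).coeff N = 0
  hol : ∀ N, Hol fun w => (P w).coeff N
  inv : ∀ (g : SL(2, ℤ)) w, P (g • w) = P w
  qe : ∀ w, QE n (fun z => Pi1 L z w ^ κ) (P w)

theorem exists_piE (n : ℕ) [NeZero n] (L κ : ℕ) : ∃ a0 P, PiE n L κ a0 P := by
  have hn : 0 < n := Nat.pos_of_ne_zero (NeZero.ne n)
  obtain ⟨k, a, b, ha, hb, e⟩ := (pi_ten L).pow κ
  have : ∀ i, ∃ c, QE n (a i) c := fun i =>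
    exists_qe hn (ha i).hol (fun τ => by rw [T_pow, (ha i).inv _ (Subgroup.mem_top _)])
      (by simpa using (ha i).gro 1)
  choose A hA using this
  obtain ⟨a0, h0⟩ : ∃ a0 : ℤ, ∀ i, a0 ≤ (A i).order := Finite.exists_ge _
  refine ⟨a0, fun w => ∑ i, b i w • A i, fun w N hN => ?_, fun N => ?_, fun g w => ?_, fun w => ?_⟩
  · rw [HahnSeries.coeff_sum]
    refine Finset.sum_eq_zero fun i _ => ?_
    rw [HahnSeries.coeff_smul, HahnSeries.coeff_eq_zero_of_lt_order (hN.trans_le (h0 i)), smul_zero]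
  · simp only [HahnSeries.coeff_sum, HahnSeries.coeff_smul, smul_eq_mul]
    exact hol_sum _ fun i _ => (hb i).hol.mul (hol_const _)
  · simp only [fun i => (hb i).inv g (Subgroup.mem_top _) w]
  · have := qe_sum Finset.univ fun i _ => (hA i).smul (b i w)
    convert this using 2 with z
    exact (e z w).trans (Finset.sum_congr rfl fun i _ => mul_comm _ _)

/-- The formal product. -/
def WW (P : ℍ → LaurentSeries ℂ) (F : Mat (ZMod n) → ℍ → ℂ) (w : ℍ) : LaurentSeries ℂ :=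
  ser (em fun m => psi F m w) * P w

variable {κ : ℕ} {a0 : ℤ} {P : ℍ → LaurentSeries ℂ}

theorem WW_low (hP : PiE n L κ a0 P) (F : Mat (ZMod n) → ℍ → ℂ) (w : ℍ) :
    ∀ N < a0, (WW P F w).coeff N = 0 := by
  simpa [WW] using low_mul (ser_neg (em fun m => psi F m w)) (hP.low w)

theorem WW_hol (hP : PiE n L κ a0 P) (h : WL n F) (N : ℤ) : Hol fun w => (WW P F w).coeff N := by
  simp only [WW, fun w => coeff_mul_range (ser_neg (em fun m => psi F m w)) (hP.low w), zero_add,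
    ser_nat]
  exact hol_sum _ fun j _ => (em_hol (fun m => psi_hol h m) j).mul (hP.hol _)

theorem WW_smul (hP : PiE n L κ a0 P) (h : WL n F) (g : SL(2, ℤ)) (w : ℍ) :
    WW P F (g • w) = WW P (fun α => F (red n g.1 * α)) w := by
  simp only [WW, hP.inv, psi_smul h]

theorem WW_gamma (hP : PiE n L κ a0 P) (h : WL n F) {g : SL(2, ℤ)}
    (hg : g ∈ CongruenceSubgroup.Gamma n) (w : ℍ) : WW P F (g • w) = WW P F w := by
  simp only [WW_smul hP h, red_gamma hg, one_mul]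

/-- Convergence and growth of the formal product. -/
def Good (P : ℍ → LaurentSeries ℂ) (U : ℍ → ℍ → ℂ) (κ : ℕ) (F : Mat (ZMod n) → ℍ → ℂ)
    (C : Mat (ZMod n) → LaurentSeries ℂ) (L : ℕ) (I : Mat (ZMod n) → ℤ → ℤ) (Y K : ℝ) : Prop :=
  (∀ z w : ℍ, Y < z.im → Y < w.im → HasSum (fun N : ℤ => (WW P F w).coeff N * ee (N * (z : ℂ) / n))
    (Rc U κ C L I z w * (aF C L I z)⁻¹)) ∧
  ∀ N : ℤ, ∃ B : ℝ, ∀ w : ℍ, Y < w.im → ‖(WW P F w).coeff N‖ ≤ B * Real.exp (K * w.im)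

theorem Good.mono {U : ℍ → ℍ → ℂ} {Y K Y' K' : ℝ} (h : Good P U κ F C L I Y K) (hY : Y ≤ Y')
    (hK : K ≤ K') : Good P U κ F C L I Y' K' := by
  refine ⟨fun z w hz hw => h.1 z w (hY.trans_lt hz) (hY.trans_lt hw), fun N => ?_⟩
  obtain ⟨B, hB⟩ := h.2 N
  refine ⟨|B|, fun w hw => (hB w (hY.trans_lt hw)).trans ?_⟩
  exact mul_le_mul (le_abs_self B) (Real.exp_le_exp.2 (by nlinarith [w.im_pos]))
    (Real.exp_pos _).le (abs_nonneg B)

theorem one_sub_ne {z w : ℍ} (hz : L * w.im < z.im) {p : ℕ × ℕ} (hp : p ∈ idx L) (y : ℕ) :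
    1 - ee ((p.1 * (z : ℂ) - p.2 * (w : ℂ) + y) / n) ≠ 0 := by
  intro e
  have hn : (0 : ℝ) < n := by exact_mod_cast Nat.pos_of_ne_zero (NeZero.ne n)
  have h1 := congrArg norm (sub_eq_zero.1 e)
  rw [norm_one, norm_ee, eq_comm, Real.exp_eq_one_iff] at h1
  have h2 : ((p.1 * (z : ℂ) - p.2 * (w : ℂ) + y) / n).im = (p.1 * z.im - p.2 * w.im) / n := by
    rw [Complex.div_natCast_im]; simp
  simp only [idx, Finset.mem_filter, Finset.mem_product, Finset.mem_Icc] at hp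
  have h3 : (1 : ℝ) ≤ p.1 := by exact_mod_cast hp.1.1.1
  have h4 : (p.2 : ℝ) ≤ L := by exact_mod_cast hp.1.2.2
  have h5 : 0 < (p.1 * z.im - p.2 * w.im) / n :=
    div_pos (by nlinarith [z.im_pos, w.im_pos]) hn
  rw [h2] at h1
  have := mul_pos Real.two_pi_pos h5
  linarith

theorem exists_good (hP : PiE n L κ a0 P) (h : Inp n F C L I) {Y B : ℝ} {U : ℍ → ℍ → ℂ}
    (hU : PiC n L Y B U) (hκ : ∀ α (N : ℤ), -(L : ℤ) ≤ N → N < 0 → 0 ≤ 2 * κ + I α N) :
    ∃ Y' K, Good P U κ F C L I Y' K := by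
  have hn : 0 < n := Nat.pos_of_ne_zero (NeZero.ne n)
  obtain ⟨Y1, B1, hY1, d1, -, d0, b1, b0, hid⟩ := sB_est h
  set Y2 := max Y Y1 with hY2
  have l1 : Y ≤ Y2 := le_max_left _ _
  have l2 : Y1 ≤ Y2 := le_max_right _ _
  have hpos : 0 ≤ Y2 := by linarith
  obtain ⟨B2, K, hK, hb⟩ := (rc_gb (Y := Y2) (L := L) (I := I) κ
      (fun z w hz hw => b1 z w (l2.trans_lt hz) (l2.trans_lt hw))
      (fun z w hz hw => hU.bd z w (l1.trans_lt hz) (l1.trans_lt hw))).mul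
    (aF_gb (Y := Y2) (L := L) (I := I) (fun z hz => b0 z (l2.trans_lt hz))).2
  have main : ∀ w : ℍ, Y2 < w.im → (∀ z : ℍ, Y2 < z.im →
      HasSum (fun N : ℤ => (WW P F w).coeff N * ee (N * (z : ℂ) / n))
        (Rc U κ C L I z w * (aF C L I z)⁻¹)) ∧ ∀ N : ℤ, ‖(WW P F w).coeff N‖ ≤
        B2 * Real.exp (K * w.im) * Real.exp (K * (1 + Y2)) *
          Real.exp (2 * Real.pi * N * (1 + Y2) / n) := by
    intro w hw
    have hd : HD Y2 fun z => Rc U κ C L I z w * (aF C L I z)⁻¹ := by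
      refine HD.mul (rc_hd hpos κ w ((d1 w (l2.trans_lt hw)).mono fun _ ht => l2.trans_lt ht) ?_)
        (hd_of hpos (G := fun z => (aF C L I z)⁻¹)
          ((aF_diff (d0.mono fun _ ht => l2.trans_lt ht)).inv fun _ _ => aF_ne _ _ _ _))
      simp only [fun z => hU.symm z w]
      exact HD.mono (hU.diff w (l1.trans_lt hw)) l1
    obtain ⟨a, ha, ha'⟩ := exists_half hn (B := B2 * Real.exp (K * w.im)) hpos hK hd
      (fun τ _ => by rw [rc_per hU, coe_vadd, Complex.ofReal_natCast, aF_per])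
      (fun τ hτ => (hb τ w hτ hw).trans (le_of_eq (by rw [mul_add, Real.exp_add]; ring)))
    have hL : 0 ≤ L * w.im := mul_nonneg (Nat.cast_nonneg _) w.im_pos.le
    have hex : ∀ z : ℍ, ∃ l : ℂ, Y1 + L * w.im < z.im →
        HasSum (fun m : ℕ => psi F (m + 1) w * ee ((m + 1 : ℕ) * (z : ℂ) / n) / (m + 1 : ℕ)) l ∧
        Complex.exp (-l) = Complex.exp (-sB C z w) * Complex.exp (-s0 C z) *
          ∏ p ∈ idx L, ∏ y : ZMod n, (1 - ee ((p.1 * (z : ℂ) - p.2 * (w : ℂ) + y.val) / n)) ^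
            I (tri p.1 y p.2) (-(p.1 * p.2)) := fun z => by
      by_cases hz : Y1 + L * w.im < z.im
      · obtain ⟨l, hl⟩ := hid z w (l2.trans_lt hw) hz
        exact ⟨l, fun _ => hl⟩
      · exact ⟨0, fun hh => absurd hh hz⟩
    choose l hl using hex
    have e : (fun N => (WW P F w).coeff N) = fun N => a.coeff N := by
      refine coeff_unique hn (s := fun z => Rc U κ C L I z w * (aF C L I z)⁻¹) (Y2 + L * w.im)
        (fun z hz => ?_) fun z hz => ha z (by linarith)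
      have s1 := hasSum_em hn (fun m => psi F m w) (Y := Y1 + L * w.im) (by linarith)
        (fun τ hτ => (hl τ hτ).1) (z := z) (by linarith)
      have s2 := hasSum_mul_pt (t := fun N : ℤ => ee (N * (z : ℂ) / n)) (ee_step n z) s1 (hP.qe w z)
      rw [rc_eq hU κ hκ (by linarith) (l1.trans_lt hw) (hl z (by linarith)).2
        fun p hp y => one_sub_ne (by linarith) hp y.val]
      exact s2
    have e' : ∀ N, (WW P F w).coeff N = a.coeff N := fun N => congrFun e N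
    simp only [e']
    exact ⟨ha, ha'⟩
  refine ⟨Y2, K, fun z w hz hw => (main w hw).1 z hz, fun N => ⟨B2 * Real.exp (K * (1 + Y2)) *
    Real.exp (2 * Real.pi * N * (1 + Y2) / n), fun w hw => ((main w hw).2 N).trans (le_of_eq ?_)⟩⟩
  ring

theorem good_all (hP : PiE n L κ a0 P) (h : Inp n F C L I) {Y B : ℝ} {U : ℍ → ℍ → ℂ}
    (hU : PiC n L Y B U) (hκ : ∀ α (N : ℤ), -(L : ℤ) ≤ N → N < 0 → 0 ≤ 2 * κ + I α N) :
    ∃ Y' K, ∀ g : SL(2, ℤ), Good P U κ (fun α => F (red n g.1 * α)) (fun α => C (red n g.1 * α)) L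
      (fun α => I (red n g.1 * α)) Y' K := by
  have : ∀ β : Mat (ZMod n), ∃ Y' K : ℝ, (∃ g : SL(2, ℤ), red n g.1 = β) →
      Good P U κ (fun α => F (β * α)) (fun α => C (β * α)) L (fun α => I (β * α)) Y' K := by
    intro β
    by_cases hβ : ∃ g : SL(2, ℤ), red n g.1 = β
    · obtain ⟨g, rfl⟩ := hβ
      obtain ⟨Y', K, hg⟩ := exists_good hP (h.left g) hU fun α => hκ _
      exact ⟨Y', K, fun _ => hg⟩
    · exact ⟨0, 0, fun hh => absurd hh hβ⟩
  choose Y' K hg using this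
  obtain ⟨Y0, hY0⟩ := Finite.exists_le Y'
  obtain ⟨K0, hK0⟩ := Finite.exists_le K
  exact ⟨Y0, K0, fun g => (hg _ ⟨g, rfl⟩).mono (hY0 _) (hK0 _)⟩

theorem WW_vv (hP : PiE n L κ a0 P) (h : Inp n F C L I) {Y K : ℝ} {U : ℍ → ℍ → ℂ}
    (hg : ∀ g : SL(2, ℤ), Good P U κ (fun α => F (red n g.1 * α)) (fun α => C (red n g.1 * α)) L
      (fun α => I (red n g.1 * α)) Y K) (N : ℤ) : (fun w => (WW P F w).coeff N) ∈ VV n K := by
  have hn : 0 < n := Nat.pos_of_ne_zero (NeZero.ne n)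
  refine ⟨WW_hol hP h.wl N, fun γ hγ τ => by simp only [WW_gamma hP h.wl hγ], fun g => ?_⟩
  obtain ⟨B, hB⟩ := (hg g).2 N
  simp only [WW_smul hP h.wl]
  exact bound_of_high hn (WW_hol hP (h.left g).wl N)
    (fun τ => by rw [T_pow, WW_gamma hP (h.left g).wl (T_pow_mem n)]) hB one_pos

end Pool.Agent.Lib.MP_d6ddbd_nt.K
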