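import Mathlib
import Pool.Agent.Lib.MP_d6ddbd_nt.K.Defs2
import Pool.Agent.Lib.MP_d6ddbd_nt.K.QE1

set_option autoImplicit false

open UpperHalfPlane
open scoped MatrixGroups
open Pool.Agent.Lib.MP_9177b7_ag.CM (jH up dn)

noncomputable section

namespace Pool.Agent.Lib.MP_d6ddbd_nt.K

namespace Fn

open Filter Asymptotics
open scoped Topology ModularForm

/-- The space `VV n K` as a submodule. -/
def VS (n : ℕ) (K : ℝ) : Submodule ℂ (ℍ → ℂ) where
  carrier := VV n K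
  add_mem' := by
    rintro f g ⟨h1, h2, h3⟩ ⟨h1', h2', h3'⟩
    refine ⟨h1.add h1', fun γ hγ τ => ?_, fun γ => ?_⟩
    · simp only [Pi.add_apply, h2 γ hγ, h2' γ hγ]
    · obtain ⟨C, hC⟩ := h3 γ
      obtain ⟨C', hC'⟩ := h3' γ
      refine ⟨C + C', fun τ hτ => (norm_add_le _ _).trans ?_⟩
      rw [add_mul]
      exact add_le_add (hC τ hτ) (hC' τ hτ)
  zero_mem' := ⟨hol_const 0, fun _ _ _ => rfl, fun _ => ⟨0, fun _ _ => by simp⟩⟩
  smul_mem' := by
    rintro a f ⟨h1, h2, h3⟩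
    refine ⟨(hol_const a).mul h1, fun γ hγ τ => ?_, fun γ => ?_⟩
    · simp only [Pi.smul_apply, h2 γ hγ]
    · obtain ⟨C, hC⟩ := h3 γ
      refine ⟨‖a‖ * C, fun τ hτ => ?_⟩
      rw [Pi.smul_apply, norm_smul, mul_assoc]
      exact mul_le_mul_of_nonneg_left (hC τ hτ) (norm_nonneg a)

/-- Members of `VV n K` with a pole of order at most `j / n` at `i∞`. -/
def US (n : ℕ) (K : ℝ) (j : ℤ) : Submodule ℂ (ℍ → ℂ) where
  carrier := {f | f ∈ VS n K ∧
    f =O[atImInfty] fun τ : ℍ => Real.exp (2 * Real.pi * j / n * τ.im)}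
  add_mem' := fun h h' => ⟨add_mem h.1 h'.1, h.2.add h'.2⟩
  zero_mem' := ⟨zero_mem _, isBigO_zero _ _⟩
  smul_mem' := fun a _ h => ⟨Submodule.smul_mem _ a h.1, h.2.const_smul_left a⟩

theorem big_of_mem {n : ℕ} {K : ℝ} {f : ℍ → ℂ} (h : f ∈ VV n K) (g : SL(2, ℤ)) :
    (fun τ : ℍ => f (g • τ)) =O[atImInfty] fun τ : ℍ => Real.exp (K * τ.im) := by
  obtain ⟨C, hC⟩ := h.2.2 g
  refine IsBigO.of_bound C ((atImInfty_mem _).2 ⟨1, fun τ hτ => ?_⟩)
  simpa using hC τ hτ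

theorem mf_of_mem {n : ℕ} {K : ℝ} {f : ℍ → ℂ} (h : f ∈ VV n K) :
    MF (CongruenceSubgroup.Gamma n) f :=
  ⟨h.1, h.2.1, fun g => let ⟨C, hC⟩ := h.2.2 g; ⟨C, K, hC⟩⟩

/-- An invariant holomorphic function that vanishes at the cusp is zero. -/
theorem zero_of_inv {P : ℍ → ℂ} (h : Hol P) (hi : ∀ (γ : SL(2, ℤ)) (τ : ℍ), P (γ • τ) = P τ)
    (hz : Tendsto P atImInfty (𝓝 0)) : P = 0 := by
  have hs : ∀ γ : SL(2, ℤ), P ∣[(0 : ℤ)] γ = P := fun γ => by
    ext τ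
    rw [ModularForm.SL_slash_apply, hi]
    simp
  let f : ModularForm 𝒮ℒ 0 :=
    { toFun := P
      slash_action_eq' := fun _ ⟨γ, hγ⟩ => hγ ▸ hs γ
      holo' := hol_iff.1 h
      bdd_at_cusps' := fun {x} hx => by
        rw [Subgroup.IsArithmetic.isCusp_iff_isCusp_SL2Z] at hx
        rw [OnePoint.isBoundedAt_iff_forall_SL2Z hx]
        intro γ _
        rw [hs γ]
        exact ZeroAtFilter.boundedAtFilter hz }
  obtain ⟨a, ha⟩ := ModularFormClass.levelOne_weight_zero_const f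
  have ha' : P = fun _ => a := ha
  rw [ha'] at hz
  rw [ha', tendsto_nhds_unique tendsto_const_nhds hz]
  rfl

theorem tendsto_exp {a : ℝ} (ha : a < 0) :
    Tendsto (fun τ : ℍ => Real.exp (a * τ.im)) atImInfty (𝓝 0) :=
  Real.tendsto_exp_atBot.comp (Tendsto.const_mul_atTop_of_neg ha tendsto_comap)

/-- Fast decay at `i∞` forces vanishing. -/
theorem us_bot (n : ℕ) (hn : 0 < n) (K : ℝ) : ∃ j : ℤ, US n K j = ⊥ := by
  classical
  have : NeZero n := ⟨hn.ne'⟩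
  let Q := SL(2, ℤ) ⧸ CongruenceSubgroup.Gamma n
  let : Fintype Q := Fintype.ofFinite Q
  let q₀ : Q := ((1 : SL(2, ℤ)) : Q)
  let m : ℕ := (Finset.univ.erase q₀).card
  have hn' : (0 : ℝ) < n := by exact_mod_cast hn
  obtain ⟨j, hj⟩ := exists_int_lt (-(m * K) * n / (2 * Real.pi))
  have hj' : 2 * Real.pi * j / n + m * K < 0 := by
    rw [lt_div_iff₀ Real.two_pi_pos] at hj
    have : 2 * Real.pi * j / n < -(m * K) := by
      rw [div_lt_iff₀ hn']
      linarith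
    linarith
  refine ⟨j, (Submodule.eq_bot_iff _).2 fun f hf => ?_⟩
  obtain ⟨hV, hO⟩ := hf
  have hV' : f ∈ VV n K := hV
  have key : ∀ (a : SL(2, ℤ)) (τ : ℍ), f ((a : Q).out⁻¹ • τ) = f (a⁻¹ • τ) := fun a τ => by
    obtain ⟨γ, e⟩ := QuotientGroup.mk_out_eq_mul (CongruenceSubgroup.Gamma n) a
    rw [e, mul_inv_rev, mul_smul, hV'.2.1 _ (inv_mem γ.2)]
  have h0 : (fun τ : ℍ => f (q₀.out⁻¹ • τ)) = f := by
    funext τ
    rw [key, inv_one, one_smul]
  by_contra hne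
  refine (ord_prod (Finset.univ : Finset Q) (F := fun q τ => f (q.out⁻¹ • τ))
    (fun q _ => hV'.1.smul _) (fun q _ e => hne ?_) I).1
    (zero_of_inv (hol_prod _ fun q _ => hV'.1.smul _) (fun γ τ => ?_) ?_)
  · funext τ
    simpa using congrFun e (q.out • τ)
  · rw [← Equiv.prod_comp (MulAction.toPerm γ)]
    refine Finset.prod_congr rfl fun q _ => ?_
    induction q using QuotientGroup.induction_on with
    | H a =>
      have e : (MulAction.toPerm γ (a : Q) : Q) = ((γ * a : SL(2, ℤ)) : Q) := rfl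
      rw [e, key, key, mul_inv_rev, mul_smul, inv_smul_smul]
  · have h1 : (fun τ : ℍ => ∏ q ∈ Finset.univ.erase q₀, f (q.out⁻¹ • τ)) =O[atImInfty]
        fun τ : ℍ => ∏ _q ∈ Finset.univ.erase q₀, Real.exp (K * τ.im) :=
      IsBigO.finsetProd fun q _ => big_of_mem hV' _
    have h2 := hO.mul h1
    refine IsBigO.trans_tendsto (h2.congr (fun τ => ?_) fun τ => ?_) (tendsto_exp hj')
    · rw [← Finset.mul_prod_erase _ _ (Finset.mem_univ q₀), congrFun h0 τ]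
    · rw [Finset.prod_const, ← Real.exp_nat_mul, ← Real.exp_add]
      congr 1
      ring

theorem periodic_of {g : ℍ → ℂ} {h : ℝ} (hp : ∀ τ : ℍ, g (h +ᵥ τ) = g τ) :
    Function.Periodic (g ∘ ofComplex) h := by
  intro w
  rcases lt_or_ge 0 w.im with hw | hw
  · have h1 : 0 < (w + h).im := by simp [hw]
    simp only [Function.comp_apply, ofComplex_apply_of_im_pos h1, ofComplex_apply_of_im_pos hw]
    rw [← hp ⟨w, hw⟩]
    congr 1
    ext
    simp [add_comm]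
  · have h1 : (w + h).im ≤ 0 := by simpa using hw
    simp [ofComplex_apply_of_im_nonpos h1, ofComplex_apply_of_im_nonpos hw]

theorem norm_ee_div (n : ℕ) (j : ℤ) (τ : ℍ) :
    ‖ee (j * (τ : ℂ) / n)‖ = Real.exp (-(2 * Real.pi * j / n * τ.im)) := by
  rw [norm_ee]
  have : ((j : ℂ) * (τ : ℂ) / n).im = j * τ.im / n := by
    rw [← Complex.ofReal_natCast, Complex.div_ofReal_im]
    simp
  rw [this]
  congr 1
  ring

/-- The leading term at `i∞`. -/
theorem lead {n : ℕ} (hn : 0 < n) {K : ℝ} {j : ℤ} {f : ℍ → ℂ} (hf : f ∈ US n K (j + 1)) :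
    ∃ c : ℂ, (fun τ : ℍ => f τ - c * ee (((-(j + 1) : ℤ) : ℂ) * (τ : ℂ) / n)) =O[atImInfty]
      fun τ : ℍ => Real.exp (2 * Real.pi * j / n * τ.im) := by
  have hV : f ∈ VV n K := hf.1
  have hn' : (0 : ℝ) < n := by exact_mod_cast hn
  have hn0 : (n : ℂ) ≠ 0 := by exact_mod_cast hn.ne'
  have he : ∀ i : ℤ, (fun τ : ℍ => ee (i * (τ : ℂ) / n)) =O[atImInfty]
      fun τ : ℍ => Real.exp (-(2 * Real.pi * i / n * τ.im)) := fun i =>
    IsBigO.of_bound 1 (Eventually.of_forall fun τ => by simp [norm_ee_div])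
  let g : ℍ → ℂ := fun τ => f τ * ee (((j + 1 : ℤ) : ℂ) * (τ : ℂ) / n)
  have hg : Hol g := by
    refine hV.1.mul (Hol.ee ?_)
    simp only [div_eq_mul_inv]
    exact ((hol_const _).mul hol_coe).mul (hol_const _)
  have hp : ∀ τ : ℍ, g ((n : ℝ) +ᵥ τ) = g τ := fun τ => by
    have h1 : f ((n : ℝ) +ᵥ τ) = f τ := by
      have := hV.2.1 (ModularGroup.T ^ (n : ℤ))
        (CongruenceSubgroup.ModularGroup_T_pow_mem_Gamma n n dvd_rfl) τ
      rwa [modular_T_zpow_smul, Int.cast_natCast] at this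
    have h2 : ((j + 1 : ℤ) : ℂ) * (((n : ℝ) +ᵥ τ : ℍ) : ℂ) / n =
        ((j + 1 : ℤ) : ℂ) + ((j + 1 : ℤ) : ℂ) * (τ : ℂ) / n := by
      rw [coe_vadd, Complex.ofReal_natCast]
      field_simp
    simp only [g]
    rw [h1, h2, ee_add, ee_int, one_mul]
  have hb : IsBoundedAtImInfty g := by
    refine (hf.2.mul (he (j + 1))).congr (fun _ => rfl) fun τ => ?_
    rw [← Real.exp_add, add_neg_cancel, Real.exp_zero]
    rfl
  have h3 := (exp_decay_sub_atImInfty hn' (periodic_of hp) (hol_iff.1 hg) hb).mul (he (-(j + 1)))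
  refine ⟨valueAtInfty g, h3.congr (fun τ => ?_) fun τ => ?_⟩
  · simp only [g]
    rw [sub_mul, mul_assoc, ← ee_add]
    have : ((j + 1 : ℤ) : ℂ) * (τ : ℂ) / n + ((-(j + 1) : ℤ) : ℂ) * (τ : ℂ) / n = 0 := by
      push_cast
      ring
    rw [this, ee_zero, mul_one]
  · rw [← Real.exp_add]
    congr 1
    push_cast
    ring

theorem fin_succ {n : ℕ} (hn : 0 < n) {K : ℝ} {j : ℤ} (h : FiniteDimensional ℂ (US n K j)) :
    FiniteDimensional ℂ (US n K (j + 1)) := by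
  by_cases hle : US n K (j + 1) ≤ US n K j
  · exact Submodule.finiteDimensional_of_le hle
  obtain ⟨f₀, hf₀, hn₀⟩ := SetLike.not_le_iff_exists.1 hle
  obtain ⟨c₀, hc₀⟩ := lead hn hf₀
  have hc : c₀ ≠ 0 := by
    rintro rfl
    exact hn₀ ⟨hf₀.1, hc₀.congr (fun τ => by simp) fun _ => rfl⟩
  refine Submodule.finiteDimensional_of_le (S₂ := US n K j ⊔ Submodule.span ℂ {f₀}) fun f hf => ?_
  obtain ⟨c, hc'⟩ := lead hn hf
  have h1 : f - (c / c₀) • f₀ ∈ US n K j := by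
    refine ⟨sub_mem hf.1 (Submodule.smul_mem _ _ hf₀.1),
      (hc'.sub (hc₀.const_mul_left (c / c₀))).congr (fun τ => ?_) fun _ => rfl⟩
    simp only [Pi.sub_apply, Pi.smul_apply, smul_eq_mul]
    field_simp
    ring
  rw [← sub_add_cancel f ((c / c₀) • f₀)]
  exact Submodule.add_mem_sup h1 (Submodule.smul_mem _ _ (Submodule.mem_span_singleton_self _))

/-- The space `VV n K` has finite dimension. -/
theorem fin_VS (n : ℕ) (hn : 0 < n) (K : ℝ) : FiniteDimensional ℂ (VS n K) := by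
  obtain ⟨j, hj⟩ := us_bot n hn K
  have h1 : ∀ k : ℕ, FiniteDimensional ℂ (US n K (j + k)) := fun k => by
    induction k with
    | zero =>
      rw [Nat.cast_zero, add_zero, hj]
      infer_instance
    | succ k ih =>
      rw [Nat.cast_succ, ← add_assoc]
      exact fin_succ hn ih
  have hn' : (0 : ℝ) < n := by exact_mod_cast hn
  obtain ⟨k, hk⟩ := exists_nat_ge (K * n / (2 * Real.pi) - j)
  have hk' : K ≤ 2 * Real.pi * ((j + k : ℤ) : ℝ) / n := by
    rw [sub_le_iff_le_add, div_le_iff₀ Real.two_pi_pos] at hk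
    rw [le_div_iff₀ hn']
    push_cast
    linarith
  have := h1 k
  refine Submodule.finiteDimensional_of_le (S₂ := US n K (j + k)) fun f hf => ⟨hf, ?_⟩
  have h2 := big_of_mem hf 1
  simp only [one_smul] at h2
  refine h2.trans (IsBigO.of_bound 1 (Eventually.of_forall fun τ => ?_))
  rw [one_mul, Real.norm_of_nonneg (Real.exp_pos _).le, Real.norm_of_nonneg (Real.exp_pos _).le]
  exact Real.exp_le_exp.2 (mul_le_mul_of_nonneg_right hk' τ.im_pos.le)

/-- Interpolation in a space of functions of finite dimension. -/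
theorem interp {X : Type} (V : Submodule ℂ (X → ℂ)) [FiniteDimensional ℂ V] (S : Set X)
    (hS : ∀ f ∈ V, (∀ x ∈ S, f x = 0) → f = 0) :
    ∃ (k : ℕ) (w : Fin k → X) (b : Fin k → X → ℂ), (∀ i, w i ∈ S) ∧ (∀ i, b i ∈ V) ∧
      ∀ f ∈ V, ∀ x, f x = ∑ i, f (w i) * b i x := by
  classical
  let res : ∀ {k : ℕ}, (Fin k → X) → (V →ₗ[ℂ] (Fin k → ℂ)) := fun w =>
    (LinearMap.funLeft ℂ ℂ w).comp V.subtype
  obtain ⟨_, ⟨k, w, hw, rfl⟩, hmin⟩ := IsArtinian.set_has_minimal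
    {N : Submodule ℂ V | ∃ (k : ℕ) (w : Fin k → X), (∀ i, w i ∈ S) ∧ N = LinearMap.ker (res w)}
    ⟨_, 0, Fin.elim0, fun i => i.elim0, rfl⟩
  have hk : LinearMap.ker (res w) = ⊥ := by
    refine (Submodule.eq_bot_iff _).2 fun f hf => Subtype.ext (hS f f.2 fun x hx => ?_)
    have h1 : LinearMap.ker (res (Fin.cons x w : Fin (k + 1) → X)) ≤ LinearMap.ker (res w) :=
      fun g hg => funext fun i => congrFun hg i.succ
    have h2 := h1.eq_of_not_lt (hmin _ ⟨k + 1, Fin.cons x w, Fin.cases hx hw, rfl⟩)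
    rw [← h2] at hf
    exact congrFun hf 0
  obtain ⟨g, hg⟩ := LinearMap.exists_leftInverse_of_injective _ hk
  refine ⟨k, w, fun i => (g (Pi.single i 1) : V), hw, fun i => (g _).2, fun f hf x => ?_⟩
  have h1 : g (res w ⟨f, hf⟩) = ⟨f, hf⟩ := LinearMap.congr_fun hg ⟨f, hf⟩
  have h2 : res w ⟨f, hf⟩ = ∑ i, f (w i) • (Pi.single i 1 : Fin k → ℂ) :=
    pi_eq_sum_univ' _
  rw [h2, map_sum] at h1
  have h3 := congrFun (congrArg Subtype.val h1) x
  simp only [map_smul, Submodule.coe_sum, Submodule.coe_smul, Finset.sum_apply, Pi.smul_apply,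
    smul_eq_mul] at h3
  exact h3.symm

end Fn

theorem ten_of_ext (n : ℕ) (hn : 0 < n) (K Y : ℝ) (R : ℍ → ℍ → ℂ) (W W' : ℤ → ℍ → ℂ)
    (hW : ∀ m, W m ∈ VV n K) (hW' : ∀ m, W' m ∈ VV n K)
    (h2 : ∀ z w : ℍ, Y < z.im → Y < w.im →
      HasSum (fun m : ℤ => W m w * ee (m * (z : ℂ) / n)) (R z w))
    (h1 : ∀ z w : ℍ, Y < z.im → Y < w.im →
      HasSum (fun m : ℤ => W' m z * ee (m * (w : ℂ) / n)) (R z w)) :
    ∃ R' : ℍ → ℍ → ℂ, Ten (CongruenceSubgroup.Gamma n) R' ∧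
      (∀ z w : ℍ, Y < z.im → Y < w.im → R' z w = R z w) ∧
      ∀ z : ℍ, Y < z.im → ∀ w : ℍ,
        HasSum (fun m : ℤ => W m w * ee (m * (z : ℂ) / n)) (R' z w) := by
  have := Fn.fin_VS n hn K
  obtain ⟨k, p, b, hp, hb, hI⟩ := Fn.interp (Fn.VS n K) {τ : ℍ | Y < τ.im}
    fun f hf h => Hol.eq_of_im hf.1 (hol_const 0) Y h
  have e1 : ∀ z w : ℍ, Y < z.im → Y < w.im → R z w = ∑ i, b i z * R (p i) w := by
    intro z w hz hw
    refine (h1 z w hz hw).unique ?_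
    refine (hasSum_sum fun i _ => (h1 (p i) w (hp i) hw).mul_left (b i z)).congr_fun fun m => ?_
    rw [hI (W' m) (hW' m) z, Finset.sum_mul]
    exact Finset.sum_congr rfl fun i _ => by ring
  have e2 : ∀ z : ℍ, Y < z.im → ∀ w : ℍ, HasSum (fun m : ℤ => W m w * ee (m * (z : ℂ) / n))
      (∑ i, b i z * ∑ j, R (p i) (p j) * b j w) := by
    intro z hz w
    have h3 : ∑ i, b i z * ∑ j, R (p i) (p j) * b j w = ∑ j, b j w * R z (p j) := by
      simp only [Finset.mul_sum]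
      rw [Finset.sum_comm]
      refine Finset.sum_congr rfl fun j _ => ?_
      rw [e1 z (p j) hz (hp j), Finset.mul_sum]
      exact Finset.sum_congr rfl fun i _ => by ring
    rw [h3]
    refine (hasSum_sum fun j _ => (h2 z (p j) hz (hp j)).mul_left (b j w)).congr_fun fun m => ?_
    rw [hI (W m) (hW m) w, Finset.sum_mul]
    exact Finset.sum_congr rfl fun i _ => by ring
  refine ⟨fun z w => ∑ i, b i z * ∑ j, R (p i) (p j) * b j w,
    ⟨k, b, fun i w => ∑ j, R (p i) (p j) * b j w, fun i => Fn.mf_of_mem (hb i), fun i => ?_,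
      fun _ _ => rfl⟩, fun z w hz hw => (e2 z hz w).unique (h2 z w hz hw), e2⟩
  have h4 : ∑ j, R (p i) (p j) • b j ∈ Fn.VS n K :=
    sum_mem fun j _ => Submodule.smul_mem _ _ (hb j)
  have h5 : (fun w => ∑ j, R (p i) (p j) * b j w) = ∑ j, R (p i) (p j) • b j := by
    funext w
    simp only [Finset.sum_apply, Pi.smul_apply, smul_eq_mul]
  rw [← h5] at h4
  exact Fn.mf_of_mem h4

end Pool.Agent.Lib.MP_d6ddbd_nt.K
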