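import Mathlib
import Pool.Agent.Lib.MP_d6ddbd_nt.K.Ext4b
import Pool.Agent.Lib.MP_d6ddbd_nt.K.Fin

/-! The product extends to the product of two half planes. -/

set_option autoImplicit false

open UpperHalfPlane
open scoped MatrixGroups

noncomputable section

namespace Pool.Agent.Lib.MP_d6ddbd_nt.K

variable {n : ℕ} [NeZero n] {F : Mat (ZMod n) → ℍ → ℂ} {C : Mat (ZMod n) → LaurentSeries ℂ}
  {L : ℕ} {I : Mat (ZMod n) → ℤ → ℤ}

theorem red_one' : red n (1 : SL(2, ℤ)).1 = 1 := red_gamma (Subgroup.one_mem _)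

theorem side (h : Inp n F C L I) {Y B : ℝ} {U : ℍ → ℍ → ℂ} (hU : PiC n L Y B U) (κ : ℕ)
    (hκ : ∀ α (N : ℤ), -(L : ℤ) ≤ N → N < 0 → 0 ≤ 2 * κ + I α N) :
    ∃ (K Y' : ℝ) (W : ℤ → ℍ → ℂ), (∀ m, W m ∈ VV n K) ∧
      (∀ z w : ℍ, Y' < z.im → Y' < w.im →
        HasSum (fun m : ℤ => W m w * ee (m * (z : ℂ) / n)) (Rc U κ C L I z w)) ∧
      ∀ (g : SL(2, ℤ)) (z : ℍ), Y' < z.im → ∃ c : ℂ, ∀ w : ℍ, Y' < w.im →
        HasSum (fun m : ℤ => W m (g • w) * ee (m * (z : ℂ) / n))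
          (c * Rc U κ (fun α => C (red n g.1 * α)) L (fun α => I (red n g.1 * α)) z w) := by
  have hn : 0 < n := Nat.pos_of_ne_zero (NeZero.ne n)
  obtain ⟨a0, P, hP⟩ := exists_piE n L κ
  obtain ⟨Y0, K, hg⟩ := good_all hP h hU hκ
  obtain ⟨Y1, B1, hY1, -, -, d0, -, b0, -⟩ := sB_est h
  obtain ⟨B2, K2, hK2, hb⟩ := (aF_gb (L := L) (I := I) b0).1
  have h0 : (0 : ℝ) ≤ Y1 := by linarith
  obtain ⟨A, hA, -⟩ := exists_half hn (f := fun z : ℍ => aF C L I z)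
    (B := B2 * Real.exp (K2 * (sh Y1 UpperHalfPlane.I).im)) h0 hK2 (hd_of h0 (aF_diff d0))
    (fun τ _ => by rw [coe_vadd, Complex.ofReal_natCast, aF_per])
    (fun τ hτ => (hb τ (sh Y1 UpperHalfPlane.I) hτ (by rw [im_sh h0]; simp)).trans
      (le_of_eq (by rw [mul_add, Real.exp_add]; ring)))
  obtain ⟨a1, ha1⟩ := exists_low A
  have key : ∀ (g : SL(2, ℤ)) (z w : ℍ), max Y0 Y1 < z.im → max Y0 Y1 < w.im →
      HasSum (fun m : ℤ => (A * WW P F (g • w)).coeff m * ee (m * (z : ℂ) / n))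
        (aF C L I z * (aF (fun α => C (red n g.1 * α)) L (fun α => I (red n g.1 * α)) z)⁻¹ *
          Rc U κ (fun α => C (red n g.1 * α)) L (fun α => I (red n g.1 * α)) z w) := by
    intro g z w hz hw
    have := hasSum_mul_pt (t := fun N : ℤ => ee (N * (z : ℂ) / n)) (ee_step n z)
      (hA z (max_lt_iff.1 hz).2) ((hg g).1 z w (max_lt_iff.1 hz).1 (max_lt_iff.1 hw).1)
    rw [WW_smul hP h.wl, mul_assoc, mul_comm _ (Rc _ _ _ _ _ _ _)]
    exact this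
  refine ⟨K, max Y0 Y1, fun m w => (A * WW P F w).coeff m, fun m => ?_, fun z w hz hw => ?_,
    fun g z hz => ⟨_, fun w hw => key g z w hz hw⟩⟩
  · simp only [fun w => coeff_mul_range ha1 (WW_low hP F w)]
    exact vv_sum _ fun j _ => vv_smul (WW_vv hP h hg _) _
  · have := key 1 z w hz hw
    simp only [red_one', one_mul, one_smul] at this
    rwa [mul_inv_cancel₀ (aF_ne _ _ _ _), one_mul] at this

theorem ext_main (h : Inp n F C L I) {Y B : ℝ} {U : ℍ → ℍ → ℂ} (hU : PiC n L Y B U) (κ : ℕ)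
    (hκ : ∀ α (N : ℤ), -(L : ℤ) ≤ N → N < 0 → 0 ≤ 2 * κ + I α N) :
    ∃ (R : ℍ → ℍ → ℂ) (Y' : ℝ), Ten (CongruenceSubgroup.Gamma n) R ∧
      (∀ z w : ℍ, Y' < z.im → Y' < w.im → R z w = Rc U κ C L I z w) ∧
      ∀ (g : SL(2, ℤ)) (z : ℍ), Y' < z.im → ∃ c : ℂ, ∀ w : ℍ, Y' < w.im →
        R z (g • w) = c * Rc U κ (fun α => C (red n g.1 * α)) L (fun α => I (red n g.1 * α)) z w := by
  have hn : 0 < n := Nat.pos_of_ne_zero (NeZero.ne n)
  obtain ⟨K, Y1, W, hW, s1, s2⟩ := side h hU κ hκ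
  obtain ⟨K', Y2, W', hW', s3, -⟩ := side h.adj hU κ fun α => hκ _
  obtain ⟨c, hc⟩ := rc_adj h hU.symm κ
  obtain ⟨R, hR, e1, e2⟩ := ten_of_ext n hn (max K K') (max Y1 Y2) (Rc U κ C L I) W
    (fun m z => c * W' m z) (fun m => vv_mono (le_max_left _ _) (hW m))
    (fun m => vv_mono (le_max_right _ _) (vv_smul (hW' m) c))
    (fun z w hz hw => s1 z w (max_lt_iff.1 hz).1 (max_lt_iff.1 hw).1)
    (fun z w hz hw => by
      rw [hc]
      simp only [mul_assoc]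
      exact (s3 w z (max_lt_iff.1 hw).2 (max_lt_iff.1 hz).2).mul_left c)
  refine ⟨R, max Y1 Y2, hR, e1, fun g z hz => ?_⟩
  obtain ⟨d, hd⟩ := s2 g z (max_lt_iff.1 hz).1
  exact ⟨d, fun w hw => (e2 z hz _).unique (hd w (max_lt_iff.1 hw).1)⟩

end Pool.Agent.Lib.MP_d6ddbd_nt.K
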