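import Mathlib

/-!
Division of holomorphic functions by prescribed zeros, with uniform bounds.
-/

set_option autoImplicit false

open Filter Topology Metric

namespace Pool.Agent.Lib.MP_d6ddbd_nt.K.Lm

theorem order_pow_mul {g : ℂ → ℂ} {p : ℂ} (hg : AnalyticAt ℂ g p) (s : ℂ) (m : ℕ) :
    analyticOrderAt (fun t => (t - s) ^ m * g t) p =
      ((if s = p then m else 0 : ℕ) : ℕ∞) + analyticOrderAt g p := by
  have h1 : AnalyticAt ℂ ((· - s) ^ m) p := by fun_prop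
  have h2 := analyticOrderAt_mul h1 hg
  have h3 : analyticOrderAt ((· - s) ^ m) p = ((if s = p then m else 0 : ℕ) : ℕ∞) := by
    split_ifs with h
    · subst h
      exact analyticOrderAt_centeredMonomial
    · rw [Nat.cast_zero, h1.analyticOrderAt_eq_zero]
      exact pow_ne_zero _ (sub_ne_zero.2 (Ne.symm h))
  rw [← h3, ← h2]
  rfl

theorem div_pow' {Ω : Set ℂ} (hΩ : IsOpen Ω) {f : ℂ → ℂ} (hf : DifferentiableOn ℂ f Ω) {s : ℂ}
    (hs : s ∈ Ω) (m : ℕ) (hm : (m : ℕ∞) ≤ analyticOrderAt f s) :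
    ∃ g : ℂ → ℂ, DifferentiableOn ℂ g Ω ∧ ∀ t, f t = (t - s) ^ m * g t := by
  induction m with
  | zero => exact ⟨f, hf, by simp⟩
  | succ m ih =>
    obtain ⟨g, g1, g2⟩ := ih (le_trans (by exact_mod_cast Nat.le_succ m) hm)
    have ga : AnalyticAt ℂ g s := g1.analyticAt (hΩ.mem_nhds hs)
    have g0 : g s = 0 := by
      by_contra hne
      rw [funext g2, order_pow_mul ga, if_pos rfl, ga.analyticOrderAt_eq_zero.2 hne, add_zero] at hm
      exact absurd (by exact_mod_cast hm : m + 1 ≤ m) (by omega)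
    refine ⟨dslope g s, (Complex.differentiableOn_dslope (hΩ.mem_nhds hs)).2 g1, fun t => ?_⟩
    have := sub_smul_dslope g s t
    rw [g0, sub_zero, smul_eq_mul] at this
    rw [g2 t, ← this]
    ring

theorem div_prod {ι : Type*} {Ω : Set ℂ} (hΩ : IsOpen Ω) (s : ι → ℂ) (m : ι → ℕ) (J : Finset ι) :
    ∀ {f : ℂ → ℂ}, DifferentiableOn ℂ f Ω → (∀ j ∈ J, s j ∈ Ω) →
      (∀ p ∈ Ω, ((∑ j ∈ J, if s j = p then m j else 0 : ℕ) : ℕ∞) ≤ analyticOrderAt f p) →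
      ∃ U : ℂ → ℂ, DifferentiableOn ℂ U Ω ∧ ∀ t, f t = (∏ j ∈ J, (t - s j) ^ m j) * U t := by
  classical
  induction J using Finset.induction_on with
  | empty => exact fun {f} hf _ _ => ⟨f, hf, by simp⟩
  | insert j J hj ih =>
    intro f hf hs hc
    have hsj := hs j (Finset.mem_insert_self _ _)
    obtain ⟨g, g1, g2⟩ := div_pow' hΩ hf hsj (m j) (by
      refine le_trans ?_ (hc _ hsj)
      rw [Finset.sum_insert hj, if_pos rfl]
      exact_mod_cast Nat.le_add_right _ _)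
    obtain ⟨U, u1, u2⟩ := ih g1 (fun i hi => hs i (Finset.mem_insert_of_mem hi)) fun p hp => by
      have := hc p hp
      rw [Finset.sum_insert hj, funext g2, order_pow_mul (g1.analyticAt (hΩ.mem_nhds hp)),
        Nat.cast_add] at this
      exact (ENat.add_le_add_iff_left (ENat.natCast_ne_top _)).1 this
    refine ⟨U, u1, fun t => ?_⟩
    rw [Finset.prod_insert hj, g2, u2, mul_assoc]

theorem div_bound {ι : Type*} {Ω : Set ℂ} (hΩ : IsOpen Ω) (s : ι → ℂ) (m : ι → ℕ) (J : Finset ι)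
    {f : ℂ → ℂ} (hf : DifferentiableOn ℂ f Ω) {w : ℂ} {ρ C : ℝ} (hρ : 0 < ρ)
    (hb : closedBall w ρ ⊆ Ω) (hs : ∀ j ∈ J, s j ∈ closedBall w (ρ / 2))
    (hc : ∀ p ∈ Ω, ((∑ j ∈ J, if s j = p then m j else 0 : ℕ) : ℕ∞) ≤ analyticOrderAt f p)
    (hC : ∀ t ∈ sphere w ρ, ‖f t‖ ≤ C) :
    ∃ U : ℂ → ℂ, DifferentiableOn ℂ U Ω ∧ (∀ t, f t = (∏ j ∈ J, (t - s j) ^ m j) * U t) ∧
      ∀ t ∈ closedBall w ρ, ‖U t‖ ≤ C / (ρ / 2) ^ ∑ j ∈ J, m j := by
  obtain ⟨U, u1, u2⟩ := div_prod hΩ s m J hf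
    (fun j hj => hb (closedBall_subset_closedBall (by linarith) (hs j hj))) hc
  refine ⟨U, u1, u2, fun t ht => ?_⟩
  refine Complex.norm_le_of_forall_mem_frontier_norm_le (U := ball w ρ) isBounded_ball
    (DifferentiableOn.diffContOnCl (by rw [closure_ball _ hρ.ne']; exact u1.mono hb)) ?_
    (by rwa [closure_ball _ hρ.ne'])
  intro x hx
  rw [frontier_ball _ hρ.ne'] at hx
  rw [le_div_iff₀ (by positivity)]
  refine le_trans ?_ (hC x hx)
  rw [u2, norm_mul, mul_comm, norm_prod, ← Finset.prod_pow_eq_pow_sum]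
  refine mul_le_mul_of_nonneg_right (Finset.prod_le_prod (fun j _ => by positivity) fun j hj => ?_)
    (norm_nonneg _)
  rw [norm_pow]
  refine pow_le_pow_left₀ (by positivity) ?_ _
  have h1 := hs j hj
  rw [mem_closedBall, dist_eq_norm] at h1
  rw [mem_sphere, dist_eq_norm] at hx
  have h2 : ‖x - w‖ ≤ ‖x - s j‖ + ‖s j - w‖ := by
    simpa using norm_add_le (x - s j) (s j - w)
  linarith

theorem le_two_mul_order {f : ℂ → ℂ} {w : ℂ} (hf : AnalyticAt ℂ f w)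
    (h0 : analyticOrderAt f w ≠ ⊤) {K : ℝ} {N : ℕ}
    (h : ∀ᶠ t in 𝓝[≠] w, ‖f t‖ ^ 2 ≤ K * ‖t - w‖ ^ N) : N ≤ 2 * analyticOrderNatAt f w := by
  obtain ⟨g, g1, g2, g3⟩ := (hf.analyticOrderNatAt_eq_iff h0).1 rfl
  set k := analyticOrderNatAt f w
  by_contra hlt
  obtain ⟨d, hd⟩ : ∃ d, N = 2 * k + (d + 1) := ⟨N - 2 * k - 1, by omega⟩
  have h1 : ∀ᶠ t in 𝓝[≠] w, ‖g t‖ ^ 2 ≤ K * ‖t - w‖ ^ (d + 1) := by
    filter_upwards [h, nhdsWithin_le_nhds g3, self_mem_nhdsWithin] with t a1 a2 a3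
    have a4 : 0 < ‖t - w‖ ^ (2 * k) := pow_pos (norm_pos_iff.2 (sub_ne_zero.2 a3)) _
    rw [a2, smul_eq_mul, norm_mul, norm_pow, hd, pow_add] at a1
    refine le_of_mul_le_mul_left ?_ a4
    calc _ = (‖t - w‖ ^ k * ‖g t‖) ^ 2 := by ring
      _ ≤ _ := a1
      _ = _ := by ring
  have h2 : Tendsto (fun t => ‖g t‖ ^ 2) (𝓝[≠] w) (𝓝 (‖g w‖ ^ 2)) :=
    (g1.continuousAt.norm.pow 2).tendsto.mono_left nhdsWithin_le_nhds
  have h3 : Tendsto (fun t => K * ‖t - w‖ ^ (d + 1)) (𝓝[≠] w) (𝓝 (K * ‖w - w‖ ^ (d + 1))) :=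
    (Continuous.tendsto (by fun_prop) w).mono_left nhdsWithin_le_nhds
  have h4 := le_of_tendsto_of_tendsto h2 h3 h1
  rw [sub_self, norm_zero, zero_pow (by omega), mul_zero] at h4
  have := pow_pos (norm_pos_iff.2 g2) 2
  linarith

theorem iteratedDeriv_of_eq {f g : ℂ → ℂ} {p : ℂ} (hg : AnalyticAt ℂ g p) {k : ℕ}
    (h : ∀ᶠ t in 𝓝 p, f t = (t - p) ^ k * g t) :
    (k.factorial : ℂ)⁻¹ * iteratedDeriv k f p = g p := by
  have h1 : iteratedDeriv k f p = iteratedDeriv k (fun t => (t - p) ^ k * g t) p :=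
    EventuallyEq.iteratedDeriv_eq k h
  have h2 : ∀ i, iteratedDeriv i (fun t : ℂ => (t - p) ^ k) p =
      if i = k then (k.factorial : ℂ) else 0 := fun i => by
    rw [iteratedDeriv_comp_sub_const i (fun t : ℂ => t ^ k) p]
    simp only [sub_self]
    rw [iteratedDeriv_fun_pow_zero (𝕜 := ℂ)]
    split_ifs <;> simp
  rw [h1, iteratedDeriv_fun_mul (by fun_prop) hg.contDiffAt, Finset.sum_eq_single k]
  · have : (k.factorial : ℂ) ≠ 0 := by exact_mod_cast k.factorial_ne_zero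
    rw [h2, if_pos rfl]
    simp [this]
  · intro i _ hi
    rw [h2, if_neg hi]
    simp
  · simp

end Pool.Agent.Lib.MP_d6ddbd_nt.K.Lm
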