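import Mathlib
import Pool.Agent.Lib.MP_d6ddbd_nt.K.Hec

/-!
Proportional matrices and their multiplicities.
-/

set_option autoImplicit false

open UpperHalfPlane
open scoped MatrixGroups

noncomputable section

namespace Pool.Agent.Lib.MP_d6ddbd_nt.K.Lm

theorem quad_zero {c d e : ℤ} {z z' : ℍ} (hne : z' ≠ z) (h : (c : ℂ) * z ^ 2 + d * z + e = 0)
    (h' : (c : ℂ) * z' ^ 2 + d * z' + e = 0) : c = 0 ∧ d = 0 ∧ e = 0 := by
  have h1 : (z' : ℂ) - z ≠ 0 := sub_ne_zero.2 fun k => hne (UpperHalfPlane.ext k)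
  have h2 : (c : ℂ) * (z' + z) + d = 0 :=
    mul_left_cancel₀ h1 (by linear_combination h' - h)
  have h3 := congrArg Complex.im h2
  simp only [Complex.add_im, Complex.mul_im, Complex.intCast_re, Complex.intCast_im, zero_mul,
    add_zero, coe_im, Complex.zero_im] at h3
  have h4 : 0 < z'.im + z.im := add_pos z'.im_pos z.im_pos
  have hc : c = 0 := by exact_mod_cast (mul_eq_zero.1 h3).resolve_right h4.ne'
  subst hc
  have hd : d = 0 := by simpa using h2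
  subst hd
  exact ⟨rfl, rfl, by simpa using h⟩

theorem cross_of_act {α β : Mat ℤ} (hα : 0 < α.det) (hβ : 0 < β.det) {z : ℍ}
    (h : act α z = act β z) :
    ((α 0 0 * β 1 0 - β 0 0 * α 1 0 : ℤ) : ℂ) * z ^ 2 +
      ((α 0 0 * β 1 1 + α 0 1 * β 1 0 - β 0 0 * α 1 1 - β 0 1 * α 1 0 : ℤ) : ℂ) * z +
      ((α 0 1 * β 1 1 - β 0 1 * α 1 1 : ℤ) : ℂ) = 0 := by
  have h1 : (act α z : ℂ) = act β z := by rw [h]
  rw [coe_act hα, coe_act hβ, div_eq_div_iff (den_ne hα z) (den_ne hβ z)] at h1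
  push_cast
  linear_combination h1

theorem eq_smul_of_act {α β : Mat ℤ} (hα : 0 < α.det) (hp : Prim α) (hβ : 0 < β.det) {z z' : ℍ}
    (hne : z' ≠ z) (h : act α z = act β z) (h' : act α z' = act β z') : ∃ k : ℤ, β = k • α := by
  obtain ⟨c, d, e⟩ := quad_zero hne (cross_of_act hα hβ h) (cross_of_act hα hβ h')
  set l := α 1 1 * β 0 0 - α 0 1 * β 1 0 with hl
  have key : ∀ i j, α.det * β i j = l * α i j := by
    simp only [Fin.forall_fin_two, Matrix.det_fin_two, hl]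
    refine ⟨⟨?_, ?_⟩, ?_, ?_⟩
    · linear_combination α 0 1 * c
    · linear_combination α 0 1 * d - α 0 0 * e
    · linear_combination α 1 1 * c
    · linear_combination α 1 1 * d - α 1 0 * e
  obtain ⟨g, D, l', hg, hco, hD, hl'⟩ : ∃ g D l' : ℤ, g ≠ 0 ∧ IsCoprime D l' ∧ α.det = D * g ∧
      l = l' * g := by
    have h0 : 0 < Int.gcd α.det l := Int.gcd_pos_of_ne_zero_left _ hα.ne'
    obtain ⟨g, D, l', a1, a2, a3, a4⟩ := Int.exists_gcd_one' h0
    exact ⟨g, D, l', by exact_mod_cast a1.ne', Int.isCoprime_iff_gcd_eq_one.2 a2, a3, a4⟩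
  have key' : ∀ i j, D * β i j = l' * α i j := fun i j =>
    mul_left_cancel₀ hg (by linear_combination key i j - β i j * hD + α i j * hl')
  obtain ⟨u, hu⟩ := (hp D fun i j => hco.dvd_of_dvd_mul_left ⟨_, (key' i j).symm⟩).exists_left_inv
  refine ⟨u * l', ?_⟩
  ext i j
  rw [Matrix.smul_apply, smul_eq_mul]
  linear_combination u * key' i j - β i j * hu

theorem det_zsmul (k : ℤ) (α : Mat ℤ) : (k • α).det = k ^ 2 * α.det := by
  rw [Matrix.det_smul, Fintype.card_fin]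

theorem exists_prim {α : Mat ℤ} (hα : 0 < α.det) :
    ∃ (k : ℤ) (β : Mat ℤ), k ≠ 0 ∧ 0 < β.det ∧ Prim β ∧ α = k • β := by
  obtain ⟨g, g1, g2⟩ := Finset.extract_gcd (s := Finset.univ)
    (fun p : Fin 2 × Fin 2 => α p.1 p.2) Finset.univ_nonempty
  set k := Finset.univ.gcd fun p : Fin 2 × Fin 2 => α p.1 p.2
  have e : α = k • (Matrix.of fun i j => g (i, j)) := by
    ext i j
    exact g1 (i, j) (Finset.mem_univ _)
  have hd := hα
  rw [e, det_zsmul] at hd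
  have hk : k ≠ 0 := by
    rintro h
    simp [h] at hd
  refine ⟨k, _, hk, (mul_pos_iff_of_pos_left (by positivity)).1 hd, fun d hdv => ?_, e⟩
  refine isUnit_of_dvd_one ?_
  rw [← g2]
  exact Finset.dvd_gcd fun p _ => hdv p.1 p.2

theorem prim_one : Prim 1 := fun d h => isUnit_of_dvd_one (by simpa using h 0 0)

/-- The positive multipliers. -/
def mults (L : ℕ) (α : Mat ℤ) : Finset ℕ :=
  (Finset.Icc 1 L).filter (fun k : ℕ => (k : ℤ) ^ 2 * α.det ≤ L)

/-- The multiples of `α` of determinant in `[1, L]`. -/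
def Sc (L : ℕ) (α : Mat ℤ) : Finset (Mat ℤ) :=
  (mults L α).image (fun k : ℕ => (k : ℤ) • α) ∪ (mults L α).image (fun k : ℕ => -((k : ℤ) • α))

theorem mem_Sc {L : ℕ} {α β : Mat ℤ} (hα : 0 < α.det) :
    β ∈ Sc L α ↔ (∃ k : ℤ, β = k • α) ∧ 1 ≤ β.det ∧ β.det ≤ L := by
  simp only [Sc, mults, Finset.mem_union, Finset.mem_image, Finset.mem_filter, Finset.mem_Icc]
  constructor
  · rintro (⟨k, ⟨⟨h1, -⟩, h2⟩, rfl⟩ | ⟨k, ⟨⟨h1, -⟩, h2⟩, rfl⟩)
    · have : (1 : ℤ) ≤ k := by exact_mod_cast h1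
      refine ⟨⟨k, rfl⟩, ?_, ?_⟩ <;> rw [det_zsmul]
      exacts [by nlinarith [mul_pos (by positivity : (0 : ℤ) < (k : ℤ) ^ 2) hα], h2]
    · have : (1 : ℤ) ≤ k := by exact_mod_cast h1
      rw [← _root_.neg_smul]
      refine ⟨⟨_, rfl⟩, ?_, ?_⟩ <;> rw [det_zsmul, neg_sq]
      exacts [by nlinarith [mul_pos (by positivity : (0 : ℤ) < (k : ℤ) ^ 2) hα], h2]
  · rintro ⟨⟨k, rfl⟩, h1, h2⟩
    rw [det_zsmul] at h1 h2
    obtain ⟨n, hn⟩ := k.eq_nat_or_neg
    have e : k ^ 2 = (n : ℤ) ^ 2 := by rcases hn with rfl | rfl <;> ring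
    rw [e] at h1 h2
    have n1 : 1 ≤ n := by
      rcases Nat.eq_zero_or_pos n with rfl | h
      · simp at h1
      · exact h
    have n2 : n ≤ L := by
      have : (1 : ℤ) ≤ n := by exact_mod_cast n1
      have : (n : ℤ) ≤ L := by nlinarith
      exact_mod_cast this
    rcases hn with rfl | rfl
    · exact Or.inl ⟨n, ⟨⟨n1, n2⟩, h2⟩, rfl⟩
    · exact Or.inr ⟨n, ⟨⟨n1, n2⟩, h2⟩, (_root_.neg_smul _ _).symm⟩

theorem sum_Sc {μ : Mat ℤ → ℕ} (hμ : ∀ α, μ (-α) = μ α) (L : ℕ) {α : Mat ℤ} (hα : 0 < α.det) :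
    ∑ β ∈ Sc L α, μ β = 2 * msum L μ α := by
  have h0 : α ≠ 0 := by
    rintro rfl
    simp at hα
  have inj : ∀ k k' : ℤ, k • α = k' • α → k = k' := fun k k' h => smul_left_injective ℤ h0 h
  rw [Sc, Finset.sum_union, Finset.sum_image, Finset.sum_image, two_mul]
  · simp only [hμ]
    rfl
  · intro k _ k' _ h
    exact_mod_cast inj _ _ (neg_injective h)
  · intro k _ k' _ h
    exact_mod_cast inj _ _ h
  · rw [Finset.disjoint_left]
    intro β h h'
    obtain ⟨k, hk, rfl⟩ := Finset.mem_image.1 h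
    obtain ⟨k', -, e⟩ := Finset.mem_image.1 h'
    rw [← _root_.neg_smul] at e
    have := inj _ _ e
    have := (Finset.mem_Icc.1 (Finset.mem_filter.1 hk).1).1
    omega

end Pool.Agent.Lib.MP_d6ddbd_nt.K.Lm
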