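import Mathlib
import Pool.Agent.Lib.MP_d6ddbd_nt.K.Pi
import Pool.Agent.Lib.MP_d6ddbd_nt.K.Lim1
import Pool.Agent.Lib.MP_d6ddbd_nt.K.Lim2

/-!
The limit lemma for finite sums of products of modular functions.
-/

set_option autoImplicit false

open UpperHalfPlane Filter Topology Metric
open scoped MatrixGroups

noncomputable section

namespace Pool.Agent.Lib.MP_d6ddbd_nt.K.Lm

variable {Γ : Subgroup SL(2, ℤ)} {R : ℍ → ℍ → ℂ} {L : ℕ} {μ : Mat ℤ → ℕ}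

theorem deriv_ten {k : ℕ} {a b : Fin k → ℍ → ℂ} (hb : ∀ j, Hol (b j))
    (e : ∀ z₁ z₂, R z₁ z₂ = ∑ j, a j z₁ * b j z₂) (i : ℕ) (z p : ℍ) :
    iteratedDeriv i (R z ∘ ofComplex) p = ∑ j, a j z * iteratedDeriv i (b j ∘ ofComplex) p := by
  have : R z ∘ ofComplex = fun t => ∑ j, a j z * (b j ∘ ofComplex) t := funext fun t => e _ _
  rw [this, iteratedDeriv_fun_sum fun j _ =>
    (analyticAt_const.fun_mul ((hb j).analyticAt p)).contDiffAt]
  exact Finset.sum_congr rfl fun j _ => iteratedDeriv_const_mul_field _ _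

theorem van_le (h : Ten Γ R) {α : Mat ℤ} {k : ℕ} (v : Van R α k) (z : ℍ) :
    (k : ℕ∞) ≤ analyticOrderAt (R z ∘ ofComplex) (act α z) :=
  (natCast_le_analyticOrderAt_iff_iteratedDeriv_eq_zero ((h.mf z).hol.analyticAt _)).2 (v z)

theorem van_fac (h : Ten Γ R) {k : ℕ} (v : Van R 1 k) (z : ℍ) :
    ∃ g : ℂ → ℂ, DifferentiableOn ℂ g {t : ℂ | 0 < t.im} ∧
      (∀ t, R z (ofComplex t) = (t - z) ^ k * g t) ∧ qp k R z = g z := by
  have := van_le h v z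
  rw [act_one] at this
  obtain ⟨g, g1, g2⟩ := div_pow' isOpen_upperHalfPlaneSet (h.mf z).hol z.im_pos k this
  exact ⟨g, g1, g2, iteratedDeriv_of_eq (g1.analyticAt (isOpen_upperHalfPlaneSet.mem_nhds z.im_pos))
    (Eventually.of_forall g2)⟩

theorem van_of_fac {k : ℕ} {G : ℍ → ℂ}
    (h : ∀ z : ℍ, ∃ g : ℂ → ℂ, AnalyticAt ℂ g z ∧
      (∀ᶠ t in 𝓝 (z : ℂ), R z (ofComplex t) = (t - z) ^ k * g t) ∧ g z = G z) :
    Van R 1 k ∧ ∀ z, qp k R z = G z := by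
  refine ⟨fun z => ?_, fun z => ?_⟩
  · obtain ⟨g, g1, g2, -⟩ := h z
    have a1 : AnalyticAt ℂ (R z ∘ ofComplex) z :=
      AnalyticAt.congr (f := fun t => (t - z) ^ k * g t) (by fun_prop) (EventuallyEq.symm g2)
    rw [act_one, ← natCast_le_analyticOrderAt_iff_iteratedDeriv_eq_zero a1,
      natCast_le_analyticOrderAt a1]
    exact ⟨g, g1, g2⟩
  · obtain ⟨g, g1, g2, g3⟩ := h z
    exact (iteratedDeriv_of_eq g1 g2).trans g3

theorem tend_of (z : ℍ) : Tendsto ofComplex (𝓝 (z : ℂ)) (𝓝 z) := by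
  have := (mdifferentiableAt_ofComplex z.im_pos).continuousAt.tendsto
  rwa [ofComplex_apply] at this

theorem ev_coe (z : ℍ) : ∀ᶠ t in 𝓝 (z : ℂ), ((ofComplex t : ℍ) : ℂ) = t :=
  eventuallyEq_coe_comp_ofComplex z.im_pos

theorem ev_punct {z : ℍ} {P : ℍ → Prop} (h : ∀ᶠ z₁ in 𝓝 z, z₁ ≠ z → P z₁) :
    ∀ᶠ t in 𝓝[≠] (z : ℂ), P (ofComplex t) := by
  filter_upwards [nhdsWithin_le_nhds ((tend_of z).eventually h), nhdsWithin_le_nhds (ev_coe z),
    self_mem_nhdsWithin] with t h1 h2 h3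
  refine h1 fun e => h3 ?_
  rw [← e]
  exact h2.symm

theorem hol_act {α : Mat ℤ} (hα : 0 < α.det) : Hol fun z => (act α z : ℂ) := hol_coe.act hα

theorem ten_bound (h : Ten Γ R) (z : ℍ) {S : Set ℂ} (hS : IsCompact S)
    (hH : S ⊆ {t : ℂ | 0 < t.im}) :
    ∃ C : ℝ, ∀ᶠ z₁ in 𝓝 z, ∀ t ∈ S, ‖R z₁ (ofComplex t)‖ ≤ C := by
  obtain ⟨k, a, b, ha, hb, e⟩ := h
  choose B hB using fun j =>
    hS.exists_bound_of_continuousOn (((hb j).hol : DifferentiableOn ℂ _ _).continuousOn.mono hH)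
  have h1 : ∀ᶠ z₁ in 𝓝 z, ∀ j, ‖a j z₁‖ < ‖a j z‖ + 1 := eventually_all.2 fun j =>
    ((ha j).hol.continuous.norm.tendsto z).eventually (gt_mem_nhds (lt_add_one _))
  refine ⟨∑ j, (‖a j z‖ + 1) * B j, h1.mono fun z₁ h1 t ht => ?_⟩
  rw [e]
  refine (norm_sum_le _ _).trans (Finset.sum_le_sum fun j _ => ?_)
  rw [norm_mul]
  exact mul_le_mul (h1 j).le (hB j t ht) (norm_nonneg _) (by positivity)

theorem count_le (h : Ten Γ R) (hμ : ∀ α, μ (-α) = μ α)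
    (hv : ∀ α, 0 < α.det → Prim α → Van R α (msum L μ α)) {z w z₁ : ℍ} (hne : z₁ ≠ z) (p : ℂ) :
    ((∑ α ∈ (mm_finite L z w).toFinset, if (act α z₁ : ℂ) = p then μ α else 0 : ℕ) : ℕ∞) ≤
      analyticOrderAt ((R z₁ ∘ ofComplex) ^ 2) p := by
  rw [← Finset.sum_filter]
  rcases ((mm_finite L z w).toFinset.filter fun α => (act α z₁ : ℂ) = p).eq_empty_or_nonempty with
    h0 | ⟨α, hα⟩
  · simp [h0]
  simp only [Finset.mem_filter, Set.Finite.mem_toFinset, mem_MM] at hα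
  obtain ⟨k, β, hk, hβ, hp, rfl⟩ := exists_prim (α := α) (by omega)
  rw [act_smul hk, act_smul hk] at hα
  obtain ⟨⟨-, -, a1⟩, rfl⟩ := hα
  have hsub : ((mm_finite L z w).toFinset.filter fun α => (act α z₁ : ℂ) = act β z₁) ⊆ Sc L β := by
    intro γ hγ
    simp only [Finset.mem_filter, Set.Finite.mem_toFinset, mem_MM] at hγ
    obtain ⟨⟨b1, b2, b3⟩, b4⟩ := hγ
    exact (mem_Sc hβ).2 ⟨eq_smul_of_act hβ hp (by omega) hne (a1.trans b3.symm)
      (UpperHalfPlane.ext b4.symm), b1, b2⟩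
  have c1 := Finset.sum_le_sum_of_subset (f := μ) hsub
  rw [sum_Sc hμ L hβ] at c1
  have c2 := van_le h (hv β hβ hp) z₁
  rw [analyticOrderAt_pow ((h.mf z₁).hol.analyticAt _), two_nsmul]
  refine le_trans ?_ (add_le_add c2 c2)
  rw [two_mul] at c1
  exact_mod_cast c1

theorem lim_main (h : Ten Γ R) (hμ : ∀ α, μ (-α) = μ α)
    (hv : ∀ α, 0 < α.det → Prim α → Van R α (msum L μ α)) (z w : ℍ) :
    ∃ K ρ : ℝ, 0 < ρ ∧ ∀ᶠ z₁ in 𝓝 z, z₁ ≠ z → ∃ U : ℂ → ℂ,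
      DifferentiableOn ℂ U {t : ℂ | 0 < t.im} ∧
      (∀ t, R z₁ (ofComplex t) ^ 2 =
        (∏ α ∈ (mm_finite L z w).toFinset, (t - act α z₁) ^ μ α) * U t) ∧
      ∀ t ∈ closedBall (w : ℂ) ρ, ‖U t‖ ≤ K := by
  have hρ : 0 < w.im / 2 := half_pos w.im_pos
  have hb : closedBall (w : ℂ) (w.im / 2) ⊆ {t : ℂ | 0 < t.im} := fun t ht => by
    rw [mem_closedBall, dist_eq_norm] at ht
    have h1 := (abs_le.1 ((Complex.abs_im_le_norm _).trans ht)).1
    rw [Complex.sub_im, coe_im] at h1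
    change 0 < t.im
    linarith
  obtain ⟨C, hC⟩ := ten_bound h z (isCompact_sphere (w : ℂ) (w.im / 2))
    (sphere_subset_closedBall.trans hb)
  have h1 : ∀ᶠ z₁ in 𝓝 z, ∀ α ∈ (mm_finite L z w).toFinset,
      (act α z₁ : ℂ) ∈ closedBall (w : ℂ) (w.im / 2 / 2) := by
    refine (eventually_all_finset _).2 fun α hα => ?_
    rw [Set.Finite.mem_toFinset, mem_MM] at hα
    have := (hol_act (α := α) (by omega)).continuous.tendsto z
    rw [hα.2.2] at this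
    exact this.eventually (closedBall_mem_nhds _ (half_pos hρ))
  refine ⟨C ^ 2 / (w.im / 2 / 2) ^ ∑ α ∈ (mm_finite L z w).toFinset, μ α, w.im / 2, hρ, ?_⟩
  filter_upwards [hC, h1] with z₁ a1 a2 hne
  refine div_bound isOpen_upperHalfPlaneSet (fun α => (act α z₁ : ℂ)) μ _
    (f := (R z₁ ∘ ofComplex) ^ 2) (DifferentiableOn.pow (h.mf z₁).hol 2) hρ hb a2
    (fun p _ => count_le h hμ hv hne p) fun t ht => ?_
  rw [Pi.pow_apply, norm_pow]
  exact pow_le_pow_left₀ (norm_nonneg _) (a1 t ht) 2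

theorem eq_of_punct {F G : ℂ → ℂ} {p : ℂ} (hF : ContinuousAt F p) (hG : ContinuousAt G p)
    (h : ∀ t ≠ p, F t = G t) : F p = G p :=
  tendsto_nhds_unique_of_eventuallyEq (l := 𝓝[≠] p) (hF.tendsto.mono_left nhdsWithin_le_nhds)
    (hG.tendsto.mono_left nhdsWithin_le_nhds) (eventually_nhdsWithin_of_forall h)

theorem qe_iter {n : ℕ} (hn : 0 < n) {f : ℍ → ℂ} {c : LaurentSeries ℂ} (h : QE n f c) (k : ℕ) :
    ∃ d, QE n (fun τ => iteratedDeriv k (f ∘ ofComplex) τ) d := by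
  induction k with
  | zero => exact ⟨c, by simpa using h⟩
  | succ k ih =>
    obtain ⟨d, hd⟩ := ih
    obtain ⟨d', hd', -⟩ := hd.deriv hn
    have h2 := hd'.smul (2 * Real.pi * Complex.I)
    refine ⟨_, (congrArg (fun F => QE n F _) (funext fun τ => ?_)).mp h2⟩
    have e : ((fun τ : ℍ => iteratedDeriv k (f ∘ ofComplex) τ) ∘ ofComplex) =ᶠ[𝓝 (τ : ℂ)]
        iteratedDeriv k (f ∘ ofComplex) := (ev_coe τ).mono fun t ht => by
      simp only [Function.comp_apply, ht]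
    rw [Derivative.normalizedDerivOfComplex, e.deriv_eq, iteratedDeriv_succ, ← mul_assoc,
      mul_inv_cancel₀ Complex.two_pi_I_ne_zero, one_mul]

theorem qe_wm2 : ∃ c, QE 1 wm2 c := by
  obtain ⟨a, ha, -⟩ := qe_E4
  obtain ⟨b, hb, -⟩ := qe_E6
  obtain ⟨c, hc, -⟩ := qe_Delta
  exact ⟨_, (ha.mul hb).mul (hc.inv one_pos ModularForm.discriminant_ne_zero)⟩

theorem wm2_smul (γ : SL(2, ℤ)) (τ : ℍ) :
    wm2 (γ • τ) = (((γ.1 1 0 : ℂ) * τ + γ.1 1 1) ^ 2)⁻¹ * wm2 τ := by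
  have hγ : (γ : GL (Fin 2) ℝ) ∈ 𝒮ℒ := ⟨γ, rfl⟩
  have h1 : ModularForm.E₄ (γ • τ) = _ := SlashInvariantForm.slash_action_eqn'' ModularForm.E₄ hγ τ
  have h4 : ModularForm.E₆ (γ • τ) = _ := SlashInvariantForm.slash_action_eqn'' ModularForm.E₆ hγ τ
  have h2 : ModularForm.discriminant (γ • τ) = _ :=
    SlashInvariantForm.slash_action_eqn'' CuspForm.discriminant hγ τ
  have h3 := denom_ne_zero (γ : GL (Fin 2) ℝ) τ
  have := ModularForm.discriminant_ne_zero τ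
  rw [wm2, wm2, h1, h2, h4, CuspForm.coe_discriminant, ← ModularGroup.denom_apply]
  generalize denom (γ : GL (Fin 2) ℝ) τ = d at h3 ⊢
  rw [zpow_ofNat, zpow_ofNat, zpow_ofNat]
  field_simp

theorem qp_smul (h : Ten Γ R) {k : ℕ} (v : Van R 1 k) (g : SL(2, ℤ)) (z : ℍ) :
    qp k R (g • z) * wm2 (g • z) ^ k = qp k (fun z w => R (g • z) (g • w)) z * wm2 z ^ k := by
  have hd : 0 < g.1.det := by rw [g.2]; exact one_pos
  have key := (van_of_fac (R := fun z w => R (g • z) (g • w)) (k := k)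
    (G := fun z => (((g.1 1 0 : ℂ) * z + g.1 1 1) ^ 2)⁻¹ ^ k * qp k R (g • z)) fun z => by
      obtain ⟨G, g1, g2, g3⟩ := van_fac h v (g • z)
      have a1 := ((hol_of g1).smul g).analyticAt z
      have d1 := den_ne hd z
      refine ⟨fun t => (((g.1 1 0 : ℂ) * t + g.1 1 1) * ((g.1 1 0 : ℂ) * z + g.1 1 1))⁻¹ ^ k *
        ((fun τ : ℍ => G (g • τ : ℍ)) ∘ ofComplex) t, ?_, ?_, ?_⟩
      · have a2 : AnalyticAt ℂ (fun t : ℂ =>
            ((g.1 1 0 : ℂ) * t + g.1 1 1) * ((g.1 1 0 : ℂ) * z + g.1 1 1)) z := by fun_prop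
        exact ((a2.fun_inv (mul_ne_zero d1 d1)).fun_pow k).fun_mul a1
      · filter_upwards [ev_coe z] with t ht
        have d2 := den_ne hd (ofComplex t)
        have e1 := g2 (g • ofComplex t : ℍ)
        have e2 : ((g • ofComplex t : ℍ) : ℂ) - (g • z : ℍ) = (t - z) *
            (((g.1 1 0 : ℂ) * t + g.1 1 1) * ((g.1 1 0 : ℂ) * z + g.1 1 1))⁻¹ := by
          have e3 : (g.1 0 0 : ℂ) * g.1 1 1 - g.1 0 1 * g.1 1 0 = 1 := by
            exact_mod_cast g.1.det_fin_two.symm.trans g.2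
          rw [← act_sl, ← act_sl, coe_act hd, coe_act hd, ht]
          rw [ht] at d2
          rw [div_sub_div _ _ d2 d1, div_eq_mul_inv]
          congr 1
          linear_combination (t - z) * e3
        rw [ofComplex_apply, e2] at e1
        rw [e1, mul_pow, mul_assoc]
        rfl
      · simp only [Function.comp_apply, ofComplex_apply, g3, sq]).2 z
  rw [key, wm2_smul, mul_pow]
  ring

end Pool.Agent.Lib.MP_d6ddbd_nt.K.Lm
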