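import Mathlib
import Pool.Agent.Lib.MP_d6ddbd_nt.K.Lim3

set_option autoImplicit false

open UpperHalfPlane Filter Topology Metric
open scoped MatrixGroups
open Pool.Agent.Lib.MP_9177b7_ag.CM (jH up dn)

noncomputable section

namespace Pool.Agent.Lib.MP_d6ddbd_nt.K

open Lm

variable {Γ : Subgroup SL(2, ℤ)} {R R' : ℍ → ℍ → ℂ} {L : ℕ} {μ : Mat ℤ → ℕ}

/-- Vanishing along a graph is read off near the cusp. -/
theorem Ten.van_of_im (h : Ten Γ R) {α : Mat ℤ} (hα : 0 < α.det) (k : ℕ) (Y : ℝ)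
    (e : ∀ z : ℍ, Y < z.im → ∀ i < k, iteratedDeriv i (R z ∘ ofComplex) (act α z) = 0) :
    Van R α k := by
  obtain ⟨m, a, b, ha, hb, eR⟩ := h
  intro z i hi
  have d := deriv_ten (fun j => (hb j).hol) eR i
  have h1 : Hol fun z => ∑ j, a j z * iteratedDeriv i (b j ∘ ofComplex) (act α z) :=
    hol_sum _ fun j _ => (ha j).hol.mul (((hb j).hol.iteratedDeriv i).act hα)
  rw [d]
  exact congrFun (h1.eq_of_im (hol_const 0) Y fun τ hτ => (d _ _).symm.trans (e τ hτ i hi)) z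

theorem lb_fib (h : Ten Γ R) (hμ : ∀ α, μ (-α) = μ α)
    (hv : ∀ α, 0 < α.det → Prim α → Van R α (msum L μ α)) (z w : ℍ) (h0 : R z ≠ 0) :
    ∑ᶠ α ∈ MM L z w, μ α ≤ 2 * ord (R z) w := by
  obtain ⟨K, ρ, hρ, hm⟩ := lim_main h hμ hv z w
  rw [finsum_mem_eq_finite_toFinset_sum _ (mm_finite L z w)]
  refine le_two_mul_order ((h.mf z).hol.analyticAt w) ((h.mf z).hol.order_ne_top h0 w) (K := K) ?_
  filter_upwards [nhdsWithin_le_nhds (closedBall_mem_nhds (w : ℂ) hρ)] with t ht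
  have t0 : Tendsto ofComplex (𝓝[≠] (z : ℂ)) (𝓝 z) := (tend_of z).mono_left nhdsWithin_le_nhds
  have t1 := (((h.swap.mf (ofComplex t)).hol.continuous.norm.pow 2).tendsto z).comp t0
  have t2 : Tendsto (fun z₁ : ℍ => K * ∏ α ∈ (mm_finite L z w).toFinset, ‖t - act α z₁‖ ^ μ α)
      (𝓝 z) (𝓝 (K * ∏ α ∈ (mm_finite L z w).toFinset, ‖t - w‖ ^ μ α)) := by
    refine (tendsto_finsetProd _ fun α hα => ?_).const_mul K
    rw [Set.Finite.mem_toFinset, mem_MM] at hα
    have := (hol_act (α := α) (by omega)).continuous.tendsto z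
    rw [hα.2.2] at this
    exact (this.const_sub t).norm.pow _
  rw [← Finset.prod_pow_eq_pow_sum]
  refine le_of_tendsto_of_tendsto t1 (t2.comp t0) ((ev_punct hm).mono fun s hs => ?_)
  obtain ⟨U, -, u2, u3⟩ := hs
  simp only [Function.comp_apply, Pi.pow_apply]
  rw [← norm_pow, u2, norm_mul, norm_prod, mul_comm]
  simp only [norm_pow]
  exact mul_le_mul_of_nonneg_right (u3 t ht) (Finset.prod_nonneg fun _ _ => by positivity)

theorem qp_hol (h : Ten Γ R) (k : ℕ) : Hol (qp k R) := by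
  obtain ⟨m, a, b, ha, hb, eR⟩ := h
  have : qp k R = fun z => (k.factorial : ℂ)⁻¹ *
      ∑ j, a j z * iteratedDeriv k (b j ∘ ofComplex) z :=
    funext fun z => by rw [qp, deriv_ten (fun j => (hb j).hol) eR]
  rw [this]
  exact (hol_const _).mul (hol_sum _ fun j _ => (ha j).hol.mul ((hb j).hol.iteratedDeriv k))

theorem lb_diag (h : Ten Γ R) (hμ : ∀ α, μ (-α) = μ α)
    (hv : ∀ α, 0 < α.det → Prim α → Van R α (msum L μ α)) (h0 : qp (msum L μ 1) R ≠ 0) (z : ℍ) :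
    ∑ᶠ α ∈ MM L z z, μ α ≤ 2 * ord (qp (msum L μ 1) R) z + 2 * msum L μ 1 := by
  obtain ⟨K, ρ, hρ, hm⟩ := lim_main h hμ hv z z
  have d1 : 0 < (1 : Mat ℤ).det := by simp
  have sc : ∀ α ∈ Sc L 1, ∀ x : ℍ, act α x = x := fun α hα x => by
    obtain ⟨⟨k, rfl⟩, h1, -⟩ := (mem_Sc d1).1 hα
    rw [act_smul, act_one]
    rintro rfl
    simp at h1
  have hsub : Sc L 1 ⊆ (mm_finite L z z).toFinset := fun α hα => by
    rw [Set.Finite.mem_toFinset, mem_MM]
    exact ⟨((mem_Sc d1).1 hα).2.1, ((mem_Sc d1).1 hα).2.2, sc α hα z⟩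
  rw [finsum_mem_eq_finite_toFinset_sum _ (mm_finite L z z), ← Finset.sum_sdiff hsub,
    sum_Sc hμ L d1, add_le_add_iff_right]
  set S := (mm_finite L z z).toFinset \ Sc L 1
  have big : (fun t : ℂ => ∏ α ∈ S, (t - act α (ofComplex t)) ^ μ α) =O[𝓝 (z : ℂ)]
      fun t => ∏ α ∈ S, (t - z) ^ μ α := by
    refine Asymptotics.IsBigO.finsetProd fun α hα => Asymptotics.IsBigO.pow ?_ _
    have hα := (Finset.mem_sdiff.1 hα).1
    rw [Set.Finite.mem_toFinset, mem_MM] at hα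
    have a1 := ((hol_act (α := α) (by omega)).analyticAt z).differentiableAt
    simpa [hα.2.2] using (differentiableAt_fun_id.fun_sub a1).isBigO_sub
  obtain ⟨C, hC⟩ := big.bound
  have hq := qp_hol h (msum L μ 1)
  refine le_two_mul_order (hq.analyticAt z) (hq.order_ne_top h0 z) (K := C * K) ?_
  filter_upwards [ev_punct hm, nhdsWithin_le_nhds hC, nhdsWithin_le_nhds (ev_coe z),
    nhdsWithin_le_nhds (closedBall_mem_nhds (z : ℂ) hρ)] with t hs a1 a2 a3
  obtain ⟨U, u1, u2, u3⟩ := hs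
  obtain ⟨g, g1, g2, g3⟩ := van_fac h (hv 1 d1 prim_one) (ofComplex t)
  have hn := isOpen_upperHalfPlaneSet.mem_nhds (ofComplex t).im_pos
  rw [a2] at g2 g3 hn
  have e : g t ^ 2 = (∏ α ∈ S, (t - act α (ofComplex t)) ^ μ α) * U t := by
    refine eq_of_punct (F := fun s => g s ^ 2)
      (G := fun s => (∏ α ∈ S, (s - act α (ofComplex t)) ^ μ α) * U s)
      ((g1.continuousOn.continuousAt hn).pow 2)
      (ContinuousAt.mul (by fun_prop) (u1.continuousOn.continuousAt hn)) fun s hs => ?_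
    have e1 := u2 s
    have e2 : ∏ α ∈ Sc L 1, (s - act α (ofComplex t)) ^ μ α = (s - t) ^ (2 * msum L μ 1) := by
      rw [← sum_Sc hμ L d1, ← Finset.prod_pow_eq_pow_sum]
      exact Finset.prod_congr rfl fun α hα => by rw [sc α hα, a2]
    rw [g2, ← Finset.prod_sdiff hsub, e2] at e1
    refine mul_left_cancel₀ (pow_ne_zero (2 * msum L μ 1) (sub_ne_zero.2 hs)) ?_
    linear_combination e1
  rw [Function.comp_apply, g3, ← norm_pow, e, norm_mul]
  rw [Finset.prod_pow_eq_pow_sum, norm_pow] at a1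
  calc _ ≤ C * ‖t - z‖ ^ (∑ α ∈ S, μ α) * K :=
        mul_le_mul a1 (u3 t a3) (norm_nonneg _) ((norm_nonneg _).trans a1)
    _ = _ := by ring

theorem qp_mul {Γ' : Subgroup SL(2, ℤ)} (h : Ten Γ R) (h' : Ten Γ' R') {k k' : ℕ} (v : Van R 1 k)
    (v' : Van R' 1 k') : Van (fun z w => R z w * R' z w) 1 (k + k') ∧
      ∀ z, qp (k + k') (fun z w => R z w * R' z w) z = qp k R z * qp k' R' z := by
  refine van_of_fac fun z => ?_
  obtain ⟨g, g1, g2, g3⟩ := van_fac h v z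
  obtain ⟨g', g1', g2', g3'⟩ := van_fac h' v' z
  have hn := isOpen_upperHalfPlaneSet.mem_nhds z.im_pos
  refine ⟨fun t => g t * g' t, (g1.analyticAt hn).fun_mul (g1'.analyticAt hn),
    Eventually.of_forall fun t => ?_, by rw [g3, g3']⟩
  rw [g2, g2']
  ring

theorem Lm.gro_deriv [Γ.FiniteIndex] {f : ℍ → ℂ} (h : MF Γ f) (g : SL(2, ℤ)) (k : ℕ) :
    Gro fun τ => iteratedDeriv k ((fun w => f (g • w)) ∘ ofComplex) τ := by
  obtain ⟨n, hn, -, hm⟩ := Subgroup.exists_pow_mem_of_index_ne_zero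
    (Subgroup.FiniteIndex.index_ne_zero (H := Γ)) (g * ModularGroup.T * g⁻¹)
  obtain ⟨c, hc⟩ := exists_qe hn (h.hol.smul g) (fun τ => by
    have e := modular_T_zpow_smul τ n
    rw [Int.cast_natCast, zpow_natCast] at e
    rw [← e, ← h.inv _ hm (g • τ), conj_pow, mul_smul, mul_smul, inv_smul_smul]) (h.gro g)
  obtain ⟨d, hd⟩ := qe_iter hn hc k
  exact hd.gro hn

theorem qp_mf [Γ.FiniteIndex] (h : Ten Γ R) {k : ℕ} (v : Van R 1 k) :
    MF Γ fun z => qp k R z * wm2 z ^ k := by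
  obtain ⟨c, hc⟩ := qe_wm2
  refine ⟨(qp_hol h k).mul ((hc.hol one_pos).pow k), fun γ hγ τ => ?_, fun g => ?_⟩
  · rw [qp_smul h v]
    obtain ⟨m, a, b, ha, hb, eR⟩ := h
    congr 2
    funext z w
    rw [eR, eR]
    exact Finset.sum_congr rfl fun j _ => by rw [(ha j).inv γ hγ, (hb j).inv γ hγ]
  · simp only [qp_smul h v g]
    obtain ⟨m, a, b, ha, hb, eR⟩ := h
    refine Gro.mul ?_ ((hc.gro one_pos).pow k)
    have : qp k (fun z w => R (g • z) (g • w)) = fun z => (k.factorial : ℂ)⁻¹ *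
        ∑ j, a j (g • z) * iteratedDeriv k ((fun w => b j (g • w)) ∘ ofComplex) z :=
      funext fun z => by
        rw [qp, deriv_ten (a := fun j z => a j (g • z)) (b := fun j w => b j (g • w))
          (fun j => (hb j).hol.smul g) fun _ _ => eR _ _]
    rw [this]
    exact (gro_const _).mul (gro_sum _ fun j _ => ((ha j).gro g).mul (Lm.gro_deriv (hb j) g k))

end Pool.Agent.Lib.MP_d6ddbd_nt.K
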