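import Mathlib
import Pool.Agent.Lib.MP_d6ddbd_nt.K.Ext4
import Pool.Agent.Lib.MP_d6ddbd_nt.K.PiOrd
import Pool.Agent.Lib.MP_d6ddbd_nt.K.Lim

set_option autoImplicit false

open UpperHalfPlane
open scoped MatrixGroups
open Pool.Agent.Lib.MP_9177b7_ag.CM (jH up dn)

noncomputable section

namespace Pool.Agent.Lib.MP_d6ddbd_nt.K

variable {n : ℕ} [NeZero n] {F : Mat (ZMod n) → ℍ → ℂ} {C : Mat (ZMod n) → LaurentSeries ℂ}
  {L : ℕ} {I : Mat (ZMod n) → ℤ → ℤ}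

namespace O22Aux

/-- Analytic at `w` and vanishing there to order at least `k`. -/
def VO (f : ℂ → ℂ) (w : ℂ) (k : ℕ) : Prop := AnalyticAt ℂ f w ∧ (k : ℕ∞) ≤ analyticOrderAt f w

theorem vo_zero {f : ℂ → ℂ} {w : ℂ} (h : AnalyticAt ℂ f w) : VO f w 0 := ⟨h, by simp⟩

theorem VO.mul {f g : ℂ → ℂ} {w : ℂ} {k l : ℕ} (h : VO f w k) (h' : VO g w l) :
    VO (fun t => f t * g t) w (k + l) := by
  refine ⟨h.1.mul h'.1, ?_⟩
  have e := analyticOrderAt_mul h.1 h'.1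
  rw [Nat.cast_add]
  exact (add_le_add h.2 h'.2).trans e.ge

theorem VO.mono {f : ℂ → ℂ} {w : ℂ} {k l : ℕ} (h : VO f w k) (hl : l ≤ k) : VO f w l :=
  ⟨h.1, (Nat.cast_le.2 hl).trans h.2⟩

theorem VO.pow {f : ℂ → ℂ} {w : ℂ} {k : ℕ} (h : VO f w k) (e : ℕ) :
    VO (fun t => f t ^ e) w (e * k) := by
  induction e with
  | zero => simpa only [pow_zero, zero_mul] using vo_zero analyticAt_const
  | succ e ih => simpa only [pow_succ, add_mul, one_mul] using ih.mul h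

theorem vo_prod {ι : Type} (s : Finset ι) {f : ι → ℂ → ℂ} {w : ℂ} {k : ι → ℕ}
    (h : ∀ i ∈ s, VO (f i) w (k i)) : VO (fun t => ∏ i ∈ s, f i t) w (∑ i ∈ s, k i) := by
  classical
  induction s using Finset.induction_on with
  | empty => simpa only [Finset.prod_empty, Finset.sum_empty] using vo_zero analyticAt_const
  | insert i s hi ih =>
    simpa only [Finset.prod_insert hi, Finset.sum_insert hi] using
      (h i (Finset.mem_insert_self _ _)).mul (ih fun j hj => h j (Finset.mem_insert_of_mem hj))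

open Classical in
theorem vo_ite {f : ℂ → ℂ} {w : ℂ} (h : AnalyticAt ℂ f w) : VO f w (if f w = 0 then 1 else 0) := by
  split_ifs with e
  · exact ⟨h, Order.one_le_iff_ne_zero.2 (h.analyticOrderAt_ne_zero.2 e)⟩
  · exact vo_zero h

theorem van_of_vo {f : ℍ → ℂ} (h : Hol f) (g : SL(2, ℤ)) (w : ℍ) {k : ℕ} {u : ℂ → ℂ} {Y : ℝ}
    (hw : Y < w.im) (hu : VO u w k) (e : ∀ t : ℍ, Y < t.im → f (g • t) = u t) :
    ∀ i < k, iteratedDeriv i (f ∘ ofComplex) (g • w : ℍ) = 0 := by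
  rw [← natCast_le_analyticOrderAt_iff_iteratedDeriv_eq_zero (h.analyticAt _)]
  by_cases h0 : analyticOrderAt (f ∘ ofComplex) (g • w : ℍ) = ⊤
  · rw [h0]
    exact le_top
  have h1 : f ≠ 0 := fun e => h0 (by
    rw [e, analyticOrderAt_eq_top]
    exact Filter.Eventually.of_forall fun _ => rfl)
  have h2 : (fun τ => f (g • τ)) ≠ 0 := fun e => h1 (funext fun τ => by
    simpa using congrFun e (g⁻¹ • τ))
  have h3 := ord_smul h g w
  rw [ord, ord] at h3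
  rw [← Nat.cast_analyticOrderNatAt h0, ← h3,
    Nat.cast_analyticOrderNatAt ((h.smul g).order_ne_top h2 w)]
  refine hu.2.trans_eq (analyticOrderAt_congr ?_)
  have h4 : IsOpen {t : ℂ | Y < t.im} := isOpen_lt continuous_const Complex.continuous_im
  filter_upwards [h4.mem_nhds hw, isOpen_upperHalfPlaneSet.mem_nhds w.im_pos] with t h5 h6
  rw [Function.comp_apply, ofComplex_apply_of_im_pos h6]
  exact (e ⟨t, h6⟩ h5).symm

theorem ee_val (x : ℂ) (b : ℕ) : ee (-(x + ((b : ZMod n).val : ℕ)) / n) = ee (-(x + b) / n) := by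
  have h0 : (n : ℂ) ≠ 0 := by exact_mod_cast NeZero.ne n
  have h1 : (b : ℂ) = (b % n : ℕ) + n * (b / n : ℕ) := by exact_mod_cast (Nat.mod_add_div b n).symm
  rw [ZMod.val_natCast, ← mul_one (ee (-(x + b) / n)), ← ee_int (b / n : ℕ), ← ee_add, h1,
    Int.cast_natCast]
  congr 1
  field_simp
  ring

theorem red_tri (g : SL(2, ℤ)) (t a b d : ℕ) :
    red n ((t : ℤ) • (g.1 * !![(a : ℤ), (b : ℤ); 0, (d : ℤ)])) =
      red n g.1 * tri (t * a) ((t * b : ℕ) : ZMod n) (t * d : ℕ) := by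
  rw [← Matrix.mul_smul, red_mul]
  congr 1
  ext i j
  fin_cases i <;> fin_cases j <;> simp [red, tri]

theorem van (h : Inp n F C L I) {Y B : ℝ} {U : ℍ → ℍ → ℂ} (hU : PiC n L Y B U) {κ : ℕ}
    {R : ℍ → ℍ → ℂ} {Y' : ℝ} (hR : Ten (CongruenceSubgroup.Gamma n) R)
    (e : ∀ (g : SL(2, ℤ)) (z : ℍ), Y' < z.im → ∃ c : ℂ, ∀ w : ℍ, Y' < w.im →
      R z (g • w) = c * Rc U κ (fun α => C (red n g.1 * α)) L (fun α => I (red n g.1 * α)) z w)
    {α : Mat ℤ} (hα : 0 < α.det) : Van R α (msum L (mu n κ I) α) := by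
  classical
  obtain ⟨m, hm⟩ := Int.eq_ofNat_of_zero_le hα.le
  have hm0 : 0 < m := by exact_mod_cast hm ▸ hα
  obtain ⟨g, A, hA, rfl⟩ := exists_herm hm0 hm
  have hd : 0 < A.det := by rw [herm_det hA]; exact_mod_cast hm0
  obtain ⟨⟨⟨a, d⟩, b⟩, hs, rfl⟩ := Finset.mem_image.1 hA
  have had : a * d = m := (Nat.mem_divisorsAntidiagonal.1 (Finset.mem_sigma.1 hs).1).1
  have ha : 0 < a := Nat.pos_of_mul_pos_right (had ▸ hm0)
  have hd0 : 0 < d := Nat.pos_of_mul_pos_left (had ▸ hm0)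
  simp only at hd hm hα ⊢
  obtain ⟨Y₁, -, -, -, hs1, -⟩ := sB_est (h.left g)
  have hY := hU.one
  have ha' : (1 : ℝ) ≤ a := by exact_mod_cast ha
  have hd' : (1 : ℝ) ≤ d := by exact_mod_cast hd0
  refine hR.van_of_im hα _ (d * max Y (max Y' Y₁)) fun z hz => ?_
  have hM : 1 ≤ max Y (max Y' Y₁) := hY.trans (le_max_left _ _)
  have hz' : max Y (max Y' Y₁) < z.im := by nlinarith
  have hw0 : (act !![(a : ℤ), (b : ℤ); 0, (d : ℤ)] z : ℂ) = (a * z + b) / d := by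
    rw [coe_act hd]
    simp
  have hw : max Y (max Y' Y₁) < (act !![(a : ℤ), (b : ℤ); 0, (d : ℤ)] z).im := by
    rw [← coe_im, hw0, PiAux.im_pt', coe_im, div_mul_eq_mul_div, lt_div_iff₀ (by linarith)]
    nlinarith
  rw [act_mul (by rw [g.2]; exact one_pos) hd, act_sl]
  generalize act !![(a : ℤ), (b : ℤ); 0, (d : ℤ)] z = w at hw hw0
  simp only [max_lt_iff] at hz' hw
  obtain ⟨c, hc⟩ := e g z hz'.2.1
  have ho : ∀ y : ℝ, IsOpen {t : ℂ | y < t.im} := fun y =>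
    isOpen_lt continuous_const Complex.continuous_im
  have h1 := (hs1 z hz'.2.2).analyticAt ((ho _).mem_nhds hw.2.2)
  have h2 := (hU.diff z hz'.1).analyticAt ((ho _).mem_nhds hw.1)
  have h3 : ∀ (p : ℕ × ℕ) (y : ZMod n), AnalyticAt ℂ
      (fun t : ℂ => ee (-(p.1 * (z : ℂ) + y.val) / n) - ee (-(p.2 * t) / n)) w := fun p y => by
    unfold ee
    fun_prop
  have h4 := (vo_zero (analyticAt_const (v := c))).mul ((vo_zero (h1.neg.cexp.mul (h2.pow κ))).mul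
    (vo_prod (idx L) fun p _ => vo_prod Finset.univ fun y _ => (vo_ite (h3 p y)).pow
      (2 * κ + I (red n g.1 * tri p.1 y p.2) (-(p.1 * p.2))).toNat))
  refine van_of_vo (hR.mf z).hol g w hw.2.1 (h4.mono ?_) fun t ht => ?_
  · rw [zero_add, zero_add, msum]
    have hi : ∀ s ∈ (Finset.Icc 1 L).filter (fun k : ℕ => (k : ℤ) ^ 2 *
        (g.1 * !![(a : ℤ), (b : ℤ); 0, (d : ℤ)]).det ≤ L), ∀ t ∈ (Finset.Icc 1 L).filter
        (fun k : ℕ => (k : ℤ) ^ 2 * (g.1 * !![(a : ℤ), (b : ℤ); 0, (d : ℤ)]).det ≤ L),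
        (s * a, s * d) = (t * a, t * d) → s = t :=
      fun s _ t _ e => Nat.eq_of_mul_eq_mul_right ha (congrArg Prod.fst e)
    refine le_trans ?_ (Finset.sum_le_sum_of_subset (s := Finset.image
      (fun t : ℕ => (t * a, t * d)) ((Finset.Icc 1 L).filter fun k : ℕ => (k : ℤ) ^ 2 *
        (g.1 * !![(a : ℤ), (b : ℤ); 0, (d : ℤ)]).det ≤ L)) fun p hp => ?_)
    · rw [Finset.sum_image hi]
      refine Finset.sum_le_sum fun t ht => ?_
      have h5 : 0 < t := (Finset.mem_Icc.1 (Finset.mem_filter.1 ht).1).1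
      refine le_trans (le_of_eq ?_) (Finset.single_le_sum (fun _ _ => Nat.zero_le _)
        (Finset.mem_univ ((t * b : ℕ) : ZMod n)))
      have h6 : ((t : ℤ) • (g.1 * !![(a : ℤ), (b : ℤ); 0, (d : ℤ)])).det =
          ((t * a : ℕ) : ℤ) * (t * d : ℕ) := by
        rw [Matrix.det_smul, hm, ← had, Fintype.card_fin]
        push_cast
        ring
      have h7 : (d : ℂ) ≠ 0 := by exact_mod_cast hd0.ne'
      rw [mu, h6, if_pos (by positivity), red_tri, if_pos, mul_one]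
      rw [ee_val, hw0, sub_eq_zero]
      congr 1
      push_cast
      field_simp
    · obtain ⟨t, ht, rfl⟩ := Finset.mem_image.1 hp
      obtain ⟨h5, h6⟩ := Finset.mem_filter.1 ht
      have h7 : 0 < t := (Finset.mem_Icc.1 h5).1
      refine PiAux.mem_idx.2 ⟨Nat.mul_pos h7 ha, Nat.mul_pos h7 hd0, ?_⟩
      rw [hm, ← had] at h6
      have h8 : t ^ 2 * (a * d) ≤ L := by exact_mod_cast h6
      exact le_of_eq_of_le (by ring) h8
  · rw [hc t ht]
    simp only [Rc, del, Pi.mul_apply, Pi.pow_apply, Pi.neg_apply, Function.comp_apply,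
      ofComplex_apply]

theorem mu_even (h : Inp n F C L I) (κ : ℕ) (α : Mat ℤ) : mu n κ I (-α) = mu n κ I α := by
  have h1 : (-α).det = α.det := by simp [Matrix.det_neg]
  have h2 : red n (-α) = -red n α := by
    ext i j
    simp [red]
  rw [mu, mu, h1, h2]
  split_ifs with h3
  · rw [h.evenI _ (neg_lt_zero.2 h3)]
  · rfl

theorem setup (h : Inp n F C L I) : ∃ (κ : ℕ) (R R' : ℍ → ℍ → ℂ),
    (∀ α (N : ℤ), -(L : ℤ) ≤ N → N < 0 → (I α N).natAbs ≤ κ) ∧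
    Ten (CongruenceSubgroup.Gamma n) R ∧ Ten (CongruenceSubgroup.Gamma n) R' ∧
    ((fun z w => R z w * R' z w) = fun z w => Pi1 L z w ^ (2 * κ)) ∧
    (∀ α, 0 < α.det → Prim α → Van R α (msum L (mu n κ I) α)) ∧
    ∀ α, 0 < α.det → Prim α → Van R' α (msum L (mu n κ fun α N => -I α N) α) := by
  obtain ⟨Y, B, U, h1, h2, h3, h4, h5⟩ := pi_cusp n L
  have hU : PiC n L Y B U := ⟨h1, h2, h3, h4, fun z w hz hw => (h5 z w hz hw).1,
    fun z w hz hw => (h5 z w hz hw).2⟩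
  obtain ⟨κ, hκ⟩ : ∃ κ : ℕ, ∀ α (N : ℤ), -(L : ℤ) ≤ N → N < 0 → (I α N).natAbs ≤ κ :=
    ⟨(Finset.univ ×ˢ Finset.Icc (-(L : ℤ)) 0).sup fun p => (I p.1 p.2).natAbs, fun α N a b =>
      Finset.le_sup (f := fun p : Mat (ZMod n) × ℤ => (I p.1 p.2).natAbs) (b := (α, N))
        (Finset.mem_product.2 ⟨Finset.mem_univ _, Finset.mem_Icc.2 ⟨a, b.le⟩⟩)⟩
  obtain ⟨R, Y₁, hR, e1, e2⟩ := ext_main h hU κ fun α N a b => by
    have := hκ α N a b
    omega
  obtain ⟨R', Y₂, hR', e1', e2'⟩ := ext_main h.neg hU κ fun α N a b => by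
    have := hκ α N a b
    omega
  refine ⟨κ, R, R', hκ, hR, hR', (hR.mul hR').eq_of_im ((pi_ten L).pow _) (max Y (max Y₁ Y₂))
    fun z w hz hw => ?_, fun α hα _ => van h hU hR e2 hα, fun α hα _ => van h.neg hU hR' e2' hα⟩
  simp only [max_lt_iff] at hz hw
  rw [e1 z w hz.2.1 hw.2.1, e1' z w hz.2.2 hw.2.2, hU.eq z w hz.1 hw.1, Rc, Rc, sB_neg, neg_neg,
    mul_mul_mul_comm, mul_mul_mul_comm (Complex.exp _), ← Complex.exp_add, neg_add_cancel,
    Complex.exp_zero, one_mul, ← pow_add, ← two_mul, mul_pow, ← Finset.prod_mul_distrib,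
    ← Finset.prod_pow]
  congr 1
  refine Finset.prod_congr rfl fun p hp => ?_
  rw [← Finset.prod_mul_distrib, ← Finset.prod_pow]
  refine Finset.prod_congr rfl fun y _ => ?_
  obtain ⟨a, b, c⟩ := PiAux.mem_idx.1 hp
  have h6 := hκ (tri p.1 y p.2) (-(p.1 * p.2)) (neg_le_neg (by exact_mod_cast c))
    (neg_lt_zero.2 (by positivity))
  rw [← pow_add, ← pow_mul]
  congr 1
  omega

omit [NeZero n] in
theorem count {κ : ℕ} (hκ : ∀ α (N : ℤ), -(L : ℤ) ≤ N → N < 0 → (I α N).natAbs ≤ κ) (z w : ℍ)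
    {a b : ℕ} (ha : ∑ᶠ α ∈ MM L z w, mu n κ I α ≤ a)
    (hb : ∑ᶠ α ∈ MM L z w, mu n κ (fun α N => -I α N) α ≤ b)
    (e : a + b = 4 * κ * (MM L z w).ncard) :
    (a : ℤ) = 2 * κ * (MM L z w).ncard + ∑ᶠ α ∈ MM L z w, I (red n α) (-α.det) := by
  have hf := mm_finite L z w
  rw [finsum_mem_eq_finite_toFinset_sum _ hf] at ha hb ⊢
  rw [Set.ncard_eq_toFinset_card _ hf] at e ⊢
  have h1 : ∀ α ∈ hf.toFinset, (mu n κ I α : ℤ) = 2 * κ + I (red n α) (-α.det) ∧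
      (mu n κ (fun α N => -I α N) α : ℤ) = 2 * κ - I (red n α) (-α.det) := fun α hα => by
    obtain ⟨h2, h3, -⟩ := hf.mem_toFinset.1 hα
    have h4 := hκ (red n α) (-α.det) (neg_le_neg h3) (by omega)
    rw [mu, mu, if_pos (by omega), if_pos (by omega)]
    omega
  have h2 := Finset.sum_congr rfl fun α hα => (h1 α hα).1
  have h3 := Finset.sum_congr rfl fun α hα => (h1 α hα).2
  rw [Finset.sum_add_distrib, Finset.sum_const, nsmul_eq_mul, ← Nat.cast_sum] at h2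
  rw [Finset.sum_sub_distrib, Finset.sum_const, nsmul_eq_mul, ← Nat.cast_sum] at h3
  have h4 : ((a + b : ℕ) : ℤ) = (4 * κ * hf.toFinset.card : ℕ) := by rw [e]
  have h5 := Int.ofNat_le.2 ha
  have h6 := Int.ofNat_le.2 hb
  push_cast at h4
  linarith

theorem pow_ne {f : ℍ → ℂ} (h : f ≠ 0) (k : ℕ) : (fun τ => f τ ^ k) ≠ 0 := fun e =>
  h (funext fun τ => eq_zero_of_pow_eq_zero (congrFun e τ))

theorem ne_of_mul {f g u : ℍ → ℂ} (e : (fun τ => f τ * g τ) = u) (h : u ≠ 0) : f ≠ 0 ∧ g ≠ 0 :=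
  ⟨fun h0 => h (e ▸ funext fun τ => by simp [h0]), fun h0 => h (e ▸ funext fun τ => by simp [h0])⟩

theorem qp_pow {Γ : Subgroup SL(2, ℤ)} {R : ℍ → ℍ → ℂ} (h : Ten Γ R) {s : ℕ} (v : Van R 1 s)
    (j : ℕ) : Van (fun z w => R z w ^ j) 1 (j * s) ∧
      ∀ z, qp (j * s) (fun z w => R z w ^ j) z = qp s R z ^ j := by
  induction j with
  | zero => exact ⟨fun _ i hi => by omega, fun z => by simp [qp]⟩
  | succ j ih =>
    have h1 := qp_mul (h.pow j) h ih.1 v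
    simp only [pow_succ, add_mul, one_mul]
    exact ⟨h1.1, fun z => by rw [h1.2, ih.2]⟩

omit [NeZero n] in
theorem msum_one (hs : ∀ k : ℤ, k ≠ 0 → I (red n (k • 1)) (-k ^ 2) = 0) (κ : ℕ) :
    msum L (mu n κ I) 1 = κ * (2 * L.sqrt) := by
  have h1 : (Finset.Icc 1 L).filter (fun k : ℕ => (k : ℤ) ^ 2 * (1 : Mat ℤ).det ≤ L) =
      Finset.Icc 1 L.sqrt := by
    ext k
    rw [Finset.mem_filter, Finset.mem_Icc, Finset.mem_Icc, Matrix.det_one, mul_one, Nat.le_sqrt']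
    refine ⟨fun h => ⟨h.1.1, by exact_mod_cast h.2⟩, fun h => ⟨⟨h.1, ?_⟩, by exact_mod_cast h.2⟩⟩
    exact (Nat.le_self_pow two_ne_zero k).trans h.2
  rw [msum, h1, Finset.sum_congr rfl (g := fun _ => 2 * κ) fun k hk => ?_]
  · simp only [Finset.sum_const, Nat.card_Icc, smul_eq_mul, add_tsub_cancel_right]
    ring
  · have h2 : (0 : ℤ) < k := by exact_mod_cast (Finset.mem_Icc.1 hk).1
    rw [mu, Matrix.det_smul, Matrix.det_one, mul_one, Fintype.card_fin, if_pos (by positivity),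
      hs _ h2.ne']
    omega

end O22Aux

open O22Aux

theorem o22_fib (h : Inp n F C L I) (z : ℍ) :
    ∃ f₁ f₂ : ℍ → ℂ, MF (CongruenceSubgroup.Gamma n) f₁ ∧ MF (CongruenceSubgroup.Gamma n) f₂ ∧
      f₁ ≠ 0 ∧ f₂ ≠ 0 ∧ ∀ w : ℍ, 2 * ((ord f₁ w : ℤ) - ord f₂ w) =
        ∑ᶠ α ∈ MM L z w, I (red n α) (-α.det) := by
  obtain ⟨κ, R, R', hκ, hR, hR', e, v, v'⟩ := setup h
  obtain ⟨p0, p1⟩ := pi_fib L z
  have hP := (pi_ten L).mf z
  have e1 := congrFun e z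
  obtain ⟨h0, h0'⟩ := ne_of_mul e1 (pow_ne p0 _)
  refine ⟨R z, fun w => Pi1 L z w ^ κ, hR.mf z, (hP.pow κ).mono le_top, h0, pow_ne p0 κ,
    fun w => ?_⟩
  have h1 := ord_mul (hR.mf z).hol (hR'.mf z).hol h0 h0' w
  rw [e1, ord_pow hP.hol p0, p1] at h1
  have h2 := count hκ z w (lb_fib hR (mu_even h κ) v z w h0)
    (lb_fib hR' (mu_even h.neg κ) v' z w h0') (by rw [← mul_add, ← h1]; ring)
  rw [ord_pow hP.hol p0, p1]
  push_cast at h2 ⊢
  linarith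

theorem o22_diag (h : Inp n F C L I) (hs : ∀ k : ℤ, k ≠ 0 → I (red n (k • 1)) (-k ^ 2) = 0) :
    ∃ f₁ f₂ : ℍ → ℂ, MF (CongruenceSubgroup.Gamma n) f₁ ∧ MF (CongruenceSubgroup.Gamma n) f₂ ∧
      f₁ ≠ 0 ∧ f₂ ≠ 0 ∧ ∀ z : ℍ, 2 * ((ord f₁ z : ℤ) - ord f₂ z) =
        ∑ᶠ α ∈ MM L z z, I (red n α) (-α.det) := by
  obtain ⟨κ, R, R', hκ, hR, hR', e, v, v'⟩ := setup h
  obtain ⟨p0, p1⟩ := pi_diag L
  obtain ⟨w0, w1⟩ := wm2_hol
  have hP := pi_ten L
  have m1 := msum_one (L := L) hs κ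
  have m2 := msum_one (L := L) (I := fun α N => -I α N)
    (fun k hk => by rw [hs k hk, neg_zero]) κ
  have hp : Prim 1 := fun d hd => isUnit_of_dvd_one (by simpa using hd 0 0)
  have v1 := v 1 (by simp) hp
  have v2 := v' 1 (by simp) hp
  have l1 := lb_diag hR (mu_even h κ) v
  have l2 := lb_diag hR' (mu_even h.neg κ) v'
  rw [m1] at v1 l1
  rw [m2] at v2 l2
  have e1 := (qp_mul hR hR' v1 v2).2
  rw [e, ← add_mul, ← two_mul] at e1
  have e2 : (fun z => qp (κ * (2 * L.sqrt)) R z * qp (κ * (2 * L.sqrt)) R' z) =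
      fun z => qp (2 * L.sqrt) (Pi1 L) z ^ (2 * κ) :=
    funext fun z => (e1 z).symm.trans ((qp_pow hP (pi_van L) _).2 z)
  obtain ⟨h0, h0'⟩ := ne_of_mul e2 (pow_ne p0 _)
  have hQ := qp_hol hP (2 * L.sqrt)
  have h3 := qp_pow hP (pi_van L) κ
  have h4 := qp_mf ((hP.pow κ).mono (Γ' := CongruenceSubgroup.Gamma n) le_top) h3.1
  simp only [h3.2] at h4
  refine ⟨_, _, qp_mf hR v1, h4, (qp_hol hR _).mul_ne_zero (w0.pow _) h0 (pow_ne w1 _),
    (hQ.pow κ).mul_ne_zero (w0.pow _) (pow_ne p0 _) (pow_ne w1 _), fun z => ?_⟩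
  have h1 := ord_mul (qp_hol hR _) (qp_hol hR' _) h0 h0' z
  rw [e2, ord_pow hQ p0] at h1
  have h2 := count hκ z z (l1 h0 z) (l2 h0' z) (by
    rw [← p1 z, add_add_add_comm, ← mul_add, ← h1]
    ring)
  rw [ord_mul (qp_hol hR _) (w0.pow _) h0 (pow_ne w1 _),
    ord_mul (hQ.pow κ) (w0.pow _) (pow_ne p0 _) (pow_ne w1 _), ord_pow hQ p0]
  rw [← p1 z] at h2
  push_cast at h2 ⊢
  linarith

end Pool.Agent.Lib.MP_d6ddbd_nt.K
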