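import Mathlib
import Pool.Agent.Lib.MP_d6ddbd_nt.K.X0
import Pool.Agent.Lib.MP_d6ddbd_nt.K.Weil
import Pool.Agent.Lib.MP_d6ddbd_nt.K.Hec

/-! The Weil vector of level `17` induced from a function on `X₀(17)`. -/

set_option autoImplicit false

open UpperHalfPlane Matrix
open scoped MatrixGroups
open Pool.Agent.Lib.MP_9177b7_ag.CM (jH up dn)
open Pool.Agent.Lib.MP_d6ddbd_nt.X (xf tf)

noncomputable section

namespace Pool.Agent.Lib.MP_d6ddbd_nt.K

namespace T2Aux

instance : Fact (Nat.Prime 17) := ⟨by norm_num⟩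

/-- The action on vectors modulo `17`. -/
def rv (γ : SL(2, ℤ)) (v : Fin 2 → ZMod 17) : Fin 2 → ZMod 17 := red 17 γ.1 *ᵥ v

theorem rv_mul (γ δ : SL(2, ℤ)) (v : Fin 2 → ZMod 17) : rv (γ * δ) v = rv γ (rv δ v) := by
  rw [rv, rv, rv, mulVec_mulVec, ← red_mul]
  rfl

theorem rv_one (v : Fin 2 → ZMod 17) : rv 1 v = v := by
  rw [rv, red_gamma (one_mem _), one_mulVec]

theorem rv_eq_zero {γ : SL(2, ℤ)} {v : Fin 2 → ZMod 17} : rv γ v = 0 ↔ v = 0 :=
  ⟨fun h => by rw [← rv_one v, ← inv_mul_cancel γ, rv_mul, h, rv, mulVec_zero],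
    fun h => by rw [h, rv, mulVec_zero]⟩

theorem rv_apply (γ : SL(2, ℤ)) (v : Fin 2 → ZMod 17) :
    rv γ v 1 = (γ 1 0 : ZMod 17) * v 0 + (γ 1 1 : ZMod 17) * v 1 := by
  simp [rv, red, mulVec, dotProduct, Fin.sum_univ_two]

/-- The matrix `S T ^ k`. -/
def st (k : ℕ) : SL(2, ℤ) := ⟨!![0, -1; 1, k], by simp [det_fin_two]⟩

theorem rv_st (v : Fin 2 → ZMod 17) (h : v 1 ≠ 0) : rv (st (-(v 0 / v 1)).val) v 1 = 0 := by
  rw [rv_apply]
  simp [st, h]

theorem ex (v : Fin 2 → ZMod 17) : ∃ δ, rv δ v 1 = 0 := by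
  by_cases h : v 1 = 0
  · exact ⟨1, by rw [rv_one, h]⟩
  · exact ⟨_, rv_st v h⟩

/-- The function `xf ∘ W`. -/
def f0 (τ : ℍ) : ℂ := xf (ofComplex (-1 / (17 * (τ : ℂ))))

/-- The function attached to a vector. -/
def gv (v : Fin 2 → ZMod 17) (τ : ℍ) : ℂ := if v = 0 then 0 else f0 ((ex v).choose • τ)

theorem gv_eq {v : Fin 2 → ZMod 17} (hv : v ≠ 0) {δ : SL(2, ℤ)} (h : rv δ v 1 = 0) (τ : ℍ) :
    gv v τ = f0 (δ • τ) := by
  have h1 := (ex v).choose_spec
  rw [gv, if_neg hv, ← inv_mul_cancel_right (ex v).choose δ, mul_smul]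
  refine mf_xfW.inv _ (CongruenceSubgroup.Gamma0_mem.2 ?_) _
  rw [← inv_mul_cancel_right (ex v).choose δ, rv_mul, rv_apply, h, mul_zero, add_zero] at h1
  refine (mul_eq_zero.1 h1).resolve_right fun h2 => hv ((rv_eq_zero (γ := δ)).1 ?_)
  ext i
  fin_cases i
  exacts [h2, h]

theorem gv_smul (γ : SL(2, ℤ)) (v : Fin 2 → ZMod 17) (τ : ℍ) : gv (rv γ v) (γ • τ) = gv v τ := by
  by_cases hv : v = 0
  · rw [gv, gv, if_pos hv, if_pos (rv_eq_zero.2 hv)]
  · obtain ⟨δ, h⟩ := ex (rv γ v)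
    rw [gv_eq (mt rv_eq_zero.1 hv) h, gv_eq hv (δ := δ * γ) (by rwa [rv_mul]), mul_smul]

theorem gv_hol (v : Fin 2 → ZMod 17) : Hol (gv v) := by
  by_cases hv : v = 0
  · have : gv v = fun _ => 0 := funext fun τ => if_pos hv
    rw [this]
    exact hol_const 0
  · have : gv v = fun τ => f0 ((ex v).choose • τ) := funext fun τ => if_neg hv
    rw [this]
    exact mf_xfW.hol.smul _

theorem gv_dn {v : Fin 2 → ZMod 17} (h : v 1 ≠ 0) (τ : ℍ) :
    gv v τ = xf (dn 17 (-(v 0 / v 1)).val τ) := by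
  rw [gv_eq (fun e => h (by rw [e]; rfl)) (rv_st v h), f0, dn, coe_specialLinearGroup_apply]
  generalize (-(v 0 / v 1)).val = k
  congr 2
  simp [st, div_eq_mul_inv, mul_comm]

theorem orth (b : ZMod 17) :
    ∑ x : ZMod 17, ZMod.stdAddChar (x * b) = if b = 0 then (17 : ℂ) else 0 := by
  rw [AddChar.sum_mulShift b (ZMod.isPrimitive_stdAddChar 17)]
  split_ifs <;> simp

/-- The Weil vector. -/
def FF (α : Mat (ZMod 17)) (τ : ℍ) : ℂ :=
  if α 1 0 = 0 then 17⁻¹ * ∑ l : ZMod 17, ZMod.stdAddChar (-(l * α 1 1)) * gv ![l, α 0 0] τ else 0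

theorem pf_eq (B : Mat (ZMod 17)) (τ : ℍ) :
    pf FF B τ = if (fun i => B i 0) = 0 then 17 * gv (fun i => B i 1) τ else 0 := by
  have e0 : (fun i => B i 0) = 0 ↔ B 0 0 = 0 ∧ B 1 0 = 0 := by
    simp [funext_iff, Fin.forall_fin_two]
  have e1 : (fun i => B i 1) = ![B 0 1, B 1 1] := by
    ext i
    fin_cases i <;> rfl
  simp only [e0, e1]
  by_cases h : B 1 0 = 0
  · have e2 : ∀ y u : ZMod 17, ZMod.stdAddChar (B 0 0 * y + B 0 1 * u) *
        FF !![B 1 1, y; -B 1 0, u] τ = ZMod.stdAddChar (y * B 0 0) * (17⁻¹ * ∑ l : ZMod 17,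
          ZMod.stdAddChar (u * (B 0 1 - l)) * gv ![l, B 1 1] τ) := fun y u => by
      rw [FF, if_pos (by simp [h]), AddChar.map_add_eq_mul, mul_comm y, mul_assoc,
        mul_left_comm (ZMod.stdAddChar (B 0 1 * u)), Finset.mul_sum]
      congr 3
      ext l
      rw [← mul_assoc, ← AddChar.map_add_eq_mul]
      congr 2
      simp
      ring
    simp only [pf, e2, ← Finset.mul_sum, ← Finset.sum_mul, orth]
    rw [Finset.sum_comm]
    simp only [← Finset.sum_mul, orth, sub_eq_zero, h, and_true]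
    simp
  · simp [pf, FF, h]

theorem wl_FF : WL 17 FF := by
  refine wl_of_pf (fun α => ?_) fun γ B τ => ?_
  · by_cases h : α 1 0 = 0
    · have : FF α = fun τ => 17⁻¹ * ∑ l : ZMod 17,
        ZMod.stdAddChar (-(l * α 1 1)) * gv ![l, α 0 0] τ := funext fun τ => if_pos h
      rw [this]
      exact (hol_const _).mul (hol_sum _ fun l _ => (hol_const _).mul (gv_hol _))
    · have : FF α = fun _ => 0 := funext fun τ => if_neg h
      rw [this]
      exact hol_const 0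
  · have e : ∀ j, (fun i => (red 17 γ.1 * B) i j) = rv γ fun i => B i j := fun j => rfl
    rw [pf_eq, pf_eq, e, e, gv_smul]
    simp only [rv_eq_zero]

/-- The polar coefficients. -/
def II (α : Mat (ZMod 17)) (N : ℤ) : ℤ :=
  if α 1 0 = 0 ∧ α 0 0 ≠ 0 ∧ (N : ZMod 17) = -(α 0 0 * α 1 1) ∧ -2 ≤ N then 1 else 0

theorem qe_FF (α : Mat (ZMod 17)) : ∃ c, QE 17 (FF α) c ∧ ∀ N < 0, c.coeff N = II α N := by
  by_cases h : α 1 0 = 0
  swap
  · have : FF α = fun _ => 0 := funext fun τ => if_neg h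
    refine ⟨_, this ▸ qe_const 0, fun N _ => ?_⟩
    simp [II, h]
  by_cases h0 : α 0 0 = 0
  · obtain ⟨c, h1, h2⟩ := qe_xfW
    have : FF α = fun τ => (17⁻¹ * ∑ l : ZMod 17,
        ZMod.stdAddChar (-(l * α 1 1)) * if l = 0 then 0 else 1) * f0 τ := funext fun τ => by
      rw [FF, if_pos h, mul_assoc, Finset.sum_mul]
      congr 2
      ext l
      rw [mul_assoc, h0]
      congr 1
      split_ifs with h3
      · rw [zero_mul, gv, if_pos (by simp [h3])]
      · rw [one_mul, gv_eq (δ := 1) (by simp [h3]) (by simp [rv_one]), one_smul]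
    refine ⟨_, this ▸ (h1.level 17 (by norm_num)).smul _, fun N hN => ?_⟩
    rw [HahnSeries.coeff_smul, dil_coeff, II, if_neg (show ¬ (_ ∧ _) from fun e => e.2.1 h0)]
    split_ifs
    · rw [h2 _ (Int.ediv_neg_of_neg_of_pos hN (by norm_num)), smul_zero, Int.cast_zero]
    · rw [smul_zero, Int.cast_zero]
  obtain ⟨c, h1, -, ⟨h2, h3⟩, h4⟩ := qe_xf
  refine ⟨⟨fun N => if (N : ZMod 17) = -(α 0 0 * α 1 1) then c.coeff N else 0,
    c.isPWO_support.mono fun N hN e => hN (by simp [e])⟩, fun τ => ?_, fun N hN => ?_⟩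
  · have h6 : ∀ l, gv ![l, α 0 0] τ = xf (dn 17 (-(l / α 0 0)).val τ) := fun l =>
      gv_dn (v := ![l, α 0 0]) h0 τ
    simp only [FF, if_pos h, h6]
    have h5 := (hasSum_sum (s := Finset.univ) fun (l : ZMod 17) _ =>
      (h1 (dn 17 (-(l / α 0 0)).val τ)).mul_left (ZMod.stdAddChar (-(l * α 1 1)))).mul_left 17⁻¹
    refine h5.congr_fun fun N => ?_
    · have e : ∀ l : ZMod 17, ZMod.stdAddChar (-(l * α 1 1)) * (c.coeff N *
          ee (N * (dn 17 (-(l / α 0 0)).val τ : ℂ) / (1 : ℕ))) =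
          ZMod.stdAddChar (l * -(α 1 1 + (N : ZMod 17) / α 0 0)) *
            (c.coeff N * ee (N * τ / 17)) := fun l => by
        have e1 := std_int (n := 17) (N * (-(l / α 0 0)).val)
        rw [Int.cast_mul, Int.cast_natCast, ZMod.natCast_zmod_val] at e1
        rw [show l * -(α 1 1 + (N : ZMod 17) / α 0 0) = -(l * α 1 1) + N * -(l / α 0 0) by
          ring,
          AddChar.map_add_eq_mul, e1, mul_assoc, mul_left_comm (ee _), ← ee_add, dn,
          ofComplex_apply_of_im_pos (by simpa [-ZMod.natCast_val] using τ.im_pos)]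
        congr 3
        push_cast
        ring
      simp only [e, ← Finset.sum_mul, orth]
      have e2 : -(α 1 1 + (N : ZMod 17) / α 0 0) = 0 ↔ (N : ZMod 17) = -(α 0 0 * α 1 1) := by
        rw [neg_eq_zero, add_eq_zero_iff_neg_eq, eq_div_iff h0, eq_comm, neg_mul, mul_comm]
      simp only [e2]
      split_ifs <;> simp
  · simp only [II, h, h0, ne_eq, not_false_eq_true, true_and]
    by_cases e : (N : ZMod 17) = -(α 0 0 * α 1 1)
    · simp only [e, true_and, if_true]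
      split_ifs with h5
      · obtain rfl | rfl : N = -2 ∨ N = -1 := by omega
        · simpa using h3
        · simpa using h4
      · simpa using h2 N (by omega)
    · simp [e]

theorem inp_FF : ∃ C, Inp 17 FF C 2 II := by
  choose C h1 h2 using qe_FF
  refine ⟨C, wl_FF, h1, fun α N hN => ?_, h2⟩
  rw [h2 α N (by omega), II, if_neg fun e => by have := e.2.2.2; omega, Int.cast_zero]

theorem II_red {α : Mat ℤ} (h1 : 1 ≤ α.det) (h2 : α.det ≤ 2) :
    II (red 17 α) (-α.det) = if (α 1 0 : ZMod 17) = 0 then 1 else 0 := by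
  have e := red_det (n := 17) α
  rw [det_fin_two] at e
  refine if_congr ⟨fun h => h.1, fun h => ?_⟩ rfl rfl
  have h3 : red 17 α 1 0 = 0 := h
  rw [h3, mul_zero, sub_zero] at e
  refine ⟨h3, fun h4 => ?_, by rw [e, Int.cast_neg], by omega⟩
  rw [h4, zero_mul] at e
  obtain h5 | h5 : α.det = 1 ∨ α.det = 2 := by omega
  all_goals
    rw [h5] at e
    revert e
    decide

end T2Aux

end Pool.Agent.Lib.MP_d6ddbd_nt.K
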