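import Mathlib
import Pool.Agent.Lib.MP_d6ddbd_nt.K.Heeg
import Pool.Agent.Lib.MP_d6ddbd_nt.K.O22
import Pool.Agent.Lib.MP_d6ddbd_nt.K.T21

/-! The Hecke operator `T₂` acts by `-1` on the modular parametrisation, modulo torsion. -/

set_option autoImplicit false

open UpperHalfPlane
open scoped MatrixGroups
open Pool.Agent.Lib.MP_9177b7_ag.CM (jH up dn)

noncomputable section

namespace Pool.Agent.Lib.MP_d6ddbd_nt.K

namespace T2Aux

open Classical in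
/-- The indicator function of an orbit. -/
def ob (z w : ℍ) : ℤ := if ∃ γ ∈ G0, γ • z = w then 1 else 0

theorem ob_inv (z : ℍ) {γ : SL(2, ℤ)} (h : γ ∈ G0) (w : ℍ) : ob z (γ • w) = ob z w := by
  classical
  refine if_congr ⟨fun ⟨δ, h1, h2⟩ => ⟨γ⁻¹ * δ, mul_mem (inv_mem h) h1, ?_⟩,
    fun ⟨δ, h1, h2⟩ => ⟨γ * δ, mul_mem h h1, ?_⟩⟩ rfl rfl
  · rw [mul_smul, h2, inv_smul_smul]
  · rw [mul_smul, h2]

theorem ob_ne {z w : ℍ} (h : ob z w ≠ 0) : ∃ γ ∈ G0, γ • z = w := by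
  by_contra h1
  exact h (if_neg h1)

theorem ob_sum (z : ℍ) : Fin0 (ob z) ∧ hsum (ob z) = phi z := by
  have h1 : ∀ c : Orb, ob z c.out ≠ 0 → c = Quotient.mk _ z := fun c hc => by
    obtain ⟨γ, h1, h2⟩ := ob_ne hc
    rw [← c.out_eq]
    exact Quotient.sound ⟨⟨γ, h1⟩, h2⟩
  refine ⟨(Set.finite_singleton _).subset h1, ?_⟩
  obtain ⟨⟨γ, h2⟩, h3⟩ : (MulAction.orbitRel G0 ℍ) (Quotient.mk _ z : Orb).out z :=
    Quotient.exact (Quotient.out_eq _)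
  have h4 : γ • z = (Quotient.mk _ z : Orb).out := h3
  rw [hsum, finsum_eq_single _ (Quotient.mk _ z) fun c hc => by
    rw [not_not.1 (mt (h1 c) hc), zero_zsmul], ob, if_pos ⟨γ, h2, h4⟩, one_zsmul, ← h4,
      phi_inv h2]

/-- The matrices in the coset of `A` that send `z` to `w`. -/
def cs (A : Mat ℤ) (z w : ℍ) : Set (Mat ℤ) := {α | ∃ γ ∈ G0, α = γ.1 * A ∧ γ • act A z = w}

theorem cs_sum {A : Mat ℤ} (hA : A.det ≠ 0) {z : ℍ} (h : jH (act A z) ≠ 0 ∧ jH (act A z) ≠ 1728)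
    (w : ℍ) : ∑ᶠ _ ∈ cs A z w, (1 : ℤ) = 2 * ob (act A z) w := by
  by_cases h1 : ∃ γ ∈ G0, γ • act A z = w
  · rw [ob, if_pos h1]
    obtain ⟨γ, h1, h2⟩ := h1
    have h3 : cs A z w = {γ.1 * A, -(γ.1 * A)} := by
      ext α
      constructor
      · rintro ⟨δ, -, rfl, h3⟩
        rcases (ord_j_one h.1 h.2).2 (γ⁻¹ * δ) (by rw [mul_smul, h3, ← h2, inv_smul_smul]) with
          e | e <;> rw [inv_mul_eq_iff_eq_mul] at e <;> simp [e]
      · rintro (rfl | rfl)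
        · exact ⟨γ, h1, rfl, h2⟩
        · exact ⟨-γ, by simpa using h1, by simp, by rw [ModularGroup.SL_neg_smul, h2]⟩
    rw [h3, finsum_mem_pair fun e => hA ?_]
    · norm_num
    · have h4 := congrArg Matrix.det (show γ.1 * A = 0 from
        Matrix.ext fun i j => self_eq_neg.1 (congrFun (congrFun e i) j))
      rwa [Matrix.det_mul, γ.2, one_mul, Matrix.det_zero] at h4
  · rw [ob, if_neg h1, show cs A z w = ∅ from Set.eq_empty_of_forall_notMem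
      fun α ⟨γ, h2, _, h3⟩ => h1 ⟨γ, h2, h3⟩, finsum_mem_empty, mul_zero]

/-- The four representatives. -/
def MA : Fin 4 → Mat ℤ := ![!![1, 0; 0, 1], !![2, 0; 0, 1], !![1, 0; 0, 2], !![1, 1; 0, 2]]

/-- Their determinants. -/
def dd : Fin 4 → ℕ := ![1, 2, 2, 2]

theorem dd_pos (i : Fin 4) : 0 < dd i ∧ dd i ≤ 2 := by
  revert i
  decide

theorem MA_mem (i : Fin 4) : MA i ∈ herm (dd i) := by
  rw [mem_herm (dd_pos i).1]
  revert i
  decide

theorem MA_inj : Function.Injective MA := by decide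

theorem MA_ex {m : ℕ} (h1 : 0 < m) (h2 : m ≤ 2) {A : Mat ℤ} (h : A ∈ herm m) : ∃ i, MA i = A := by
  obtain ⟨h3, h4, h5, h6, h7⟩ := (mem_herm h1).1 h
  rw [Matrix.eta_fin_two A, h3]
  generalize A 0 0 = a, A 0 1 = b, A 1 1 = d at *
  have h8 : a ≤ 2 := by nlinarith
  have h9 : d ≤ 2 := by nlinarith
  have : 0 < d := by omega
  interval_cases a <;> interval_cases d <;> interval_cases b <;> first | decide | omega

theorem count (z : ℍ) (h : ∀ i, jH (act (MA i) z) ≠ 0 ∧ jH (act (MA i) z) ≠ 1728) (w : ℍ) :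
    ∑ᶠ α ∈ MM 2 z w, II (red 17 α) (-α.det) = 2 * ∑ i, ob (act (MA i) z) w := by
  have hd : ∀ i, (MA i).det = dd i := fun i => herm_det (MA_mem i)
  have hp : ∀ i, 0 < (MA i).det := fun i => by rw [hd]; exact_mod_cast (dd_pos i).1
  have h1 : ∀ i, ∀ α ∈ cs (MA i) z w, α ∈ MM 2 z w ∧ (α 1 0 : ZMod 17) = 0 := by
    rintro i _ ⟨γ, h1, rfl, h2⟩
    refine ⟨mem_MM.2 ?_, ?_⟩
    · rw [act_mul (by rw [γ.2]; exact one_pos) (hp i), act_sl, Matrix.det_mul, γ.2, one_mul, hd]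
      exact ⟨by exact_mod_cast (dd_pos i).1, by exact_mod_cast (dd_pos i).2, h2⟩
    · have h3 : (γ.1 1 0 : ZMod 17) = 0 := h1
      simp [Matrix.mul_apply, h3, ((mem_herm (dd_pos i).1).1 (MA_mem i)).1]
  have h2 : ∀ α ∈ MM 2 z w, (α 1 0 : ZMod 17) = 0 → ∃ i, α ∈ cs (MA i) z w := fun α hα h0 => by
    obtain ⟨h2, h3, h4⟩ := mem_MM.1 hα
    have h5 : 0 < α.det.toNat := by omega
    obtain ⟨γ, A, h6, rfl⟩ := exists_herm h5 (Int.toNat_of_nonneg (by omega)).symm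
    obtain ⟨i, rfl⟩ := MA_ex h5 (by omega) h6
    rw [act_mul (by rw [γ.2]; exact one_pos) (hp i), act_sl] at h4
    refine ⟨i, γ, ?_, rfl, h4⟩
    have h7 : ∀ i, (MA i 0 0 : ZMod 17) ≠ 0 := by decide
    simpa [Matrix.mul_apply, h7, ((mem_herm (dd_pos i).1).1 (MA_mem i)).1] using h0
  rw [finsum_mem_inter_support_eq' _ _ (⋃ i, cs (MA i) z w)
      fun α hα => ⟨fun h3 => ?_, fun h3 => ?_⟩,
    finsum_mem_iUnion (fun i j hij => Set.disjoint_left.2 ?_)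
      fun i => (mm_finite 2 z w).subset fun α hα => (h1 i α hα).1,
    finsum_eq_sum_of_fintype, Finset.mul_sum]
  · refine Finset.sum_congr rfl fun i _ => ?_
    rw [← cs_sum (hp i).ne' (h i)]
    refine finsum_mem_congr rfl fun α hα => ?_
    obtain ⟨h3, h4⟩ := h1 i α hα
    rw [II_red h3.1 h3.2.1, if_pos h4]
  · rintro _ ⟨γ, -, rfl, -⟩ ⟨δ, -, e, -⟩
    have h3 := congrArg Matrix.det e
    rw [Matrix.det_mul, Matrix.det_mul, γ.2, δ.2, one_mul, one_mul, hd, hd, Nat.cast_inj] at h3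
    exact hij (MA_inj (herm_unique (dd_pos i).1 (MA_mem i) (h3 ▸ MA_mem j) e).2)
  · refine Set.mem_iUnion.2 (h2 α h3 ?_)
    by_contra h4
    exact hα ((II_red h3.1 h3.2.1).trans (if_neg h4))
  · obtain ⟨i, hi⟩ := Set.mem_iUnion.1 h3
    exact (h1 i α hi).1

end T2Aux

open T2Aux in
theorem t2 (z : ℍ) (h : ∀ w ∈ ({z, up 2 z, dn 2 0 z, dn 2 1 z} : Set ℍ), jH w ≠ 0 ∧ jH w ≠ 1728) :
    IsOfFinAddOrder (phi z + phi (up 2 z) + phi (dn 2 0 z) + phi (dn 2 1 z)) := by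
  have e0 : act (MA 0) z = z := by simp [act, MA]
  have e1 : act (MA 1) z = up 2 z := by simp [act, MA, up]
  have e2 : act (MA 2) z = dn 2 0 z := by simp [act, MA, dn]
  have e3 : act (MA 3) z = dn 2 1 z := by simp [act, MA, dn]
  have hj : ∀ i, jH (act (MA i) z) ≠ 0 ∧ jH (act (MA i) z) ≠ 1728 := fun i => h _ (by
    fin_cases i <;> simp [e0, e1, e2, e3])
  obtain ⟨C, hC⟩ := inp_FF
  obtain ⟨f₁, f₂, h1, h2, h3, h4, h5⟩ := o22_fib hC z
  obtain ⟨a1, b1⟩ := hsum_add (ob_sum z).1 (ob_sum (up 2 z)).1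
  obtain ⟨a2, b2⟩ := hsum_add a1 (ob_sum (dn 2 0 z)).1
  obtain ⟨a3, b3⟩ := hsum_add a2 (ob_sum (dn 2 1 z)).1
  have h6 := abel_level (n := 17) (by norm_num) dvd_rfl h1 h2 h3 h4 _ 1 one_ne_zero
    (fun w => ?_) (fun γ hγ w => by simp only [ob_inv _ hγ]) a3 fun w hw => ?_
  · rwa [b3, b2, b1, (ob_sum _).2, (ob_sum _).2, (ob_sum _).2, (ob_sum _).2] at h6
  · have h7 := h5 w
    rw [count z hj, Fin.sum_univ_four, e0, e1, e2, e3] at h7
    omega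
  · obtain ⟨i, -, hi⟩ := Finset.exists_ne_zero_of_sum_ne_zero
      (show ∑ i, ob (act (MA i) z) w ≠ 0 by rwa [Fin.sum_univ_four, e0, e1, e2, e3])
    obtain ⟨γ, -, rfl⟩ := ob_ne hi
    rw [mf_jH.inv γ (Subgroup.mem_top γ)]
    exact hj i

end Pool.Agent.Lib.MP_d6ddbd_nt.K
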