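import Mathlib
import Pool.Agent.Lib.MP_d6ddbd_nt.K.Defs

/-! The genus character on forms of discriminant `-m` and `-4 m`. -/

set_option autoImplicit false

noncomputable section

namespace Pool.Agent.Lib.MP_d6ddbd_nt.K

namespace T2HAux

theorem jac_of_sq {a u : ℤ} {n : ℕ} (ha : IsCoprime a n) (h : (n : ℤ) ∣ a - u ^ 2) :
    jacobiSym a n = 1 := by
  have h1 : jacobiSym a n = jacobiSym u n ^ 2 := by
    rw [← jacobiSym.pow_left]
    exact jacobiSym.mod_left' ((Int.modEq_iff_dvd.2 h).symm)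
  rcases jacobiSym.eq_one_or_neg_one (Int.isCoprime_iff_gcd_eq_one.1 ha) with h2 | h2
  · exact h2
  · have := sq_nonneg (jacobiSym u n)
    omega

theorem jac_eq {a b u : ℤ} {n : ℕ} (ha : IsCoprime a n) (hb : IsCoprime b n)
    (h : (n : ℤ) ∣ a * b - u ^ 2) : jacobiSym a n = jacobiSym b n := by
  have h1 := jac_of_sq (ha.mul_left hb) h
  rw [jacobiSym.mul_left] at h1
  rcases jacobiSym.eq_one_or_neg_one (Int.isCoprime_iff_gcd_eq_one.1 ha) with h2 | h2 <;>
    rcases jacobiSym.eq_one_or_neg_one (Int.isCoprime_iff_gcd_eq_one.1 hb) with h3 | h3 <;>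
    simp_all

theorem cop_of_not_dvd {p : ℕ} (hp : p.Prime) {a : ℤ} (h : ¬ (p : ℤ) ∣ a) : IsCoprime a p :=
  ((Nat.prime_iff_prime_int.1 hp).irreducible.coprime_iff_not_dvd.2 h).symm

theorem not_dvd_two {p : ℕ} (hp : p.Prime) (h2 : p ≠ 2) : ¬ (p : ℤ) ∣ 2 := fun h =>
  h2 ((Nat.prime_dvd_prime_iff_eq hp Nat.prime_two).1 (by exact_mod_cast h))

theorem dvd_mid {p : ℕ} (hp : p.Prime) {A B C : ℤ} (hd : (p : ℤ) ∣ B ^ 2 - 4 * A * C)
    (hA : (p : ℤ) ∣ A) : (p : ℤ) ∣ B := by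
  refine (Nat.prime_iff_prime_int.1 hp).dvd_of_dvd_pow (n := 2) ?_
  have h1 : (p : ℤ) ∣ 4 * A * C := (hA.mul_left 4).mul_right C
  simpa using hd.add h1

theorem chip_rep {p : ℕ} (hp : p.Prime) (h2 : p ≠ 2) {A B C x y n : ℤ}
    (hd : (p : ℤ) ∣ B ^ 2 - 4 * A * C) (hn : n = A * x ^ 2 + B * x * y + C * y ^ 2)
    (hc : ¬ (p : ℤ) ∣ n) : chip p A B C = jacobiSym n p := by
  unfold chip
  rw [if_pos hd]
  split_ifs with hA
  · obtain ⟨b, hb⟩ := dvd_mid hp hd hA
    obtain ⟨a, ha⟩ := hA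
    have hC : ¬ (p : ℤ) ∣ C := by
      rintro ⟨c, hc'⟩
      exact hc ⟨a * x ^ 2 + b * x * y + c * y ^ 2, by rw [hn, ha, hb, hc']; ring⟩
    refine jac_eq (u := C * y) (cop_of_not_dvd hp hC) (cop_of_not_dvd hp hc) ?_
    exact ⟨C * (a * x ^ 2 + b * x * y), by rw [hn, ha, hb]; ring⟩
  · have h4 : jacobiSym (2 ^ 2 * A) p = jacobiSym A p := by
      rw [jacobiSym.mul_left, jacobiSym.sq_one'
        (Int.isCoprime_iff_gcd_eq_one.1 (cop_of_not_dvd hp (not_dvd_two hp h2))), one_mul]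
    rw [← h4]
    refine jac_eq (u := 2 * A * x + B * y)
      (((cop_of_not_dvd hp (not_dvd_two hp h2)).pow_left).mul_left (cop_of_not_dvd hp hA))
      (cop_of_not_dvd hp hc) ?_
    obtain ⟨d, hd⟩ := hd
    exact ⟨-d * y ^ 2, by rw [hn]; linear_combination -y ^ 2 * hd⟩

theorem jac_prod (n : ℤ) (s : Finset ℕ) (hs : ∀ p ∈ s, p ≠ 0) :
    jacobiSym n (∏ p ∈ s, p) = ∏ p ∈ s, jacobiSym n p := by
  induction s using Finset.induction_on with
  | empty => simp
  | insert q s hq ih =>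
    have h1 : ∀ p ∈ s, p ≠ 0 := fun p hp => hs p (Finset.mem_insert_of_mem hp)
    rw [Finset.prod_insert hq, Finset.prod_insert hq, jacobiSym.mul_right' _
      (hs q (Finset.mem_insert_self _ _)) (Finset.prod_ne_zero_iff.2 h1), ih h1]

theorem chi_rep {m : ℕ} (hm : Squarefree m) (ho : Odd m) {A B C x y n : ℤ}
    (hd : (m : ℤ) ∣ B ^ 2 - 4 * A * C) (hn : n = A * x ^ 2 + B * x * y + C * y ^ 2)
    (hc : IsCoprime n m) : chi m A B C = jacobiSym n m := by
  conv_rhs => rw [← Nat.prod_primeFactors_of_squarefree hm]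
  rw [jac_prod _ _ fun p hp => (Nat.prime_of_mem_primeFactors hp).ne_zero]
  refine Finset.prod_congr rfl fun p hp => ?_
  have h1 := Nat.prime_of_mem_primeFactors hp
  have h2 := Nat.dvd_of_mem_primeFactors hp
  have h3 : (p : ℤ) ∣ m := Int.natCast_dvd_natCast.2 h2
  refine chip_rep h1 ?_ (h3.trans hd) hn fun h4 => ?_
  · rintro rfl
    exact (Nat.not_even_iff_odd.2 ho) (even_iff_two_dvd.2 h2)
  · exact (Nat.prime_iff_prime_int.1 h1).not_isUnit (hc.isUnit_of_dvd' h4 h3)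

theorem jac_rec {m n : ℕ} (hm : m % 4 = 3) (hn : Odd n) :
    jacobiSym n m = jacobiSym (-m) n := by
  have h1 := Nat.odd_iff.1 hn
  rw [jacobiSym.neg _ hn]
  rcases Nat.odd_mod_four_iff.1 h1 with h | h
  · rw [jacobiSym.quadratic_reciprocity_one_mod_four h (Nat.odd_iff.2 (by omega)),
      ZMod.χ₄_nat_one_mod_four h, one_mul]
  · rw [jacobiSym.quadratic_reciprocity_three_mod_four h hm, ZMod.χ₄_nat_three_mod_four h]
    ring

theorem cop_two {k n : ℤ} (hk : k ∣ 2) (hn : n % 2 = 1) : IsCoprime k n := by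
  have h : IsCoprime 2 n := ⟨-(n / 2), 1, by omega⟩
  exact h.of_isCoprime_of_dvd_left hk

/-- A represented value prime to `m` which is a residue. -/
theorem exists_rep {m : ℕ} (hm : Squarefree m) (h4 : m % 4 = 3) {A B C k x₀ y : ℤ} (hA : 0 < A)
    (hd : B ^ 2 - 4 * A * C = -(k ^ 2 * m)) (hk : k ∣ 2) (hy : y ∣ 2)
    (ho : (A * x₀ ^ 2 + B * x₀ * y + C * y ^ 2) % 2 = 1) :
    ∃ x : ℤ, IsCoprime (A * x ^ 2 + B * x * y + C * y ^ 2) m ∧
      jacobiSym (A * x ^ 2 + B * x * y + C * y ^ 2) m = 1 := by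
  have hodd : ∀ p : ℕ, p ∣ m → p ≠ 2 := by
    rintro p hp rfl
    omega
  set s := m.primeFactors.filter fun p : ℕ => ¬ (p : ℤ) ∣ A with hs
  have hc : IsCoprime (4 * A) (∏ p ∈ s, (p : ℤ)) := by
    refine IsCoprime.prod_right fun p hp => ?_
    obtain ⟨h1, h2⟩ := Finset.mem_filter.1 hp
    have h3 := Nat.prime_of_mem_primeFactors h1
    have h5 := cop_of_not_dvd h3 (not_dvd_two h3 (hodd p (Nat.dvd_of_mem_primeFactors h1)))
    simpa [mul_assoc, show (2 : ℤ) * (2 * A) = 4 * A by ring] using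
      (h5.mul_left h5).mul_left (cop_of_not_dvd h3 h2)
  obtain ⟨u, v, huv⟩ := hc
  set x := x₀ + 2 * (u * (1 - (2 * A * x₀ + B * y))) with hx
  set n := A * x ^ 2 + B * x * y + C * y ^ 2 with hn
  have key : 4 * A * n = (2 * A * x + B * y) ^ 2 + k ^ 2 * m * y ^ 2 := by
    rw [hn]
    linear_combination -y ^ 2 * hd
  have hk0 : k ≠ 0 := by
    rintro rfl
    simp at hk
  have hy0 : y ≠ 0 := by
    rintro rfl
    simp at hy
  have hm0 : (0 : ℤ) < m := by omega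
  have hpos : 0 < n := by
    have h1 : 0 < 4 * A * n := by
      rw [key]
      positivity
    exact (mul_pos_iff_of_pos_left (by omega)).1 h1
  have hno : n % 2 = 1 := by
    have h1 : n = A * x₀ ^ 2 + B * x₀ * y + C * y ^ 2 + 2 * ((x - x₀) / 2 *
        (A * (x + x₀) + B * y)) := by
      have h2 : (x - x₀) / 2 = u * (1 - (2 * A * x₀ + B * y)) := by
        rw [hx]
        simp
      rw [h2, hn, hx]
      ring
    omega
  have hcop : IsCoprime n m := by
    refine Int.isCoprime_iff_gcd_eq_one.2 (Nat.coprime_of_dvd fun p hp h1 h2 => ?_)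
    have h3 : (p : ℤ) ∣ n := Int.natCast_dvd.2 h1
    have h5 : p ∣ m := by simpa using h2
    have h6 : (p : ℤ) ∣ m := Int.natCast_dvd_natCast.2 h5
    have hP := Nat.prime_iff_prime_int.1 hp
    have h7 := cop_of_not_dvd hp (not_dvd_two hp (hodd p h5))
    by_cases hpA : (p : ℤ) ∣ A
    · have h8 : (p : ℤ) ∣ B := dvd_mid hp (C := C) (hd ▸ (h6.mul_left _).neg_right) hpA
      have h9 : (p : ℤ) ∣ C * y ^ 2 := by
        have h10 : (p : ℤ) ∣ A * x ^ 2 + B * x * y :=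
          (hpA.mul_right _).add ((h8.mul_right _).mul_right _)
        exact (dvd_add_right h10).1 h3
      have h11 : (p : ℤ) ∣ C :=
        ((h7.of_isCoprime_of_dvd_left hy).pow_left (m := 2)).symm.dvd_of_dvd_mul_right h9
      obtain ⟨a, ha⟩ := hpA
      obtain ⟨b, hb⟩ := h8
      obtain ⟨c, hc⟩ := h11
      have h12 : (p : ℤ) * p ∣ k ^ 2 * m :=
        ⟨4 * a * c - b ^ 2, by rw [ha, hb, hc] at hd; linear_combination hd⟩
      have h13 := (h7.of_isCoprime_of_dvd_left hk).pow_left (m := 2)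
      have h14 : p * p ∣ m := by
        exact_mod_cast (h13.mul_right h13).symm.dvd_of_dvd_mul_left h12
      exact hp.not_isUnit (hm p h14)
    · have h8 : (p : ℤ) ∣ ∏ p ∈ s, (p : ℤ) := Finset.dvd_prod_of_mem _
        (Finset.mem_filter.2 ⟨Nat.mem_primeFactors.2 ⟨hp, h5, hm.ne_zero⟩, hpA⟩)
      have h9 : (p : ℤ) ∣ 2 * A * x + B * y := by
        refine hP.dvd_of_dvd_pow (n := 2) ?_
        have h10 : (p : ℤ) ∣ k ^ 2 * m * y ^ 2 := (h6.mul_left _).mul_right _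
        exact (dvd_add_left h10).1 (key ▸ h3.mul_left _)
      have h11 : 2 * A * x + B * y = 1 - (∏ p ∈ s, (p : ℤ)) *
          (v * (1 - (2 * A * x₀ + B * y))) := by
        rw [hx]
        linear_combination (1 - (2 * A * x₀ + B * y)) * huv
      rw [h11] at h9
      exact hP.not_dvd_one ((dvd_sub_left (h8.mul_right _)).1 h9)
  refine ⟨x, hcop, ?_⟩
  obtain ⟨N, hN⟩ := Int.eq_ofNat_of_zero_le hpos.le
  rw [← hn, hN, jac_rec h4 (Nat.odd_iff.2 (by omega))]
  rw [hN] at hcop hno key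
  have h1 : IsCoprime (k * y) N := (cop_two hk hno).mul_left (cop_two hy hno)
  have h2 := jac_of_sq (a := -m * (k * y) ^ 2) (u := 2 * A * x + B * y) (n := N)
    (hcop.symm.neg_left.mul_left h1.pow_left) ⟨-(4 * A), by linear_combination key⟩
  rwa [jacobiSym.mul_left, jacobiSym.sq_one' (Int.isCoprime_iff_gcd_eq_one.1 h1), mul_one] at h2

theorem rep_one {m : ℕ} (hm : Squarefree m) (h4 : m % 4 = 3) {A B C : ℤ} (hA : 0 < A)
    (hd : B ^ 2 - 4 * A * C = -m) : ∃ x y : ℤ, IsCoprime (A * x ^ 2 + B * x * y + C * y ^ 2) m ∧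
      jacobiSym (A * x ^ 2 + B * x * y + C * y ^ 2) m = 1 := by
  have hd' : B ^ 2 - 4 * A * C = -(1 ^ 2 * m) := by simpa using hd
  have hB : B % 2 = 1 := by
    rcases Int.emod_two_eq_zero_or_one B with h | h
    · obtain ⟨b, rfl⟩ := Int.dvd_of_emod_eq_zero h
      have : (m : ℤ) = 4 * (A * C - b ^ 2) := by linear_combination hd
      omega
    · exact h
  by_cases h1 : A % 2 = 1
  · obtain ⟨x, hx⟩ := exists_rep hm h4 hA hd' (one_dvd _) (dvd_refl 2) (x₀ := 1) (by omega)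
    exact ⟨x, _, hx⟩
  by_cases h2 : C % 2 = 1
  · obtain ⟨x, hx⟩ := exists_rep hm h4 hA hd' (one_dvd _) (one_dvd _) (x₀ := 0) (by omega)
    exact ⟨x, _, hx⟩
  · obtain ⟨x, hx⟩ := exists_rep hm h4 hA hd' (one_dvd _) (one_dvd _) (x₀ := 1) (by omega)
    exact ⟨x, _, hx⟩

/-- The character is trivial on forms of discriminant `-m`. -/
theorem chi_one {m : ℕ} (hm : Squarefree m) (h4 : m % 4 = 3) {A B C : ℤ} (hA : 0 < A)
    (hd : B ^ 2 - 4 * A * C = -m) : chi m A B C = 1 := by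
  obtain ⟨x, y, h1, h2⟩ := rep_one hm h4 hA hd
  rw [chi_rep hm (Nat.odd_iff.2 (by omega)) (hd ▸ (dvd_refl _).neg_right) rfl h1, h2]

/-- The character on the double of a form of discriminant `-m`. -/
theorem chi_two {m : ℕ} (hm : Squarefree m) (h4 : m % 4 = 3) {A B C : ℤ} (hA : 0 < A)
    (hd : B ^ 2 - 4 * A * C = -m) :
    chi m (2 * A) (2 * B) (2 * C) = if m % 8 = 7 then 1 else -1 := by
  obtain ⟨x, y, h1, h2⟩ := rep_one hm h4 hA hd
  have ho : Odd m := Nat.odd_iff.2 (by omega)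
  rw [chi_rep hm ho (x := x) (y := y) (n := 2 * (A * x ^ 2 + B * x * y + C * y ^ 2))
    ⟨-4, by linear_combination 4 * hd⟩ (by ring)
    ((cop_two (dvd_refl 2) (by omega)).mul_left h1), jacobiSym.mul_left, h2, mul_one,
    jacobiSym.at_two ho, ZMod.χ₈_nat_eq_if_mod_eight, if_neg (by omega)]
  exact if_congr (by omega) rfl rfl

/-- The character is trivial on primitive forms of discriminant `-4 m`. -/
theorem chi_four {m : ℕ} (hm : Squarefree m) (h4 : m % 4 = 3) {A b C : ℤ} (hA : 0 < A)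
    (hd : b ^ 2 - A * C = -m) (ho : A % 2 = 1 ∨ C % 2 = 1) : chi m A (2 * b) C = 1 := by
  have hd' : (2 * b) ^ 2 - 4 * A * C = -(2 ^ 2 * m) := by linear_combination 4 * hd
  have h : ∃ x : ℤ, IsCoprime (A * x ^ 2 + 2 * b * x * 1 + C * 1 ^ 2) (m : ℤ) ∧
      jacobiSym (A * x ^ 2 + 2 * b * x * 1 + C * 1 ^ 2) m = 1 := by
    by_cases h2 : C % 2 = 1
    · exact exists_rep hm h4 hA hd' (dvd_refl 2) (one_dvd _) (x₀ := 0) (by omega)
    · exact exists_rep hm h4 hA hd' (dvd_refl 2) (one_dvd _) (x₀ := 1) (by omega)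
  obtain ⟨x, h1, h2⟩ := h
  rw [chi_rep hm (Nat.odd_iff.2 (by omega)) ⟨-4, by linear_combination hd'⟩ rfl h1, h2]

end T2HAux

end Pool.Agent.Lib.MP_d6ddbd_nt.K
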