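import Mathlib
import Pool.Agent.Lib.MP_d6ddbd_nt.K.Heeg1
import Pool.Agent.Lib.MP_d6ddbd_nt.K.Hec
import Pool.Agent.Lib.MP_d6ddbd_nt.K.T2H1

/-! The Hecke operator `T₂` on Heegner divisors, point by point. -/

set_option autoImplicit false

open UpperHalfPlane
open scoped MatrixGroups

noncomputable section

namespace Pool.Agent.Lib.MP_d6ddbd_nt.K

namespace T2HAux

theorem root_iff {α : Mat ℤ} (hα : 0 < α.det) (w : ℍ) (A B C : ℂ) :
    A * (act α w : ℂ) ^ 2 + B * (act α w : ℂ) + C = 0 ↔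
      A * ((α 0 0 : ℂ) * w + α 0 1) ^ 2 +
        B * ((α 0 0 : ℂ) * w + α 0 1) * ((α 1 0 : ℂ) * w + α 1 1) +
        C * ((α 1 0 : ℂ) * w + α 1 1) ^ 2 = 0 := by
  have h := den_ne hα w
  rw [coe_act hα, ← mul_eq_zero_iff_right (pow_ne_zero 2 h)]
  refine Eq.congr_left ?_
  generalize (α 1 0 : ℂ) * w + α 1 1 = d at h ⊢
  field_simp

/-- The neighbours of a point of discriminant `-m` have discriminant `-4 m`. -/
theorem nb {m r₀ : ℤ} (hm : 0 < m) {α : Mat ℤ} (hα : α.det = 2) {r : ℤ} (hr : α 1 0 = 17 * r)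
    {w : ℍ} {a b c : ℤ} (h : (a, b, c) ∈ Hg (-m) r₀ (act α w)) :
    (a * α 0 0 ^ 2 + b * α 0 0 * r + 17 * c * r ^ 2,
      34 * a * α 0 0 * α 0 1 + b * (2 + 34 * α 0 1 * r) + 34 * c * r * α 1 1,
      17 * a * α 0 1 ^ 2 + b * α 0 1 * α 1 1 + c * α 1 1 ^ 2) ∈ Hg (-(4 * m)) (2 * r₀) w := by
  obtain ⟨h1, h2, ⟨k, h3⟩, h4⟩ := h
  simp only at h1 h2 h3 h4
  rw [root_iff (by omega), hr] at h4
  rw [Matrix.det_fin_two, hr] at hα
  generalize α 0 0 = p at *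
  generalize α 0 1 = q at *
  generalize α 1 1 = s at *
  have e : (2 : ℤ) + 34 * q * r = p * s + 17 * q * r := by linear_combination -hα
  refine ⟨?_, ?_, ⟨a * p * q + 2 * k + b * q * r + c * r * s, ?_⟩, ?_⟩
  · have h5 : 4 * a * (a * p ^ 2 + b * p * r + 17 * c * r ^ 2) =
        (2 * a * p + b * r) ^ 2 + m * r ^ 2 := by linear_combination -r ^ 2 * h2
    have h6 : 0 < (2 * a * p + b * r) ^ 2 + m * r ^ 2 := by
      by_cases h7 : r = 0
      · have h8 : p ≠ 0 := by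
          rintro rfl
          simp [h7] at hα
        have h9 : 2 * a * p + b * r ≠ 0 := by simp [h7, h8, h1.ne']
        positivity
      · positivity
    rw [← h5] at h6
    exact (mul_pos_iff_of_pos_left (by omega)).1 h6
  · simp only [e]
    linear_combination (p * s - q * (17 * r)) ^ 2 * h2 - m * (p * s - q * (17 * r) + 2) * hα
  · linear_combination 2 * h3
  · simp only [e]
    push_cast at h4 ⊢
    linear_combination h4

theorem odd_mid {m b t : ℤ} (hm : m % 2 = 1) (h : b ^ 2 + 2 * t = -m) : b % 2 = 1 := by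
  rcases Int.emod_two_eq_zero_or_one b with h1 | h1
  · obtain ⟨c, rfl⟩ := Int.dvd_of_emod_eq_zero h1
    have : m = -(2 * (2 * c ^ 2 + t)) := by linear_combination h
    omega
  · exact h1

theorem tri {m r₀ : ℤ} (hm : 0 < m) (ho : m % 2 = 1) (hr : r₀ % 2 = 1) {p q s : ℤ}
    (hps : p * s = 2) {w : ℍ} {a' b' c' : ℤ} (h : (a', b', c') ∈ Hg (-(4 * m)) (2 * r₀) w) :
    (Hg (-m) r₀ (act !![p, q; 0, s] w)).Nonempty ↔ ∃ a b c : ℤ, a' = a * p ^ 2 ∧
      b' = 34 * a * p * q + 2 * b ∧ c' = 17 * a * q ^ 2 + b * q * s + c * s ^ 2 := by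
  have hd : (!![p, q; 0, s] : Mat ℤ).det = 2 := by simp [Matrix.det_fin_two, hps]
  constructor
  · rintro ⟨⟨a, b, c⟩, hQ⟩
    have h1 := hg_sub (by omega) _ _ h (nb hm hd (r := 0) (by simp) hQ)
    simp only [Prod.mk.injEq] at h1
    obtain ⟨h2, h3, h4⟩ := h1
    exact ⟨a, b, c, by simpa using h2, by simpa [mul_comm b 2] using h3, by simpa using h4⟩
  · rintro ⟨a, b, c, rfl, rfl, rfl⟩
    obtain ⟨h1, h2, ⟨k, h3⟩, h4⟩ := h
    simp only at h1 h2 h3 h4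
    have h5 : b ^ 2 - 68 * a * c = -m := by
      have h6 : 4 * (b ^ 2 - 68 * a * c) = 4 * -m := by
        linear_combination h2 + (68 * a * b * p * q + 68 * a * c * (p * s + 2)) * hps
      omega
    have h6 := odd_mid (b := b) (t := -(34 * a * c)) ho (by linear_combination h5)
    refine ⟨(a, b, c), pos_of_mul_pos_left h1 (sq_nonneg p), h5, ?_, ?_⟩
    · have h7 : 2 * b - 2 * r₀ = 34 * (k - a * p * q) := by linear_combination h3
      simp only
      omega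
    · rw [root_iff (by omega)]
      have h8 : (p : ℂ) * s = 2 := by exact_mod_cast hps
      push_cast at h4
      simp only [Matrix.of_apply, Matrix.cons_val', Matrix.cons_val_zero, Matrix.cons_val_one,
        Matrix.cons_val_fin_one, Int.cast_zero]
      linear_combination h4 + b * (w : ℂ) * h8

theorem dbl {m r₀ : ℤ} {w : ℍ} {a b c : ℤ} (h : (a, b, c) ∈ Hg (-m) r₀ w) :
    (2 * a, 2 * b, 2 * c) ∈ Hg (-(4 * m)) (2 * r₀) w := by
  obtain ⟨h1, h2, ⟨k, h3⟩, h4⟩ := h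
  simp only at h1 h2 h3 h4
  refine ⟨by simpa using h1, by linear_combination 4 * h2, ⟨2 * k, by linear_combination 2 * h3⟩,
    ?_⟩
  push_cast
  linear_combination 2 * h4

theorem half {m r₀ : ℤ} (ho : m % 2 = 1) (hr : r₀ % 2 = 1) {w : ℍ} {a b c : ℤ}
    (h : (2 * a, 2 * b, 2 * c) ∈ Hg (-(4 * m)) (2 * r₀) w) : (a, b, c) ∈ Hg (-m) r₀ w := by
  obtain ⟨h1, h2, h3, h4⟩ := h
  simp only at h1 h2 h3 h4
  have h5 : b ^ 2 - 68 * a * c = -m := by nlinarith [h2]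
  have h6 := odd_mid (b := b) (t := -(34 * a * c)) ho (by linear_combination h5)
  refine ⟨by simpa using h1, h5, by simp only; omega, ?_⟩
  push_cast at h4
  linear_combination (1 / 2 : ℂ) * h4

theorem dv_mem (m : ℕ) {Δ β : ℤ} (hΔ : Δ < 0) {z : ℍ} {a b c : ℤ} (h : (a, b, c) ∈ Hg Δ β z) :
    Dv m Δ β z = chi m (17 * a) b c := by
  unfold Dv
  rw [(hg_sub hΔ β z).eq_singleton_of_mem h, finsum_mem_singleton]

theorem dv_empty (m : ℕ) {Δ β : ℤ} {z : ℍ} (h : ¬ (Hg Δ β z).Nonempty) : Dv m Δ β z = 0 := by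
  unfold Dv
  rw [Set.not_nonempty_iff_eq_empty.1 h, finsum_mem_empty]

theorem dv_one {m : ℕ} (hm : Squarefree m) (h4 : m % 4 = 3) {β : ℤ} {z : ℍ} {P : Prop}
    [Decidable P] (h : (Hg (-m) β z).Nonempty ↔ P) : Dv m (-m) β z = if P then 1 else 0 := by
  split_ifs with hP
  · obtain ⟨⟨a, b, c⟩, hQ⟩ := h.2 hP
    rw [dv_mem m (by omega) hQ]
    exact chi_one hm h4 (by have := hQ.1; omega) (by linear_combination hQ.2.1)
  · exact dv_empty m fun h1 => hP (h.1 h1)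

theorem mod4 {a b c : ℤ} (h : (b * b + 3 * (a * c) + 3) % 4 = 0) :
    (a % 2 = 1 → c % 2 = 1 → b % 2 = 0 ∧ (a + c) % 4 = 0) ∧ (a % 2 = 1 → c % 2 = 0 → c % 4 = 0) ∧
    (a % 2 = 0 → c % 2 = 1 → a % 4 = 0) := by
  have ha : a % 4 = 0 ∨ a % 4 = 1 ∨ a % 4 = 2 ∨ a % 4 = 3 := by omega
  have hb : b % 4 = 0 ∨ b % 4 = 1 ∨ b % 4 = 2 ∨ b % 4 = 3 := by omega
  have hc : c % 4 = 0 ∨ c % 4 = 1 ∨ c % 4 = 2 ∨ c % 4 = 3 := by omega
  rcases ha with ha | ha | ha | ha <;> rcases hb with hb | hb | hb | hb <;>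
    rcases hc with hc | hc | hc | hc <;>
    first
    | omega
    | simp [Int.add_emod, Int.mul_emod, ha, hb, hc] at h

theorem sum_two {β : Type} [AddCommMonoid β] (Φ : Mat ℤ → β) :
    ∑ A ∈ herm 2, Φ A = Φ !![2, 0; 0, 1] + Φ !![1, 0; 0, 2] + Φ !![1, 1; 0, 2] := by
  have h : Nat.divisorsAntidiagonal 2 = {(1, 2), (2, 1)} := by decide
  rw [sum_herm, h, Finset.sum_pair (by decide)]
  simp [Finset.sum_range_succ]
  abel

theorem adj_mem {m r₀ : ℤ} (hm : 0 < m) {α : Mat ℤ} (hα : α.det = 2) (h17 : 17 ∣ α 1 0) {z : ℍ}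
    (h : (Hg (-m) r₀ z).Nonempty) : (Hg (-(4 * m)) (2 * r₀) (act α z)).Nonempty := by
  obtain ⟨⟨a, b, c⟩, hQ⟩ := h
  obtain ⟨r, hr⟩ := h17
  rw [← act_adj (A := α) (by omega) z] at hQ
  exact ⟨_, nb hm (by simp [Matrix.det_adjugate, hα]) (r := -r)
    (by simp [Matrix.adjugate_fin_two, hr]) hQ⟩

/-- The Hecke operator on the Heegner divisor. -/
theorem t2_dv {m : ℕ} (hm : Squarefree m) (h4 : m % 4 = 3) {r₀ : ℤ} (hr : r₀ % 2 = 1) (w : ℍ) :
    ∑ A ∈ herm 2, Dv m (-m) r₀ (act A w) = Dv m (-m) r₀ w + Dv m (-(4 * m)) (2 * r₀) w := by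
  have hm0 : (0 : ℤ) < m := by omega
  have ho : (m : ℤ) % 2 = 1 := by omega
  by_cases hw : (Hg (-(4 * m)) (2 * r₀) w).Nonempty
  swap
  · rw [dv_empty m hw, dv_empty m fun ⟨⟨a, b, c⟩, h⟩ => hw ⟨_, dbl h⟩, add_zero]
    refine Finset.sum_eq_zero fun A hA => dv_empty m fun ⟨⟨a, b, c⟩, h⟩ => hw ⟨_,
      nb hm0 (herm_det hA) (r := 0) ((mem_herm two_pos).1 hA).1 h⟩
  obtain ⟨⟨a, b', c⟩, h⟩ := hw
  obtain ⟨b, rfl⟩ : (2 : ℤ) ∣ b' := by
    have := h.2.2.1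
    simp only at this
    omega
  have ha : 0 < a := h.1
  have hd : b ^ 2 - 17 * a * c = -m := by
    have h1 : 4 * (b ^ 2 - 17 * a * c) = 4 * -m := by linear_combination h.2.1
    omega
  have n1 : (Hg (-m) r₀ (act !![2, 0; 0, 1] w)).Nonempty ↔ a % 4 = 0 := by
    rw [tri hm0 ho hr (by norm_num) h]
    exact ⟨fun ⟨x, y, z, h1, _⟩ => by omega, fun h1 => ⟨a / 4, b, c, by omega, by omega, by omega⟩⟩
  have n2 : (Hg (-m) r₀ (act !![1, 0; 0, 2] w)).Nonempty ↔ c % 4 = 0 := by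
    rw [tri hm0 ho hr (by norm_num) h]
    exact ⟨fun ⟨x, y, z, _, _, h1⟩ => by omega,
      fun h1 => ⟨a, b, c / 4, by omega, by omega, by omega⟩⟩
  have n3 : (Hg (-m) r₀ (act !![1, 1; 0, 2] w)).Nonempty ↔ (17 * a - 2 * b + c) % 4 = 0 := by
    rw [tri hm0 ho hr (by norm_num) h]
    exact ⟨fun ⟨x, y, z, _, _, h1⟩ => by omega,
      fun h1 => ⟨a, b - 17 * a, (17 * a - 2 * b + c) / 4, by omega, by omega, by omega⟩⟩
  have n0 : (Hg (-m) r₀ w).Nonempty ↔ a % 2 = 0 ∧ c % 2 = 0 := by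
    constructor
    · rintro ⟨⟨x, y, z⟩, h1⟩
      have h2 := hg_sub (by omega) _ _ h (dbl h1)
      simp only [Prod.mk.injEq] at h2
      omega
    · rintro ⟨h1, h2⟩
      obtain ⟨x, rfl⟩ := Int.dvd_of_emod_eq_zero h1
      obtain ⟨z, rfl⟩ := Int.dvd_of_emod_eq_zero h2
      exact ⟨_, half ho hr h⟩
  rw [sum_two, dv_one hm h4 n0, dv_one hm h4 n1, dv_one hm h4 n2, dv_one hm h4 n3,
    dv_mem m (by omega) h]
  by_cases he : a % 2 = 0 ∧ c % 2 = 0
  · obtain ⟨x, rfl⟩ := Int.dvd_of_emod_eq_zero he.1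
    obtain ⟨z, rfl⟩ := Int.dvd_of_emod_eq_zero he.2
    rw [mul_left_comm, chi_two hm h4 (by omega) (by linear_combination hd)]
    have hb := odd_mid (b := b) (t := -(34 * x * z)) ho (by linear_combination hd)
    obtain ⟨t, rfl⟩ : ∃ t, b = 2 * t + 1 := ⟨b / 2, by omega⟩
    obtain ⟨e, he'⟩ := Int.even_mul_succ_self t
    have h5 : (m : ℤ) = 68 * (x * z) - 8 * e - 1 := by linear_combination hd - 4 * he'
    have h6 : (x * z) % 2 = 0 ↔ x % 2 = 0 ∨ z % 2 = 0 := by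
      simp only [← Int.even_iff, Int.even_mul]
    clear n0 n1 n2 n3 he
    split_ifs <;> omega
  · rw [chi_four hm h4 (by omega) hd (by omega)]
    have h5 : b * b + 3 * (a * c) + 3 = 20 * (a * c) + 3 - m := by linear_combination hd
    clear n0 n1 n2 n3
    obtain ⟨k1, k2, k3⟩ := mod4 (a := a) (b := b) (c := c) (by omega)
    clear h5
    rcases Int.emod_two_eq_zero_or_one a with h6 | h6 <;>
      rcases Int.emod_two_eq_zero_or_one c with h7 | h7
    · exact absurd ⟨h6, h7⟩ he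
    · have := k3 h6 h7
      rw [if_neg he, if_pos this, if_neg (by omega), if_neg (by omega)]
      rfl
    · have := k2 h6 h7
      rw [if_neg he, if_pos this, if_neg (by omega), if_neg (by omega)]
      rfl
    · have := k1 h6 h7
      rw [if_neg he, if_neg (by omega), if_neg (by omega), if_pos (by omega)]
      rfl

end T2HAux

end Pool.Agent.Lib.MP_d6ddbd_nt.K
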