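import Mathlib
import Pool.Agent.Lib.MP_d6ddbd_nt.K.T2
import Pool.Agent.Lib.MP_d6ddbd_nt.K.T2H2

set_option autoImplicit false

open UpperHalfPlane
open scoped MatrixGroups
open Pool.Agent.Lib.MP_9177b7_ag.CM (jH up dn)

noncomputable section

namespace Pool.Agent.Lib.MP_d6ddbd_nt.K

namespace T2HAux

/-- The orbit of a point. -/
def orb (z : ℍ) : Orb := Quotient.mk _ z

theorem orb_eq {z w : ℍ} : orb z = orb w ↔ ∃ γ ∈ G0, γ • z = w := by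
  rw [eq_comm]
  refine Quotient.eq.trans ⟨?_, ?_⟩
  · rintro ⟨γ, h⟩
    exact ⟨γ.1, γ.2, h⟩
  · rintro ⟨γ, h1, h2⟩
    exact ⟨⟨γ, h1⟩, h2⟩

theorem orb_out (c : Orb) : orb c.out = c := Quotient.out_eq c

theorem out_orb (z : ℍ) : ∃ γ ∈ G0, γ • z = (orb z).out := orb_eq.1 (orb_out _).symm

theorem mem_G0 {γ : SL(2, ℤ)} : γ ∈ G0 ↔ (17 : ℤ) ∣ γ 1 0 :=
  CongruenceSubgroup.Gamma0_mem.trans (ZMod.intCast_zmod_eq_zero_iff_dvd _ 17)

open Classical in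
/-- The number of neighbours of `z` in the orbit of `w`. -/
def cnt (z w : ℍ) : ℕ := ((herm 2).filter fun A => orb (act A z) = orb w).card

theorem act_sl_mul (γ : SL(2, ℤ)) {A : Mat ℤ} (hA : A.det = 2) (z : ℍ) :
    (γ.1 * A).det = 2 ∧ act (γ.1 * A) z = γ • act A z :=
  ⟨by rw [Matrix.det_mul, γ.2, hA, one_mul],
    by rw [act_mul (by rw [γ.2]; norm_num) (by omega), act_sl]⟩

theorem low_mul {γ : SL(2, ℤ)} {A : Mat ℤ} (hA : A ∈ herm 2) :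
    (17 : ℤ) ∣ (γ.1 * A) 1 0 ↔ γ ∈ G0 := by
  obtain ⟨h1, h2, h3, h4, h5⟩ := (mem_herm two_pos).1 hA
  have h6 : A 0 0 = 1 ∨ A 0 0 = 2 := by
    have : A 0 0 ≤ 2 := Int.le_of_dvd two_pos ⟨_, h3.symm⟩
    omega
  rw [mem_G0, Matrix.mul_apply, Fin.sum_univ_two, h1]
  change 17 ∣ γ 1 0 * A 0 0 + γ 1 1 * 0 ↔ _
  rcases h6 with h | h <;> rw [h] <;> omega

theorem cnt_le {z w : ℍ} (hz : ∀ γ : SL(2, ℤ), γ • z = z → γ = 1 ∨ γ = -1) :
    cnt z w ≤ cnt w z := by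
  classical
  have key : ∀ A : Mat ℤ, A ∈ herm 2 → orb (act A z) = orb w → ∃ (A' : Mat ℤ) (γ γ' : SL(2, ℤ)),
      A' ∈ herm 2 ∧ γ' ∈ G0 ∧ γ' • act A' w = z ∧ (γ.1 * A).adjugate = γ'.1 * A' := by
    intro A hA h
    obtain ⟨γ, h1, h2⟩ := orb_eq.1 h
    obtain ⟨h3, h4⟩ := act_sl_mul γ (herm_det hA) z
    obtain ⟨γ', A', h5, h6⟩ := exists_herm two_pos (α := (γ.1 * A).adjugate)
      (by rw [Matrix.det_adjugate, h3]; simp)
    refine ⟨A', γ, γ', h5, (low_mul h5).1 ?_, ?_, h6⟩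
    · rw [← h6, Matrix.adjugate_fin_two]
      simpa using (low_mul hA).2 h1
    · rw [← (act_sl_mul γ' (herm_det h5) w).2, ← h6, ← h2, ← h4, act_adj (by omega)]
  choose! f g g' k1 k2 k3 k4 using key
  refine Finset.card_le_card_of_injOn f (fun A hA => ?_) fun A hA B hB e => ?_
  · obtain ⟨h1, h2⟩ := Finset.mem_filter.1 hA
    exact Finset.mem_filter.2 ⟨k1 A h1 h2, orb_eq.2 ⟨_, k2 A h1 h2, k3 A h1 h2⟩⟩
  · obtain ⟨h1, h2⟩ := Finset.mem_filter.1 hA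
    obtain ⟨h3, h4⟩ := Finset.mem_filter.1 hB
    have h5 : (g' A * (g' B)⁻¹) • z = z := by
      conv_lhs => rw [← k3 B h3 h4, smul_smul, inv_mul_cancel_right, ← e, k3 A h1 h2]
    have adj : ∀ X : Mat ℤ, X.adjugate.adjugate = X := fun X => by
      simp [Matrix.adjugate_adjugate']
    have h6 := congrArg Matrix.adjugate (k4 A h1 h2)
    have h7 := congrArg Matrix.adjugate (k4 B h3 h4)
    rw [adj] at h6 h7
    rcases hz _ h5 with h8 | h8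
    · rw [mul_inv_eq_one.1 h8, e, ← h7] at h6
      exact (herm_unique two_pos h1 h3 h6).2
    · have h9 : g' A = -g' B := by simpa using mul_inv_eq_iff_eq_mul.1 h8
      have h10 : (g A).1 * A = (-g B).1 * B := by
        rw [h6, h9, e, Matrix.SpecialLinearGroup.coe_neg, Matrix.SpecialLinearGroup.coe_neg,
          neg_mul, neg_mul, h7]
        simp [Matrix.adjugate_fin_two]
      exact (herm_unique two_pos h1 h3 h10).2

theorem fib {M : Type} [AddCommMonoid M] (f : Orb → M) (F : Finset Orb) (z : ℍ)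
    (h : ∀ A ∈ herm 2, orb (act A z) ∉ F → f (orb (act A z)) = 0) :
    ∑ A ∈ herm 2, f (orb (act A z)) = ∑ c ∈ F, cnt z c.out • f c := by
  classical
  have h1 : ∀ A ∈ herm 2, f (orb (act A z)) = ∑ c ∈ F, if orb (act A z) = c then f c else 0 := by
    intro A hA
    rw [Finset.sum_ite_eq]
    split_ifs with h2
    · rfl
    · exact h A hA h2
  rw [Finset.sum_congr rfl h1, Finset.sum_comm]
  refine Finset.sum_congr rfl fun c _ => ?_
  rw [← Finset.sum_filter, Finset.sum_const, cnt, orb_out]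

theorem pp_sum (m : ℕ) (Δ β : ℤ) (F : Finset Orb) (h : ∀ c : Orb, Dv m Δ β c.out ≠ 0 → c ∈ F) :
    PP m Δ β = ∑ c ∈ F, Dv m Δ β c.out • phi c.out := by
  refine finsum_eq_sum_of_support_subset _ fun c hc => h c fun h1 => hc ?_
  simp [h1]

theorem alg {ι M : Type} [AddCommGroup M] (F₁ F : Finset ι) {D₁ D₄ : ι → ℤ} {N : ι → ι → ℕ}
    {P S : ι → M} {P₁ P₄ : M} (e1 : ∀ c, D₁ c + D₄ c = ∑ x ∈ F₁, N x c • D₁ x)
    (e2 : ∀ c ∈ F₁, S c = ∑ c' ∈ F, N c c' • P c') (h1 : P₁ = ∑ c ∈ F₁, D₁ c • P c)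
    (h2 : P₁ = ∑ c ∈ F, D₁ c • P c) (h4 : P₄ = ∑ c ∈ F, D₄ c • P c) :
    P₄ + 2 • P₁ = ∑ c ∈ F₁, D₁ c • (P c + S c) := by
  have e3 : P₁ + P₄ = ∑ c ∈ F₁, D₁ c • S c := by
    rw [h2, h4, ← Finset.sum_add_distrib]
    refine Eq.trans ?_ (Finset.sum_congr rfl fun c hc => by rw [e2 c hc, Finset.smul_sum]).symm
    rw [Finset.sum_comm]
    refine Finset.sum_congr rfl fun c _ => ?_
    rw [← add_smul, e1, Finset.sum_smul]
    exact Finset.sum_congr rfl fun c' _ => by rw [smul_assoc, smul_comm]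
  simp only [smul_add, Finset.sum_add_distrib]
  rw [← e3, ← h1, two_smul]
  abel

theorem j_ok {m : ℕ} (h4 : m % 4 = 3) (h3 : ¬ 3 ∣ m) {β : ℤ} {z : ℍ}
    (h : (Hg (-(4 * m)) β z).Nonempty) : jH z ≠ 0 ∧ jH z ≠ 1728 := by
  refine dv_j m (by omega) β ?_ ?_ h
  · rintro ⟨s, hs⟩
    obtain ⟨t, rfl⟩ : 2 ∣ s := Int.prime_two.dvd_of_dvd_pow (n := 2)
      ⟨2 * m, by linear_combination -hs⟩
    have h1 : t * t + 3 * (0 * 0) + 3 = m + 3 := by nlinarith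
    have h2 : t % 4 = 0 ∨ t % 4 = 1 ∨ t % 4 = 2 ∨ t % 4 = 3 := by omega
    have h5 : (t * t) % 4 = 3 := by omega
    rcases h2 with h | h | h | h <;> simp [Int.mul_emod, h] at h5
  · rintro ⟨s, hs⟩
    obtain ⟨t, rfl⟩ : 3 ∣ s := Int.prime_three.dvd_of_dvd_pow (n := 2)
      ⟨4 * m, by linear_combination -hs⟩
    have h1 : (4 * m : ℤ) = 3 * (t * t) := by nlinarith
    omega

end T2HAux

open T2HAux in
theorem t2_heeg (m : ℕ) (r₀ : ℤ) (hm : Squarefree m) (hc : m.Coprime 102)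
    (hr : (68 : ℤ) ∣ r₀ ^ 2 + m) :
    IsOfFinAddOrder (PP m (-(4 * m)) (2 * r₀) + 2 • PP m (-m) r₀) := by
  classical
  have h2 : ¬ 2 ∣ m := fun h => by simpa using Nat.eq_one_of_dvd_coprimes hc h (by norm_num)
  have h3 : ¬ 3 ∣ m := fun h => by simpa using Nat.eq_one_of_dvd_coprimes hc h (by norm_num)
  obtain ⟨k, hk⟩ := hr
  have hr : r₀ % 2 = 1 := odd_mid (m := m) (t := -(34 * k)) (by omega) (by linear_combination hk)
  have h4 : m % 4 = 3 := by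
    obtain ⟨t, rfl⟩ : ∃ t, r₀ = 2 * t + 1 := ⟨r₀ / 2, by omega⟩
    have : (m : ℤ) = 68 * k - 4 * (t * t + t) - 1 := by linear_combination hk
    omega
  have hm0 : (0 : ℤ) < m := by omega
  have ho : Odd m := Nat.odd_iff.2 (by omega)
  set F₁ := (dv_fin m (Δ := -m) (by omega) r₀).toFinset with hF₁
  set F₄ := (dv_fin m (Δ := -(4 * m)) (by omega) (2 * r₀)).toFinset with hF₄
  set F := F₁ ∪ F₄ ∪ (F₁ ×ˢ herm 2).image fun p => orb (act p.2 p.1.out) with hF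
  have m1 : ∀ c : Orb, c ∈ F₁ ↔ Dv m (-m) r₀ c.out ≠ 0 := fun c => Set.Finite.mem_toFinset _
  have m4 : ∀ c : Orb, c ∈ F₄ ↔ Dv m (-(4 * m)) (2 * r₀) c.out ≠ 0 := fun c =>
    Set.Finite.mem_toFinset _
  have ne1 : ∀ c ∈ F₁, (Hg (-m) r₀ c.out).Nonempty := fun c hc => by
    by_contra h
    exact (m1 c).1 hc (dv_empty m h)
  have ne4 : ∀ c ∈ F₁, (Hg (-(4 * m)) (2 * r₀) c.out).Nonempty := fun c hc =>
    let ⟨⟨_, _, _⟩, h⟩ := ne1 c hc
    ⟨_, dbl h⟩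
  have sym : ∀ c ∈ F₁, ∀ w : ℍ, cnt w c.out = cnt c.out w := by
    intro c hc w
    have j1 := j_ok h4 h3 (ne4 c hc)
    have l1 := cnt_le (w := w) (ord_j_one j1.1 j1.2).2
    rcases Nat.eq_zero_or_pos (cnt w c.out) with h | h
    · omega
    obtain ⟨A, hA⟩ := Finset.card_pos.1 h
    obtain ⟨a1, a2⟩ := Finset.mem_filter.1 hA
    obtain ⟨γ, g1, g2⟩ := orb_eq.1 a2
    obtain ⟨d1, d2⟩ := act_sl_mul γ (herm_det a1) w
    obtain ⟨⟨a, b, e⟩, hQ⟩ := ne1 c hc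
    obtain ⟨r, hr'⟩ := (T2HAux.low_mul a1).2 g1
    rw [← g2, ← d2] at hQ
    have j2 := j_ok h4 h3 ⟨_, nb hm0 d1 hr' hQ⟩
    exact le_antisymm (cnt_le (ord_j_one j2.1 j2.2).2) l1
  have e1 : ∀ w : ℍ, Dv m (-m) r₀ w + Dv m (-(4 * m)) (2 * r₀) w =
      ∑ c ∈ F₁, cnt c.out w • Dv m (-m) r₀ c.out := by
    intro w
    rw [← t2_dv hm h4 hr]
    refine Eq.trans (Finset.sum_congr rfl fun A _ => ?_)
      ((fib (fun c => Dv m (-m) r₀ c.out) F₁ w fun A _ h => by simpa [m1] using h).trans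
        (Finset.sum_congr rfl fun c hc => by rw [sym c hc w]))
    obtain ⟨γ, g1, g2⟩ := out_orb (act A w)
    rw [← g2, dv_inv m ho (by omega) r₀ g1]
  have e2 : ∀ c ∈ F₁, ∑ A ∈ herm 2, phi (act A c.out) =
      ∑ c' ∈ F, cnt c.out c'.out • phi c'.out := by
    intro c hc
    rw [← fib (fun c => phi c.out) F c.out fun A hA h => absurd (Finset.mem_union_right _
      (Finset.mem_image.2 ⟨(c, A), Finset.mem_product.2 ⟨hc, hA⟩, rfl⟩)) h]
    refine Finset.sum_congr rfl fun A _ => ?_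
    obtain ⟨γ, g1, g2⟩ := out_orb (act A c.out)
    rw [← g2, phi_inv g1]
  have e4 : PP m (-(4 * m)) (2 * r₀) + 2 • PP m (-m) r₀ =
      ∑ c ∈ F₁, Dv m (-m) r₀ c.out • (phi c.out + ∑ A ∈ herm 2, phi (act A c.out)) :=
    alg F₁ F (fun c => e1 c.out) e2 (pp_sum m _ _ F₁ fun c hc => (m1 c).2 hc)
      (pp_sum m _ _ F fun c hc => by simp [hF, (m1 c).2 hc])
      (pp_sum m _ _ F fun c hc => by simp [hF, (m4 c).2 hc])
  rw [e4]
  refine (AddCommGroup.mem_torsion _).1 (sum_mem fun c hc => zsmul_mem ?_ _)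
  have u1 : act !![2, 0; 0, 1] c.out = up 2 c.out := by simp [act, up]
  have u2 : act !![1, 0; 0, 2] c.out = dn 2 0 c.out := by simp [act, dn]
  have u3 : act !![1, 1; 0, 2] c.out = dn 2 1 c.out := by simp [act, dn]
  rw [AddCommGroup.mem_torsion, sum_two, u1, u2, u3, ← add_assoc, ← add_assoc]
  refine t2 _ fun w hw => j_ok h4 h3 (β := 2 * r₀) ?_
  simp only [Set.mem_insert_iff, Set.mem_singleton_iff] at hw
  rcases hw with rfl | rfl | rfl | rfl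
  · exact ne4 c hc
  · exact u1 ▸ adj_mem hm0 (by simp [Matrix.det_fin_two]) (by simp) (ne1 c hc)
  · exact u2 ▸ adj_mem hm0 (by simp [Matrix.det_fin_two]) (by simp) (ne1 c hc)
  · exact u3 ▸ adj_mem hm0 (by simp [Matrix.det_fin_two]) (by simp) (ne1 c hc)

end Pool.Agent.Lib.MP_d6ddbd_nt.K
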