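import Mathlib
import Pool.Agent.Lib.MP_d6ddbd_nt.K.Defs2

/-!
Sums of periodic functions over residue systems.
-/

set_option autoImplicit false

open Finset

noncomputable section

namespace Pool.Agent.Lib.MP_d6ddbd_nt.K.Tw

/-- `e(X / N)`. -/
def en (N : ℕ) (X : ℤ) : ℂ := ee (X / N)

theorem ee_add' (a b : ℂ) : ee (a + b) = ee a * ee b := by
  simp only [ee, mul_add, Complex.exp_add]

theorem ee_int' (k : ℤ) : ee k = 1 := by
  rw [ee, mul_comm]; exact Complex.exp_int_mul_two_pi_mul_I k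

theorem en_add (N : ℕ) (X Y : ℤ) : en N (X + Y) = en N X * en N Y := by
  rw [en, en, en, ← ee_add']; congr 1; push_cast; ring

theorem en_std (N : ℕ) [NeZero N] (X : ℤ) : ZMod.stdAddChar (X : ZMod N) = en N X := by
  rw [ZMod.stdAddChar_coe, en, ee]; congr 1; ring

theorem en_congr {N : ℕ} {X Y : ℤ} (h : (N : ℤ) ∣ X - Y) : en N X = en N Y := by
  obtain ⟨k, hk⟩ := h
  rcases Nat.eq_zero_or_pos N with rfl | hN
  · simp [en]
  · have : X = Y + N * k := by linarith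
    have hN' : (N : ℂ) ≠ 0 := by exact_mod_cast hN.ne'
    rw [this, en_add]
    have : en N (N * k) = 1 := by
      rw [en, ← ee_int' k]; congr 1; push_cast; field_simp
    rw [this, mul_one]

theorem en_eq_one {N : ℕ} [NeZero N] {X : ℤ} (h : en N X = 1) : (N : ℤ) ∣ X := by
  rw [← en_std, ← (ZMod.stdAddChar (N := N)).map_zero_eq_one,
    ZMod.injective_stdAddChar.eq_iff] at h
  exact (ZMod.intCast_zmod_eq_zero_iff_dvd X N).1 h

theorem en_mul {d : ℕ} (hd : d ≠ 0) (N : ℕ) (X : ℤ) : en (d * N) (d * X) = en N X := by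
  have : (d : ℂ) ≠ 0 := by exact_mod_cast hd
  rw [en, en]; congr 1; push_cast; rw [mul_div_mul_left _ _ this]

theorem en_crt {M N : ℕ} (hM : M ≠ 0) (hN : N ≠ 0) {u v : ℤ} (h : u * N + v * M = 1) (X : ℤ) :
    en (M * N) X = en M (u * X) * en N (v * X) := by
  have h1 : (M : ℂ) ≠ 0 := by exact_mod_cast hM
  have h2 : (N : ℂ) ≠ 0 := by exact_mod_cast hN
  have h3 : (u : ℂ) * N + v * M = 1 := by exact_mod_cast h
  rw [en, en, en, ← ee_add']; congr 1; push_cast; field_simp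
  linear_combination -(X : ℂ) * h3

/-- Functions of a residue class. -/
def Per (N : ℕ) (g : ℤ → ℂ) : Prop := ∀ x y : ℤ, (N : ℤ) ∣ x - y → g x = g y

/-- The sum over a residue system. -/
def S1 (N : ℕ) (g : ℤ → ℂ) : ℂ := ∑ k ∈ range N, g k

theorem S1_split (M N : ℕ) (g : ℤ → ℂ) :
    S1 (M * N) g = S1 M fun i => S1 N fun l => g (i + M * l) := by
  unfold S1
  induction N with
  | zero => simp
  | succ N ih =>
    rw [Nat.mul_succ, sum_range_add, ih, ← sum_add_distrib]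
    refine sum_congr rfl fun i _ => ?_
    simp only [sum_range_succ]; congr 2; push_cast; ring

theorem S1_const (N : ℕ) (c : ℂ) : S1 N (fun _ => c) = N * c := by simp [S1]

theorem S1_mul (N : ℕ) (c : ℂ) (g : ℤ → ℂ) : S1 N (fun k => c * g k) = c * S1 N g := by
  simp [S1, mul_sum]

theorem S1_mul' (N : ℕ) (c : ℂ) (g : ℤ → ℂ) : S1 N (fun k => g k * c) = S1 N g * c := by
  simp [S1, sum_mul]

theorem S1_comm (M N : ℕ) (g : ℤ → ℤ → ℂ) :
    S1 M (fun i => S1 N fun j => g i j) = S1 N fun j => S1 M fun i => g i j := sum_comm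

theorem S1_fold {M : ℕ} (N : ℕ) {g : ℤ → ℂ} (hg : Per M g) : S1 (M * N) g = N * S1 M g := by
  rw [S1_split, ← S1_mul]
  congr 1
  funext i
  rw [← S1_const]
  congr 1
  funext l
  exact hg _ _ ⟨l, by ring⟩

theorem S1_zmod (N : ℕ) [NeZero N] (g : ℤ → ℂ) : S1 N g = ∑ x : ZMod N, g (x.val : ℕ) := by
  obtain ⟨n, rfl⟩ := Nat.exists_eq_succ_of_ne_zero (NeZero.ne N)
  rw [S1, ← Fin.sum_univ_eq_sum_range (fun k => g (k : ℕ))]
  rfl

theorem val_dvd {N : ℕ} [NeZero N] {x : ZMod N} {k : ℤ} (h : x = k) :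
    (N : ℤ) ∣ (x.val : ℕ) - k := by
  rw [← ZMod.intCast_zmod_eq_zero_iff_dvd]
  push_cast
  rw [ZMod.natCast_zmod_val, h, sub_self]

theorem S1_aff {N : ℕ} {g : ℤ → ℂ} (hg : Per N g) (t : ℤ) {u : ℤ} (hu : IsCoprime u N) :
    S1 N (fun l => g (t + u * l)) = S1 N g := by
  rcases Nat.eq_zero_or_pos N with rfl | hN
  · simp [S1]
  have : NeZero N := ⟨hN.ne'⟩
  obtain ⟨a, b, hab⟩ := hu
  have h1 : (a : ZMod N) * u = 1 := by
    have := congrArg (Int.cast : ℤ → ZMod N) hab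
    simpa using this
  rw [S1_zmod, S1_zmod]
  let e : ZMod N ≃ ZMod N :=
    ⟨fun x => t + u * x, fun y => a * (y - t), fun x => by
      linear_combination x * h1, fun y => by linear_combination (y - t) * h1⟩
  rw [← e.sum_comp fun x => g (x.val : ℕ)]
  refine sum_congr rfl fun x _ => (hg _ _ (val_dvd ?_)).symm
  simp [e]

theorem S1_crt {M N : ℕ} (h : M.Coprime N) {G : ℤ → ℤ → ℂ} (h1 : ∀ j, Per M fun i => G i j)
    (h2 : ∀ i, Per N (G i)) : S1 (M * N) (fun k => G k k) = S1 M fun i => S1 N (G i) := by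
  rw [S1_split]
  congr 1
  funext i
  rw [← S1_aff (h2 i) i (Nat.isCoprime_iff_coprime.2 h)]
  congr 1
  funext l
  exact h1 _ _ _ ⟨l, by ring⟩

theorem Per.S1 {M N : ℕ} {G : ℤ → ℤ → ℂ} (h : ∀ j, Per M fun i => G i j) :
    Per M fun i => S1 N (G i) := fun x y hxy => by
  have : G x = G y := funext fun j => h j x y hxy
  simp only [this]

/-- Functions of three residue classes. -/
def Per3 (N : ℕ) (G : ℤ → ℤ → ℤ → ℂ) : Prop :=
  ∀ a b c a' b' c' : ℤ, (N : ℤ) ∣ a - a' → (N : ℤ) ∣ b - b' → (N : ℤ) ∣ c - c' →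
    G a b c = G a' b' c'

/-- The triple sum. -/
def S3 (N : ℕ) (G : ℤ → ℤ → ℤ → ℂ) : ℂ := S1 N fun a => S1 N fun b => S1 N fun c => G a b c

theorem Per3.p1 {N : ℕ} {G : ℤ → ℤ → ℤ → ℂ} (h : Per3 N G) (b c : ℤ) : Per N fun a => G a b c :=
  fun _ _ hxy => h _ _ _ _ _ _ hxy (by simp) (by simp)

theorem Per3.p2 {N : ℕ} {G : ℤ → ℤ → ℤ → ℂ} (h : Per3 N G) (a c : ℤ) : Per N fun b => G a b c :=
  fun _ _ hxy => h _ _ _ _ _ _ (by simp) hxy (by simp)

theorem Per3.p3 {N : ℕ} {G : ℤ → ℤ → ℤ → ℂ} (h : Per3 N G) (a b : ℤ) : Per N fun c => G a b c :=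
  fun _ _ hxy => h _ _ _ _ _ _ (by simp) (by simp) hxy

theorem S3_fold {M : ℕ} (N : ℕ) {G : ℤ → ℤ → ℤ → ℂ} (h : Per3 M G) :
    S3 (M * N) G = N ^ 3 * S3 M G := by
  unfold S3
  have e1 : ∀ a b, S1 (M * N) (fun c => G a b c) = N * S1 M fun c => G a b c :=
    fun a b => S1_fold N (h.p3 a b)
  have e2 : ∀ a, S1 (M * N) (fun b => S1 M fun c => G a b c) =
      N * S1 M fun b => S1 M fun c => G a b c :=
    fun a => S1_fold N (Per.S1 fun c => h.p2 a c)
  simp only [e1, S1_mul, e2]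
  rw [S1_fold N (Per.S1 fun b => Per.S1 fun c => h.p1 b c)]
  ring

theorem S3_crt {M N : ℕ} (h : M.Coprime N) {G H : ℤ → ℤ → ℤ → ℂ} (hG : Per3 M G)
    (hH : Per3 N H) : S3 (M * N) (fun a b c => G a b c * H a b c) = S3 M G * S3 N H := by
  have one : ∀ {g k : ℤ → ℂ}, Per M g → Per N k →
      S1 (M * N) (fun x => g x * k x) = S1 M g * S1 N k := fun {g k} hg hk => by
    rw [S1_crt h (G := fun i j => g i * k j) (fun j x y hxy => by simp only [hg x y hxy])
      (fun i x y hxy => by simp only [hk x y hxy])]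
    simp only [S1_mul, S1_mul']
  unfold S3
  have e1 : ∀ a b, S1 (M * N) (fun c => G a b c * H a b c) =
      S1 M (fun c => G a b c) * S1 N fun c => H a b c := fun a b => one (hG.p3 a b) (hH.p3 a b)
  have e2 : ∀ a, S1 (M * N) (fun b => S1 M (fun c => G a b c) * S1 N fun c => H a b c) =
      S1 M (fun b => S1 M fun c => G a b c) * S1 N fun b => S1 N fun c => H a b c :=
    fun a => one (Per.S1 fun c => hG.p2 a c) (Per.S1 fun c => hH.p2 a c)
  simp only [e1, e2]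
  exact one (Per.S1 fun b => Per.S1 fun c => hG.p1 b c) (Per.S1 fun b => Per.S1 fun c => hH.p1 b c)

theorem S3_aff {N : ℕ} {G : ℤ → ℤ → ℤ → ℂ} (h : Per3 N G) {u : ℤ} (hu : IsCoprime u N) :
    S3 N (fun a b c => G (u * a) b c) = S3 N G := by
  have := S1_aff (Per.S1 (N := N) fun b => Per.S1 (N := N) fun c => h.p1 b c) 0 hu
  simpa only [zero_add, S3] using this

end Pool.Agent.Lib.MP_d6ddbd_nt.K.Tw
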