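import Mathlib
import Pool.Agent.Lib.MP_d6ddbd_nt.K.Twist1

/-!
The genus character is an eigenfunction of the finite Fourier transform.
-/

set_option autoImplicit false

open Finset

noncomputable section

namespace Pool.Agent.Lib.MP_d6ddbd_nt.K.Tw

section field

variable {F : Type} [Field F] [Fintype F] [DecidableEq F]

/-- The quadratic character with complex values. -/
def eta (F : Type) [Field F] [Fintype F] [DecidableEq F] : MulChar F ℂ :=
  (quadraticChar F).ringHomComp (Int.castRingHom ℂ)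

theorem eta_apply (a : F) : eta F a = (quadraticChar F a : ℤ) := rfl

theorem eta_ne (h2 : ringChar F ≠ 2) : eta F ≠ 1 :=
  (MulChar.ringHomComp_ne_one_iff (RingHom.injective_int _)).2 (quadraticChar_ne_one h2)

theorem eta_sq {a : F} (ha : a ≠ 0) : eta F a * eta F a = 1 := by
  rw [← sq, eta_apply, ← Int.cast_pow, quadraticChar_sq_one ha, Int.cast_one]

theorem eta_inv : (eta F)⁻¹ = eta F :=
  ((quadraticChar_isQuadratic F).comp _).inv

theorem eta_sum (h2 : ringChar F ≠ 2) : ∑ a, eta F a = 0 :=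
  MulChar.sum_eq_zero_of_ne_one (eta_ne h2)

theorem eta_aff (h2 : ringChar F ≠ 2) {u : F} (hu : u ≠ 0) (t : F) :
    ∑ a, eta F (u * a + t) = 0 := by
  rw [← eta_sum h2]
  exact ((Equiv.mulLeft₀ u hu).trans (Equiv.addRight t)).sum_comp (eta F)

theorem sum_sq (h2 : ringChar F ≠ 2) (g : F → ℂ) :
    ∑ z, g (z ^ 2) = ∑ t, (eta F t + 1) * g t := by
  rw [← sum_fiberwise (s := univ) (g := fun z : F => z ^ 2)]
  refine sum_congr rfl fun t _ => ?_
  rw [sum_congr rfl (g := fun _ => g t) fun z hz => by rw [(mem_filter.1 hz).2], sum_const,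
    nsmul_eq_mul]
  congr 1
  have := congrArg (Int.cast : ℤ → ℂ) (quadraticChar_card_sqrts h2 t)
  rw [eta_apply]
  simpa using this

theorem sum_sq_sub (h2 : ringChar F ≠ 2) (d : F) :
    ∑ z, eta F (z ^ 2 - d) = if d = 0 then (Fintype.card F : ℂ) - 1 else -1 := by
  rw [sum_sq h2 fun t => eta F (t - d)]
  simp only [add_mul, one_mul, sum_add_distrib]
  have h0 : ∑ t, eta F (t - d) = 0 := by
    simpa [sub_eq_add_neg] using eta_aff h2 one_ne_zero (-d)
  rw [h0, add_zero]
  split_ifs with hd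
  · subst hd
    rw [← add_sum_erase _ _ (mem_univ 0), sum_congr rfl (g := fun _ => (1 : ℂ)) fun t ht => by
      rw [sub_zero, eta_sq (ne_of_mem_erase ht)]]
    simp [MulChar.map_zero, Nat.cast_pred (Fintype.card_pos (α := F))]
  · have hj := jacobiSum_nontrivial_inv (eta_ne h2)
    rw [eta_inv, jacobiSum] at hj
    rw [← Equiv.sum_comp (Equiv.mulLeft₀ d hd)]
    have : ∀ s : F, eta F (d * s) * eta F (d * s - d) =
        eta F (-1) * (eta F s * eta F (1 - s)) := fun s => by
      rw [show d * s - d = d * (-1) * (1 - s) by ring, map_mul, map_mul, map_mul]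
      linear_combination eta F s * eta F (-1) * eta F (1 - s) * eta_sq hd
    simp only [Equiv.mulLeft₀_apply, this, ← mul_sum, hj]
    linear_combination -eta_sq (F := F) (a := -1) (by simp)

/-- The local genus character over a finite field. -/
def chiF (A B C : F) : ℂ :=
  if B ^ 2 - 4 * A * C = 0 then (if A = 0 then eta F C else eta F A) else 0

theorem sum_quad (h2 : ringChar F ≠ 2) (A B C : F) :
    ∑ s, eta F (A * s ^ 2 - B * s + C) + eta F A = Fintype.card F * chiF A B C := by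
  have two : (2 : F) ≠ 0 := Ring.two_ne_zero h2
  by_cases hA : A = 0
  · subst hA
    by_cases hB : B = 0
    · subst hB; simp [chiF, MulChar.map_zero]
    · have := eta_aff h2 (neg_ne_zero.2 hB) C
      simp only [neg_mul] at this
      simp [chiF, hB, this, MulChar.map_zero]
  · have h2A : 2 * A ≠ 0 := mul_ne_zero two hA
    have : ∀ s, eta F (A * s ^ 2 - B * s + C) =
        eta F A * eta F ((2 * A * s + -B) ^ 2 - (B ^ 2 - 4 * A * C)) := fun s => by
      rw [show (2 * A * s + -B) ^ 2 - (B ^ 2 - 4 * A * C) = 2 * 2 * A * (A * s ^ 2 - B * s + C) by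
        ring, map_mul, map_mul, map_mul, eta_sq two]
      linear_combination -eta F (A * s ^ 2 - B * s + C) * eta_sq hA
    simp only [this, ← mul_sum]
    have e := ((Equiv.mulLeft₀ _ h2A).trans (Equiv.addRight (-B))).sum_comp
      fun z => eta F (z ^ 2 - (B ^ 2 - 4 * A * C))
    simp only [Equiv.trans_apply, Equiv.mulLeft₀_apply, Equiv.coe_addRight] at e
    rw [e, sum_sq_sub h2, chiF, if_neg hA]
    split_ifs <;> ring

theorem sum_chiF (h2 : ringChar F ≠ 2) (φ : F → F → F → ℂ) :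
    ∑ A, ∑ B, ∑ C, φ A B C * chiF A B C =
      ∑ s, ∑ A, eta F A * φ A (2 * A * s) (A * s ^ 2) + ∑ C, eta F C * φ 0 0 C := by
  have two : (2 : F) ≠ 0 := Ring.two_ne_zero h2
  rw [sum_comm (f := fun s A => eta F A * φ A (2 * A * s) (A * s ^ 2)),
    ← add_sum_erase _ _ (mem_univ 0), ← add_sum_erase _ _ (mem_univ 0),
    ← add_sum_erase _ (fun A => ∑ s, eta F A * φ A (2 * A * s) (A * s ^ 2)) (mem_univ 0)]
  have e1 : ∑ B ∈ univ.erase (0 : F), ∑ C, φ 0 B C * chiF 0 B C = 0 :=
    sum_eq_zero fun B hB => sum_eq_zero fun C _ => by simp [chiF, ne_of_mem_erase hB]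
  have e2 : ∑ C, φ 0 0 C * chiF 0 0 C = ∑ C, eta F C * φ 0 0 C :=
    sum_congr rfl fun C _ => by simp [chiF, mul_comm]
  have e3 : ∀ A ∈ univ.erase (0 : F), ∑ B, ∑ C, φ A B C * chiF A B C =
      ∑ s, eta F A * φ A (2 * A * s) (A * s ^ 2) := fun A hA => by
    have hA := ne_of_mem_erase hA
    rw [← Equiv.sum_comp (Equiv.mulLeft₀ _ (mul_ne_zero two hA))]
    refine sum_congr rfl fun s _ => ?_
    rw [Equiv.mulLeft₀_apply, sum_eq_single (A * s ^ 2)]
    · rw [chiF, if_pos (by ring), if_neg hA, mul_comm]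
    · intro C _ hC
      rw [chiF, if_neg, mul_zero]
      intro h
      refine hC (mul_left_cancel₀ (mul_ne_zero (mul_ne_zero two two) hA) ?_)
      linear_combination -h
    · simp
  rw [e1, e2, sum_congr rfl e3]
  simp only [MulChar.map_zero, zero_mul, sum_const_zero]
  ring

theorem gauss (h2 : ringChar F ≠ 2) (ψ : AddChar F ℂ) (q : F) :
    ∑ x, eta F x * ψ (q * x) = eta F q * gaussSum (eta F) ψ := by
  by_cases hq : q = 0
  · subst hq; simp [eta_sum h2, MulChar.map_zero]
  · have := gaussSum_mulShift_eq (eta F) ψ (Units.mk0 q hq)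
    rw [eta_inv] at this
    simpa [gaussSum] using this

theorem four_chiF (h2 : ringChar F ≠ 2) (ψ : AddChar F ℂ) (t A B C : F) :
    ∑ A', ∑ B', ∑ C', ψ (t * (B * B' - 2 * C * A' - 2 * A * C')) * chiF A' B' C' =
      eta F (-2 * t) * gaussSum (eta F) ψ * Fintype.card F * chiF A B C := by
  rw [sum_chiF h2]
  have e1 : ∀ s A' : F, t * (B * (2 * A' * s) - 2 * C * A' - 2 * A * (A' * s ^ 2)) =
      -2 * t * (A * s ^ 2 - B * s + C) * A' := fun s A' => by ring
  have e2 : ∀ C' : F, t * (B * 0 - 2 * C * 0 - 2 * A * C') = -2 * t * A * C' := fun C' => by ring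
  simp only [e1, e2, gauss h2]
  simp only [map_mul (eta F) (-2 * t)]
  rw [mul_assoc _ (Fintype.card F : ℂ), ← sum_quad h2, mul_add, mul_sum]
  congr 1
  · exact sum_congr rfl fun s _ => by ring
  · ring

end field

theorem chip_eq (p : ℕ) [Fact p.Prime] (A B C : ℤ) :
    (chip p A B C : ℂ) = chiF (A : ZMod p) B C := by
  have e : ∀ a : ℤ, ((jacobiSym a p : ℤ) : ℂ) = eta (ZMod p) a := fun a => by
    rw [← jacobiSym.legendreSym.to_jacobiSym]; rfl
  simp only [chip, chiF, ← ZMod.intCast_zmod_eq_zero_iff_dvd]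
  push_cast
  simp only [e]

theorem chip_per (p : ℕ) : Per3 p fun A B C => (chip p A B C : ℂ) := by
  intro a b c a' b' c' ha hb hc
  have j : ∀ x y : ℤ, (p : ℤ) ∣ x - y → jacobiSym x p = jacobiSym y p := fun x y h =>
    jacobiSym.mod_left' (Int.emod_eq_emod_iff_emod_sub_eq_zero.2 (Int.emod_eq_zero_of_dvd h))
  have d : ∀ x y : ℤ, (p : ℤ) ∣ x - y → ((p : ℤ) ∣ x ↔ (p : ℤ) ∣ y) := fun x y h =>
    (dvd_iff_dvd_of_dvd_sub h)
  have h : (p : ℤ) ∣ (b ^ 2 - 4 * a * c) - (b' ^ 2 - 4 * a' * c') := by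
    obtain ⟨x, hx⟩ := ha
    obtain ⟨y, hy⟩ := hb
    obtain ⟨z, hz⟩ := hc
    exact ⟨y * (b + b') - 4 * x * c - 4 * a' * z, by
      linear_combination (b + b') * hy - 4 * c * hx - 4 * a' * hz⟩
  simp only [chip, d _ _ h, d _ _ ha, j _ _ ha, j _ _ hc]

theorem chi_per (m : ℕ) : Per3 m fun A B C => (chi m A B C : ℂ) := by
  intro a b c a' b' c' ha hb hc
  simp only [chi, Int.cast_prod]
  refine prod_congr rfl fun p hp => ?_
  have : (p : ℤ) ∣ m := by exact_mod_cast Nat.dvd_of_mem_primeFactors hp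
  exact chip_per p _ _ _ _ _ _ (this.trans ha) (this.trans hb) (this.trans hc)

theorem chi_dvd {m : ℕ} (hm : Squarefree m) {A B C : ℤ} (h : chi m A B C ≠ 0) :
    (m : ℤ) ∣ B ^ 2 - 4 * A * C := by
  rw [← Nat.prod_primeFactors_of_squarefree hm, Int.natCast_dvd]
  refine Finset.prod_primes_dvd _ (fun p hp => (Nat.prime_of_mem_primeFactors hp).prime)
    fun p hp => ?_
  rw [← Int.natCast_dvd]
  by_contra hd
  exact h (prod_eq_zero hp (by simp only [chip, if_neg hd]))

/-- The bilinear form. -/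
def bil (A B C A' B' C' : ℤ) : ℤ := B * B' - 2 * C * A' - 2 * A * C'

theorem en_per (N : ℕ) (t A B C : ℤ) : Per3 N fun A' B' C' => en N (t * bil A B C A' B' C') := by
  rintro a b c a' b' c' ⟨x, hx⟩ ⟨y, hy⟩ ⟨z, hz⟩
  exact en_congr ⟨t * (B * y - 2 * C * x - 2 * A * z), by
    unfold bil; linear_combination t * B * hy - 2 * t * C * hx - 2 * t * A * hz⟩

theorem Per3.mul {N : ℕ} {G H : ℤ → ℤ → ℤ → ℂ} (hG : Per3 N G) (hH : Per3 N H) :
    Per3 N fun a b c => G a b c * H a b c := fun _ _ _ _ _ _ ha hb hc => by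
  simp only [hG _ _ _ _ _ _ ha hb hc, hH _ _ _ _ _ _ ha hb hc]

theorem four_chip {p : ℕ} (hp : p.Prime) (h2 : p ≠ 2) {t : ℤ} (ht : IsCoprime t p) :
    ∃ μ : ℂ, μ ≠ 0 ∧ ∀ A B C : ℤ,
      S3 p (fun A' B' C' => en p (t * bil A B C A' B' C') * chip p A' B' C') =
        μ * chip p A B C := by
  have := Fact.mk hp
  have hc : ringChar (ZMod p) ≠ 2 := by rwa [ZMod.ringChar_zmod_n]
  have two : (2 : ZMod p) ≠ 0 := Ring.two_ne_zero hc
  have ht' : (t : ZMod p) ≠ 0 := by
    obtain ⟨a, b, hab⟩ := ht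
    have := congrArg (Int.cast : ℤ → ZMod p) hab
    intro h
    simp [h] at this
  have hcard : (Fintype.card (ZMod p) : ℂ) ≠ 0 := by exact_mod_cast Fintype.card_ne_zero
  refine ⟨eta (ZMod p) (-2 * t) * gaussSum (eta (ZMod p)) ZMod.stdAddChar * Fintype.card (ZMod p),
    mul_ne_zero (mul_ne_zero (left_ne_zero_of_mul_eq_one (eta_sq (mul_ne_zero (neg_ne_zero.2 two)
      ht'))) (gaussSum_ne_zero_of_nontrivial hcard (eta_ne hc) (ZMod.isPrimitive_stdAddChar p)))
      hcard, fun A B C => ?_⟩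
  rw [chip_eq, ← four_chiF hc]
  simp only [S3, S1_zmod, ← en_std, chip_eq, bil]
  push_cast
  simp only [ZMod.natCast_zmod_val]

theorem four_chi (m : ℕ) : Squarefree m → m.Coprime 2 → ∀ t : ℤ, IsCoprime t m →
    ∃ μ : ℂ, μ ≠ 0 ∧ ∀ A B C : ℤ,
      S3 m (fun A' B' C' => en m (t * bil A B C A' B' C') * chi m A' B' C') =
        μ * chi m A B C := by
  induction m using induction_on_primes with
  | zero => intro h; exact absurd h not_squarefree_zero
  | one =>
    intro _ _ t _
    exact ⟨1, one_ne_zero, fun A B C => by simp [S3, S1, chi, bil, en, ee]⟩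
  | prime_mul p a hp ih =>
    intro hs h2 t ht
    obtain ⟨hpa, -, ha⟩ := Nat.squarefree_mul_iff.1 hs
    have a0 : a ≠ 0 := ha.ne_zero
    obtain ⟨v, u, huv⟩ := Nat.isCoprime_iff_coprime.2 hpa
    push_cast at ht
    have hp2 : p ≠ 2 := by
      rintro rfl
      exact absurd (Nat.Coprime.coprime_mul_right h2) (by decide)
    obtain ⟨μ, hμ, e1⟩ := four_chip hp hp2 (t := u * t)
      (IsCoprime.mul_left ⟨a, v, by linear_combination huv⟩ ht.of_mul_right_left)
    obtain ⟨ν, hν, e2⟩ := ih ha (Nat.Coprime.coprime_mul_left h2) (v * t)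
      (IsCoprime.mul_left ⟨p, u, by linear_combination huv⟩ ht.of_mul_right_right)
    have hchi : ∀ A B C, chi (p * a) A B C = chip p A B C * chi a A B C := fun A B C => by
      rw [chi, chi, hpa.primeFactors_mul, prod_union hpa.disjoint_primeFactors, hp.primeFactors,
        prod_singleton]
    refine ⟨μ * ν, mul_ne_zero hμ hν, fun A B C => ?_⟩
    have := S3_crt hpa ((en_per p (u * t) A B C).mul (chip_per p))
      ((en_per a (v * t) A B C).mul (chi_per a))
    rw [e1, e2] at this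
    rw [hchi, Int.cast_mul, mul_mul_mul_comm, ← this]
    congr 1
    funext A' B' C'
    rw [hchi, en_crt hp.ne_zero a0 (u := u) (v := v) (by linear_combination huv), mul_assoc u,
      mul_assoc v, Int.cast_mul]
    ring

end Pool.Agent.Lib.MP_d6ddbd_nt.K.Tw
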