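import Mathlib
import Pool.Agent.Lib.MP_d6ddbd_nt.K.Twist2

/-!
The twisted product of two unary Weil vectors as a Weil vector on two by two matrices.
-/

set_option autoImplicit false

open UpperHalfPlane Finset
open scoped MatrixGroups
open Pool.Agent.Lib.MP_9177b7_ag.CM (jH up dn)

noncomputable section

namespace Pool.Agent.Lib.MP_d6ddbd_nt.K

namespace Tw

theorem uv_per {M : ℕ} {κ : ℂ} {f : ℤ → ℍ → ℂ} (hf : UV M κ f) (τ : ℍ) :
    Per (2 * M) fun r => f r τ := by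
  rintro x y ⟨k, hk⟩
  have hp : Function.Periodic f (2 * M : ℤ) := hf.per
  have := hp.int_mul k y
  have e : x = y + (k : ℤ) * (2 * M : ℤ) := by push_cast at hk ⊢; linear_combination hk
  simp only [e]
  exact congrFun this τ

theorem Per3.of_dvd {M N : ℕ} {G : ℤ → ℤ → ℤ → ℂ} (h : Per3 M G) (hd : M ∣ N) : Per3 N G :=
  fun _ _ _ _ _ _ h1 h2 h3 =>
    have : (M : ℤ) ∣ N := by exact_mod_cast hd
    h _ _ _ _ _ _ (this.trans h1) (this.trans h2) (this.trans h3)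

theorem red_eq {n : ℕ} {α β : Mat ℤ} : red n α = red n β ↔ ∀ i j, (n : ℤ) ∣ α i j - β i j := by
  simp only [← ZMod.intCast_zmod_eq_zero_iff_dvd, Int.cast_sub, sub_eq_zero]
  exact ⟨fun h i j => congrFun (congrFun h i) j, fun h => Matrix.ext h⟩

theorem red_add (n : ℕ) (α β : Mat ℤ) : red n (α + β) = red n α + red n β := by
  ext i j; simp [red]

theorem red_surj {n : ℕ} [NeZero n] (β : Mat (ZMod n)) : ∃ α, red n α = β :=
  ⟨β.map fun x => (x.val : ℤ), by ext i j; simp [red]⟩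

theorem red_pol (n : ℕ) (α β : Mat ℤ) : pol (red n α) (red n β) = (pol α β : ℤ) := by
  simp [pol, red]

theorem red_det (n : ℕ) (α : Mat ℤ) : (red n α).det = (α.det : ℤ) := by
  simp [Matrix.det_fin_two, red]

theorem piM_add (a b c r a' b' c' r' : ℤ) :
    piM (a + a') (b + b') (c + c') (r + r') = piM a b c r + piM a' b' c' r' := by
  ext i j; fin_cases i <;> fin_cases j <;> simp [piM] <;> ring

theorem eq_piM {α : Mat ℤ} (h1 : 6 ∣ α 0 1) (h2 : 102 ∣ α 1 0) (h3 : 6 ∣ α 1 1 - α 0 0) :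
    ∃ a b c r, α = piM a b c r := by
  obtain ⟨c, hc⟩ := h1
  obtain ⟨a, ha⟩ := h2
  obtain ⟨b, hb⟩ := h3
  refine ⟨a, b, -c, α 0 0 + 3 * b, ?_⟩
  ext i j; fin_cases i <;> fin_cases j <;> simp [piM] <;> linarith

theorem pol_add {R : Type} [CommRing R] (α β δ : Mat R) : pol α (β + δ) = pol α β + pol α δ := by
  simp only [pol, Matrix.add_apply]; ring

/-- The value at the image of `(a, b, c, r)`. -/
def vl (m : ℕ) (ρ : ℤ) (f h : ℤ → ℍ → ℂ) (a b c r : ℤ) (τ : ℍ) : ℂ :=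
  chi m (17 * a) b c * f (ρ * b) τ * h r τ

open Classical in
/-- The vector. -/
def FF (m : ℕ) (ρ : ℤ) (f h : ℤ → ℍ → ℂ) (β : Mat (ZMod (612 * m))) : ℍ → ℂ :=
  if H : ∃ v : ℤ × ℤ × ℤ × ℤ, red _ (piM v.1 v.2.1 v.2.2.1 v.2.2.2) = β then
    vl m ρ f h H.choose.1 H.choose.2.1 H.choose.2.2.1 H.choose.2.2.2 else 0

variable {m : ℕ} {ρ : ℤ} {κ : ℂ} {f h : ℤ → ℍ → ℂ}

theorem vl_congr (hf : UV 17 κ f) (hh : UV (153 * m) (-κ) h) {a b c r a' b' c' r' : ℤ}
    (ha : (m : ℤ) ∣ a - a') (hb : (34 * m : ℤ) ∣ b - b') (hc : (m : ℤ) ∣ c - c')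
    (hr : (306 * m : ℤ) ∣ r - r') : vl m ρ f h a b c r = vl m ρ f h a' b' c' r' := by
  funext τ
  have e1 := chi_per m (17 * a) b c (17 * a') b' c' (by rw [← mul_sub]; exact ha.mul_left _)
    ((Dvd.intro_left _ rfl).trans hb) hc
  have e2 := uv_per hf τ (ρ * b) (ρ * b') (by
    rw [← mul_sub]; exact ((Dvd.intro _ rfl).trans hb).mul_left _)
  have e3 := uv_per hh τ r r' (by convert hr using 1; push_cast; ring)
  simp only [vl] at e1 e2 e3 ⊢
  rw [e1, e2, e3]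

theorem FF_on (hf : UV 17 κ f) (hh : UV (153 * m) (-κ) h) (a b c r : ℤ) :
    FF m ρ f h (red _ (piM a b c r)) = vl m ρ f h a b c r := by
  have H : ∃ v : ℤ × ℤ × ℤ × ℤ, red (612 * m) (piM v.1 v.2.1 v.2.2.1 v.2.2.2) =
    red _ (piM a b c r) := ⟨(a, b, c, r), rfl⟩
  rw [FF, dif_pos H]
  have := red_eq.1 H.choose_spec
  generalize H.choose = v at this ⊢
  obtain ⟨a', b', c', r'⟩ := v
  obtain ⟨x, hx⟩ := this 0 0
  obtain ⟨y, hy⟩ := this 0 1
  obtain ⟨w, hw⟩ := this 1 0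
  obtain ⟨u, hu⟩ := this 1 1
  simp only [piM, Matrix.of_apply, Matrix.cons_val', Matrix.cons_val_zero, Matrix.cons_val_one,
    Matrix.cons_val_fin_one, Nat.cast_mul, Nat.cast_ofNat] at hx hy hw hu
  exact vl_congr hf hh ⟨6 * w, by linarith⟩ ⟨3 * (u - x), by linarith⟩ ⟨-102 * y, by linarith⟩
    ⟨x + u, by linarith⟩

theorem FF_off' {β : Mat (ZMod (612 * m))} (H : ¬ ∃ a b c r, red _ (piM a b c r) = β) :
    FF m ρ f h β = 0 := by
  rw [FF, dif_neg]
  rintro ⟨v, hv⟩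
  exact H ⟨_, _, _, _, hv⟩

theorem red_im {α : Mat ℤ} (H : ∃ a b c r, red (612 * m) (piM a b c r) = red _ α) :
    ∃ a b c r, α = piM a b c r := by
  obtain ⟨a, b, c, r, H⟩ := H
  have := red_eq.1 H
  obtain ⟨x, hx⟩ := this 0 0
  obtain ⟨y, hy⟩ := this 0 1
  obtain ⟨w, hw⟩ := this 1 0
  obtain ⟨u, hu⟩ := this 1 1
  simp only [piM, Matrix.of_apply, Matrix.cons_val', Matrix.cons_val_zero, Matrix.cons_val_one,
    Matrix.cons_val_fin_one, Nat.cast_mul, Nat.cast_ofNat] at hx hy hw hu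
  exact eq_piM ⟨-c - 102 * m * y, by linarith⟩ ⟨a - 6 * m * w, by linarith⟩
    ⟨b + 102 * m * (x - u), by linarith⟩

theorem FF_shift (hf : UV 17 κ f) (hh : UV (153 * m) (-κ) h) {a b c : ℤ} (ha : (m : ℤ) ∣ a)
    (hb : (34 * m : ℤ) ∣ b) (hc : (m : ℤ) ∣ c) (β : Mat (ZMod (612 * m))) :
    FF m ρ f h (β + red _ (piM a b c 0)) = FF m ρ f h β := by
  by_cases H : ∃ a b c r, red _ (piM a b c r) = β
  · obtain ⟨a', b', c', r', rfl⟩ := H
    rw [← red_add, ← piM_add, FF_on hf hh, FF_on hf hh]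
    exact vl_congr hf hh (by simpa using ha) (by simpa using hb) (by simpa using hc) (by simp)
  · rw [FF_off' H, FF_off']
    rintro ⟨a', b', c', r', e⟩
    refine H ⟨a' - a, b' - b, c' - c, r', add_right_cancel (b := red _ (piM a b c 0)) ?_⟩
    rw [← e, ← red_add, ← piM_add]
    simp

theorem sum_off [NeZero (612 * m)] (hf : UV 17 κ f) (hh : UV (153 * m) (-κ) h) {α : Mat ℤ}
    (H : ¬ ∃ a b c r, α = piM a b c r) (τ : ℍ) :
    ∑ β, ZMod.stdAddChar (pol (red (612 * m) α) β) * FF m ρ f h β τ = 0 := by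
  have m0 : (m : ℤ) ≠ 0 := by
    have := NeZero.ne (612 * m)
    omega
  by_contra hS
  have key : ∀ a b c : ℤ, (m : ℤ) ∣ a → (34 * m : ℤ) ∣ b → (m : ℤ) ∣ c →
      ((612 * m : ℕ) : ℤ) ∣ pol α (piM a b c 0) := fun a b c ha hb hc => by
    have e := Equiv.sum_comp (Equiv.addRight (red (612 * m) (piM a b c 0)))
      fun β => ZMod.stdAddChar (pol (red (612 * m) α) β) * FF m ρ f h β τ
    simp only [Equiv.coe_addRight, FF_shift hf hh ha hb hc, pol_add, AddChar.map_add_eq_mul,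
      red_pol, en_std, mul_right_comm _ (en _ _), ← sum_mul] at e
    exact en_eq_one (mul_left_cancel₀ hS (e.trans (mul_one _).symm))
  obtain ⟨x, hx⟩ := key m 0 0 dvd_rfl (dvd_zero _) (dvd_zero _)
  obtain ⟨y, hy⟩ := key 0 (34 * m) 0 (dvd_zero _) dvd_rfl (dvd_zero _)
  obtain ⟨z, hz⟩ := key 0 0 m (dvd_zero _) (dvd_zero _) dvd_rfl
  simp only [pol, piM, Matrix.of_apply, Matrix.cons_val', Matrix.cons_val_zero,
    Matrix.cons_val_one, Matrix.cons_val_fin_one, Nat.cast_mul, Nat.cast_ofNat] at hx hy hz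
  refine H (eq_piM ⟨-x, mul_left_cancel₀ m0 (by linarith)⟩ ⟨z, mul_left_cancel₀ m0 (by linarith)⟩
    ⟨-y, mul_left_cancel₀ m0 (by linarith)⟩)

/-- The embedding modulo `n`. -/
def piZ (n : ℕ) : ZMod n × ZMod n × ZMod n × ZMod n →+ Mat (ZMod n) :=
  AddMonoidHom.mk' (fun v => !![v.2.2.2 - 3 * v.2.1, -6 * v.2.2.1; 102 * v.1, v.2.2.2 + 3 * v.2.1])
    fun v w => by ext i j; fin_cases i <;> fin_cases j <;> simp <;> ring

theorem piZ_red (n : ℕ) (a b c r : ℤ) : piZ n (a, b, c, r) = red n (piM a b c r) := by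
  ext i j; fin_cases i <;> fin_cases j <;> simp [piZ, red, piM]

theorem sum_hom {A B : Type} [AddGroup A] [Fintype A] [AddGroup B] [Fintype B] (φ : A →+ B) :
    ∃ K : ℂ, K ≠ 0 ∧ ∀ Φ : B → ℂ, (∀ b, b ∉ Set.range φ → Φ b = 0) →
      ∑ a, Φ (φ a) = K * ∑ b, Φ b := by
  classical
  refine ⟨((univ.filter fun a => φ a = 0).card : ℕ), ?_, fun Φ hΦ => ?_⟩
  · exact_mod_cast (card_pos.2 ⟨0, by simp⟩).ne'
  · rw [← sum_fiberwise (s := univ) (g := φ), mul_sum]
    refine sum_congr rfl fun b _ => ?_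
    rw [sum_congr rfl (g := fun _ => Φ b) fun z hz => by rw [(mem_filter.1 hz).2], sum_const,
      nsmul_eq_mul]
    by_cases hb : b ∈ Set.range φ
    · rw [AddMonoidHom.card_fiber_eq_of_mem_range φ hb ⟨0, map_zero φ⟩]
    · simp [hΦ b hb]

theorem sum_range_eq [NeZero (612 * m)] (hf : UV 17 κ f) (hh : UV (153 * m) (-κ) h) :
    ∃ K : ℂ, K ≠ 0 ∧ ∀ (α : Mat ℤ) (τ : ℍ),
      K * ∑ β, ZMod.stdAddChar (pol (red (612 * m) α) β) * FF m ρ f h β τ =
      S3 (612 * m) fun a b c => S1 (612 * m) fun r =>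
        en (612 * m) (pol α (piM a b c r)) * vl m ρ f h a b c r τ := by
  obtain ⟨K, hK, H⟩ := sum_hom (piZ (612 * m))
  refine ⟨K, hK, fun α τ => ?_⟩
  rw [← H _ fun β hβ => by
    rw [FF_off' fun ⟨a, b, c, r, e⟩ => hβ ⟨_, (piZ_red _ a b c r).trans e⟩]; simp]
  simp only [S3, S1_zmod, Fintype.sum_prod_type, ← FF_on hf hh, ← en_std, ← red_pol, ← piZ_red,
    Int.cast_natCast, ZMod.natCast_zmod_val]

theorem sum_on (hm : Squarefree m) (hc : m.Coprime 34) {r₀ : ℤ} (hr : (68 : ℤ) ∣ r₀ ^ 2 + m)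
    (hρ : (34 : ℤ) ∣ ρ * r₀ - 1) (hf : UV 17 κ f) (hh : UV (153 * m) (-κ) h) :
    ∃ μ : ℂ, μ ≠ 0 ∧ ∀ (a b c r : ℤ) (τ : ℍ),
      (S3 (612 * m) fun a' b' c' => S1 (612 * m) fun r' =>
        en (612 * m) (pol (piM a b c r) (piM a' b' c' r')) * vl m ρ f h a' b' c' r' τ) =
      μ * chi m (17 * a) b c * S1 34 (fun s => en 34 (ρ * b * s) * f s τ) *
        S1 (2 * (153 * m)) fun s => en (2 * (153 * m)) (r * s) * h s τ := by
  have m0 := hm.ne_zero
  obtain ⟨s, t, hst⟩ := Nat.isCoprime_iff_coprime.2 hc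
  obtain ⟨k, hk⟩ := hr
  obtain ⟨l, hl⟩ := hρ
  push_cast at hst
  obtain ⟨μ, hμ, H⟩ := four_chi m hm (hc.coprime_dvd_right (by norm_num)) (-t)
    ⟨-34, s, by linear_combination hst⟩
  refine ⟨2 * 18 ^ 3 * 34 ^ 2 * μ, by simp [hμ], fun a b c r τ => ?_⟩
  have pf : Per 34 fun s => en 34 (ρ * b * s) * f s τ := fun x y hxy => by
    simp only [uv_per hf τ x y hxy,
      en_congr (N := 34) (X := ρ * b * x) (Y := ρ * b * y) (by rw [← mul_sub]; exact hxy.mul_left _)]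
  have ph : Per (2 * (153 * m)) fun s => en (2 * (153 * m)) (r * s) * h s τ := fun x y hxy => by
    simp only [uv_per hh τ x y hxy,
      en_congr (X := r * x) (Y := r * y) (by rw [← mul_sub]; exact hxy.mul_left _)]
  have p1 : Per3 34 fun _ b' _ => en 34 (ρ * b * (ρ * b')) * f (ρ * b') τ :=
    fun _ x _ _ y _ _ hxy _ => pf _ _ (by rw [← mul_sub]; exact hxy.mul_left _)
  have p2 := (en_per m (-t) (17 * a) b c).mul (chi_per m)
  have p3 : Per3 m fun a' b' c' =>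
      en m (-t * bil (17 * a) b c (17 * a') b' c') * chi m (17 * a') b' c' :=
    fun _ _ _ _ _ _ h1 h2 h3 => p2 _ _ _ _ _ _ (by rw [← mul_sub]; exact h1.mul_left _) h2 h3
  have e : ∀ a' b' c' r' : ℤ,
      en (612 * m) (pol (piM a b c r) (piM a' b' c' r')) * vl m ρ f h a' b' c' r' τ =
      (en 34 (ρ * b * (ρ * b')) * f (ρ * b') τ *
        (en m (-t * bil (17 * a) b c (17 * a') b' c') * chi m (17 * a') b' c')) *
        (en (2 * (153 * m)) (r * r') * h r' τ) := fun a' b' c' r' => by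
    have e1 : pol (piM a b c r) (piM a' b' c' r') =
        (2 : ℕ) * (r * r') + (18 : ℕ) * -bil (17 * a) b c (17 * a') b' c' := by
      simp only [pol, piM, bil, Matrix.of_apply, Matrix.cons_val', Matrix.cons_val_zero,
        Matrix.cons_val_one, Matrix.cons_val_fin_one, Nat.cast_ofNat]
      ring
    have e2 := en_mul two_ne_zero (2 * (153 * m)) (r * r')
    have e3 := en_mul (d := 18) (by norm_num) (34 * m) (-bil (17 * a) b c (17 * a') b' c')
    rw [show 2 * (2 * (153 * m)) = 612 * m by ring] at e2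
    rw [show 18 * (34 * m) = 612 * m by ring,
      en_crt (M := 34) (by norm_num) m0 (u := s) (v := t) (by exact_mod_cast hst),
      en_congr (N := 34) (Y := ρ * b * (ρ * b')) ⟨s * (c * a' + a * c') + b * b' *
        (s * l * (ρ * r₀ + 1) - 2 * s * ρ ^ 2 * k - ρ ^ 2 * t), by
        unfold bil
        push_cast
        linear_combination b * b' * (s * (ρ * r₀ + 1) * hl - s * ρ ^ 2 * hk + ρ ^ 2 * hst)⟩] at e3
    rw [e1, en_add, e2, e3, vl, mul_neg t, neg_mul t]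
    ring
  simp only [e, S1_mul]
  rw [show 612 * m = 2 * (153 * m) * 2 by ring, S1_fold 2 ph,
    show 2 * (153 * m) * 2 = 34 * m * 18 by ring]
  simp only [S3, S1_mul']
  have e4 := S3_fold 18 (M := 34 * m) (G := fun a' b' c' => en 34 (ρ * b * (ρ * b')) * f (ρ * b') τ *
      (en m (-t * bil (17 * a) b c (17 * a') b' c') * chi m (17 * a') b' c'))
    ((p1.of_dvd (Dvd.intro _ rfl)).mul (p3.of_dvd (Dvd.intro_left _ rfl)))
  rw [S3_crt hc.symm p1 p3, S3_aff p2 (u := 17) ⟨2 * t, s, by linear_combination hst⟩, H] at e4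
  have e5 : S3 34 (fun _ b' _ => en 34 (ρ * b * (ρ * b')) * f (ρ * b') τ) =
      34 ^ 2 * S1 34 fun s => en 34 (ρ * b * s) * f s τ := by
    have := S1_aff pf 0 (u := ρ) ⟨r₀, -l, by push_cast; linear_combination hl⟩
    simp only [zero_add] at this
    simp only [S3, S1_const, S1_mul, this]
    push_cast
    ring
  rw [e5] at e4
  simp only [S3] at e4
  rw [e4]
  push_cast
  ring

end Tw

open Tw in
theorem exists_F (m : ℕ) [NeZero (612 * m)] (hm : Squarefree m) (hc : m.Coprime 34) (r₀ ρ : ℤ)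
    (hr : (68 : ℤ) ∣ r₀ ^ 2 + m) (hρ : (34 : ℤ) ∣ ρ * r₀ - 1) (κ : ℂ) (f h : ℤ → ℍ → ℂ)
    (hf : UV 17 κ f) (hh : UV (153 * m) (-κ) h) :
    ∃ F : Mat (ZMod (612 * m)) → ℍ → ℂ, WL (612 * m) F ∧
      (∀ (a b c r : ℤ) (τ : ℍ), F (red _ (piM a b c r)) τ =
        chi m (17 * a) b c * f (ρ * b) τ * h r τ) ∧
      ∀ α : Mat ℤ, (¬ ∃ a b c r, α = piM a b c r) → F (red _ α) = 0 := by
  have off : ∀ α : Mat ℤ, (¬ ∃ a b c r, α = piM a b c r) → FF m ρ f h (red _ α) = 0 :=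
    fun α H => FF_off' fun H' => H (red_im H')
  refine ⟨FF m ρ f h, ⟨fun β => ?_, fun β τ => ?_, ?_⟩,
    fun a b c r τ => congrFun (FF_on hf hh a b c r) τ, off⟩
  · obtain ⟨α, rfl⟩ := red_surj β
    by_cases H : ∃ a b c r, α = piM a b c r
    · obtain ⟨a, b, c, r, rfl⟩ := H
      rw [FF_on hf hh]
      exact ((differentiableOn_const _).mul (hf.hol (ρ * b))).mul (hh.hol r)
    · rw [off α H]
      exact differentiableOn_const 0
  · obtain ⟨α, rfl⟩ := red_surj β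
    by_cases H : ∃ a b c r, α = piM a b c r
    · obtain ⟨a, b, c, r, rfl⟩ := H
      rw [FF_on hf hh, vl, vl, hf.lawT, hh.lawT, red_det, ← Int.cast_neg, en_std]
      by_cases h0 : chi m (17 * a) b c = 0
      · simp [h0]
      obtain ⟨t, ht⟩ := chi_dvd hm h0
      obtain ⟨k, hk⟩ := hr
      obtain ⟨l, hl⟩ := hρ
      have e1 : ee (-((ρ * b : ℤ) : ℂ) ^ 2 / (4 * (17 : ℕ))) = en 68 (-(ρ * b) ^ 2) := by
        rw [en]; congr 1; push_cast; ring
      have e2 : ee (-(r : ℂ) ^ 2 / (4 * (153 * m : ℕ))) = en (612 * m) (-r ^ 2) := by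
        rw [en]; congr 1; push_cast; ring
      have e3 := en_mul (d := 9 * m) (mul_ne_zero (by norm_num) hm.ne_zero) 68 t
      rw [show 9 * m * 68 = 612 * m by ring, en_congr (N := 68) (X := t) (Y := -(ρ * b) ^ 2)
        ⟨ρ ^ 2 * (a * c + k * t) - t * (l + 17 * l ^ 2), by
          push_cast
          linear_combination ρ ^ 2 * ht + ρ ^ 2 * t * hk - t * (ρ * r₀ + 1 + 34 * l) * hl⟩] at e3
      have e4 : -(piM a b c r).det = -r ^ 2 + (9 * m : ℕ) * t := by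
        rw [piM, Matrix.det_fin_two_of]
        push_cast
        linear_combination 9 * ht
      rw [e1, e2, e4, en_add, e3]
      ring
    · rw [off α H]
      simp
  · obtain ⟨l1, h1, L1⟩ := hf.lawS
    obtain ⟨l2, h2, L2⟩ := hh.lawS
    obtain ⟨K, hK, HK⟩ := sum_range_eq (ρ := ρ) hf hh
    obtain ⟨μ, hμ, Hμ⟩ := sum_on hm hc hr hρ hf hh
    refine ⟨l1 * l2 * K / μ, div_ne_zero (mul_ne_zero (mul_ne_zero h1 h2) hK) hμ, fun β τ => ?_⟩
    obtain ⟨α, rfl⟩ := red_surj β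
    by_cases H : ∃ a b c r, α = piM a b c r
    · obtain ⟨a, b, c, r, rfl⟩ := H
      have e := (HK _ τ).trans (Hμ a b c r τ)
      have e1 : ∑ s ∈ range (2 * 17), ee (((ρ * b : ℤ) : ℂ) * s / (2 * (17 : ℕ))) * f s τ =
          S1 34 fun s => en 34 (ρ * b * s) * f s τ :=
        sum_congr rfl fun s _ => by simp only [en]; congr 2; push_cast; ring
      have e2 : ∑ s ∈ range (2 * (153 * m)), ee ((r : ℂ) * s / (2 * (153 * m : ℕ))) * h s τ =
          S1 (2 * (153 * m)) fun s => en (2 * (153 * m)) (r * s) * h s τ :=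
        sum_congr rfl fun s _ => by simp only [en]; congr 2; push_cast; ring
      have e3 : (τ : ℂ) ^ κ * (τ : ℂ) ^ (-κ) = 1 := by
        rw [← Complex.cpow_add _ _ τ.ne_zero, add_neg_cancel, Complex.cpow_zero]
      rw [FF_on hf hh, vl, L1, L2, e1, e2, div_mul_eq_mul_div, eq_div_iff hμ, mul_assoc _ K, e]
      generalize (S1 34 fun s => en 34 (ρ * b * s) * f s τ) = X
      generalize (S1 (2 * (153 * m)) fun s => en (2 * (153 * m)) (r * s) * h s τ) = Y
      linear_combination l1 * l2 * μ * chi m (17 * a) b c * X * Y * e3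
    · rw [off α H, sum_off hf hh H]
      simp

end Pool.Agent.Lib.MP_d6ddbd_nt.K
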