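import Mathlib
import Pool.Agent.Lib.MP_d6ddbd_nt.K.T2H
import Pool.Agent.Lib.MP_d6ddbd_nt.K.GenH
import Pool.Agent.Lib.MP_d6ddbd_nt.K.GenF
import Pool.Agent.Lib.MP_d6ddbd_nt.K.Twist
import Pool.Agent.Lib.MP_d6ddbd_nt.K.O22
import Pool.Agent.Lib.MP_d6ddbd_nt.K.X0
import Pool.Agent.Lib.MP_d6ddbd_nt.K.GKZ1

set_option autoImplicit false

open UpperHalfPlane
open scoped MatrixGroups
open Pool.Agent.Lib.MP_9177b7_ag.CM (jH up dn)

noncomputable section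

namespace Pool.Agent.Lib.MP_d6ddbd_nt.K

namespace Gk

/-- The odd part of a twisted Heegner divisor. -/
def Od (m : ℕ) (Δ β : ℤ) (z : ℍ) : ℤ := Dv m Δ β z + -1 * Dv m Δ (-β) z

theorem od_hsum {m : ℕ} (hm : Odd m) (h17 : jacobiSym 17 m = 1) (hs : Squarefree m) {Δ : ℤ}
    (hΔ : Δ < 0) (β : ℤ) : Fin0 (Od m Δ β) ∧
      hsum (Od m Δ β) = (2 : ℤ) • PP m Δ β - hdeg (Dv m Δ β) • TT := by
  obtain ⟨f1, s1⟩ := hsum_mul (dv_fin m hΔ (-β)) (-1)
  obtain ⟨f2, s2⟩ := hsum_add (dv_fin m hΔ β) f1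
  refine ⟨f2, s2.trans ?_⟩
  have h := pp_neg m hm h17 hs hΔ β
  rw [s1]
  change PP m Δ β + (-1 : ℤ) • PP m Δ (-β) = _
  rw [h]
  module

theorem od_inv {m : ℕ} (hm : Odd m) {Δ : ℤ} (hΔ : Δ < 0) (β : ℤ) {γ : SL(2, ℤ)} (h : γ ∈ G0)
    (z : ℍ) : Od m Δ β (γ • z) = Od m Δ β z := by
  rw [Od, Od, dv_inv m hm hΔ _ h, dv_inv m hm hΔ _ h]

theorem not_sq {m : ℕ} (hm : Squarefree m) (h1 : 1 < m) {k : ℤ} (hk : IsCoprime k m) :
    ¬ IsSquare ((m : ℤ) * k) := by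
  rintro ⟨s, hs⟩
  obtain ⟨p, hp, hpm⟩ := Nat.exists_prime_and_dvd h1.ne'
  have hp' : Prime (p : ℤ) := Nat.prime_iff_prime_int.1 hp
  have h2 : (p : ℤ) ∣ m := Int.natCast_dvd_natCast.2 hpm
  have h3 : (p : ℤ) ∣ s := by
    have : (p : ℤ) ∣ s * s := hs ▸ h2.mul_right k
    exact (hp'.dvd_or_dvd this).elim id id
  have h4 : (p : ℤ) * p ∣ m * k := hs ▸ mul_dvd_mul h3 h3
  have h5 : IsCoprime ((p : ℤ) * p) k :=
    (hk.symm.of_isCoprime_of_dvd_left h2).mul_left (hk.symm.of_isCoprime_of_dvd_left h2)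
  have h6 : p * p ∣ m := by exact_mod_cast h5.dvd_of_dvd_mul_right h4
  exact hp.one_lt.ne' (Nat.isUnit_iff.1 (hm p h6))

theorem od_j {m : ℕ} (hm : Squarefree m) (h1 : 1 < m) (h3 : IsCoprime (3 : ℤ) m) {d : ℤ}
    (hd : 0 < d) (hc : IsCoprime d m) (β : ℤ) {z : ℍ} (h : Od m (-(m * d)) β z ≠ 0) :
    jH z ≠ 0 ∧ jH z ≠ 1728 := by
  have hΔ : -((m : ℤ) * d) < 0 := neg_neg_of_pos (mul_pos (by omega) hd)
  have a1 : ¬ IsSquare (- -((m : ℤ) * d)) := by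
    rw [neg_neg]
    exact not_sq hm h1 hc
  have a2 : ¬ IsSquare (-3 * -((m : ℤ) * d)) := by
    rw [show -3 * -((m : ℤ) * d) = m * (3 * d) by ring]
    exact not_sq hm h1 (h3.mul_left hc)
  have key : ∀ β, Dv m (-(m * d)) β z ≠ 0 → jH z ≠ 0 ∧ jH z ≠ 1728 := by
    intro β hβ
    refine dv_j m hΔ β a1 a2 (Set.nonempty_iff_ne_empty.2 fun e => hβ ?_)
    rw [Dv, e, finsum_mem_empty]
  by_cases h2 : Dv m (-(m * d)) β z = 0
  · refine key (-β) fun h4 => h ?_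
    rw [Od, h2, h4]
    simp
  · exact key β h2

/-- The sum over forms for an input with three polar terms. -/
theorem three_terms {m : ℕ} (hm : Squarefree m) (h4 : m % 4 = 3) (h9 : 0 < 9 * m) {e h ρ r₀ : ℤ}
    (he : 0 < e) (hρ : (34 : ℤ) ∣ ρ * r₀ - 1) {c : ℤ → LaurentSeries ℂ} {α β : ℂ}
    (hc : ∀ r (N : ℤ), N < 0 → (c r).coeff N =
      (if N = -e then (od h r : ℂ) else 0) + (if N = -1 then α * od 1 r else 0) +
        (if N = -4 then β * od 2 r else 0)) (z : ℍ) :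
    ∑ᶠ Q ∈ Zs z, (chi m (17 * Q.1) Q.2.1 Q.2.2 : ℂ) *
      (dil (9 * m) h9 (c (ρ * Q.2.1))).coeff (9 * dsc Q) =
      2 * ((Od m (-(m * e)) (r₀ * h) z : ℂ) + α * Od m (-(m * 1)) (r₀ * 1) z +
        β * Od m (-(m * 4)) (r₀ * 2) z) := by
  have hm0 : (0 : ℤ) < m := by omega
  obtain ⟨f1, s1⟩ := one_term hm h4 he hρ h z
  obtain ⟨f2, s2⟩ := one_term hm h4 one_pos hρ 1 z
  obtain ⟨f3, s3⟩ := one_term hm h4 four_pos hρ 2 z
  set T : ℤ → ℤ → ℤ × ℤ × ℤ → ℂ := fun d k Q => (chi m (17 * Q.1) Q.2.1 Q.2.2 : ℂ) *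
    if dsc Q = -(m * d) then (od k (ρ * Q.2.1) : ℂ) else 0 with hT
  have e1 : ∀ Q ∈ Zs z, (chi m (17 * Q.1) Q.2.1 Q.2.2 : ℂ) *
      (dil (9 * m) h9 (c (ρ * Q.2.1))).coeff (9 * dsc Q) =
      T e h Q + α * T 1 1 Q + β * T 4 2 Q := by
    intro Q hQ
    rcases zs_neg hQ with h1 | h1
    · simp only [hT, h1, Prod.fst_zero, Prod.snd_zero, mul_zero, chi_zero (by omega : 1 < m)]
      simp
    rw [dil_coeff]
    push_cast
    by_cases h2 : (m : ℤ) ∣ dsc Q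
    · obtain ⟨t, ht⟩ := h2
      have ht0 : t < 0 := by
        by_contra h5
        have := mul_nonneg hm0.le (not_lt.1 h5)
        omega
      have h5 : 9 * dsc Q / (9 * (m : ℤ)) = t := by
        rw [ht, ← mul_assoc, Int.mul_ediv_cancel_left _ (by omega)]
      have h6 : ∀ d : ℤ, dsc Q = -(m * d) ↔ t = -d := fun d => by
        rw [ht, ← mul_neg, mul_right_inj' hm0.ne']
      rw [if_pos (mul_dvd_mul_left 9 ⟨t, ht⟩), h5, hc _ _ ht0]
      simp only [hT, h6]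
      split_ifs <;> ring
    · have h6 : ∀ d : ℤ, ¬ dsc Q = -(m * d) := fun d h => h2 ⟨-d, by rw [h, mul_neg]⟩
      rw [if_neg fun h => h2 (Int.dvd_of_mul_dvd_mul_left (by norm_num) h)]
      simp only [hT, h6, if_false]
      ring
  have g2 : (Zs z ∩ Function.support fun Q => α * T 1 1 Q).Finite :=
    f2.subset fun Q hQ => ⟨hQ.1, right_ne_zero_of_mul hQ.2⟩
  have g3 : (Zs z ∩ Function.support fun Q => β * T 4 2 Q).Finite :=
    f3.subset fun Q hQ => ⟨hQ.1, right_ne_zero_of_mul hQ.2⟩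
  have g1 : (Zs z ∩ Function.support fun Q => T e h Q + α * T 1 1 Q).Finite :=
    (f1.union g2).subset fun Q hQ =>
      (Function.support_add _ _ hQ.2).imp (fun h => ⟨hQ.1, h⟩) fun h => ⟨hQ.1, h⟩
  rw [finsum_mem_congr rfl e1, finsum_mem_add_distrib' g1 g3, finsum_mem_add_distrib' f1 g2,
    ← mul_finsum_mem, ← mul_finsum_mem, s1, s2, s3]
  simp only [Od]
  push_cast
  ring

/-- The divisor of the diagonal restriction. -/
theorem exists_div {m : ℕ} (hm : Squarefree m) (h4 : m % 4 = 3) (hc : m.Coprime 34)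
    {e h r₀ : ℤ} (he : 0 < e) (hr : (68 : ℤ) ∣ r₀ ^ 2 + m) {f : ℤ → ℍ → ℂ}
    {c : ℤ → LaurentSeries ℂ} {α β : ℂ} (hf : UV 17 (1 / 2) f) (hq : ∀ r, QE 68 (f r) (c r))
    (hR : ∀ r, RatS (c r))
    (hp : ∀ r (N : ℤ), N < 0 → (c r).coeff N =
      (if N = -e then (od h r : ℂ) else 0) + (if N = -1 then α * od 1 r else 0) +
        (if N = -4 then β * od 2 r else 0)) :
    ∃ (f₁ f₂ : ℍ → ℂ) (N : ℕ), MF (CongruenceSubgroup.Gamma (612 * m)) f₁ ∧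
      MF (CongruenceSubgroup.Gamma (612 * m)) f₂ ∧ f₁ ≠ 0 ∧ f₂ ≠ 0 ∧ 0 < N ∧
      ∀ z, (ord f₁ z : ℂ) - ord f₂ z = N * ((Od m (-(m * e)) (r₀ * h) z : ℂ) +
        α * Od m (-(m * 1)) (r₀ * 1) z + β * Od m (-(m * 4)) (r₀ * 2) z) := by
  have hm1 : 1 < m := by omega
  have h9 : 0 < 9 * m := by omega
  have hn : 0 < 612 * m := by omega
  have : NeZero (612 * m) := ⟨hn.ne'⟩
  obtain ⟨ρ, hρ⟩ : ∃ ρ : ℤ, (34 : ℤ) ∣ ρ * r₀ - 1 := by
    obtain ⟨u, v, huv⟩ : IsCoprime (m : ℤ) 34 := Nat.isCoprime_iff_coprime.2 hc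
    obtain ⟨t, ht⟩ := hr
    exact ⟨-(u * r₀), -v - 2 * u * t, by linear_combination huv - u * ht⟩
  obtain ⟨g, cg, K, hg, hgq, hgR, hgl, hgs⟩ := exists_h (51 * m) (by omega)
  rw [show 3 * (51 * m) = 153 * m by ring] at hg
  rw [show 12 * (51 * m) = 612 * m by ring] at hgq
  obtain ⟨F, hW, hF, hF0⟩ := exists_F m hm hc r₀ ρ hr hρ (1 / 2) f g hf hg
  have q1 : ∀ a b d r, QE (612 * m) (F (red _ (piM a b d r)))
      ((chi m (17 * a) b d : ℂ) • (dil (9 * m) h9 (c (ρ * b)) * cg r)) := by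
    intro a b d r
    have h1 := (hq (ρ * b)).level (9 * m) h9
    rw [show 9 * m * 68 = 612 * m by ring] at h1
    have h2 := (h1.mul (hgq r)).smul (chi m (17 * a) b d : ℂ)
    rwa [show F (red _ (piM a b d r)) = fun τ => (chi m (17 * a) b d : ℂ) * (f (ρ * b) τ * g r τ)
      from funext fun τ => by rw [hF, mul_assoc]]
  have q0 : ∀ A : Mat ℤ, (¬ ∃ a b d r, A = piM a b d r) → QE (612 * m) (F (red _ A)) 0 := by
    intro A hA τ
    rw [hF0 A hA]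
    simp
  have q2 : ∀ B : Mat (ZMod (612 * m)), ∃ C, QE (612 * m) (F B) C ∧ RatS C := by
    intro B
    obtain ⟨A, rfl⟩ : ∃ A : Mat ℤ, B = red _ A :=
      ⟨B.map fun x => (x.val : ℤ), by ext i j; simp [red]⟩
    by_cases hA : ∃ a b d r, A = piM a b d r
    · obtain ⟨a, b, d, r, rfl⟩ := hA
      refine ⟨_, q1 a b d r, ?_⟩
      simpa using (((hR (ρ * b)).dil _ h9).mul (hgR r)).smul (chi m (17 * a) b d : ℚ)
    · exact ⟨0, q0 A hA, fun N => ⟨0, by simp⟩⟩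
  choose C hC hCR using q2
  obtain ⟨D, L, I, hD, hI⟩ := exists_inp hW hC hCR
  have hD' : (D : ℂ) ≠ 0 := by exact_mod_cast hD.ne'
  have c1 : ∀ a b d r, C (red _ (piM a b d r)) =
      (chi m (17 * a) b d : ℂ) • (dil (9 * m) h9 (c (ρ * b)) * cg r) :=
    fun a b d r => (hC _).unique hn (q1 a b d r)
  have c2 : ∀ B (N : ℤ), N < 0 → (I B N : ℂ) = D * (C B).coeff N := fun B N hN => by
    rw [← hI.int B N hN, HahnSeries.coeff_smul, smul_eq_mul]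
  obtain ⟨f₁, f₂, m₁, m₂, n₁, n₂, ho⟩ := o22_diag hI fun k hk => by
    have h1 : (k • (1 : Mat ℤ)) = piM 0 0 0 k := by
      ext i j
      fin_cases i <;> fin_cases j <;> simp [piM]
    have h2 := c2 (red _ (k • 1)) (-k ^ 2) (neg_neg_of_pos (by positivity))
    rw [h1, c1, mul_zero, chi_zero hm1] at h2
    rw [h1]
    simpa using h2
  refine ⟨f₁, f₂, D * 4 ^ (51 * m), m₁, m₂, n₁, n₂, by positivity, fun z => ?_⟩
  have h1 := (Int.castAddHom ℂ).map_finsum_mem (fun A : Mat ℤ => I (red _ A) (-A.det))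
    (mm_finite L z z)
  rw [← ho z] at h1
  simp only [Int.coe_castAddHom] at h1
  rw [finsum_mem_congr rfl fun A (hA : A ∈ MM L z z) => c2 _ _ (by have := hA.1; omega),
    ← mul_finsum_mem, diag_sum hm1 (G := fun A => C (red _ A))
      (u := fun b => dil (9 * m) h9 (c (ρ * b))) c1
      (fun A hA => (hC _).unique hn (q0 A hA))
      (fun A N hN => by
        have := hI.low (red _ A) N hN
        rw [HahnSeries.coeff_smul, smul_eq_mul] at this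
        exact (mul_eq_zero.1 this).resolve_left hD')
      (conv hgl hgs), three_terms hm h4 h9 he hρ hp] at h1
  push_cast at h1 ⊢
  linear_combination h1 / 2

end Gk

open Gk in
theorem gkz (e h : ℤ) (he : 0 < e) (hh : (68 : ℤ) ∣ e - h ^ 2) (h17 : ¬ (17 : ℤ) ∣ h) :
    ∃ c : ℚ, ∀ (m : ℕ) (r₀ : ℤ), Squarefree m → m.Coprime 102 → IsCoprime e m →
      (68 : ℤ) ∣ r₀ ^ 2 + m →
      IsOfFinAddOrder ((c.den : ℤ) • PP m (-(m * e)) (r₀ * h) - c.num • PP m (-m) r₀) := by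
  obtain ⟨f, c, α, β, hf, hq, hR, hp⟩ := exists_f e h he hh h17
  refine ⟨2 * β - α, fun m r₀ hm hc hem hr => ?_⟩
  have hc2 : m.Coprime 2 := hc.coprime_dvd_right (by norm_num)
  have hc3 : m.Coprime 3 := hc.coprime_dvd_right (by norm_num)
  have hc17 : m.Coprime 17 := hc.coprime_dvd_right (by norm_num)
  have hodd : Odd m := Nat.coprime_two_right.1 hc2
  have h4 : m % 4 = 3 := by
    have h1 := Nat.odd_iff.1 hodd
    obtain ⟨t, ht⟩ := hr
    obtain ⟨k, rfl | rfl⟩ := Int.even_or_odd' r₀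
    · have : (2 * k) ^ 2 = 4 * k ^ 2 := by ring
      omega
    · have : (2 * k + 1) ^ 2 = 4 * (k ^ 2 + k) + 1 := by ring
      omega
  have hm1 : 1 < m := by omega
  have hm0 : (0 : ℤ) < m := by omega
  have hJ : jacobiSym 17 m = 1 := by
    have h1 := jacobiSym.quadratic_reciprocity_one_mod_four (a := 17) (b := m) rfl hodd
    obtain ⟨t, ht⟩ := hr
    have h2 : (m : ℤ) % (17 : ℕ) = (4 * r₀) ^ 2 % (17 : ℕ) :=
      (Int.emod_emod_of_dvd _ dvd_rfl).symm.trans <| (Int.emod_emod_of_dvd _ dvd_rfl).trans <|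
        Int.ModEq.symm (Int.modEq_iff_dvd.2 ⟨4 * t - r₀ ^ 2, by push_cast; linear_combination ht⟩)
    obtain ⟨u, v, huv⟩ : IsCoprime (m : ℤ) 17 := Nat.isCoprime_iff_coprime.2 hc17
    have h3 : Int.gcd (4 * r₀) (17 : ℕ) = 1 := Int.isCoprime_iff_gcd_eq_one.1
      ⟨4 * u * r₀, v + 4 * u * t - u * r₀ ^ 2, by push_cast; linear_combination huv - u * ht⟩
    rw [jacobiSym.mod_left' h2, jacobiSym.sq_one' h3] at h1
    exact_mod_cast h1
  obtain ⟨f₁, f₂, N, m₁, m₂, n₁, n₂, hN, ho⟩ :=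
    exists_div hm h4 (hc.coprime_dvd_right (by norm_num)) he hr hf hq hR hp
  have d1 : -((m : ℤ) * e) < 0 := neg_neg_of_pos (mul_pos hm0 he)
  have d2 : -((m : ℤ) * 1) < 0 := by omega
  have d3 : -((m : ℤ) * 4) < 0 := by omega
  obtain ⟨g1, s1⟩ := od_hsum hodd hJ hm d1 (r₀ * h)
  obtain ⟨g2, s2⟩ := od_hsum hodd hJ hm d2 (r₀ * 1)
  obtain ⟨g3, s3⟩ := od_hsum hodd hJ hm d3 (r₀ * 2)
  obtain ⟨q, A, B, hq0, hA, hB⟩ : ∃ (q : ℕ) (A B : ℤ), q ≠ 0 ∧ q * α = A ∧ q * β = B := by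
    refine ⟨α.den * β.den, α.num * β.den, β.num * α.den, by positivity, ?_, ?_⟩
    · push_cast
      linear_combination (β.den : ℚ) * Rat.den_mul_eq_num α
    · push_cast
      linear_combination (α.den : ℚ) * Rat.den_mul_eq_num β
  obtain ⟨k1, t1⟩ := hsum_mul g1 q
  obtain ⟨k2, t2⟩ := hsum_mul g2 A
  obtain ⟨k3, t3⟩ := hsum_mul g3 B
  obtain ⟨k4, t4⟩ := hsum_add k1 k2
  obtain ⟨k5, t5⟩ := hsum_add k4 k3
  have pw : ∀ {u : ℍ → ℂ}, u ≠ 0 → (fun τ => u τ ^ q) ≠ 0 := fun hu e =>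
    hu (funext fun τ => pow_eq_zero_iff hq0 |>.1 (congrFun e τ))
  have h3 : IsCoprime (3 : ℤ) m := (Nat.isCoprime_iff_coprime.2 hc3).symm
  have h2 : IsCoprime (4 : ℤ) m :=
    (Nat.isCoprime_iff_coprime.2 (hc2.pow_right 2)).symm
  have ab := abel_level (n := 612 * m) (by omega) (Dvd.intro (36 * m) (by ring)) (m₁.pow q)
    (m₂.pow q) (pw n₁) (pw n₂) _ N (by exact_mod_cast hN.ne') (fun z => ?_) (fun γ hγ z => ?_) k5
    fun z hz => ?_
  rotate_left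
  · rw [ord_pow m₁.hol n₁, ord_pow m₂.hol n₂]
    have a1 : (q : ℂ) * α = A := by exact_mod_cast hA
    have a2 : (q : ℂ) * β = B := by exact_mod_cast hB
    refine Int.cast_injective (α := ℂ) ?_
    push_cast
    rw [← a1, ← a2]
    linear_combination -(q : ℂ) * ho z
  · simp only [od_inv hodd d1 _ hγ, od_inv hodd d2 _ hγ, od_inv hodd d3 _ hγ]
  · by_contra hj
    apply hz
    rw [not_not.1 (mt (od_j hm hm1 h3 he hem _) hj),
      not_not.1 (mt (od_j hm hm1 h3 one_pos isCoprime_one_left _) hj),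
      not_not.1 (mt (od_j hm hm1 h3 four_pos h2 _) hj)]
    simp
  rw [t5, t4, t1, t2, t3, s1, s2, s3, mul_one, mul_one, mul_comm (m : ℤ) 4, mul_comm r₀ 2] at ab
  have hT : IsOfFinAddOrder TT := isOfFinAddOrder_iff_nsmul_eq_zero.2 ⟨4, four_pos, four_TT⟩
  have ht := t2_heeg m r₀ hm hc hr
  set x := 2 * β - α
  have hx : (x.den : ℤ) * (2 * B - A) = q * x.num := by
    have h1 := Rat.den_mul_eq_num x
    have h5 : (x.den : ℚ) * (2 * B - A) = q * x.num := by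
      rw [← hA, ← hB, ← h1]
      simp only [x]
      ring
    exact_mod_cast h5
  refine IsOfFinAddOrder.of_nsmul (n := 2 * q) ?_ (by omega)
  refine (congrArg IsOfFinAddOrder ?_).mp
    (((ab.zsmul (i := x.den)).add (ht.zsmul (i := -(2 * B * x.den)))).add
    (hT.zsmul (i := x.den * (q * hdeg (Dv m (-(m * e)) (r₀ * h)) + A * hdeg (Dv m (-m) r₀) +
      B * hdeg (Dv m (-(4 * m)) (2 * r₀))))))
  linear_combination (norm := module) -(congrArg (2 * ·) hx) • PP m (-m) r₀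

end Pool.Agent.Lib.MP_d6ddbd_nt.K
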