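import Mathlib
import Pool.Agent.Lib.MP_d6ddbd_nt.K.QE

/-! Odd Weil vectors of index `17` with rational expansions: closure properties. -/

set_option autoImplicit false

open UpperHalfPlane
open scoped MatrixGroups Manifold ModularForm

noncomputable section

namespace Pool.Agent.Lib.MP_d6ddbd_nt.K.GenFAux

/-- Odd vectors of weight `k - 1 / 2` with a fixed constant `μ` and rational expansions. -/
structure GV (μ : ℂ) (k : ℤ) (f : ℤ → ℍ → ℂ) (c : ℤ → LaurentSeries ℂ) : Prop where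
  per : ∀ r : ℤ, f (r + 34) = f r
  odd : ∀ (r : ℤ) (τ : ℍ), f (-r) τ = -f r τ
  lawT : ∀ (r : ℤ) (τ : ℍ), f r (ModularGroup.T • τ) = ee (-(r : ℂ) ^ 2 / 68) * f r τ
  lawS : ∀ (r : ℤ) (τ : ℍ), f r (ModularGroup.S • τ) =
    μ * (τ : ℂ) ^ ((k : ℂ) - 1 / 2) * ∑ s ∈ Finset.range 34, ee (r * s / 34) * f s τ
  qe : ∀ r, QE 68 (f r) (c r)
  rat : ∀ r, RatS (c r)

/-- The residue of `h ^ 2` modulo `68`. -/
def dd (h : ℤ) : ℤ := h ^ 2 % 68

/-- There is a vector of weight `k - 1 / 2` with poles of level at most `l` and leading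
coefficients `v`. -/
def W (μ : ℂ) (k : ℤ) (l : ℤ) (v : ℤ → ℚ) : Prop :=
  ∃ f c, GV μ k f c ∧ ∀ h ∈ Finset.Icc (1 : ℤ) 16, Lead (c h) (-dd h - 68 * l) (v h)

variable {μ : ℂ} {k l : ℤ} {f f' : ℤ → ℍ → ℂ} {c c' : ℤ → LaurentSeries ℂ} {v v' : ℤ → ℚ}

theorem GV.add (h : GV μ k f c) (h' : GV μ k f' c') :
    GV μ k (fun r τ => f r τ + f' r τ) fun r => c r + c' r where
  per r := by simp only [h.per, h'.per]
  odd r τ := by simp only [h.odd, h'.odd]; ring
  lawT r τ := by simp only [h.lawT, h'.lawT]; ring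
  lawS r τ := by
    simp only [h.lawS, h'.lawS, mul_add, Finset.sum_add_distrib]
  qe r := (h.qe r).add (h'.qe r)
  rat r := (h.rat r).add (h'.rat r)

theorem GV.smul (h : GV μ k f c) (a : ℚ) :
    GV μ k (fun r τ => (a : ℂ) * f r τ) fun r => (a : ℂ) • c r where
  per r := by simp only [h.per]
  odd r τ := by simp only [h.odd]; ring
  lawT r τ := by simp only [h.lawT]; ring
  lawS r τ := by
    simp only [h.lawS, Finset.mul_sum]
    exact Finset.sum_congr rfl fun s _ => by ring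
  qe r := (h.qe r).smul a
  rat r := (h.rat r).smul a

theorem gv_zero (μ : ℂ) (k : ℤ) : GV μ k (fun _ _ => 0) fun _ => 0 where
  per _ := rfl
  odd _ _ := by simp
  lawT _ _ := by simp
  lawS _ _ := by simp
  qe _ τ := by simp [hasSum_zero]
  rat _ _ := ⟨0, by simp⟩

theorem W.congr (h : W μ k l v) (e : ∀ h ∈ Finset.Icc (1 : ℤ) 16, v h = v' h) : W μ k l v' := by
  obtain ⟨f, c, h1, h2⟩ := h
  exact ⟨f, c, h1, fun g hg => e g hg ▸ h2 g hg⟩

theorem W.add (h : W μ k l v) (h' : W μ k l v') : W μ k l fun g => v g + v' g := by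
  obtain ⟨f, c, h1, h2⟩ := h
  obtain ⟨f', c', h1', h2'⟩ := h'
  refine ⟨_, _, h1.add h1', fun g hg => ⟨fun M hM => ?_, ?_⟩⟩
  · rw [HahnSeries.coeff_add, (h2 g hg).1 M hM, (h2' g hg).1 M hM, add_zero]
  · rw [HahnSeries.coeff_add, (h2 g hg).2, (h2' g hg).2]; push_cast; ring

theorem W.smul (h : W μ k l v) (a : ℚ) : W μ k l fun g => a * v g := by
  obtain ⟨f, c, h1, h2⟩ := h
  refine ⟨_, _, h1.smul a, fun g hg => ⟨fun M hM => ?_, ?_⟩⟩
  · rw [HahnSeries.coeff_smul, (h2 g hg).1 M hM, smul_zero]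
  · rw [HahnSeries.coeff_smul, (h2 g hg).2]; push_cast; rfl

theorem w_zero (μ : ℂ) (k l : ℤ) : W μ k l fun _ => 0 :=
  ⟨_, _, gv_zero μ k, fun _ _ => ⟨fun _ _ => by simp, by simp⟩⟩

theorem w_sum {ι : Type} (s : Finset ι) (u : ι → ℤ → ℚ) (h : ∀ i ∈ s, W μ k l (u i)) :
    W μ k l fun g => ∑ i ∈ s, u i g := by
  classical
  induction s using Finset.induction_on with
  | empty => simpa using w_zero μ k l
  | insert i s hi ih =>
    simp only [Finset.sum_insert hi]
    exact (h i (Finset.mem_insert_self i s)).add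
      (ih fun j hj => h j (Finset.mem_insert_of_mem hj))

/-- Level one forms of weight `w` with leading term `q ^ n`. -/
structure L1 (w n : ℤ) (g : ℍ → ℂ) : Prop where
  lawT : ∀ τ : ℍ, g (ModularGroup.T • τ) = g τ
  lawS : ∀ τ : ℍ, g (ModularGroup.S • τ) = (τ : ℂ) ^ w * g τ
  qe : ∃ c, QE 1 g c ∧ RatS c ∧ Lead c n 1

theorem W.mul (h : W μ k l v) {w n : ℤ} {g : ℍ → ℂ} (hg : L1 w n g) :
    W μ (k + w) (l - n) v := by
  obtain ⟨f, c, h1, h2⟩ := h
  obtain ⟨d, d1, d2, d3⟩ := hg.qe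
  refine ⟨fun r τ => g τ * f r τ, fun r => dil 68 (by norm_num) d * c r, ⟨fun r => ?_, fun r τ => ?_,
    fun r τ => ?_, fun r τ => ?_, fun r => ?_, fun r => ?_⟩, fun r hr => ?_⟩
  · simp only [h1.per]
  · simp only [h1.odd]; ring
  · simp only [h1.lawT, hg.lawT]; ring
  · have e : (τ : ℂ) ^ (((k + w : ℤ) : ℂ) - 1 / 2) = (τ : ℂ) ^ w * (τ : ℂ) ^ ((k : ℂ) - 1 / 2) := by
      rw [← Complex.cpow_intCast, ← Complex.cpow_add _ _ τ.ne_zero]
      congr 1; push_cast; ring
    simp only [h1.lawS, hg.lawS, e, Finset.mul_sum]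
    exact Finset.sum_congr rfl fun s _ => by ring
  · exact (d1.level 68 (by norm_num)).mul (h1.qe r)
  · exact (d2.dil 68 (by norm_num)).mul (h1.rat r)
  · have := (d3.dil 68 (by norm_num)).mul (h2 r hr)
    rw [one_mul] at this
    rwa [show -dd r - 68 * (l - n) = ((68 : ℕ) : ℤ) * n + (-dd r - 68 * l) by push_cast; ring]

theorem denom_T (τ : ℍ) : denom ModularGroup.T τ = 1 := by
  rw [ModularGroup.denom_apply]; simp [ModularGroup.T]

theorem l1_of {w : ℤ} (F : ModularForm 𝒮ℒ w) {n : ℤ} (h : ∃ c, QE 1 F c ∧ RatS c ∧ Lead c n 1) :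
    L1 w n F := by
  have key : ∀ (γ : SL(2, ℤ)) (τ : ℍ), F (γ • τ) = denom γ τ ^ w * F τ := fun γ τ =>
    SlashInvariantForm.slash_action_eqn'' F (show (γ : GL (Fin 2) ℝ) ∈ 𝒮ℒ from ⟨γ, rfl⟩) τ
  exact ⟨fun τ => by rw [key, denom_T, one_zpow, one_mul],
    fun τ => by rw [key, ModularGroup.denom_S], h⟩

theorem W.e4 (h : W μ k l v) : W μ (k + 4) l v := by
  simpa using h.mul (l1_of ModularForm.E₄ qe_E4)

theorem W.e6 (h : W μ k l v) : W μ (k + 6) l v := by
  simpa using h.mul (l1_of ModularForm.E₆ qe_E6)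

theorem W.dinv (h : W μ k l v) : W μ (k - 12) (l + 1) v := by
  have hD : L1 12 1 ModularForm.discriminant :=
    l1_of (CuspForm.discriminant : ModularForm 𝒮ℒ 12) qe_Delta
  obtain ⟨d, d1, d2, d3⟩ := hD.qe
  have hI : L1 (-12) (-1) fun τ => (ModularForm.discriminant τ)⁻¹ :=
    ⟨fun τ => by rw [hD.lawT], fun τ => by rw [hD.lawS, mul_inv, zpow_neg],
      d⁻¹, d1.inv one_pos ModularForm.discriminant_ne_zero, d2.inv, by simpa using d3.inv one_ne_zero⟩
  simpa [sub_eq_add_neg] using h.mul hI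

/-! ### The Serre derivative -/

open Derivative

theorem deriv_T {g : ℍ → ℂ} (hg : Hol g) (τ : ℍ) :
    D (fun τ => g (ModularGroup.T • τ)) τ = D g (ModularGroup.T • τ) := by
  have := congrFun (normalizedDerivOfComplex_SL_slash (k := 0) (hol_iff.1 hg)
    (γ := ModularGroup.T)) τ
  have e : g ∣[(0 : ℤ)] ModularGroup.T = fun τ => g (ModularGroup.T • τ) := by
    funext z; simp [ModularForm.SL_slash_apply]
  rw [e] at this
  rw [this]
  simp [ModularForm.SL_slash_apply, denom_T]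

theorem deriv_S {g : ℍ → ℂ} (hg : Hol g) (τ : ℍ) :
    D g (ModularGroup.S • τ) = (τ : ℂ) ^ 2 * D (fun τ => g (ModularGroup.S • τ)) τ := by
  have := congrFun (normalizedDerivOfComplex_SL_slash (k := 0) (hol_iff.1 hg)
    (γ := ModularGroup.S)) τ
  have e : g ∣[(0 : ℤ)] ModularGroup.S = fun τ => g (ModularGroup.S • τ) := by
    funext z; simp [ModularForm.SL_slash_apply]
  rw [e] at this
  rw [this]
  have h0 := τ.ne_zero
  simp [ModularForm.SL_slash_apply, ModularGroup.denom_S]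
  field_simp

theorem E2_T (τ : ℍ) : EisensteinSeries.E2 (ModularGroup.T • τ) = EisensteinSeries.E2 τ := by
  have := congrFun (EisensteinSeries.E2_slash_action ModularGroup.T) τ
  simpa [ModularForm.SL_slash_apply, denom_T, EisensteinSeries.D2_T] using this

theorem E2_S (τ : ℍ) : EisensteinSeries.E2 (ModularGroup.S • τ) =
    (τ : ℂ) ^ 2 * EisensteinSeries.E2 τ + 12 * (2 * Real.pi * Complex.I)⁻¹ * τ := by
  have := congrFun (EisensteinSeries.E2_slash_action ModularGroup.S) τ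
  have h0 := τ.ne_zero
  have hp : (Real.pi : ℂ) ≠ 0 := by exact_mod_cast Real.pi_ne_zero
  simp only [ModularForm.SL_slash_apply, ModularGroup.denom_S, Pi.sub_apply, Pi.smul_apply,
    EisensteinSeries.D2_S, riemannZeta_two, smul_eq_mul] at this
  have e : EisensteinSeries.E2 (ModularGroup.S • τ) =
      (τ : ℂ) ^ 2 * (EisensteinSeries.E2 (ModularGroup.S • τ) * (τ : ℂ) ^ (-2 : ℤ)) := by
    rw [zpow_neg]; field_simp
  rw [e, this]
  field_simp
  linear_combination (-12 : ℂ) * Complex.I_sq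

theorem deriv_cpow (κ : ℂ) {F : ℍ → ℂ} (hF : Hol F) (a : ℂ) (τ : ℍ) :
    D (fun τ : ℍ => a * (τ : ℂ) ^ κ * F τ) τ =
      a * (τ : ℂ) ^ κ * (D F τ + κ * (2 * Real.pi * Complex.I)⁻¹ / τ * F τ) := by
  have h0 := τ.ne_zero
  have h1 : HasDerivAt (fun z : ℂ => z ^ κ) (κ * (τ : ℂ) ^ (κ - 1)) τ :=
    (Complex.hasStrictDerivAt_cpow_const (Or.inr τ.im_pos.ne')).hasDerivAt
  have h2 : HasDerivAt (F ∘ ofComplex) (deriv (F ∘ ofComplex) τ) τ :=
    (hF.analyticAt τ).differentiableAt.hasDerivAt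
  have h3 := (h1.const_mul a).mul h2
  have e : ((fun τ : ℍ => a * (τ : ℂ) ^ κ * F τ) ∘ ofComplex) =ᶠ[nhds (τ : ℂ)]
      (fun z : ℂ => a * z ^ κ) * (F ∘ ofComplex) := by
    filter_upwards [isOpen_upperHalfPlaneSet.mem_nhds τ.im_pos] with w hw
    simp [ofComplex_apply_of_im_pos hw]
  unfold normalizedDerivOfComplex
  rw [(h3.congr_of_eventuallyEq e).deriv, Complex.cpow_sub _ _ h0, Complex.cpow_one]
  simp only [Function.comp_apply, ofComplex_apply]
  field_simp
  ring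

theorem deriv_const_mul {F : ℍ → ℂ} (hF : Hol F) (a : ℂ) (τ : ℍ) :
    D (fun τ => a * F τ) τ = a * D F τ :=
  congrFun (normalizedDerivOfComplex_smul a F (hol_iff.1 hF)) τ

theorem deriv_sum {ι : Type} (s : Finset ι) (a : ι → ℂ) {F : ι → ℍ → ℂ} (hF : ∀ i, Hol (F i))
    (τ : ℍ) : D (fun τ => ∑ i ∈ s, a i * F i τ) τ = ∑ i ∈ s, a i * D (F i) τ := by
  classical
  induction s using Finset.induction_on with
  | empty => simp
  | insert i s hi ih =>
    simp only [Finset.sum_insert hi]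
    rw [← ih, ← deriv_const_mul (hF i)]
    exact congrFun (normalizedDerivOfComplex_add _ _ (hol_iff.1 ((hol_const _).mul (hF i)))
      (hol_iff.1 (hol_sum s fun j _ => (hol_const _).mul (hF j)))) τ

/-- The Serre derivative, times `408`. -/
theorem W.ser (h : W μ k l v) :
    W μ (k + 2) l fun g => (-6 * (dd g + 68 * l) - 17 * (2 * k - 1) : ℤ) * v g := by
  obtain ⟨f, c, h1, h2⟩ := h
  obtain ⟨e, e1, e2, e3⟩ := qe_E2
  have hol : ∀ r, Hol (f r) := fun r => (h1.qe r).hol (by norm_num)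
  choose d d1 d2 using fun r => (h1.qe r).deriv (by norm_num)
  set κ : ℚ := -((k : ℚ) - 1 / 2) / 12 with hκ
  have hG : GV μ (k + 2) (fun r τ => D (f r) τ + (κ : ℂ) * (EisensteinSeries.E2 τ * f r τ))
      fun r => d r + (κ : ℂ) • (dil 68 (by norm_num) e * c r) := by
    refine ⟨fun r => ?_, fun r τ => ?_, fun r τ => ?_, fun r τ => ?_, fun r => ?_, fun r => ?_⟩
    · simp only [h1.per]
    · have : f (-r) = fun τ => (-1) * f r τ := by funext τ; rw [h1.odd]; ring
      rw [this, deriv_const_mul (hol r)]; ring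
    · rw [← deriv_T (hol r), E2_T]
      simp only [h1.lawT]
      rw [deriv_const_mul (hol r)]; ring
    · have h0 := τ.ne_zero
      have e4 : (τ : ℂ) ^ (((k + 2 : ℤ) : ℂ) - 1 / 2) =
          (τ : ℂ) ^ 2 * (τ : ℂ) ^ ((k : ℂ) - 1 / 2) := by
        rw [← Complex.cpow_natCast, ← Complex.cpow_add _ _ h0]
        congr 1; push_cast; ring
      rw [deriv_S (hol r), E2_S]
      simp only [h1.lawS]
      rw [deriv_cpow _ (hol_sum _ fun (s : ℕ) _ => (hol_const _).mul (hol s)),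
        deriv_sum _ _ fun s : ℕ => hol s, e4]
      have e5 : ∑ s ∈ Finset.range 34, ee (r * s / 34) *
          (D (f s) τ + (κ : ℂ) * (EisensteinSeries.E2 τ * f s τ)) =
          ∑ s ∈ Finset.range 34, ee (r * s / 34) * D (f s) τ + (κ : ℂ) * EisensteinSeries.E2 τ *
            ∑ s ∈ Finset.range 34, ee (r * s / 34) * f s τ := by
        rw [Finset.mul_sum, ← Finset.sum_add_distrib]
        exact Finset.sum_congr rfl fun s _ => by ring
      rw [e5, hκ]
      push_cast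
      field_simp
      ring
    · exact (d1 r).add (((e1.level 68 (by norm_num)).mul (h1.qe r)).smul _)
    · refine RatS.add (fun N => ?_) (((e2.dil 68 (by norm_num)).mul (h1.rat r)).smul κ)
      obtain ⟨x, hx⟩ := h1.rat r N
      exact ⟨N / 68 * x, by rw [d2, hx]; push_cast; ring⟩
  have hW : W μ (k + 2) l fun g => ((-dd g - 68 * l : ℤ) / 68 + κ) * v g := by
    refine ⟨_, _, hG, fun r hr => ?_⟩
    have h3 := (e3.dil 68 (by norm_num)).mul (h2 r hr)
    rw [mul_zero, zero_add, one_mul] at h3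
    refine ⟨fun M hM => ?_, ?_⟩
    · rw [HahnSeries.coeff_add, HahnSeries.coeff_smul, d2, (h2 r hr).1 M hM, h3.1 M hM]; simp
    · rw [HahnSeries.coeff_add, HahnSeries.coeff_smul, d2, (h2 r hr).2, h3.2]
      push_cast; rw [smul_eq_mul]; ring
  refine (hW.smul 408).congr fun g _ => ?_
  rw [hκ]; push_cast; ring

end Pool.Agent.Lib.MP_d6ddbd_nt.K.GenFAux
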