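import Mathlib
import Pool.Agent.Lib.MP_d6ddbd_nt.K.Th0
import Pool.Agent.Lib.MP_d6ddbd_nt.K.Jac2
import Pool.Agent.Lib.MP_d6ddbd_nt.K.GenF1

/-! Theta blocks of index `17` and their expansions. -/

set_option autoImplicit false

open UpperHalfPlane
open scoped MatrixGroups

noncomputable section

namespace Pool.Agent.Lib.MP_d6ddbd_nt.K.GenFAux

/-- The theta block of a list. -/
def blk (as : List ℕ) (τ z : ℂ) : ℂ :=
  (as.map fun a : ℕ => th τ (a * z) / ModularForm.eta τ ^ 3).prod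

theorem th_nat (τ w : ℂ) (a : ℕ) : th τ (w + a) = (-1) ^ a * th τ w := by
  induction a with
  | zero => simp
  | succ a ih => rw [Nat.cast_succ, ← add_assoc, th_add_one, ih]; ring

theorem th_nat_tau (τ w : ℂ) (a : ℕ) :
    th τ (w + a * τ) = (-1) ^ a * ee (-(a ^ 2 * τ / 2) - a * w) * th τ w := by
  induction a with
  | zero => simp [ee_zero]
  | succ a ih =>
    rw [Nat.cast_succ, add_mul, one_mul, ← add_assoc, th_add_tau, ih,
      show -((a + 1 : ℂ) ^ 2 * τ / 2) - (a + 1) * w =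
        (-(τ / 2) - (w + a * τ)) + (-(a ^ 2 * τ / 2) - a * w) by ring, ee_add]
    ring

theorem blk_cons (a : ℕ) (as : List ℕ) (τ z : ℂ) :
    blk (a :: as) τ z = th τ (a * z) / ModularForm.eta τ ^ 3 * blk as τ z := by
  simp [blk]

theorem blk_e1 (as : List ℕ) (τ z : ℂ) : blk as τ (z + 1) = (-1) ^ as.sum * blk as τ z := by
  induction as with
  | nil => simp [blk]
  | cons a as ih => rw [blk_cons, blk_cons, ih, mul_add, mul_one, th_nat, List.sum_cons]; ring

theorem blk_e2 (as : List ℕ) (τ z : ℂ) : blk as τ (z + τ) =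
    (-1) ^ as.sum * ee (-(((as.map (· ^ 2)).sum : ℕ) * (τ + 2 * z) / 2)) * blk as τ z := by
  induction as with
  | nil => simp [blk, ee_zero]
  | cons a as ih =>
    rw [blk_cons, blk_cons, ih, mul_add (a : ℂ), th_nat_tau, List.sum_cons, List.map_cons,
      List.sum_cons, Nat.cast_add, Nat.cast_pow,
      show -(((a : ℂ) ^ 2 + ((as.map (· ^ 2)).sum : ℕ)) * (τ + 2 * z) / 2) =
        (-(a ^ 2 * τ / 2) - a * (a * z)) + -(((as.map (· ^ 2)).sum : ℕ) * (τ + 2 * z) / 2) by ring,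
      ee_add]
    ring

theorem blk_T (as : List ℕ) (τ z : ℂ) : blk as (τ + 1) z = blk as τ z := by
  induction as with
  | nil => simp [blk]
  | cons a as ih =>
    have e : ee (1 / 24) ^ 3 = ee (1 / 8) := by
      rw [← ee_nmul]; congr 1; norm_num
    rw [blk_cons, blk_cons, ih, th_T, eta_T, mul_pow, e, mul_div_mul_left _ _ (ee_ne _)]

theorem blk_S (as : List ℕ) {τ : ℂ} (hτ : 0 < τ.im) (z : ℂ) : blk as (-1 / τ) (z / τ) =
    τ ^ (-(as.length : ℤ)) * ee (((as.map (· ^ 2)).sum : ℕ) * z ^ 2 / (2 * τ)) * blk as τ z := by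
  have h0 : τ ≠ 0 := by rintro rfl; simp at hτ
  induction as with
  | nil => simp [blk, ee_zero]
  | cons a as ih =>
    have hs : ((-Complex.I * τ) ^ (1 / 2 : ℂ)) ^ 2 = -Complex.I * τ := by
      rw [one_div]; exact_mod_cast Complex.cpow_nat_inv_pow (-Complex.I * τ) two_ne_zero
    have hs0 : (-Complex.I * τ) ^ (1 / 2 : ℂ) ≠ 0 := by
      intro h; rw [h] at hs
      exact mul_ne_zero (neg_ne_zero.2 Complex.I_ne_zero) h0 (by rw [← hs]; ring)
    have he := ModularForm.eta_ne_zero (z := τ) hτ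
    rw [blk_cons, blk_cons, ih, ← mul_div_assoc, th_S hτ, eta_S hτ, List.map_cons, List.sum_cons,
      Nat.cast_add, Nat.cast_pow, List.length_cons,
      show ((a : ℂ) ^ 2 + ((as.map (· ^ 2)).sum : ℕ)) * z ^ 2 / (2 * τ) =
        (a * z) ^ 2 / (2 * τ) + ((as.map (· ^ 2)).sum : ℕ) * z ^ 2 / (2 * τ) by ring, ee_add,
      show -((as.length + 1 : ℕ) : ℤ) = -(as.length : ℤ) - 1 by push_cast; ring, zpow_sub_one₀ h0]
    generalize (-Complex.I * τ) ^ (1 / 2 : ℂ) = s at hs hs0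
    have : s ^ 3 = s * (-Complex.I * τ) := by rw [← hs]; ring
    rw [mul_pow s, this]
    have := Complex.I_ne_zero
    field_simp

theorem blk_neg (as : List ℕ) (τ z : ℂ) : blk as τ (-z) = (-1) ^ as.length * blk as τ z := by
  induction as with
  | nil => simp [blk]
  | cons a as ih => rw [blk_cons, blk_cons, ih, mul_neg, th_neg, List.length_cons]; ring

theorem diff_comp {F : ℂ → ℂ → ℂ} {τ z a : ℂ}
    (h : DifferentiableAt ℂ (fun p : ℂ × ℂ => F p.1 p.2) (τ, a * z)) :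
    DifferentiableAt ℂ (fun p : ℂ × ℂ => F p.1 (a * p.2)) (τ, z) := by
  have h2 : DifferentiableAt ℂ (fun p : ℂ × ℂ => (p.1, a * p.2)) (τ, z) := by fun_prop
  exact DifferentiableAt.comp (τ, z) (g := fun p : ℂ × ℂ => F p.1 p.2) h h2

theorem blk_diff (as : List ℕ) {τ : ℂ} (hτ : 0 < τ.im) (z : ℂ) :
    DifferentiableAt ℂ (fun p : ℂ × ℂ => blk as p.1 p.2) (τ, z) := by
  induction as with
  | nil => simp [blk]
  | cons a as ih =>
    simp only [blk_cons, div_eq_mul_inv]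
    refine DifferentiableAt.fun_mul (DifferentiableAt.fun_mul ?_
      (DifferentiableAt.fun_inv ?_ ?_)) ih
    · exact diff_comp (th_diff hτ (a * z))
    · exact (DifferentiableAt.comp (τ, z) (g := ModularForm.eta)
        (ModularForm.differentiableAt_eta_of_mem_upperHalfPlaneSet hτ) differentiableAt_fst).pow 3
    · exact pow_ne_zero 3 (ModularForm.eta_ne_zero hτ)

theorem blk_S' {as : List ℕ} (h2 : (as.map (· ^ 2)).sum = 34) (τ z : ℂ) (hτ : 0 < τ.im) :
    blk as (-1 / τ) (z / τ) =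
      1 * τ ^ (-(as.length : ℤ)) * ee ((17 : ℕ) * z ^ 2 / τ) * blk as τ z := by
  rw [blk_S as hτ, h2, one_mul]
  congr 3; push_cast; ring

theorem blk_jf {as : List ℕ} {σ : ℕ} (h1 : as.sum = 2 * σ) (h2 : (as.map (· ^ 2)).sum = 34) :
    JF 17 (-(as.length : ℤ)) (blk as) where
  diff τ z hτ := blk_diff as hτ z
  e1 τ z _ := by rw [blk_e1, h1, pow_mul]; simp
  e2 τ z _ := by
    rw [blk_e2, h1, h2, pow_mul]
    simp only [even_two, Even.neg_pow, one_pow, one_mul]
    congr 2; push_cast; ring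
  lawT τ z _ := blk_T as τ z
  lawS := ⟨1, one_ne_zero, blk_S' h2⟩

/-! ### Expansions -/

/-- Triangular numbers. -/
def tri (m : ℤ) : ℕ := (m * (m + 1) / 2).toNat

theorem tri_eq (m : ℤ) : 2 * (tri m : ℤ) = m * (m + 1) := by
  have h0 : 0 ≤ m * (m + 1) := by
    rcases le_or_gt 0 m with h | h
    · positivity
    · exact mul_nonneg_of_nonpos_of_nonpos h.le (by omega)
  rw [tri, Int.toNat_of_nonneg (by omega)]
  exact Int.mul_ediv_cancel' (Int.even_mul_succ_self m).two_dvd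

/-- The coefficients of a product of theta series. -/
def tc : List ℕ → ℕ → ℤ → ℤ
  | [], n, r => if n = 0 ∧ r = 0 then 1 else 0
  | a :: as, n, r => ∑ m ∈ Finset.Icc (-(n : ℤ) - 1) n,
      if tri m ≤ n then (-1) ^ m.natAbs * tc as (n - tri m) (r - a * m) else 0

/-- The normalised product of theta series. -/
def nps (as : List ℕ) (τ z : ℂ) : ℂ :=
  (as.map fun a : ℕ => th τ (a * z) * ee (-(τ / 8) - a * z / 2)).prod

theorem hs_congr {ι : Type} {f g : ι → ℂ} {a : ℂ} (h : HasSum f a) (e : ∀ i, f i = g i) :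
    HasSum g a := (funext e : f = g) ▸ h

theorem hs_mul {ι κ : Type} {f : ι → ℂ} {g : κ → ℂ} {a b : ℂ} (hf : HasSum f a)
    (hg : HasSum g b) : HasSum (fun q : ι × κ => f q.1 * g q.2) (a * b) :=
  hf.mul hg (summable_mul_of_summable_norm hf.summable.norm hg.summable.norm)

theorem hasSum_th0 {τ : ℂ} (hτ : 0 < τ.im) (w : ℂ) :
    HasSum (fun m : ℤ => (-1 : ℂ) ^ m.natAbs * ee (tri m * τ + m * w))
      (th τ w * ee (-(τ / 8) - w / 2)) := by
  refine hs_congr ((hasSum_th hτ w).mul_right (ee (-(τ / 8) - w / 2))) fun m => ?_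
  have e1 : (-1 : ℂ) ^ m = (-1) ^ m.natAbs := by
    rcases Int.natAbs_eq m with h | h
    · conv_lhs => rw [h, zpow_natCast]
    · conv_lhs => rw [h, zpow_neg, zpow_natCast, ← inv_pow, inv_neg_one]
  have e2 : (tri m : ℂ) = m * (m + 1) / 2 := by
    have : (2 : ℂ) * (tri m : ℂ) = m * (m + 1) := by exact_mod_cast tri_eq m
    rw [← this]; ring
  rw [e1, mul_assoc, ← ee_add, e2]
  congr 2; ring

theorem hasSum_nps (as : List ℕ) {τ : ℂ} (hτ : 0 < τ.im) (z : ℂ) :
    HasSum (fun p : ℕ × ℤ => (tc as p.1 p.2 : ℂ) * ee (p.1 * τ + p.2 * z)) (nps as τ z) := by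
  induction as with
  | nil =>
    have := hasSum_single (f := fun p : ℕ × ℤ => (tc [] p.1 p.2 : ℂ) * ee (p.1 * τ + p.2 * z))
      (0, 0) (fun p hp => by
        have : ¬ (p.1 = 0 ∧ p.2 = 0) := fun h => hp (Prod.ext h.1 h.2)
        simp [tc, this])
    simpa [tc, nps, ee_zero] using this
  | cons a as ih =>
    have h1 := hasSum_th0 hτ (a * z)
    have h3 := hs_mul h1 ih
    let G : (ℕ × ℤ) × ℤ → ℂ := fun q => ((if tri q.2 ≤ q.1.1 then (-1) ^ q.2.natAbs *
      tc as (q.1.1 - tri q.2) (q.1.2 - a * q.2) else 0 : ℤ) : ℂ) * ee (q.1.1 * τ + q.1.2 * z)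
    let i : ℤ × (ℕ × ℤ) → (ℕ × ℤ) × ℤ := fun q => ((q.2.1 + tri q.1, q.2.2 + a * q.1), q.1)
    have hi : Function.Injective i := by
      rintro ⟨m, n, r⟩ ⟨m', n', r'⟩ e
      simp only [i, Prod.mk.injEq] at e
      obtain ⟨⟨e1, e2⟩, rfl⟩ := e
      exact Prod.ext rfl (Prod.ext (by simpa using e1) (by simpa using e2))
    have hoff : ∀ q ∉ Set.range i, G q = 0 := by
      rintro ⟨⟨n, r⟩, m⟩ hq
      have : ¬ tri m ≤ n := fun h => hq ⟨(m, n - tri m, r - a * m), by
        simp only [i, Nat.sub_add_cancel h, sub_add_cancel]⟩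
      simp [G, this]
    have hG : HasSum G (nps (a :: as) τ z) := by
      rw [← hi.hasSum_iff hoff]
      have e : G ∘ i = fun q : ℤ × (ℕ × ℤ) => (-1 : ℂ) ^ q.1.natAbs *
          ee (tri q.1 * τ + q.1 * (a * z)) * ((tc as q.2.1 q.2.2 : ℂ) * ee (q.2.1 * τ + q.2.2 * z)) := by
        funext ⟨m, n, r⟩
        simp only [G, i, Function.comp_apply, Nat.le_add_left, if_true, Nat.add_sub_cancel,
          add_sub_cancel_right]
        rw [show ((n + tri m : ℕ) : ℂ) * τ + ((r + a * m : ℤ) : ℂ) * z =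
          (tri m * τ + m * (a * z)) + (n * τ + r * z) by push_cast; ring, ee_add]
        push_cast; ring
      rw [e]
      simpa [nps] using h3
    refine hG.prod_fiberwise fun ⟨n, r⟩ => ?_
    have : HasSum (fun m => G ((n, r), m)) (∑ m ∈ Finset.Icc (-(n : ℤ) - 1) n, G ((n, r), m)) :=
      hasSum_sum_of_ne_finset_zero (fun m hm => by
        have : ¬ tri m ≤ n := fun h => hm (by
          have h4 := tri_eq m
          have h5 : (tri m : ℤ) ≤ n := by exact_mod_cast h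
          rw [Finset.mem_Icc]
          constructor <;> nlinarith)
        simp [G, this])
    simp only [G] at this ⊢
    rw [← Finset.sum_mul, ← Int.cast_sum] at this
    exact this

/-- The inverse of the Euler product. -/
def ui (τ : ℂ) : ℂ := (ModularForm.eta τ * ee (-τ / 24))⁻¹

theorem blk_eq (as : List ℕ) (τ z : ℂ) :
    blk as τ z = ui τ ^ (3 * as.length) * (nps as τ z * ee (as.sum * z / 2)) := by
  induction as with
  | nil => simp [blk, nps, ee_zero]
  | cons a as ih =>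
    have e1 : nps (a :: as) τ z = th τ (a * z) * ee (-(τ / 8) - a * z / 2) * nps as τ z := by
      simp [nps]
    have e2 : ee (-(τ / 8) - a * z / 2) * ee (a * z / 2) = ee (-τ / 24) ^ 3 := by
      rw [← ee_add, ← ee_nmul]; congr 1; push_cast; ring
    have e3 : ui τ ^ 3 * ee (-τ / 24) ^ 3 = (ModularForm.eta τ ^ 3)⁻¹ := by
      have := ee_ne (-τ / 24)
      rw [ui, mul_inv, ← mul_pow, mul_assoc, inv_mul_cancel₀ this, mul_one, inv_pow]
    rw [blk_cons, ih, e1, List.sum_cons, List.length_cons, Nat.cast_add, add_mul, add_div, ee_add,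
      div_eq_mul_inv, ← e3, ← e2]
    ring

theorem cmp_neg {as : List ℕ} {σ : ℕ} (h1 : as.sum = 2 * σ) (h3 : Odd as.length) (r : ℤ) (τ : ℍ) :
    cmp 17 (blk as) (-r) τ = -cmp 17 (blk as) r τ := by
  unfold cmp
  rw [← mul_neg, ← intervalIntegral.integral_neg]
  have := intervalIntegral.integral_comp_sub_left
    (fun x : ℝ => blk as τ x * ee (-(((-r : ℤ) : ℂ) * x))) (a := 0) (b := 1) 1
  simp only [sub_self, sub_zero] at this
  rw [← this]
  congr 1
  · congr 1; push_cast; ring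
  · refine intervalIntegral.integral_congr fun x _ => ?_
    have e1 : blk as τ ((1 - x : ℝ) : ℂ) = -blk as τ x := by
      rw [show ((1 - x : ℝ) : ℂ) = -(x : ℂ) + 1 by push_cast; ring, blk_e1, blk_neg, h1, pow_mul,
        h3.neg_one_pow]
      simp
    have e2 : ee (-(((-r : ℤ) : ℂ) * ((1 - x : ℝ) : ℂ))) = ee (-(r * x)) := by
      rw [show -(((-r : ℤ) : ℂ) * ((1 - x : ℝ) : ℂ)) = (r : ℂ) + -(r * x) by push_cast; ring, ee_add,
        ee_int, one_mul]
    simp only [e1, e2]; ring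

/-- The series of a component before normalisation. -/
def c0 (as : List ℕ) (s : ℤ) : LaurentSeries ℂ :=
  HahnSeries.ofPowerSeries ℤ ℂ (PowerSeries.mk fun n => (tc as n s : ℂ))

theorem c0_coeff (as : List ℕ) (s N : ℤ) :
    (c0 as s).coeff N = if N < 0 then 0 else (tc as N.natAbs s : ℂ) := by
  rw [c0, PowerSeries.coeff_coe, PowerSeries.coeff_mk]

theorem qe_c0 (as : List ℕ) (σ : ℕ) (r : ℤ) :
    QE 1 (fun τ : ℍ => ee (r ^ 2 * τ / 68) *
      cmp 17 (fun τ z => nps as τ z * ee (σ * z)) r τ) (c0 as (r - σ)) := by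
  intro τ
  have h := (cmp_hasSum (M := 17) (φ := fun τ z => nps as τ z * ee (σ * z))
    (fun p : ℕ × ℤ => (tc as p.1 p.2 : ℂ)) (fun p => p.1) (fun p => p.2 + σ) τ (fun x => by
      refine hs_congr ((hasSum_nps as τ.im_pos x).mul_right (ee (σ * x))) fun p => ?_
      rw [mul_assoc, ← ee_add]
      congr 2; push_cast; ring) r).mul_left (ee (r ^ 2 * τ / 68))
  have hi : Function.Injective fun n : ℕ => (n, r - σ) := fun a b e => (Prod.mk.inj e).1
  rw [← hi.hasSum_iff (by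
    rintro ⟨n, s⟩ hp
    have : ¬ s + σ = r := fun e => hp ⟨n, by rw [← e, add_sub_cancel_right]⟩
    simp [this])] at h
  rw [← (Nat.cast_injective (R := ℤ)).hasSum_iff (by
    intro N hN
    have : N < 0 := by
      by_contra h0
      exact hN ⟨N.toNat, Int.toNat_of_nonneg (not_lt.1 h0)⟩
    simp [c0_coeff, this])]
  refine hs_congr h fun n => ?_
  have : ¬ (n : ℤ) < 0 := by omega
  simp only [Function.comp_apply, sub_add_cancel, if_true, c0_coeff, if_neg this, Int.natAbs_natCast]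
  rw [mul_left_comm, ← ee_add]
  congr 2; push_cast; ring

/-- The uniform `S`-law for theta components. -/
def CS (μ : ℂ) : Prop := ∀ (k : ℤ) (φ : ℂ → ℂ → ℂ) (l : ℂ), JF 17 k φ →
  (∀ τ z : ℂ, 0 < τ.im → φ (-1 / τ) (z / τ) = l * τ ^ k * ee ((17 : ℕ) * z ^ 2 / τ) * φ τ z) →
  ∀ (r : ℤ) (τ : ℍ), cmp 17 φ r (ModularGroup.S • τ) = l * μ * (τ : ℂ) ^ ((k : ℂ) - 1 / 2) *
    ∑ s ∈ Finset.range (2 * 17), ee (r * s / (2 * (17 : ℕ))) * cmp 17 φ s τ

theorem w_blk {μ : ℂ} (hS : CS μ) (as : List ℕ) (σ : ℕ) (h1 : as.sum = 2 * σ)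
    (h2 : (as.map (· ^ 2)).sum = 34) (h3 : Odd as.length) (v : ℤ → ℤ)
    (hv : ∀ h ∈ Finset.Icc (1 : ℤ) 16, (∀ n < (h ^ 2 / 68).toNat, tc as n (h - σ) = 0) ∧
      tc as (h ^ 2 / 68).toNat (h - σ) = v h) : W μ (-(as.length : ℤ)) 0 fun h => v h := by
  have hJ := blk_jf h1 h2
  have hU := hJ.uv (by norm_num)
  obtain ⟨e, e1, e2, e3, -⟩ := qe_eta
  have hne : ∀ τ : ℍ, ModularForm.eta τ * ee (-(τ : ℂ) / 24) ≠ 0 := fun τ =>
    mul_ne_zero (ModularForm.eta_ne_zero τ.im_pos) (ee_ne _)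
  have hcmp : ∀ r : ℤ, cmp 17 (blk as) r = fun τ : ℍ => ui τ ^ (3 * as.length) *
      ((1 * ee (((-r ^ 2 : ℤ) : ℂ) * τ / (68 : ℕ))) * (ee (r ^ 2 * τ / 68) *
        cmp 17 (fun τ z => nps as τ z * ee (σ * z)) r τ)) := by
    intro r
    funext τ
    rw [one_mul, ← mul_assoc (ee _), ← ee_add, show ((-r ^ 2 : ℤ) : ℂ) * τ / (68 : ℕ) +
      r ^ 2 * τ / 68 = 0 by push_cast; ring, ee_zero, one_mul]
    unfold cmp
    have e5 : (fun x : ℝ => blk as τ x * ee (-(r * x))) = fun x : ℝ =>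
        ui τ ^ (3 * as.length) * (nps as τ x * ee (σ * x) * ee (-(r * x))) := by
      funext x
      rw [blk_eq, h1, show ((2 * σ : ℕ) : ℂ) * x / 2 = σ * x by push_cast; ring]
      ring
    rw [e5, intervalIntegral.integral_const_mul]
    ring
  refine ⟨cmp 17 (blk as), fun r => dil 68 (by norm_num) (e⁻¹ ^ (3 * as.length)) *
    (HahnSeries.single (-r ^ 2) 1 * dil 68 (by norm_num) (c0 as (r - σ))),
    ⟨fun r => hU.per r, cmp_neg h1 h3, fun r τ => ?_, fun r τ => ?_, fun r => ?_, fun r => ?_⟩,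
    fun r hr => ?_⟩
  · rw [hU.lawT]; congr 2; push_cast; ring
  · rw [hS _ _ 1 hJ (blk_S' h2), one_mul]
    have e4 : (2 * (17 : ℕ) : ℂ) = 34 := by norm_num
    rw [e4]
  · rw [hcmp]
    exact (((e1.inv one_pos hne).pow _).level 68 (by norm_num)).mul
      ((qe_mono 1 (-r ^ 2)).mul ((qe_c0 as σ r).level 68 (by norm_num)))
  · refine ((e2.inv.pow _).dil 68 _).mul (RatS.mul ?_ (RatS.dil (fun N => ?_) 68 _))
    · simpa using rat_single (-r ^ 2) 1
    · rw [c0_coeff]
      split_ifs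
      · exact ⟨0, by simp⟩
      · exact ⟨tc as N.natAbs (r - σ), by simp⟩
  · have h0 : 0 ≤ r ^ 2 / 68 := Int.ediv_nonneg (sq_nonneg r) (by norm_num)
    have l1 : Lead (c0 as (r - σ)) (r ^ 2 / 68) (v r) := by
      refine ⟨fun M hM => ?_, ?_⟩
      · rw [c0_coeff]
        split_ifs with h
        · rfl
        · rw [(hv r hr).1 _ (by omega)]; simp
      · rw [c0_coeff, if_neg (by omega), ← (hv r hr).2]
        congr 2; omega
    have l2 : Lead (HahnSeries.single (-r ^ 2) (1 : ℂ)) (-r ^ 2) 1 :=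
      ⟨fun M hM => HahnSeries.coeff_single_of_ne hM.ne, HahnSeries.coeff_single_same _ _⟩
    have l3 := (((e3.inv one_ne_zero).pow (3 * as.length)).dil 68 (by norm_num)).mul
      (l2.mul (l1.dil 68 (by norm_num)))
    simp only [inv_one, one_pow, one_mul, neg_zero, mul_zero, zero_add] at l3
    rw [show -dd r - 68 * 0 = -r ^ 2 + ((68 : ℕ) : ℤ) * (r ^ 2 / 68) by
      unfold dd; push_cast; omega]
    exact_mod_cast l3

end Pool.Agent.Lib.MP_d6ddbd_nt.K.GenFAux
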