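import Mathlib
import Pool.Agent.Lib.MP_d6ddbd_nt.K.Th
import Pool.Agent.Lib.MP_d6ddbd_nt.K.Defs2
import Pool.Agent.Lib.MP_d6ddbd_nt.K.Jac2
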